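import Pool.Agent.J4.H82.CC.M

/-!
# Actions of cyclic groups of order two, three and four
-/

set_option autoImplicit false

open FF IntermediateField Pool.Agent.W603.LV Pool.Agent.W603.PV Pool.Agent.J4.H17.ZC
  Pool.Agent.N162.CV Pool.Agent.N75.CV Pool.Agent.J4.H82.PV

namespace Pool.Agent.J4.H82.CC

/-- the homomorphism from a cyclic group given by an element -/
def zhom {H : Type} [Group H] {m : ℕ} [NeZero m] (u : H) (hu : u ^ m = 1) :
    Multiplicative (ZMod m) →* H :=
  MonoidHom.mk' (fun g => u ^ (Multiplicative.toAdd g).val) (by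
    intro a b
    rw [toAdd_mul, ZMod.val_add, ← pow_add]
    exact (pow_eq_pow_mod _ hu).symm)

theorem zhom_apply {H : Type} [Group H] {m : ℕ} [NeZero m] (u : H) (hu : u ^ m = 1)
    (g : Multiplicative (ZMod m)) : zhom u hu g = u ^ (Multiplicative.toAdd g).val := rfl

theorem eq_pow {m : ℕ} [NeZero m] (g : Multiplicative (ZMod m)) :
    g = (Multiplicative.ofAdd (1 : ZMod m)) ^ (Multiplicative.toAdd g).val := by
  rw [← ofAdd_nsmul, nsmul_one, ZMod.natCast_zmod_val]
  rfl

section

variable {k : Type} [Field k]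

theorem semi_of {K : Type} [Field K] [Algebra k K] {m : ℕ} [NeZero m]
    {β : Multiplicative (ZMod m) →* (K ≃ₐ[k] K)} {u : kˣ} (hu : u ^ m = 1) {w : K} (hw0 : w ≠ 0)
    (hw : β (Multiplicative.ofAdd 1) w = algebraMap k K u * w) {δ : fixedField β.range}
    (hδ : (δ : K) = w ^ m) : Semi β (zhom u hu) m δ := by
  refine ⟨w, hw0, fun g => ?_, hδ.symm⟩
  have h1 : ∀ n : ℕ, β ((Multiplicative.ofAdd (1 : ZMod m)) ^ n) w =
      algebraMap k K ((u : k) ^ n) * w := by
    intro n
    induction n with
    | zero => simp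
    | succ n ih =>
      rw [pow_succ', map_mul, AlgEquiv.mul_apply, ih, map_mul, AlgEquiv.commutes, hw, pow_succ,
        map_mul]
      ring
  rw [zhom_apply, Units.val_pow_eq_pow_val, ← h1, ← eq_pow]

variable [CharZero k]

/-- the sum of the residues of the orders of a function -/
noncomputable def resid (k : Type) [Field k] [CharZero k] {F : Type} [Field F] [Algebra k F]
    [IsFF k F] (m : ℕ) (f : F) : ℤ :=
  (divisor k f).sum fun _ n => n % m

theorem resid_eq {F : Type} [Field F] [Algebra k F] [IsFF k F] (m : ℕ) (f : F) :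
    resid k m f = ∑ v ∈ Brm (k := k) m f, v.ord f % m := by
  classical
  unfold resid Finsupp.sum Brm
  rw [Finset.sum_filter]
  refine Finset.sum_congr rfl fun v _ => ?_
  split_ifs with h
  · exact Int.emod_eq_zero_of_dvd h
  · rfl

theorem resid_inv {F : Type} [Field F] [Algebra k F] [IsFF k F] (m : ℕ) (f : F) :
    resid k m f⁻¹ = ∑ v ∈ Brm (k := k) m f, (-v.ord f) % m := by
  rw [resid_eq]
  have h : Brm (k := k) m f⁻¹ = Brm (k := k) m f := by
    ext v
    rw [mem_Brm, mem_Brm, v.ord_inv, dvd_neg]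
  rw [h]
  refine Finset.sum_congr rfl fun v _ => ?_
  rw [v.ord_inv]

end

/-- twice the real part of a root of unity -/
def trc (m : ℕ) (j : ZMod m) : ℤ :=
  if j.val = 0 then 2 else if 2 * j.val = m then -2 else if m = 3 then -1 else 0

theorem trc_eq {k : Type} [Field k] {m : ℕ} [NeZero m] (hm : m = 2 ∨ m = 3 ∨ m = 4) {ζ : k}
    (hζ : IsPrimitiveRoot ζ m) (j : ZMod m) : (trc m j : k) = ζ ^ j.val + (ζ ^ j.val)⁻¹ := by
  have hj : j.val < m := ZMod.val_lt j
  have h1 := hζ.pow_eq_one
  have hζ0 : ζ ≠ 0 := hζ.ne_zero (NeZero.ne m)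
  unfold trc
  generalize j.val = v at *
  rcases hm with rfl | rfl | rfl
  · have h2 : ζ = -1 := hζ.eq_neg_one_of_two_right
    interval_cases v <;> norm_num [h2]
  · have h2 : ζ ≠ 1 := hζ.ne_one (by norm_num)
    have h3 : ζ ^ 2 + ζ + 1 = 0 := by
      have h4 : (ζ - 1) * (ζ ^ 2 + ζ + 1) = 0 := by linear_combination h1
      exact (mul_eq_zero.1 h4).resolve_left (sub_ne_zero.2 h2)
    interval_cases v
    · norm_num
    · norm_num
      field_simp
      linear_combination -h3
    · norm_num
      field_simp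
      linear_combination -h3 - ζ * h1
  · have h2 : ζ ^ 2 = -1 := by
      have h3 : (ζ ^ 2 - 1) * (ζ ^ 2 + 1) = 0 := by linear_combination h1
      have h4 : ζ ^ 2 ≠ 1 := hζ.pow_ne_one_of_pos_of_lt (by norm_num) (by norm_num)
      exact eq_neg_of_add_eq_zero_left ((mul_eq_zero.1 h3).resolve_left (sub_ne_zero.2 h4))
    interval_cases v
    · norm_num
    · norm_num
      field_simp
      linear_combination -h2
    · norm_num
      field_simp
      linear_combination (-ζ ^ 2 - 1) * h2
    · norm_num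
      field_simp
      linear_combination -(ζ ^ 4 - ζ ^ 2 + 1) * h2

end Pool.Agent.J4.H82.CC
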