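import Mathlib

/-!
# Partitions into zero-sum subsets
-/

set_option autoImplicit false

namespace Pool.Agent.J4.H82.CC

variable {ι : Type} [DecidableEq ι]

theorem onesided {m : ℕ} (hm : m = 2 ∨ m = 3 ∨ m = 4) (S : Finset ι) (g : ι → ℤ)
    (hS : S.Nonempty) (h1 : ∀ j ∈ S, 1 ≤ g j) (h2 : ∀ j ∈ S, 2 * g j ≤ m)
    (hd : (m : ℤ) ∣ ∑ j ∈ S, g j) : ∃ A ⊆ S, ∑ j ∈ A, g j = m := by
  classical
  have hu : S.filter (fun j => g j = 1) ∪ S.filter (fun j => g j = 2) = S := by
    ext j
    simp only [Finset.mem_union, Finset.mem_filter]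
    constructor
    · rintro (h | h)
      · exact h.1
      · exact h.1
    · intro h
      have h3 := h1 j h
      have h4 := h2 j h
      have h5 : g j = 1 ∨ g j = 2 := by rcases hm with rfl | rfl | rfl <;> push_cast at h4 <;> omega
      rcases h5 with h5 | h5
      · exact Or.inl ⟨h, h5⟩
      · exact Or.inr ⟨h, h5⟩
  have hdis : Disjoint (S.filter (fun j => g j = 1)) (S.filter (fun j => g j = 2)) := by
    rw [Finset.disjoint_filter]
    intro j _ h
    omega
  have hs1 : ∀ A ⊆ S.filter (fun j => g j = 1), ∑ j ∈ A, g j = A.card := by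
    intro A hA
    rw [Finset.sum_congr rfl fun j hj => (Finset.mem_filter.1 (hA hj)).2]
    simp
  have hs2 : ∀ A ⊆ S.filter (fun j => g j = 2), ∑ j ∈ A, g j = 2 * A.card := by
    intro A hA
    rw [Finset.sum_congr rfl fun j hj => (Finset.mem_filter.1 (hA hj)).2]
    simp
    ring
  have hsum : ∑ j ∈ S, g j = (S.filter (fun j => g j = 1)).card +
      2 * (S.filter (fun j => g j = 2)).card := by
    rw [← hs1 _ (le_refl _), ← hs2 _ (le_refl _), ← Finset.sum_union hdis, hu]
  have hcard : (S.filter (fun j => g j = 1)).card + (S.filter (fun j => g j = 2)).card = S.card := by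
    rw [← Finset.card_union_of_disjoint hdis, hu]
  have hpos : 0 < S.card := Finset.card_pos.2 hS
  have hle : (m : ℤ) ≤ ∑ j ∈ S, g j := by
    refine Int.le_of_dvd ?_ hd
    rw [hsum]
    omega
  have h0 : m ≠ 4 → (S.filter (fun j => g j = 2)).card = 0 := by
    intro h
    rw [Finset.card_eq_zero, Finset.filter_eq_empty_iff]
    intro j hj hj'
    have h4 := h2 j hj
    rcases hm with rfl | rfl | rfl <;> push_cast at h4 <;> omega
  obtain ⟨c1, c2, hc, hc1, hc2⟩ : ∃ c1 c2, c1 + 2 * c2 = m ∧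
      c1 ≤ (S.filter (fun j => g j = 1)).card ∧ c2 ≤ (S.filter (fun j => g j = 2)).card := by
    rw [hsum] at hle hd
    generalize (S.filter (fun j => g j = 1)).card = n1 at *
    generalize (S.filter (fun j => g j = 2)).card = n2 at *
    rcases hm with rfl | rfl | rfl
    · have := h0 (by omega)
      exact ⟨2, 0, by omega, by omega, by omega⟩
    · have := h0 (by omega)
      exact ⟨3, 0, by omega, by omega, by omega⟩
    · rcases Nat.lt_trichotomy n2 1 with h | h | h
      · exact ⟨4, 0, by omega, by omega, by omega⟩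
      · exact ⟨2, 1, by omega, by omega, by omega⟩
      · exact ⟨0, 2, by omega, by omega, by omega⟩
  obtain ⟨A1, hA1, hA1c⟩ := Finset.exists_subset_card_eq hc1
  obtain ⟨A2, hA2, hA2c⟩ := Finset.exists_subset_card_eq hc2
  refine ⟨A1 ∪ A2, ?_, ?_⟩
  · rw [← hu]
    exact Finset.union_subset_union hA1 hA2
  · rw [Finset.sum_union (Finset.disjoint_of_subset_left hA1
      (Finset.disjoint_of_subset_right hA2 hdis)), hs1 _ hA1, hs2 _ hA2, hA1c, hA2c]
    exact_mod_cast hc

theorem sum_mod_dvd {m : ℕ} (A : Finset ι) (f : ι → ℤ) (h : ∑ j ∈ A, f j % m = (m : ℤ)) :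
    (m : ℤ) ∣ ∑ j ∈ A, f j := by
  have h1 : (m : ℤ) ∣ ∑ j ∈ A, f j - ∑ j ∈ A, f j % m := by
    rw [← Finset.sum_sub_distrib]
    exact Finset.dvd_sum fun j _ => Int.dvd_self_sub_emod
  rw [h] at h1
  exact (dvd_sub_self_right).1 h1

theorem step {m : ℕ} (hm : m = 2 ∨ m = 3 ∨ m = 4) (S : Finset ι) (f : ι → ℤ)
    (hS : S.Nonempty) (h : ∀ j ∈ S, ¬ (m : ℤ) ∣ f j) (hd : (m : ℤ) ∣ ∑ j ∈ S, f j) :
    ∃ A ⊆ S, A.Nonempty ∧ (m : ℤ) ∣ ∑ j ∈ A, f j ∧
      min (∑ j ∈ S, f j % m) (∑ j ∈ S, (-f j) % m) ≤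
        m + min (∑ j ∈ S \ A, f j % m) (∑ j ∈ S \ A, (-f j) % m) := by
  classical
  have hm0 : 0 < m := by omega
  have hmz : (0 : ℤ) < m := by exact_mod_cast hm0
  have hne : ∀ A ⊆ S, (∑ j ∈ A, f j % m = (m : ℤ) ∨ ∑ j ∈ A, (-f j) % m = (m : ℤ)) →
      A.Nonempty := by
    intro A _ hA
    by_contra hcon
    rw [Finset.not_nonempty_iff_eq_empty] at hcon
    rw [hcon, Finset.sum_empty, Finset.sum_empty] at hA
    omega
  by_cases hpair : ∃ j ∈ S, ∃ j' ∈ S, j ≠ j' ∧ (m : ℤ) ∣ f j + f j'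
  · obtain ⟨j, hj, j', hj', hjj, hdj⟩ := hpair
    have hA : ({j, j'} : Finset ι) ⊆ S := by
      intro i hi
      simp only [Finset.mem_insert, Finset.mem_singleton] at hi
      rcases hi with rfl | rfl
      · exact hj
      · exact hj'
    have h1 : ∑ i ∈ ({j, j'} : Finset ι), f i % m = (m : ℤ) := by
      rw [Finset.sum_pair hjj]
      have h3 := h j hj
      have h4 := h j' hj'
      rcases hm with rfl | rfl | rfl <;> push_cast at h3 h4 hdj ⊢ <;> omega
    have h2 : ∑ i ∈ ({j, j'} : Finset ι), (-f i) % m = (m : ℤ) := by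
      rw [Finset.sum_pair hjj]
      have h3 := h j hj
      have h4 := h j' hj'
      rcases hm with rfl | rfl | rfl <;> push_cast at h3 h4 hdj ⊢ <;> omega
    refine ⟨{j, j'}, hA, ⟨j, by simp⟩, by rw [Finset.sum_pair hjj]; exact hdj, ?_⟩
    rw [← Finset.sum_sdiff hA, ← Finset.sum_sdiff hA (f := fun i => (-f i) % (m : ℤ)), h1, h2]
    omega
  · push Not at hpair
    have hcase : (∀ j ∈ S, 2 * (f j % m) ≤ m) ∨ (∀ j ∈ S, 2 * ((-f j) % m) ≤ m) := by
      by_contra hcon
      push Not at hcon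
      obtain ⟨⟨j, hj, h1⟩, j', hj', h2⟩ := hcon
      have h3 := h j hj
      have h4 := h j' hj'
      have hjj : j ≠ j' := by
        rintro rfl
        rcases hm with rfl | rfl | rfl <;> push_cast at h1 h2 h3 h4 <;> omega
      have h5 := hpair j hj j' hj' hjj
      rcases hm with rfl | rfl | rfl <;> push_cast at h1 h2 h3 h4 h5 <;> omega
    have hpos : ∀ j ∈ S, 1 ≤ f j % m := by
      intro j hj
      have h3 := h j hj
      rcases hm with rfl | rfl | rfl <;> push_cast at h3 ⊢ <;> omega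
    have hpos' : ∀ j ∈ S, 1 ≤ (-f j) % m := by
      intro j hj
      have h3 := h j hj
      rcases hm with rfl | rfl | rfl <;> push_cast at h3 ⊢ <;> omega
    have hadd : ∀ j ∈ S, f j % m + (-f j) % m = m := by
      intro j hj
      have h3 := h j hj
      rcases hm with rfl | rfl | rfl <;> push_cast at h3 ⊢ <;> omega
    have hd1 : (m : ℤ) ∣ ∑ j ∈ S, f j % m := by
      have h1 : (m : ℤ) ∣ ∑ j ∈ S, f j - ∑ j ∈ S, f j % m := by
        rw [← Finset.sum_sub_distrib]
        exact Finset.dvd_sum fun j _ => Int.dvd_self_sub_emod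
      exact (dvd_sub_right hd).1 h1
    have hd2 : (m : ℤ) ∣ ∑ j ∈ S, (-f j) % m := by
      have h1 : (m : ℤ) ∣ ∑ j ∈ S, (-f j) - ∑ j ∈ S, (-f j) % m := by
        rw [← Finset.sum_sub_distrib]
        exact Finset.dvd_sum fun j _ => Int.dvd_self_sub_emod
      refine (dvd_sub_right ?_).1 h1
      rw [Finset.sum_neg_distrib]
      exact (dvd_neg).2 hd
    rcases hcase with hc | hc
    · obtain ⟨A, hA, hAs⟩ := onesided hm S (fun j => f j % m) hS hpos hc hd1
      refine ⟨A, hA, hne A hA (Or.inl hAs), sum_mod_dvd A f hAs, ?_⟩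
      have h1 : ∑ j ∈ S \ A, f j % m ≤ ∑ j ∈ S \ A, (-f j) % m := by
        refine Finset.sum_le_sum fun j hj => ?_
        have h3 := hc j (Finset.mem_sdiff.1 hj).1
        have h4 := hadd j (Finset.mem_sdiff.1 hj).1
        omega
      rw [min_eq_left h1, ← Finset.sum_sdiff hA, hAs, add_comm]
      exact min_le_left _ _
    · obtain ⟨A, hA, hAs⟩ := onesided hm S (fun j => (-f j) % m) hS hpos' hc hd2
      have hAd : (m : ℤ) ∣ ∑ j ∈ A, f j := by
        have h1 := sum_mod_dvd A (fun j => -f j) hAs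
        rw [Finset.sum_neg_distrib] at h1
        exact (dvd_neg).1 h1
      refine ⟨A, hA, hne A hA (Or.inr hAs), hAd, ?_⟩
      have h1 : ∑ j ∈ S \ A, (-f j) % m ≤ ∑ j ∈ S \ A, f j % m := by
        refine Finset.sum_le_sum fun j hj => ?_
        have h3 := hc j (Finset.mem_sdiff.1 hj).1
        have h4 := hadd j (Finset.mem_sdiff.1 hj).1
        omega
      rw [min_eq_right h1, ← Finset.sum_sdiff hA (f := fun i => (-f i) % (m : ℤ)), hAs, add_comm]
      exact min_le_right _ _

/-- A partition into many zero-sum subsets. -/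
theorem exists_partition {m : ℕ} (hm : m = 2 ∨ m = 3 ∨ m = 4) (f : ι → ℤ) :
    ∀ (n : ℕ) (S : Finset ι), S.card = n → (∀ j ∈ S, ¬ (m : ℤ) ∣ f j) →
    (m : ℤ) ∣ ∑ j ∈ S, f j → ∃ P : Finpartition S, (∀ A ∈ P.parts, (m : ℤ) ∣ ∑ j ∈ A, f j) ∧
      min (∑ j ∈ S, f j % m) (∑ j ∈ S, (-f j) % m) ≤ m * P.parts.card := by
  classical
  intro n
  induction n using Nat.strong_induction_on with
  | _ n IH =>
    intro S hn h hd
    by_cases hS : S.Nonempty
    · obtain ⟨A, hA, hAne, hAd, hmin⟩ := step hm S f hS h hd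
      obtain ⟨P, hP, hPc⟩ := IH (S \ A).card (by
        rw [← hn]
        exact Finset.card_lt_card (Finset.sdiff_ssubset hA hAne)) (S \ A) rfl
        (fun j hj => h j (Finset.mem_sdiff.1 hj).1) (by
          have h1 := Finset.sum_sdiff hA (f := f)
          rw [← h1] at hd
          exact (Int.dvd_add_left hAd).1 hd)
      have hdis : Disjoint (S \ A) A := Finset.sdiff_disjoint
      have hsup : (S \ A) ⊔ A = S := Finset.sdiff_union_of_subset hA
      refine ⟨P.extend (b := A) hAne.ne_empty hdis hsup, ?_, ?_⟩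
      · intro C hC
        rw [Finpartition.extend_parts, Finset.mem_insert] at hC
        rcases hC with rfl | hC
        · exact hAd
        · exact hP C hC
      · rw [Finpartition.card_extend]
        push_cast
        linarith
    · rw [Finset.not_nonempty_iff_eq_empty] at hS
      subst hS
      exact ⟨Finpartition.empty _, by intro A hA; simp at hA, by simp⟩

end Pool.Agent.J4.H82.CC
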