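import Pool.Agent.J4.H82.CC.I
import Pool.Agent.J4.H82.CC.J

/-!
# One and two curves
-/

set_option autoImplicit false

open FF IntermediateField Pool.Agent.W603.LV Pool.Agent.W603.PV Pool.Agent.J4.H17.ZC
  Pool.Agent.N162.CV Pool.Agent.N75.CV Pool.Agent.J4.H82.PV

namespace Pool.Agent.J4.H82.CC

theorem blocks_of {B : Type} [Fintype B] [DecidableEq B] (P : Finpartition (Finset.univ : Finset B))
    (f : B → ℤ) (m : ℕ) (hP : ∀ A ∈ P.parts, (m : ℤ) ∣ ∑ j ∈ A, f j) (q0 : P.parts) (j0 : B)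
    (hj0 : j0 ∈ q0.1) :
    ∃ (b : B → P.parts) (rep : P.parts → B), (∀ q, b (rep q) = q) ∧
      (∀ j (q : P.parts), b j = q ↔ j ∈ q.1) ∧
      (∀ q, (m : ℤ) ∣ ∑ j, if b j = q then f j else 0) ∧ rep q0 = j0 := by
  classical
  have hb : ∀ j : B, P.part j ∈ P.parts := fun j => P.part_mem.2 (Finset.mem_univ j)
  let b : B → P.parts := fun j => ⟨P.part j, hb j⟩
  have hbj : ∀ j (q : P.parts), b j = q ↔ j ∈ q.1 := by
    intro j q
    rw [← P.part_eq_iff_mem q.2, Subtype.ext_iff]
  have hne : ∀ q : P.parts, ∃ j, j ∈ q.1 := fun q => P.nonempty_of_mem_parts q.2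
  choose r hr using hne
  refine ⟨b, fun q => if q = q0 then j0 else r q, ?_, hbj, ?_, by simp⟩
  · intro q
    rw [hbj]
    change (if q = q0 then j0 else r q) ∈ q.1
    by_cases h : q = q0
    · rw [if_pos h, h]
      exact hj0
    · rw [if_neg h]
      exact hr q
  · intro q
    have h1 : ∑ j, (if b j = q then f j else 0) = ∑ j ∈ q.1, f j := by
      rw [← Finset.sum_filter]
      refine Finset.sum_congr ?_ fun _ _ => rfl
      ext j
      rw [Finset.mem_filter, hbj]
      simp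
    rw [h1]
    exact hP q.1 q.2

section

variable {k : Type} [Field k] [CharZero k] [IsAlgClosed k]

theorem brm_sum {F : Type} [Field F] [Algebra k F] [IsFF k F] (m : ℕ) {δ : F}
    (hd : ddeg (divisor k δ) = 0) : (m : ℤ) ∣ ∑ v ∈ Brm (k := k) m δ, v.ord δ := by
  classical
  rw [ddeg_eq_dg] at hd
  have h3 : dg (divisor k δ) = ∑ v ∈ (divisor k δ).support, v.ord δ := by
    simp only [dg, Finsupp.liftAddHom_apply, Finsupp.sum, AddMonoidHom.id_apply]
    rfl
  rw [h3, ← Finset.sum_filter_add_sum_filter_not (divisor k δ).support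
    (fun v => ¬ (m : ℤ) ∣ v.ord δ)] at hd
  have h4 : (m : ℤ) ∣ ∑ v ∈ (divisor k δ).support.filter (fun v => ¬ ¬ (m : ℤ) ∣ v.ord δ),
      v.ord δ := by
    refine Finset.dvd_sum fun v hv => ?_
    exact not_not.1 (Finset.mem_filter.1 hv).2
  have h5 : ∑ v ∈ Brm (k := k) m δ, v.ord δ = ∑ v ∈ (divisor k δ).support.filter
      (fun v => ¬ (m : ℤ) ∣ v.ord δ), v.ord δ := rfl
  rw [h5]
  have h6 := (eq_neg_of_add_eq_zero_left hd)
  rw [h6]
  exact (dvd_neg).2 h4

theorem mod_add {m : ℕ} (hm : m = 2 ∨ m = 3 ∨ m = 4) {z : ℤ} (h : ¬ (m : ℤ) ∣ z) :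
    z % m + (-z) % m = m := by
  rcases hm with rfl | rfl | rfl <;> push_cast at h ⊢ <;> omega

variable {G : Type} [Group G] [Fintype G]
variable {Λ : Type} [Fintype Λ] [DecidableEq Λ] (K : Λ → Type) [∀ a, Field (K a)]
  [∀ a, Algebra k (K a)]
  [∀ a, IsFF k (K a)] (β : ∀ a, G →* (K a ≃ₐ[k] K a)) [∀ a, IsFF k (fixedField (β a).range)]
  (T : Λ → Type) [∀ a, Fintype (T a)] [∀ a, DecidableEq (T a)]

omit [CharZero k] [IsAlgClosed k] [Fintype G] [∀ a, IsFF k (K a)] [DecidableEq Λ] in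
theorem sum_B (J : ∀ a, Finset (Place k (fixedField (β a).range)))
    (F : ∀ a, Place k (fixedField (β a).range) → ℤ) :
    ∑ j : (Σ a, {v // v ∈ J a}), F j.1 j.2.1 = ∑ a, ∑ v ∈ J a, F a v := by
  rw [Fintype.sum_sigma]
  refine Finset.sum_congr rfl fun a _ => ?_
  exact Finset.sum_coe_sort (J a) (F a)

omit [CharZero k] [IsAlgClosed k] [Fintype G] [∀ a, IsFF k (K a)] [DecidableEq Λ] in
theorem card_B (J : ∀ a, Finset (Place k (fixedField (β a).range))) :
    Fintype.card (Σ a, {v // v ∈ J a}) = ∑ a, (J a).card := by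
  rw [Fintype.card_sigma]
  refine Finset.sum_congr rfl fun a _ => ?_
  exact Fintype.card_coe (J a)

/-- The number of the branch points. -/
theorem brm_card {F : Type} [Field F] [Algebra k F] [IsFF k F] {m : ℕ}
    (hm : m = 2 ∨ m = 3 ∨ m = 4) (δ : F) :
    (m : ℤ) * (Brm (k := k) m δ).card = ∑ v ∈ Brm (k := k) m δ, v.ord δ % m +
      ∑ v ∈ Brm (k := k) m δ, (-v.ord δ) % m := by
  rw [← Finset.sum_add_distrib, Finset.sum_congr rfl fun v hv => mod_add hm (mem_Brm.1 hv),
    Finset.sum_const, nsmul_eq_mul, mul_comm]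

/-- One curve: the number of the points is at least the larger of the two sums. -/
theorem block1 (hF : ∀ a, Rat1 k (fixedField (β a).range)) (χ : ∀ _ : Λ, G →* kˣ) {m : ℕ}
    (hm : m = 2 ∨ m = 3 ∨ m = 4) (δ : ∀ a, fixedField (β a).range)
    (hs : ∀ a, Semi (β a) (χ a) m (δ a)) (a0 : Λ) (ha0 : ∀ a, a = a0)
    (hT : Fintype.card (T a0) < (Brm (k := k) m (δ a0)).card)
    (hn : max (∑ v ∈ Brm (k := k) m (δ a0), v.ord (δ a0) % m)
      (∑ v ∈ Brm (k := k) m (δ a0), (-v.ord (δ a0)) % m) ≤ m * Fintype.card (T a0))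
    (l : ((∀ a, T a → Place k (K a)) →₀ ℤ) →+ k) (hl : ∀ r ∈ RatEq (bigV k K T), l r = 0)
    (hsym : ∀ (π : ∀ a, Equiv.Perm (T a)) (x : ∀ a, T a → Place k (K a)),
      l (Finsupp.single (fun a i => x a (π a i)) 1) = l (Finsupp.single x 1))
    (heq : ∀ (g : ∀ a, T a → G) (x : ∀ a, T a → Place k (K a)),
      l (Finsupp.single (fun a i => act (β a (g a i)) (x a i)) 1) =
        (∏ a, ∏ i, ((χ a (g a i) : kˣ) : k)) * l (Finsupp.single x 1))
    (x : ∀ a, T a → Place k (K a)) : l (Finsupp.single x 1) = 0 := by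
  classical
  have hm0 : 0 < m := by omega
  have hm0' : (0 : ℤ) < m := by exact_mod_cast hm0
  let f : (Σ a, {v // v ∈ Brm (k := k) m (δ a)}) → ℤ := fun j => j.2.1.ord (δ j.1)
  have hf : ∀ j, ¬ (m : ℤ) ∣ f j := fun j => mem_Brm.1 j.2.2
  have hsumf : (m : ℤ) ∣ ∑ j, f j := by
    have h1 : ∑ j, f j = ∑ a, ∑ v ∈ Brm (k := k) m (δ a), v.ord (δ a) :=
      sum_B K β (fun a => Brm (k := k) m (δ a)) fun a v => v.ord (δ a)
    rw [h1]
    exact Finset.dvd_sum fun a _ => brm_sum m (ddeg_divisor _)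
  obtain ⟨P, hP, hPc⟩ := exists_partition hm f _ Finset.univ rfl (fun j _ => hf j) hsumf
  obtain ⟨v0, hv0⟩ : (Brm (k := k) m (δ a0)).Nonempty := by
    rw [← Finset.card_pos]; omega
  let j0 : (Σ a, {v // v ∈ Brm (k := k) m (δ a)}) := ⟨a0, v0, hv0⟩
  have hq0 : P.part j0 ∈ P.parts := P.part_mem.2 (Finset.mem_univ j0)
  obtain ⟨b, rep, hrep, hb, hsum, hr0⟩ := blocks_of P f m hP ⟨P.part j0, hq0⟩ j0
    (P.mem_part_self.2 (Finset.mem_univ j0))
  have huniv : (Finset.univ : Finset Λ) = {a0} := by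
    ext a; simp [ha0 a]
  refine block K β T hF χ hm0 δ hs b rep hrep ⟨P.part j0, hq0⟩ hsum ?_ ?_ ?_ l hl hsym heq x
  · have h1 := card_B K β fun a => Brm (k := k) m (δ a)
    rw [h1, huniv, Finset.sum_singleton, Finset.sum_singleton, Fintype.card_coe]
    have h2 : ∑ j, f j % m = ∑ v ∈ Brm (k := k) m (δ a0), v.ord (δ a0) % m := by
      have h3 : ∑ j, f j % m = ∑ a, ∑ v ∈ Brm (k := k) m (δ a), v.ord (δ a) % m :=
        sum_B K β (fun a => Brm (k := k) m (δ a)) fun a v => v.ord (δ a) % m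
      rw [h3, huniv, Finset.sum_singleton]
    have h3 : ∑ j, (-f j) % m = ∑ v ∈ Brm (k := k) m (δ a0), (-v.ord (δ a0)) % m := by
      have h3 : ∑ j, (-f j) % m = ∑ a, ∑ v ∈ Brm (k := k) m (δ a), (-v.ord (δ a)) % m :=
        sum_B K β (fun a => Brm (k := k) m (δ a)) fun a v => (-v.ord (δ a)) % m
      rw [h3, huniv, Finset.sum_singleton]
    have h4 := brm_card (k := k) hm (δ a0)
    rw [h2, h3] at hPc
    have h5 : (m : ℤ) * ((Brm (k := k) m (δ a0)).card : ℤ) ≤
        m * (Fintype.card (T a0) + P.parts.card : ℤ) := by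
      rw [h4, mul_add]
      have h6 := max_add_min (∑ v ∈ Brm (k := k) m (δ a0), v.ord (δ a0) % (m : ℤ))
        (∑ v ∈ Brm (k := k) m (δ a0), (-v.ord (δ a0)) % (m : ℤ))
      omega
    have h6 := le_of_mul_le_mul_left h5 hm0'
    omega
  · intro a
    rw [ha0 a]
    exact hT
  · intro τ h1 h2 a
    obtain ⟨j, hj, hjj⟩ : ∃ j ∈ P.part j0, j ≠ j0 := by
      by_contra hcon
      push Not at hcon
      have h3 : P.part j0 = {j0} := by
        ext j
        rw [Finset.mem_singleton]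
        constructor
        · exact hcon j
        · rintro rfl
          exact P.mem_part_self.2 (Finset.mem_univ _)
      have h4 := hP _ hq0
      rw [h3, Finset.sum_singleton] at h4
      exact hf j0 h4
    have h3 := h2 j ((hb j _).2 hj) (by rw [hr0]; exact hjj)
    rw [ha0 a, ← ha0 j.1]
    exact h3

/-- Two curves, such that the two sums differ by `m`. -/
theorem block2 (hF : ∀ a, Rat1 k (fixedField (β a).range)) (χ : ∀ _ : Λ, G →* kˣ) {m : ℕ}
    (hm : m = 2 ∨ m = 3 ∨ m = 4) (δ : ∀ a, fixedField (β a).range)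
    (hs : ∀ a, Semi (β a) (χ a) m (δ a)) (a0 a1 : Λ) (h01 : a0 ≠ a1)
    (hall : ∀ a, a = a0 ∨ a = a1)
    (hT : ∀ a, Fintype.card (T a) < (Brm (k := k) m (δ a)).card)
    (h0 : ∑ v ∈ Brm (k := k) m (δ a0), (-v.ord (δ a0)) % m =
      ∑ v ∈ Brm (k := k) m (δ a0), v.ord (δ a0) % m + m)
    (h1 : ∑ v ∈ Brm (k := k) m (δ a1), v.ord (δ a1) % m =
      ∑ v ∈ Brm (k := k) m (δ a1), (-v.ord (δ a1)) % m + m)
    (hn0 : ∑ v ∈ Brm (k := k) m (δ a0), v.ord (δ a0) % m ≤ m * Fintype.card (T a0))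
    (hn1 : ∑ v ∈ Brm (k := k) m (δ a1), (-v.ord (δ a1)) % m ≤ m * Fintype.card (T a1))
    (l : ((∀ a, T a → Place k (K a)) →₀ ℤ) →+ k) (hl : ∀ r ∈ RatEq (bigV k K T), l r = 0)
    (hsym : ∀ (π : ∀ a, Equiv.Perm (T a)) (x : ∀ a, T a → Place k (K a)),
      l (Finsupp.single (fun a i => x a (π a i)) 1) = l (Finsupp.single x 1))
    (heq : ∀ (g : ∀ a, T a → G) (x : ∀ a, T a → Place k (K a)),
      l (Finsupp.single (fun a i => act (β a (g a i)) (x a i)) 1) =
        (∏ a, ∏ i, ((χ a (g a i) : kˣ) : k)) * l (Finsupp.single x 1))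
    (x : ∀ a, T a → Place k (K a)) : l (Finsupp.single x 1) = 0 := by
  classical
  have hm0 : 0 < m := by omega
  have hm0' : (0 : ℤ) < m := by exact_mod_cast hm0
  let f : (Σ a, {v // v ∈ Brm (k := k) m (δ a)}) → ℤ := fun j => j.2.1.ord (δ j.1)
  have hf : ∀ j, ¬ (m : ℤ) ∣ f j := fun j => mem_Brm.1 j.2.2
  have hlegdvd : ∀ a, (m : ℤ) ∣ ∑ v ∈ Brm (k := k) m (δ a), v.ord (δ a) := fun a =>
    brm_sum m (ddeg_divisor _)
  have hsumf : (m : ℤ) ∣ ∑ j, f j := by
    have h1 : ∑ j, f j = ∑ a, ∑ v ∈ Brm (k := k) m (δ a), v.ord (δ a) :=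
      sum_B K β (fun a => Brm (k := k) m (δ a)) fun a v => v.ord (δ a)
    rw [h1]
    exact Finset.dvd_sum fun a _ => hlegdvd a
  have huniv : (Finset.univ : Finset Λ) = {a0, a1} := by
    ext a; simp [hall a]
  -- the two branch points of the mixed block
  obtain ⟨v0, hv0, hv0'⟩ : ∃ v ∈ Brm (k := k) m (δ a0), 2 * (v.ord (δ a0) % m) < m := by
    by_contra hcon
    push Not at hcon
    have h2 : ∑ v ∈ Brm (k := k) m (δ a0), (-v.ord (δ a0)) % m ≤
        ∑ v ∈ Brm (k := k) m (δ a0), v.ord (δ a0) % m := by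
      refine Finset.sum_le_sum fun v hv => ?_
      have h3 := hcon v hv
      have h4 := mod_add hm (mem_Brm.1 hv)
      omega
    omega
  obtain ⟨v1, hv1, hv1'⟩ : ∃ v ∈ Brm (k := k) m (δ a1), 2 * ((-v.ord (δ a1)) % m) < m := by
    by_contra hcon
    push Not at hcon
    have h2 : ∑ v ∈ Brm (k := k) m (δ a1), v.ord (δ a1) % m ≤
        ∑ v ∈ Brm (k := k) m (δ a1), (-v.ord (δ a1)) % m := by
      refine Finset.sum_le_sum fun v hv => ?_
      have h3 := hcon v hv
      have h4 := mod_add hm (mem_Brm.1 hv)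
      omega
    omega
  let j0 : (Σ a, {v // v ∈ Brm (k := k) m (δ a)}) := ⟨a0, v0, hv0⟩
  let j1 : (Σ a, {v // v ∈ Brm (k := k) m (δ a)}) := ⟨a1, v1, hv1⟩
  have hj01 : j0 ≠ j1 := fun h => h01 (congrArg Sigma.fst h)
  have hf0 : f j0 % m = 1 := by
    have h2 := hf j0
    have h3 : 2 * (f j0 % m) < m := hv0'
    generalize f j0 = z at *
    rcases hm with rfl | rfl | rfl <;> push_cast at h2 h3 ⊢ <;> omega
  have hf1 : (-f j1) % m = 1 := by
    have h2 := hf j1
    have h3 : 2 * ((-f j1) % m) < m := hv1'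
    generalize f j1 = z at *
    rcases hm with rfl | rfl | rfl <;> push_cast at h2 h3 ⊢ <;> omega
  have hf0' := mod_add hm (hf j0)
  have hf1' := mod_add hm (hf j1)
  have hpd : (m : ℤ) ∣ f j0 + f j1 := by
    generalize f j0 = z at *
    generalize f j1 = z' at *
    rcases hm with rfl | rfl | rfl <;> push_cast at hf0 hf1 ⊢ <;> omega
  have hpsum : ∀ F : (Σ a, {v // v ∈ Brm (k := k) m (δ a)}) → ℤ,
      ∑ j, F j = ∑ j ∈ Finset.univ \ {j0, j1}, F j + (F j0 + F j1) := by
    intro F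
    rw [← Finset.sum_sdiff (Finset.subset_univ {j0, j1}), Finset.sum_pair hj01]
  obtain ⟨P', hP', hPc'⟩ := exists_partition hm f _ (Finset.univ \ {j0, j1}) rfl
    (fun j _ => hf j) (by
      have h2 := hsumf
      rw [hpsum] at h2
      exact (Int.dvd_add_left hpd).1 h2)
  have hdis : Disjoint (Finset.univ \ {j0, j1}) ({j0, j1} : Finset _) := Finset.sdiff_disjoint
  have hsup : (Finset.univ \ {j0, j1}) ⊔ ({j0, j1} : Finset _) = Finset.univ :=
    Finset.sdiff_union_of_subset (Finset.subset_univ _)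
  have hbne : ({j0, j1} : Finset _) ≠ ⊥ := (Finset.insert_nonempty j0 {j1}).ne_empty
  let P := P'.extend hbne hdis hsup
  have hPparts : P.parts = insert {j0, j1} P'.parts := rfl
  have hPcard : P.parts.card = P'.parts.card + 1 := P'.card_extend _ _
  have hP : ∀ A ∈ P.parts, (m : ℤ) ∣ ∑ j ∈ A, f j := by
    intro A hA
    rw [hPparts, Finset.mem_insert] at hA
    rcases hA with rfl | hA
    · rw [Finset.sum_pair hj01]
      exact hpd
    · exact hP' A hA
  have hq0 : ({j0, j1} : Finset _) ∈ P.parts := by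
    rw [hPparts]
    exact Finset.mem_insert_self _ _
  obtain ⟨b, rep, hrep, hb, hsum, hr0⟩ := blocks_of P f m hP ⟨{j0, j1}, hq0⟩ j0 (by simp)
  refine block K β T hF χ hm0 δ hs b rep hrep ⟨{j0, j1}, hq0⟩ hsum ?_ hT ?_ l hl hsym heq x
  · have h2 := card_B K β fun a => Brm (k := k) m (δ a)
    rw [h2, huniv, Finset.sum_pair h01, Finset.sum_pair h01, Fintype.card_coe, hPcard]
    have h3 : ∑ j, f j % m = ∑ v ∈ Brm (k := k) m (δ a0), v.ord (δ a0) % m +
        ∑ v ∈ Brm (k := k) m (δ a1), v.ord (δ a1) % m := by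
      have h3 : ∑ j, f j % m = ∑ a, ∑ v ∈ Brm (k := k) m (δ a), v.ord (δ a) % m :=
        sum_B K β (fun a => Brm (k := k) m (δ a)) fun a v => v.ord (δ a) % m
      rw [h3, huniv, Finset.sum_pair h01]
    have h4 : ∑ j, (-f j) % m = ∑ v ∈ Brm (k := k) m (δ a0), (-v.ord (δ a0)) % m +
        ∑ v ∈ Brm (k := k) m (δ a1), (-v.ord (δ a1)) % m := by
      have h3 : ∑ j, (-f j) % m = ∑ a, ∑ v ∈ Brm (k := k) m (δ a), (-v.ord (δ a)) % m :=
        sum_B K β (fun a => Brm (k := k) m (δ a)) fun a v => (-v.ord (δ a)) % m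
      rw [h3, huniv, Finset.sum_pair h01]
    have h5 := brm_card (k := k) hm (δ a0)
    have h6 := brm_card (k := k) hm (δ a1)
    rw [hpsum] at h3 h4
    have h7 : (m : ℤ) * ((Brm (k := k) m (δ a0)).card + (Brm (k := k) m (δ a1)).card : ℤ) <
        m * (Fintype.card (T a0) + 1 + (Fintype.card (T a1) + 1) + (P'.parts.card + 1) : ℤ) := by
      rw [mul_add, mul_add, mul_add, mul_add, mul_add, mul_add]
      omega
    have h8 := lt_of_mul_lt_mul_left h7 hm0'.le
    omega
  · intro τ h2 h3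
    have hτ1 : τ a1 = 0 := h3 j1 ((hb j1 _).2 (by simp)) (by rw [hr0]; exact hj01.symm)
    have hτ0 : τ a0 = τ a1 := by
      by_contra hne
      -- the blocks are not mixed
      have hpure : ∀ j j', b j = b j' → b j ≠ ⟨{j0, j1}, hq0⟩ → j.1 = j'.1 := by
        intro j j' hjj hj
        have h4 := h2 j j' hjj hj
        rcases hall j.1 with h5 | h5 <;> rcases hall j'.1 with h6 | h6
        · rw [h5, h6]
        · rw [h5, h6] at h4
          exact absurd h4 hne
        · rw [h5, h6] at h4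
          exact absurd h4.symm hne
        · rw [h5, h6]
      have h4 : ∑ j, (if j.1 = a0 then f j else 0) =
          ∑ q : P.parts, ∑ j, (if b j = q then (if j.1 = a0 then f j else 0) else 0) := by
        rw [Finset.sum_comm]
        refine Finset.sum_congr rfl fun j _ => ?_
        rw [Finset.sum_ite_eq]
        simp
      have h5 : (m : ℤ) ∣ ∑ j, (if j.1 = a0 then f j else 0) := by
        have h6 : ∑ j, (if j.1 = a0 then f j else 0) =
            ∑ v ∈ Brm (k := k) m (δ a0), v.ord (δ a0) := by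
          have h7 : ∑ j, (if j.1 = a0 then f j else 0) = ∑ a, ∑ v ∈ Brm (k := k) m (δ a),
              (if a = a0 then v.ord (δ a) else 0) :=
            sum_B K β (fun a => Brm (k := k) m (δ a)) fun a v => if a = a0 then v.ord (δ a) else 0
          rw [h7, Finset.sum_eq_single a0]
          · simp
          · intro a _ ha
            refine Finset.sum_eq_zero fun v _ => ?_
            rw [if_neg ha]
          · intro h; exact absurd (Finset.mem_univ _) h
        rw [h6]
        exact hlegdvd a0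
      rw [h4, ← Finset.add_sum_erase _ _ (Finset.mem_univ (⟨{j0, j1}, hq0⟩ : P.parts))] at h5
      have h6 : (m : ℤ) ∣ ∑ q ∈ Finset.univ.erase (⟨{j0, j1}, hq0⟩ : P.parts),
          ∑ j, (if b j = q then (if j.1 = a0 then f j else 0) else 0) := by
        refine Finset.dvd_sum fun q hq => ?_
        have hq1 := Finset.ne_of_mem_erase hq
        by_cases hqa : (rep q).1 = a0
        · have h7 : ∑ j, (if b j = q then (if j.1 = a0 then f j else 0) else 0) =
              ∑ j, if b j = q then f j else 0 := by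
            refine Finset.sum_congr rfl fun j _ => ?_
            split_ifs with h8 h9
            · rfl
            · exfalso
              apply h9
              rw [← hqa]
              exact hpure j (rep q) (by rw [h8, hrep]) (by rw [h8]; exact hq1)
            · rfl
          rw [h7]
          exact hsum q
        · have h7 : ∑ j, (if b j = q then (if j.1 = a0 then f j else 0) else 0) = 0 := by
            refine Finset.sum_eq_zero fun j _ => ?_
            split_ifs with h8 h9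
            · exfalso
              apply hqa
              rw [← h9]
              exact hpure (rep q) j (by rw [h8, hrep]) (by rw [hrep]; exact hq1)
            · rfl
            · rfl
          rw [h7]
          exact dvd_zero _
      have h7 := (Int.dvd_add_left h6).1 h5
      have h8 : ∑ j, (if b j = (⟨{j0, j1}, hq0⟩ : P.parts) then (if j.1 = a0 then f j else 0)
          else 0) = f j0 := by
        rw [← Finset.sum_filter]
        have h9 : Finset.univ.filter (fun j => b j = (⟨{j0, j1}, hq0⟩ : P.parts)) = {j0, j1} := by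
          ext j
          rw [Finset.mem_filter, hb]
          simp
        rw [h9, Finset.sum_pair hj01, if_pos rfl, if_neg h01.symm, add_zero]
      rw [h8] at h7
      exact hf j0 h7
    intro a
    rcases hall a with rfl | rfl
    · rw [hτ0, hτ1]
    · exact hτ1

end

end Pool.Agent.J4.H82.CC
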