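import Pool.Agent.J4.H82.PV.N
import Mathlib.FieldTheory.RatFunc.IntermediateField
import Mathlib.FieldTheory.RatFunc.AsPolynomial

/-!
# Embeddings of function fields and Galois closures
-/

set_option autoImplicit false

open FF IntermediateField Pool.Agent.W603.LV Pool.Agent.W603.PV Pool.Agent.J4.H17.ZC
  Pool.Agent.N162.CV Pool.Agent.N75.CV

namespace Pool.Agent.J4.H82.CC

/-- The embedding of a function field given by the image of a transcendental element. -/
theorem exists_emb {k K Ω : Type} [Field k] [Field K] [Field Ω] [Algebra k K] [Algebra k Ω]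
    [IsFF k K] [IsAlgClosed Ω] {t : K} (ht : Transcendental k t) {ρ : Ω}
    (hρ : Transcendental k ρ) : ∃ φ : K →ₐ[k] Ω, φ t = ρ := by
  let e1 := RatFunc.algEquivOfTranscendental t ht
  let e2 := RatFunc.algEquivOfTranscendental ρ hρ
  let ψ : k⟮t⟯ →ₐ[k] Ω := (k⟮ρ⟯.val.comp e2.toAlgHom).comp e1.symm.toAlgHom
  have h1 : Algebra.IsAlgebraic k⟮t⟯ K := IsFF.isAlgebraic ht
  obtain ⟨φ, hφ⟩ := IsAlgClosed.surjective_domRestrict_of_isAlgebraic (K := k) (L := k⟮t⟯)
    (M := Ω) (E := K) ψ
  refine ⟨φ, ?_⟩
  have h2 : φ t = ψ (AdjoinSimple.gen k t) := by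
    rw [← hφ]
    rfl
  rw [h2]
  change ((e2 (e1.symm (AdjoinSimple.gen k t)) : k⟮ρ⟯) : Ω) = ρ
  rw [RatFunc.algEquivOfTranscendental_symm_gen]
  exact RatFunc.algEquivOfTranscendental_X ρ hρ

instance isFF_ratFunc (k : Type) [Field k] : IsFF k (RatFunc k) := by
  refine IsFF.of_finite (f := (RatFunc.X : RatFunc k)) RatFunc.transcendental_X ?_
  rw [RatFunc.adjoin_X]
  exact Module.Finite.of_surjective (IsScalarTower.toAlgHom
    (⊤ : IntermediateField k (RatFunc k)) (⊤ : IntermediateField k (RatFunc k))
      (RatFunc k)).toLinearMap fun x => ⟨⟨x, trivial⟩, rfl⟩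

theorem finrank_ratFunc (k : Type) [Field k] :
    Module.finrank k⟮(RatFunc.X : RatFunc k)⟯ (RatFunc k) = 1 := by
  rw [RatFunc.adjoin_X]
  exact IntermediateField.finrank_top

/-- A finite Galois extension which contains the images of finitely many embeddings. -/
theorem exists_closure {k F0 Ω : Type} [Field k] [Field F0] [Field Ω] [Algebra k F0]
    [Algebra F0 Ω] [Algebra k Ω] [IsScalarTower k F0 Ω] [CharZero F0] [IsAlgClosure F0 Ω]
    {I : Type} [Finite I] (K : I → Type) [∀ i, Field (K i)] [∀ i, Algebra k (K i)]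
    [∀ i, IsFF k (K i)] (φ : ∀ i, K i →ₐ[k] Ω) (Z : Set Ω) (hZ : Z.Finite) :
    ∃ M : IntermediateField F0 Ω, FiniteDimensional F0 M ∧ IsGalois F0 M ∧ (∀ z ∈ Z, z ∈ M) ∧
      ∀ i x, φ i x ∈ M := by
  classical
  have hAI : Algebra.IsAlgebraic F0 Ω := IsAlgClosure.isAlgebraic
  have hnA : Normal F0 Ω := IsAlgClosure.normal F0 Ω
  have hg : ∀ i, ∃ s : Finset (K i), IntermediateField.adjoin k (s : Set (K i)) = ⊤ := by
    intro i
    have h1 : Algebra.EssFiniteType k (K i) := IsFF.ess
    exact IntermediateField.fg_top k (K i)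
  choose s hs using hg
  let Y : Set Ω := Z ∪ ⋃ i, φ i '' (s i : Set (K i))
  have hY : Y.Finite := hZ.union (Set.finite_iUnion fun i => (s i).finite_toSet.image _)
  let M0 : IntermediateField F0 Ω := IntermediateField.adjoin F0 Y
  have h1 : FiniteDimensional F0 M0 := by
    have : Finite Y := hY
    exact IntermediateField.finiteDimensional_adjoin fun x _ => (hAI.isAlgebraic x).isIntegral
  let M := normalClosure F0 M0 Ω
  have hM0 : M0 ≤ M := IntermediateField.le_normalClosure M0
  refine ⟨M, inferInstance, { }, ?_, ?_⟩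
  · intro z hz
    exact hM0 (IntermediateField.subset_adjoin F0 Y (Or.inl hz))
  · intro i x
    have h2 : (⊤ : IntermediateField k (K i)).map (φ i) ≤ M0.restrictScalars k := by
      rw [← hs i, IntermediateField.adjoin_map, IntermediateField.adjoin_le_iff]
      rintro _ ⟨y, hy, rfl⟩
      exact IntermediateField.subset_adjoin F0 Y (Or.inr (Set.mem_iUnion.2 ⟨i, y, hy, rfl⟩))
    exact hM0 (h2 ⟨x, trivial, rfl⟩)

/-- Two families with the same product of linear factors differ by a permutation. -/
theorem perm_of_prod {M T : Type} [Field M] [Fintype T] (p q : T → M)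
    (h : ∏ i, (Polynomial.X - Polynomial.C (p i)) = ∏ i, (Polynomial.X - Polynomial.C (q i))) :
    ∃ π : Equiv.Perm T, ∀ i, q i = p (π i) := by
  classical
  have h1 : ∀ f : T → M, (∏ i, (Polynomial.X - Polynomial.C (f i))).roots =
      Multiset.map f Finset.univ.val := by
    intro f
    have h2 : (∏ i, (Polynomial.X - Polynomial.C (f i))) =
        (Multiset.map (fun a => Polynomial.X - Polynomial.C a)
          (Multiset.map f Finset.univ.val)).prod := by
      rw [Multiset.map_map]
      rfl
    rw [h2, Polynomial.roots_multiset_prod_X_sub_C]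
  have h2 : Multiset.map p Finset.univ.val = Multiset.map q Finset.univ.val := by
    rw [← h1, ← h1, h]
  have h3 : tot p = tot q := by
    ext a
    have h4 := congrArg (Multiset.count a) h2
    rw [Multiset.count_map, Multiset.count_map] at h4
    rw [tot_apply, tot_apply]
    have h5 : ∀ f : T → M, (Finset.univ.filter fun i => f i = a).card =
        Multiset.card (Multiset.filter (fun i => a = f i) Finset.univ.val) := by
      intro f
      rw [← Finset.filter_val]
      change _ = (Finset.filter (fun i => a = f i) Finset.univ).card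
      congr 1
      ext i
      rw [Finset.mem_filter, Finset.mem_filter, eq_comm]
    rw [h5, h5, h4]
  obtain ⟨π, hπ⟩ := exists_perm h3
  exact ⟨π, fun i => congrFun hπ i⟩

/-- Two embeddings which agree on the fixed field differ by an element of the group. -/
theorem exists_conj {k K M G : Type} [Field k] [CharZero k] [Field K] [Field M] [Algebra k K]
    [Algebra k M] [IsFF k K] [Group G] [Finite G] (β : G →* (K ≃ₐ[k] K)) (φ φ' : K →ₐ[k] M)
    (h : ∀ x : fixedField β.range, φ (x : K) = φ' (x : K)) :
    ∃ g : G, ∀ x, φ x = φ' (β g x) := by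
  classical
  have hfin : Finite β.range := Set.finite_range β
  have hsep : Algebra.IsSeparable (fixedField β.range) K := inferInstance
  obtain ⟨θ, hθ⟩ := Field.exists_primitive_element (fixedField β.range) K
  let _ : Fintype G := Fintype.ofFinite G
  -- the polynomial with roots `g θ`
  let p : Polynomial K := ∏ g : G, (Polynomial.X - Polynomial.C (β g θ))
  have hp : ∀ n, p.coeff n ∈ fixedField β.range := by
    intro n
    rintro ⟨_, g, rfl⟩
    change β g (p.coeff n) = p.coeff n
    have h1 : p.map (β g : K →+* K) = p := by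
      change Polynomial.map (β g : K →+* K) (∏ g : G, (Polynomial.X - Polynomial.C (β g θ))) =
        ∏ g : G, (Polynomial.X - Polynomial.C (β g θ))
      rw [Polynomial.map_prod]
      refine Fintype.prod_equiv (Equiv.mulLeft g) _ _ fun g' => ?_
      rw [Polynomial.map_sub, Polynomial.map_X, Polynomial.map_C, Equiv.coe_mulLeft, map_mul]
      rfl
    have h2 := congrArg (fun q => Polynomial.coeff q n) h1
    rw [Polynomial.coeff_map] at h2
    exact h2
  have h3 : p.map (φ : K →+* M) = p.map (φ' : K →+* M) := by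
    ext n
    rw [Polynomial.coeff_map, Polynomial.coeff_map]
    exact h ⟨p.coeff n, hp n⟩
  have h4 : Polynomial.eval (φ θ) (p.map (φ' : K →+* M)) = 0 := by
    rw [← h3]
    change Polynomial.eval (φ θ) (Polynomial.map (φ : K →+* M)
      (∏ g : G, (Polynomial.X - Polynomial.C (β g θ)))) = 0
    rw [Polynomial.map_prod, Polynomial.eval_prod]
    refine Finset.prod_eq_zero (Finset.mem_univ 1) ?_
    rw [map_one, Polynomial.map_sub, Polynomial.map_X, Polynomial.map_C, Polynomial.eval_sub,
      Polynomial.eval_X, Polynomial.eval_C]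
    exact sub_self _
  have h5 : ∃ g : G, φ θ = φ' (β g θ) := by
    change Polynomial.eval (φ θ) (Polynomial.map (φ' : K →+* M)
      (∏ g : G, (Polynomial.X - Polynomial.C (β g θ)))) = 0 at h4
    rw [Polynomial.map_prod, Polynomial.eval_prod, Finset.prod_eq_zero_iff] at h4
    obtain ⟨g, _, hg⟩ := h4
    rw [Polynomial.map_sub, Polynomial.map_X, Polynomial.map_C, Polynomial.eval_sub,
      Polynomial.eval_X, Polynomial.eval_C] at hg
    exact ⟨g, sub_eq_zero.1 hg⟩
  obtain ⟨g, hg⟩ := h5
  refine ⟨g, fun x => ?_⟩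
  have hx : x ∈ IntermediateField.adjoin (fixedField β.range) {θ} := by rw [hθ]; trivial
  have hfix : ∀ y : fixedField β.range, β g (y : K) = y := fun y =>
    y.2 ⟨β g, g, rfl⟩
  induction hx using IntermediateField.adjoin_induction with
  | mem y hy =>
    rw [Set.mem_singleton_iff] at hy
    rw [hy, hg]
  | algebraMap y =>
    change φ (y : K) = φ' (β g (y : K))
    rw [hfix, h]
  | add a b _ _ ha hb => rw [map_add, map_add, map_add, ha, hb]
  | inv a _ ha => rw [map_inv₀, map_inv₀, map_inv₀, ha]
  | mul a b _ _ ha hb => rw [map_mul, map_mul, map_mul, ha, hb]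

end Pool.Agent.J4.H82.CC
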