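import Pool.Agent.J4.H82.CC.A

/-!
# Families of points of a curve with a group of automorphisms whose quotient is rational

A family of points of the curve is given by an element `ρ` of the function field `M` of the curve of
parameters (the value of a coordinate `t` on the quotient).
-/

set_option autoImplicit false

open FF IntermediateField Pool.Agent.W603.LV Pool.Agent.W603.PV Pool.Agent.J4.H17.ZC
  Pool.Agent.N162.CV Pool.Agent.N75.CV Pool.Agent.J4.H82.PV

namespace Pool.Agent.J4.H82.CC

/-- Homomorphisms from a rational function field are determined by the image of a coordinate. -/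
theorem hom_ext {k F M : Type} [Field k] [Field F] [Field M] [Algebra k F] [Algebra k M]
    {t : F} (h1 : Module.finrank k⟮t⟯ F = 1) (φ φ' : F →ₐ[k] M) (h : φ t = φ' t) (x : F) :
    φ x = φ' x := by
  have h2 : x ∈ k⟮t⟯ := by
    have h3 : (⊥ : Subalgebra k⟮t⟯ F) = ⊤ := Subalgebra.bot_eq_top_of_finrank_eq_one h1
    have h4 : x ∈ (⊥ : Subalgebra k⟮t⟯ F) := by rw [h3]; trivial
    obtain ⟨y, hy⟩ := Algebra.mem_bot.1 h4
    rw [← hy]
    exact y.2
  induction h2 using IntermediateField.adjoin_induction with
  | mem y hy =>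
    rw [Set.mem_singleton_iff] at hy
    rw [hy, h]
  | algebraMap y => rw [AlgHom.commutes, AlgHom.commutes]
  | add a b _ _ ha hb => rw [map_add, map_add, ha, hb]
  | inv a _ ha => rw [map_inv₀, map_inv₀, ha]
  | mul a b _ _ ha hb => rw [map_mul, map_mul, ha, hb]

section leg

variable {k : Type} [Field k] [CharZero k] [IsAlgClosed k] {K : Type} [Field K] [Algebra k K]
  [IsFF k K] {G : Type} [Group G] [Fintype G] (β : G →* (K ≃ₐ[k] K))
  [IsFF k (fixedField β.range)] (t0 : fixedField β.range) (w : K)
  (pt : k → Place k (fixedField β.range)) (cw : k → k) {M : Type} [Field M] [Algebra k M]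
  [IsFF k M]

open Classical in
/-- the constant equal to an element -/
noncomputable def cst (ρ : M) : k := if h : ∃ c : k, algebraMap k M c = ρ then h.choose else 0

omit [CharZero k] [IsAlgClosed k] [IsFF k M] in
theorem cst_spec (c : k) : cst (k := k) (algebraMap k M c) = c := by
  have h : ∃ c' : k, algebraMap k M c' = algebraMap k M c := ⟨c, rfl⟩
  unfold cst
  rw [dif_pos h]
  exact (algebraMap k M).injective h.choose_spec

open Classical in
/-- the family of points given by a function `ρ` -/
noncomputable def yc (ρ : M) (P : Place k M) : Place k K :=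
  if h : ∃ φ : K →ₐ[k] M, φ (t0 : K) = ρ then pb h.choose P else lf β (pt (cst ρ))

open Classical in
/-- the value of the semi-invariant function at the family of points -/
noncomputable def wc (ρ : M) : M :=
  if h : ∃ φ : K →ₐ[k] M, φ (t0 : K) = ρ then h.choose w else algebraMap k M (cw (cst ρ))

/-- the functions for which there is a family -/
def Good (M : Type) [Field M] [Algebra k M] (ρ : M) : Prop :=
  (∃ φ : K →ₐ[k] M, φ (t0 : K) = ρ) ∨ ∃ c : k, ρ = algebraMap k M c

theorem yc_const (ht : Transcendental k t0) (c : k) (P : Place k M) :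
    yc β t0 pt (algebraMap k M c) P = lf β (pt c) := by
  have h : ¬ ∃ φ : K →ₐ[k] M, φ (t0 : K) = algebraMap k M c := by
    rintro ⟨φ, hφ⟩
    apply ht
    have h1 : IsAlgebraic k (φ (t0 : K)) := by rw [hφ]; exact isAlgebraic_algebraMap c
    have h2 : IsAlgebraic k (t0 : K) := (isAlgebraic_algHom_iff φ φ.injective).1 h1
    exact (isAlgebraic_algebraMap_iff (algebraMap (fixedField β.range) K).injective).1 h2
  unfold yc
  rw [dif_neg h, cst_spec]

omit [IsFF k K] [Fintype G] [IsFF k (fixedField β.range)] in
theorem wc_const (ht : Transcendental k t0) (c : k) :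
    wc β t0 w cw (algebraMap k M c) = algebraMap k M (cw c) := by
  have h : ¬ ∃ φ : K →ₐ[k] M, φ (t0 : K) = algebraMap k M c := by
    rintro ⟨φ, hφ⟩
    apply ht
    have h1 : IsAlgebraic k (φ (t0 : K)) := by rw [hφ]; exact isAlgebraic_algebraMap c
    have h2 : IsAlgebraic k (t0 : K) := (isAlgebraic_algHom_iff φ φ.injective).1 h1
    exact (isAlgebraic_algebraMap_iff (algebraMap (fixedField β.range) K).injective).1 h2
  unfold wc
  rw [dif_neg h, cst_spec]

theorem yc_mor (ρ : M) : (curve k K).IsMor M (yc β t0 pt ρ) := by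
  by_cases h : ∃ φ : K →ₐ[k] M, φ (t0 : K) = ρ
  · right
    refine ⟨h.choose, fun P => ?_⟩
    obtain ⟨e, he, he'⟩ := pb_spec h.choose P
    refine ⟨e, he, fun f => ?_⟩
    unfold yc
    rw [dif_pos h]
    exact he' f
  · left
    refine ⟨lf β (pt (cst ρ)), fun P => ?_⟩
    unfold yc
    rw [dif_neg h]

variable {t0} in
/-- the position of the point of the quotient -/
theorem yc_under {oo : Place k (fixedField β.range)} (hp : RatPl k t0 pt oo)
    (ht : Transcendental k t0) {ρ : M} (hρ : Good β t0 M ρ) (c : k) (P : Place k M) :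
    under (fixedField β.range) (yc β t0 pt ρ P) = pt c ↔ Ge P 1 (ρ - algebraMap k M c) := by
  have htc0 : ∀ c : k, t0 - algebraMap k (fixedField β.range) c ≠ 0 := fun c h => by
    have := transc_sub_const ht c
    rw [h] at this
    exact this isAlgebraic_zero
  rcases hρ with h | ⟨c', rfl⟩
  · have h1 : yc β t0 pt ρ P = pb h.choose P := by
      unfold yc
      rw [dif_pos h]
    rw [h1]
    set φ := h.choose with hφ
    have h2 : φ (t0 : K) = ρ := h.choose_spec
    obtain ⟨e, he, he'⟩ := pb_spec φ P
    have h3 : ρ - algebraMap k M c =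
        φ (algebraMap (fixedField β.range) K (t0 - algebraMap k (fixedField β.range) c)) := by
      rw [map_sub, map_sub, ← IsScalarTower.algebraMap_apply k (fixedField β.range) K,
        AlgHom.commutes]
      change _ = φ (t0 : K) - _
      rw [h2]
    have h4 : ρ - algebraMap k M c ≠ 0 := by
      rw [h3, Ne, map_eq_zero, map_eq_zero]
      exact htc0 c
    have h5 : P.ord (ρ - algebraMap k M c) = e * (ram (fixedField β.range) (pb φ P) *
        (under (fixedField β.range) (pb φ P)).ord (t0 - algebraMap k _ c)) := by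
      rw [h3, he', ord_under]
    have h6 : (0 : ℤ) < e := by exact_mod_cast he
    have h7 : (0 : ℤ) < ram (fixedField β.range) (pb φ P) := by
      exact_mod_cast (ram_spec (F := fixedField β.range) (pb φ P)).1
    constructor
    · intro h8
      right
      have h9 := hp.div c (under (fixedField β.range) (pb φ P))
      rw [h8, Finsupp.single_eq_same, Finsupp.single_eq_of_ne (hp.ne c)] at h9
      rw [h5, h8, h9]
      have := mul_pos h6 h7
      nlinarith
    · intro h8
      have h9 := h8.resolve_left h4
      rw [h5] at h9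
      apply hp.uniq
      by_contra hcon
      push Not at hcon
      have := mul_pos h6 h7
      nlinarith
  · rw [yc_const β t0 pt ht, lf_spec]
    constructor
    · intro h
      left
      have h1 := hp.div c (pt c)
      have h2 := hp.div c' (pt c)
      by_contra hcon
      have h3 : c' ≠ c := fun h => hcon (by rw [h, sub_self])
      -- both `t - c` and `t - c'` vanish
      have h4 : 0 < (pt c).ord (t0 - algebraMap k _ c) := by
        rw [h1, Finsupp.single_eq_same, Finsupp.single_eq_of_ne (hp.ne c)]
        norm_num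
      have h5 : 0 < (pt c).ord (t0 - algebraMap k _ c') := by
        rw [h2, h, Finsupp.single_eq_same, Finsupp.single_eq_of_ne (hp.ne c)]
        norm_num
      have h6 : Ge (pt c) 1 ((t0 - algebraMap k _ c) - (t0 - algebraMap k _ c')) :=
        Ge.sub (Or.inr (by omega)) (Or.inr (by omega))
      have h7 : (t0 - algebraMap k _ c) - (t0 - algebraMap k _ c') =
          algebraMap k (fixedField β.range) (c' - c) := by
        rw [map_sub]; ring
      rw [h7] at h6
      rcases h6 with h6 | h6
      · rw [map_eq_zero, sub_eq_zero] at h6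
        exact h3 h6
      · rw [(pt c).ord_const (sub_ne_zero.2 h3)] at h6
        omega
    · intro h
      have h1 : c' = c := by
        by_contra h3
        rw [← map_sub] at h
        rcases h with h | h
        · rw [map_eq_zero, sub_eq_zero] at h
          exact h3 h
        · rw [P.ord_const (sub_ne_zero.2 h3)] at h
          omega
      rw [h1]

theorem wc_pow {m : ℕ} {D : Polynomial k} (hw : w ^ m = Polynomial.aeval (t0 : K) D)
    (hcw : ∀ c, cw c ^ m = D.eval c) (ht : Transcendental k t0) {ρ : M} (hρ : Good β t0 M ρ) :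
    wc β t0 w cw ρ ^ m = Polynomial.aeval ρ D := by
  rcases hρ with h | ⟨c', rfl⟩
  · unfold wc
    rw [dif_pos h, ← map_pow, hw, ← Polynomial.aeval_algHom_apply, h.choose_spec]
  · rw [wc_const β t0 w cw ht, ← map_pow, hcw, Polynomial.aeval_algebraMap_apply_eq_algebraMap_eval]

/-- The action of an automorphism of the field of parameters. -/
theorem yc_gal (χ : G →* kˣ) (hχ : ∀ g, β g w = algebraMap k K (χ g) * w)
    (h1 : Module.finrank k⟮t0⟯ (fixedField β.range) = 1) (ht : Transcendental k t0)
    (γ : M ≃ₐ[k] M) {ρ : M} (hρ : Good β t0 M ρ) :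
    ∃ g : G, (∀ P, yc β t0 pt ρ (act γ P) = act (β g⁻¹) (yc β t0 pt (γ.symm ρ) P)) ∧
      γ.symm (wc β t0 w cw ρ) = algebraMap k M (χ g) * wc β t0 w cw (γ.symm ρ) := by
  rcases hρ with h | ⟨c', rfl⟩
  · have h' : ∃ φ : K →ₐ[k] M, φ (t0 : K) = γ.symm ρ := by
      obtain ⟨φ, hφ⟩ := h
      refine ⟨γ.symm.toAlgHom.comp φ, ?_⟩
      change γ.symm (φ (t0 : K)) = _
      rw [hφ]
    set φ := h.choose with hφ
    set φ' := h'.choose with hφ'
    have h2 : φ (t0 : K) = ρ := h.choose_spec
    have h2' : φ' (t0 : K) = γ.symm ρ := h'.choose_spec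
    obtain ⟨g, hg⟩ := exists_conj β (γ.symm.toAlgHom.comp φ) φ' (fun x => by
      have h3 := hom_ext h1 ((γ.symm.toAlgHom.comp φ).comp
        (IsScalarTower.toAlgHom k (fixedField β.range) K))
        (φ'.comp (IsScalarTower.toAlgHom k (fixedField β.range) K)) (by
          change γ.symm (φ (t0 : K)) = φ' (t0 : K)
          rw [h2, h2']) x
      exact h3)
    refine ⟨g, fun P => ?_, ?_⟩
    · have h4 : yc β t0 pt ρ (act γ P) = pb φ (act γ P) := by
        unfold yc
        rw [dif_pos h]
      have h5 : yc β t0 pt (γ.symm ρ) P = pb φ' P := by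
        unfold yc
        rw [dif_pos h']
      rw [h4, h5, pb_act]
      obtain ⟨e, he, he'⟩ := pb_spec φ' P
      refine pb_eq he fun f => ?_
      rw [hg, he', act_ord]
      congr 2
      rw [map_inv]
      rfl
    · have h4 : wc β t0 w cw ρ = φ w := by
        unfold wc
        rw [dif_pos h]
      have h5 : wc β t0 w cw (γ.symm ρ) = φ' w := by
        unfold wc
        rw [dif_pos h']
      rw [h4, h5]
      have h6 : γ.symm (φ w) = φ' (β g w) := hg w
      rw [h6, hχ, map_mul, AlgHom.commutes]
  · refine ⟨1, fun P => ?_, ?_⟩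
    · rw [AlgEquiv.commutes, yc_const β t0 pt ht, yc_const β t0 pt ht, inv_one, map_one, act_one]
    · rw [AlgEquiv.commutes, wc_const β t0 w cw ht, AlgEquiv.commutes, map_one, Units.val_one,
        map_one, one_mul]

end leg

end Pool.Agent.J4.H82.CC
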