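import Pool.Agent.J4.H82.CC.B

/-!
# Specialization of the roots of a polynomial whose coefficients depend on a parameter
-/

set_option autoImplicit false

open FF IntermediateField Pool.Agent.W603.LV Pool.Agent.W603.PV Pool.Agent.J4.H17.ZC
  Pool.Agent.N162.CV Pool.Agent.N75.CV Pool.Agent.J4.H82.PV

namespace Pool.Agent.J4.H82.CC

variable {k : Type} [Field k] [CharZero k] [IsAlgClosed k] {M : Type} [Field M] [Algebra k M]
  {T : Type} [Fintype T]

omit [CharZero k] [IsAlgClosed k] in
/-- The constants which are the value of a function at a place: at most one. -/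
theorem value_unique (P : Place k M) {ρ : M} {c c' : k} (h : Ge P 1 (ρ - algebraMap k M c))
    (h' : Ge P 1 (ρ - algebraMap k M c')) : c = c' := by
  by_contra hne
  have h1 : Ge P 1 ((ρ - algebraMap k M c') - (ρ - algebraMap k M c)) := Ge.sub h' h
  have h2 : (ρ - algebraMap k M c') - (ρ - algebraMap k M c) = algebraMap k M (c - c') := by
    rw [map_sub]; ring
  rw [h2] at h1
  rcases h1 with h1 | h1
  · rw [map_eq_zero, sub_eq_zero] at h1
    exact hne h1
  · rw [P.ord_const (sub_ne_zero.2 hne)] at h1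
    omega

omit [CharZero k] [IsAlgClosed k] in
/-- The order of `x - ρ` if `x` is not the value of `ρ`. -/
theorem ord_generic (P : Place k M) {ρ : M} {x : k} (h : ¬ Ge P 1 (ρ - algebraMap k M x)) :
    algebraMap k M x - ρ ≠ 0 ∧ P.ord (algebraMap k M x - ρ) = min 0 (P.ord ρ) := by
  have h0 : algebraMap k M x - ρ ≠ 0 := by
    intro h1
    apply h
    left
    rw [← neg_sub, h1, neg_zero]
  refine ⟨h0, ?_⟩
  have h1 : ¬ (1 : ℤ) ≤ P.ord (algebraMap k M x - ρ) := by
    intro h2
    apply h
    right
    rw [← neg_sub, P.ord_neg]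
    exact h2
  by_cases h2 : 0 ≤ P.ord ρ
  · rw [min_eq_left h2]
    have h3 : Ge P 0 (algebraMap k M x - ρ) := Ge.sub (Ge.const x) (Or.inr h2)
    have := h3.resolve_left h0
    omega
  · push Not at h2
    rw [min_eq_right h2.le]
    have hρ : ρ ≠ 0 := by
      rintro rfl
      rw [P.ord_zero] at h2
      omega
    by_cases hx : x = 0
    · rw [hx, map_zero, zero_sub, P.ord_neg]
    · have h3 : algebraMap k M x ≠ 0 := by simpa using hx
      rw [sub_eq_neg_add, (P.ord_add_eq (neg_ne_zero.2 hρ) h3
        (by rw [P.ord_neg, P.ord_const hx]; exact h2)).2, P.ord_neg]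

omit [CharZero k] [IsAlgClosed k] in
theorem ord_prod' (P : Place k M) {ι : Type} (S : Finset ι) (f : ι → M) (h : ∀ i ∈ S, f i ≠ 0) :
    P.ord (∏ i ∈ S, f i) = ∑ i ∈ S, P.ord (f i) := by
  classical
  induction S using Finset.induction_on with
  | empty => rw [Finset.prod_empty, Finset.sum_empty, P.ord_one]
  | insert a S ha ih =>
    rw [Finset.prod_insert ha, Finset.sum_insert ha, P.ord_mul (h a (Finset.mem_insert_self _ _))
      (Finset.prod_ne_zero_iff.2 fun i hi => h i (Finset.mem_insert_of_mem hi)),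
      ih fun i hi => h i (Finset.mem_insert_of_mem hi)]

omit [CharZero k] in
theorem exists_generic (P : Place k M) (ρ : T → M) (V : Polynomial k) (hV : V ≠ 0) :
    ∃ x : k, V.eval x ≠ 0 ∧ ∀ i, ¬ Ge P 1 (ρ i - algebraMap k M x) := by
  classical
  have hinf : Infinite k := IsAlgClosed.instInfinite
  let bad : Set k := {x | V.IsRoot x} ∪ ⋃ i, {x | Ge P 1 (ρ i - algebraMap k M x)}
  have hbad : bad.Finite := by
    refine Set.Finite.union (Polynomial.finite_setOfPred_isRoot hV) (Set.finite_iUnion fun i => ?_)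
    refine Set.Subsingleton.finite ?_
    intro x hx y hy
    exact value_unique P hx hy
  obtain ⟨x, hx⟩ := hbad.exists_notMem
  refine ⟨x, fun h => hx (Or.inl h), fun i h => hx (Or.inr (Set.mem_iUnion.2 ⟨i, h⟩))⟩

/-- The roots at a place where the leading coefficient is one. -/
theorem roots_start [IsFF k M] (P : Place k M) {ρ : T → M} {u : k → M} {lc : M}
    (hu : ∀ x, u x = lc * ∏ i, (algebraMap k M x - ρ i)) (hlc : Ge P 1 (lc - 1))
    (c : T → k) (hmod : ∀ x, Ge P 1 (u x - algebraMap k M (∏ i, (x - c i)))) :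
    ∃ π : Equiv.Perm T, ∀ i, Ge P 1 (ρ i - algebraMap k M (c (π i))) := by
  classical
  have hinf : Infinite k := IsAlgClosed.instInfinite
  -- the leading coefficient
  have hlc0 : lc ≠ 0 := by
    rintro rfl
    rw [zero_sub] at hlc
    rcases hlc with h | h
    · exact absurd h (by simp)
    · rw [P.ord_neg, P.ord_one] at h
      omega
  have hunit : ∀ y : M, ∀ b : k, b ≠ 0 → Ge P 1 (y - algebraMap k M b) → y ≠ 0 ∧ P.ord y = 0 := by
    intro y b hb h
    have hb' : algebraMap k M b ≠ 0 := by simpa using hb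
    rcases h with h | h
    · have : y = algebraMap k M b := sub_eq_zero.1 h
      rw [this]
      exact ⟨hb', P.ord_const hb⟩
    · by_cases h0 : y - algebraMap k M b = 0
      · have : y = algebraMap k M b := sub_eq_zero.1 h0
        rw [this]
        exact ⟨hb', P.ord_const hb⟩
      · have h1 := P.ord_add_eq hb' h0 (by rw [P.ord_const hb]; omega)
        have h2 : algebraMap k M b + (y - algebraMap k M b) = y := by ring
        rw [h2, P.ord_const hb] at h1
        exact h1
  have hlc1 : P.ord lc = 0 := (hunit lc 1 one_ne_zero (by rwa [map_one])).2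
  -- all roots are finite
  have hfin : ∀ i, 0 ≤ P.ord (ρ i) := by
    obtain ⟨x, hx, hxρ⟩ := exists_generic P ρ (∏ i, (Polynomial.X - Polynomial.C (c i)))
      (Finset.prod_ne_zero_iff.2 fun i _ => Polynomial.X_sub_C_ne_zero _)
    have hx' : ∏ i, (x - c i) ≠ 0 := by
      rw [Polynomial.eval_prod] at hx
      simpa using hx
    have h1 := (hunit _ _ hx' (hmod x)).2
    rw [hu, P.ord_mul hlc0 (Finset.prod_ne_zero_iff.2 fun i _ => (ord_generic P (hxρ i)).1), hlc1,
      zero_add, ord_prod' P _ _ fun i _ => (ord_generic P (hxρ i)).1,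
      Finset.sum_congr rfl fun i _ => (ord_generic P (hxρ i)).2] at h1
    intro i
    by_contra hcon
    push Not at hcon
    have h2 : ∑ i, min 0 (P.ord (ρ i)) < 0 := by
      calc ∑ i, min 0 (P.ord (ρ i)) < ∑ _i : T, (0 : ℤ) := by
            refine Finset.sum_lt_sum (fun j _ => min_le_left _ _) ⟨i, Finset.mem_univ _, ?_⟩
            rw [min_eq_right hcon.le]
            exact hcon
        _ = 0 := by rw [Finset.sum_const_zero]
    omega
  choose c' hc' using fun i => Pool.Agent.W603.LV.exists_const P (Or.inr (hfin i) : Ge P 0 (ρ i))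
  -- the products
  have hprod : ∀ (x : k) (S : Finset T),
      Ge P 0 (∏ i ∈ S, (algebraMap k M x - ρ i)) ∧
      Ge P 1 (∏ i ∈ S, (algebraMap k M x - ρ i) - algebraMap k M (∏ i ∈ S, (x - c' i))) := by
    intro x S
    induction S using Finset.induction_on with
    | empty =>
      rw [Finset.prod_empty, Finset.prod_empty, map_one, sub_self]
      exact ⟨Ge.one, Ge.zero⟩
    | insert a S ha ih =>
      rw [Finset.prod_insert ha, Finset.prod_insert ha, map_mul]
      have h1 : Ge P 0 (algebraMap k M x - ρ a) := Ge.sub (Ge.const x) (Or.inr (hfin a))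
      refine ⟨by simpa using Ge.mul h1 ih.1, ?_⟩
      have h2 : (algebraMap k M x - ρ a) * ∏ i ∈ S, (algebraMap k M x - ρ i) -
          algebraMap k M (x - c' a) * algebraMap k M (∏ i ∈ S, (x - c' i)) =
          (algebraMap k M x - ρ a) * (∏ i ∈ S, (algebraMap k M x - ρ i) -
            algebraMap k M (∏ i ∈ S, (x - c' i))) -
          (ρ a - algebraMap k M (c' a)) * algebraMap k M (∏ i ∈ S, (x - c' i)) := by
        rw [map_sub]; ring
      rw [h2]
      have h3 := Ge.mul h1 ih.2
      have h4 := Ge.mul (hc' a) (Ge.const (P := P) (∏ i ∈ S, (x - c' i)))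
      rw [zero_add] at h3
      rw [add_zero] at h4
      exact Ge.sub h3 h4
  have hval : ∀ x : k, ∏ i, (x - c i) = ∏ i, (x - c' i) := by
    intro x
    have h1 : Ge P 1 (u x - algebraMap k M (∏ i, (x - c' i))) := by
      have h2 : u x - algebraMap k M (∏ i, (x - c' i)) =
          (lc - 1) * (∏ i, (algebraMap k M x - ρ i)) +
            (∏ i, (algebraMap k M x - ρ i) - algebraMap k M (∏ i, (x - c' i))) := by
        rw [hu]; ring
      rw [h2]
      exact Ge.add (by simpa using Ge.mul hlc (hprod x Finset.univ).1) (hprod x Finset.univ).2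
    exact value_unique P (hmod x) h1
  have hpol : (∏ i, (Polynomial.X - Polynomial.C (c i))) =
      ∏ i, (Polynomial.X - Polynomial.C (c' i)) := by
    refine Polynomial.funext fun x => ?_
    rw [Polynomial.eval_prod, Polynomial.eval_prod]
    simpa using hval x
  obtain ⟨π, hπ⟩ := perm_of_prod c c' hpol
  exact ⟨π, fun i => by rw [← hπ]; exact hc' i⟩

omit [CharZero k] in
/-- A root of the specialized polynomial is the value of a root. -/
theorem roots_end (P : Place k M) {ρ : T → M} {u : k → M} {lc : M}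
    (hu : ∀ x, u x = lc * ∏ i, (algebraMap k M x - ρ i)) {V : Polynomial k} (hV : V ≠ 0)
    (hmod : ∀ x, Ge P 1 (u x - algebraMap k M (V.eval x))) {r : k} (hr : V.eval r = 0) :
    ∃ i, Ge P 1 (ρ i - algebraMap k M r) := by
  classical
  by_contra hcon
  push Not at hcon
  obtain ⟨x, hx, hxρ⟩ := exists_generic P ρ V hV
  have hx' : algebraMap k M (V.eval x) ≠ 0 := by simpa using hx
  have h1 : u x ≠ 0 ∧ P.ord (u x) = 0 := by
    rcases hmod x with h | h
    · have : u x = algebraMap k M (V.eval x) := sub_eq_zero.1 h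
      rw [this]
      exact ⟨hx', P.ord_const hx⟩
    · by_cases h0 : u x - algebraMap k M (V.eval x) = 0
      · have : u x = algebraMap k M (V.eval x) := sub_eq_zero.1 h0
        rw [this]
        exact ⟨hx', P.ord_const hx⟩
      · have h1 := P.ord_add_eq hx' h0 (by rw [P.ord_const hx]; omega)
        have h2 : algebraMap k M (V.eval x) + (u x - algebraMap k M (V.eval x)) = u x := by ring
        rw [h2, P.ord_const hx] at h1
        exact h1
  have hlc0 : lc ≠ 0 := by
    rintro rfl
    exact h1.1 (by rw [hu, zero_mul])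
  have key : ∀ y : k, (∀ i, ¬ Ge P 1 (ρ i - algebraMap k M y)) →
      u y ≠ 0 ∧ P.ord (u y) = P.ord lc + ∑ i, min 0 (P.ord (ρ i)) := by
    intro y hy
    have h2 : ∏ i, (algebraMap k M y - ρ i) ≠ 0 :=
      Finset.prod_ne_zero_iff.2 fun i _ => (ord_generic P (hy i)).1
    refine ⟨by rw [hu]; exact mul_ne_zero hlc0 h2, ?_⟩
    rw [hu, P.ord_mul hlc0 h2, ord_prod' P _ _ fun i _ => (ord_generic P (hy i)).1,
      Finset.sum_congr rfl fun i _ => (ord_generic P (hy i)).2]
  have h2 := key x hxρ
  have h3 := key r hcon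
  have h4 := hmod r
  rw [hr, map_zero, sub_zero] at h4
  have h5 := h4.resolve_left h3.1
  omega

end Pool.Agent.J4.H82.CC
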