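import Pool.Agent.J4.H82.CC.C

/-!
# A family of configurations of points on curves with rational quotients
-/

set_option autoImplicit false

open FF IntermediateField Pool.Agent.W603.LV Pool.Agent.W603.PV Pool.Agent.J4.H17.ZC
  Pool.Agent.N162.CV Pool.Agent.N75.CV Pool.Agent.J4.H82.PV

namespace Pool.Agent.J4.H82.CC

/-- The comparison of two fibres of a family of points. -/
theorem family' {k : Type} [Field k] [CharZero k] [IsAlgClosed k] {M : Type} [Field M]
    [Algebra k M] [IsFF k M] {X : Var k} (l : (X.Pt →₀ ℤ) →+ k) (hl : ∀ r ∈ RatEq X, l r = 0)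
    (y : Place k M → X.Pt) (hy : X.IsMor M y) {f : M} (hf : f ≠ 0)
    (hz : ∀ P : Place k M, 0 < P.ord f → l (Finsupp.single (y P) 1) = 0) (θ : k)
    (hp : ∀ P : Place k M, P.ord f < 0 → l (Finsupp.single (y P) 1) = θ)
    (hex : ∃ P : Place k M, P.ord f < 0) : θ = 0 := by
  classical
  have hmem := mem_ratEq (X := X) hy hf
  set D := divisor k f with hD
  have h1 : Finsupp.mapDomain y D = ∑ P ∈ D.support, D P • Finsupp.single (y P) (1 : ℤ) := by
    rw [Finsupp.mapDomain, Finsupp.sum]
    refine Finset.sum_congr rfl fun P _ => ?_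
    rw [Finsupp.smul_single, smul_eq_mul, mul_one]
  have h3 := hl _ hmem
  rw [h1, map_sum] at h3
  have h4 : ∀ P ∈ D.support, l (D P • Finsupp.single (y P) (1 : ℤ)) =
      -((max (-D P) 0 : ℤ) : k) * θ := by
    intro P _
    rw [map_zsmul, zsmul_eq_mul]
    have hDP : D P = P.ord f := rfl
    rcases lt_trichotomy (P.ord f) 0 with h | h | h
    · rw [hp P h, max_eq_left (by omega)]
      push_cast
      ring
    · rw [hDP, h]; simp
    · rw [hz P h, max_eq_right (by omega)]; simp
  rw [Finset.sum_congr rfl h4, ← Finset.sum_mul] at h3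
  rcases mul_eq_zero.1 h3 with h5 | h5
  · exfalso
    rw [Finset.sum_neg_distrib, neg_eq_zero, ← Int.cast_sum, Int.cast_eq_zero] at h5
    obtain ⟨P, hP⟩ := hex
    have h6 : 0 < ∑ P ∈ D.support, max (-D P) 0 := by
      apply Finset.sum_pos'
      · intro P _; exact le_max_right _ _
      · have hDP : D P = P.ord f := rfl
        refine ⟨P, ?_, ?_⟩
        · rw [Finsupp.mem_support_iff]; omega
        · exact lt_max_of_lt_left (by omega)
    omega
  · exact h5

/-- The product over `a` of the powers of curves. -/
abbrev bigV (k : Type) [Field k] {Λ : Type} (K : Λ → Type) [∀ a, Field (K a)]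
    [∀ a, Algebra k (K a)] (T : Λ → Type) : Var k where
  Pt := ∀ a, T a → Place k (K a)
  IsMor L _ _ x := ∀ a i, (curve k (K a)).IsMor L (fun P => x P a i)

theorem multiset_enum {A T : Type} [Fintype T] (s : Multiset A)
    (h : Multiset.card s = Fintype.card T) : ∃ f : T → A, Multiset.map f Finset.univ.val = s := by
  classical
  obtain ⟨L, rfl⟩ := Quotient.exists_rep s
  have hL : L.length = Fintype.card T := h
  let e : T ≃ Fin L.length := (Fintype.equivFin T).trans (finCongr hL.symm)
  refine ⟨fun t => L.get (e t), ?_⟩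
  have h1 : Multiset.map (fun t => L.get (e t)) Finset.univ.val =
      Multiset.map (fun j : Fin L.length => L.get j) (Multiset.map e Finset.univ.val) := by
    rw [Multiset.map_map]
    rfl
  have h2 : Multiset.map e (Finset.univ : Finset T).val = (Finset.univ : Finset (Fin L.length)).val := by
    have h3 : (Finset.univ : Finset T).map e.toEmbedding = Finset.univ := Finset.map_univ_equiv e
    rw [← h3, Finset.map_val]
    rfl
  rw [h1, h2, Fin.univ_val_map, List.ofFn_get]
  rfl

section leg

variable {k : Type} [Field k] [CharZero k]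

/-- the polynomial with coefficients in the field of parameters -/
noncomputable def pol (m : ℕ) (U A : Polynomial k) : Polynomial (RatFunc k) :=
  U.map (algebraMap k (RatFunc k)) +
    Polynomial.C (RatFunc.X ^ m - 1) * A.map (algebraMap k (RatFunc k))

omit [CharZero k] in
theorem ratX_pow {m : ℕ} (hm : 0 < m) (c : k) :
    (RatFunc.X : RatFunc k) ^ m ≠ algebraMap k (RatFunc k) c := by
  intro h
  have h1 : IsAlgebraic k ((RatFunc.X : RatFunc k) ^ m) := by
    rw [h]; exact isAlgebraic_algebraMap c
  exact RatFunc.transcendental_X (h1.of_pow hm)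

omit [CharZero k] in
theorem lc_ne {m : ℕ} (hm : 0 < m) (a : k) :
    (1 : RatFunc k) + (RatFunc.X ^ m - 1) * algebraMap k (RatFunc k) a ≠ 0 := by
  intro h
  by_cases ha : a = 0
  · rw [ha, map_zero, mul_zero, add_zero] at h
    exact one_ne_zero h
  · have ha' : algebraMap k (RatFunc k) a ≠ 0 := by simpa using ha
    refine ratX_pow hm (1 - a⁻¹) ?_
    rw [map_sub, map_one, map_inv₀]
    field_simp
    linear_combination h

/-- The leading coefficient. -/
theorem pol_lead {m n : ℕ} (hm : 0 < m) {U A : Polynomial k} (hU : U.Monic)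
    (hUn : U.natDegree = n) (hA : A.natDegree ≤ n) :
    (pol m U A).natDegree = n ∧ (pol m U A).leadingCoeff =
      1 + (RatFunc.X ^ m - 1) * algebraMap k (RatFunc k) (A.coeff n) := by
  have h1 : (pol m U A).coeff n =
      1 + (RatFunc.X ^ m - 1) * algebraMap k (RatFunc k) (A.coeff n) := by
    unfold pol
    rw [Polynomial.coeff_add, Polynomial.coeff_C_mul, Polynomial.coeff_map, Polynomial.coeff_map,
      ← hUn, hU.coeff_natDegree, map_one]
  have h2 : (pol m U A).natDegree ≤ n := by
    unfold pol
    refine Polynomial.natDegree_add_le_of_degree_le ?_ ?_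
    · rw [Polynomial.natDegree_map, hUn]
    · exact (Polynomial.natDegree_C_mul_le _ _).trans (by rw [Polynomial.natDegree_map]; exact hA)
  have h3 : (pol m U A).natDegree = n := by
    refine le_antisymm h2 (Polynomial.le_natDegree_of_ne_zero ?_)
    rw [h1]
    exact lc_ne hm _
  refine ⟨h3, ?_⟩
  rw [Polynomial.leadingCoeff, h3, h1]

end leg

end Pool.Agent.J4.H82.CC
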