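import Pool.Agent.J4.H82.CC.D

/-!
# The curve of parameters of a family of configurations
-/

set_option autoImplicit false

open FF IntermediateField Pool.Agent.W603.LV Pool.Agent.W603.PV Pool.Agent.J4.H17.ZC
  Pool.Agent.N162.CV Pool.Agent.N75.CV Pool.Agent.J4.H82.PV

namespace Pool.Agent.J4.H82.CC

/-- The field of functions on the curve of parameters. -/
theorem exists_M {k : Type} [Field k] [CharZero k] [IsAlgClosed k] {Λ : Type} [Finite Λ]
    (K : Λ → Type) [∀ a, Field (K a)] [∀ a, Algebra k (K a)] [∀ a, IsFF k (K a)]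
    (t : ∀ a, K a) (ht : ∀ a, Transcendental k (t a)) (T : Λ → Type) [∀ a, Fintype (T a)]
    (Q : Λ → Polynomial (RatFunc k)) (hQ : ∀ a, (Q a).natDegree = Fintype.card (T a)) :
    ∃ (M : Type) (_ : Field M) (_ : Algebra (RatFunc k) M) (_ : Algebra k M)
      (_ : IsScalarTower k (RatFunc k) M) (_ : FiniteDimensional (RatFunc k) M)
      (_ : IsGalois (RatFunc k) M) (ρ : ∀ a, T a → M),
      (∀ a, (Q a).map (algebraMap (RatFunc k) M) =
        Polynomial.C (algebraMap (RatFunc k) M (Q a).leadingCoeff) *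
          ∏ i, (Polynomial.X - Polynomial.C (ρ a i))) ∧
      ∀ a i, (∃ φ : K a →ₐ[k] M, φ (t a) = ρ a i) ∨ ∃ c : k, ρ a i = algebraMap k M c := by
  classical
  have hcR : CharZero (RatFunc k) :=
    charZero_of_injective_algebraMap (algebraMap k (RatFunc k)).injective
  let Ω := AlgebraicClosure (RatFunc k)
  have hroots : ∀ a, ∃ ρ : T a → Ω, (Q a).map (algebraMap (RatFunc k) Ω) =
      Polynomial.C (algebraMap (RatFunc k) Ω (Q a).leadingCoeff) *
        ∏ i, (Polynomial.X - Polynomial.C (ρ i)) := by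
    intro a
    have h1 := IsAlgClosed.splits ((Q a).map (algebraMap (RatFunc k) Ω))
    have h2 : Multiset.card ((Q a).map (algebraMap (RatFunc k) Ω)).roots = Fintype.card (T a) := by
      rw [← hQ a, ← Polynomial.natDegree_map (algebraMap (RatFunc k) Ω)]
      exact h1.natDegree_eq_card_roots.symm
    obtain ⟨ρ, hρ⟩ := multiset_enum (T := T a) _ h2
    refine ⟨ρ, ?_⟩
    have h3 := h1.eq_prod_roots
    rw [h3, Polynomial.leadingCoeff_map]
    congr 1
    rw [← hρ, Multiset.map_map]
    rfl
  choose ρ hρ using hroots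
  let I := {p : Σ a, T a // Transcendental k (ρ p.1 p.2)}
  have hI : Finite I := inferInstance
  have hφ : ∀ p : I, ∃ φ : K p.1.1 →ₐ[k] Ω, φ (t p.1.1) = ρ p.1.1 p.1.2 := fun p =>
    exists_emb (ht p.1.1) p.2
  choose φ hφ' using hφ
  obtain ⟨M, hfd, hgal, hZ, hM⟩ := exists_closure (k := k) (F0 := RatFunc k) (Ω := Ω)
    (I := I) (fun p => K p.1.1) φ (Set.range fun p : Σ a, T a => ρ p.1 p.2) (Set.finite_range _)
  have hρM : ∀ a i, ρ a i ∈ M := fun a i => hZ _ ⟨⟨a, i⟩, rfl⟩
  refine ⟨M, inferInstance, inferInstance, inferInstance, inferInstance, hfd, hgal,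
    fun a i => ⟨ρ a i, hρM a i⟩, ?_, ?_⟩
  · intro a
    have hinj : Function.Injective (Polynomial.map (algebraMap M Ω)) :=
      Polynomial.map_injective _ (algebraMap M Ω).injective
    apply hinj
    rw [Polynomial.map_map, ← IsScalarTower.algebraMap_eq, hρ a, Polynomial.map_mul,
      Polynomial.map_C, ← IsScalarTower.algebraMap_apply, Polynomial.map_prod]
    congr 1
    refine Finset.prod_congr rfl fun i _ => ?_
    rw [Polynomial.map_sub, Polynomial.map_X, Polynomial.map_C]
    rfl
  · intro a i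
    by_cases h : Transcendental k (ρ a i)
    · left
      let p : I := ⟨⟨a, i⟩, h⟩
      refine ⟨(φ p).codRestrict (M.toSubalgebra.restrictScalars k) (fun x => hM p x), ?_⟩
      apply Subtype.ext
      exact hφ' p
    · right
      have h1 : IsAlgebraic k (ρ a i) := not_not.1 h
      have h2 : IsIntegral k (ρ a i) := h1.isIntegral
      obtain ⟨c, hc⟩ : ∃ c : k, algebraMap k Ω c = ρ a i := by
        have h3 : minpoly k (ρ a i) ≠ 0 := minpoly.ne_zero h2
        have h4 : (minpoly k (ρ a i)).degree = 1 :=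
          IsAlgClosed.degree_eq_one_of_irreducible k (minpoly.irreducible h2)
        exact minpoly.mem_range_of_degree_eq_one k (ρ a i) h4
      refine ⟨c, Subtype.ext ?_⟩
      exact hc.symm

end Pool.Agent.J4.H82.CC
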