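import Pool.Agent.J4.H82.CC.E

/-!
# Vanishing of equivariant functionals by means of a path in the space of configurations
-/

set_option autoImplicit false

open FF IntermediateField Pool.Agent.W603.LV Pool.Agent.W603.PV Pool.Agent.J4.H17.ZC
  Pool.Agent.N162.CV Pool.Agent.N75.CV Pool.Agent.J4.H82.PV

namespace Pool.Agent.J4.H82.CC

section aux

variable {k : Type} [Field k] {M : Type} [Field M] [Algebra k M]

theorem Ge_pow_sub (P : Place k M) {σ : M} {c : k} (h : Ge P 1 (σ - algebraMap k M c)) (m : ℕ) :
    Ge P 1 (σ ^ m - algebraMap k M (c ^ m)) := by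
  have h0 : Ge P 0 σ := by
    have h1 := Ge.add (h.mono (by norm_num : (0 : ℤ) ≤ 1)) (Ge.const (P := P) c)
    rwa [sub_add_cancel] at h1
  induction m with
  | zero => rw [pow_zero, pow_zero, map_one, sub_self]; exact Ge.zero
  | succ m ih =>
    have h2 : σ ^ (m + 1) - algebraMap k M (c ^ (m + 1)) =
        (σ ^ m - algebraMap k M (c ^ m)) * σ + algebraMap k M (c ^ m) *
          (σ - algebraMap k M c) := by
      rw [pow_succ, pow_succ, map_mul]; ring
    rw [h2]
    have h3 := Ge.mul ih h0
    have h4 := Ge.mul (Ge.const (P := P) (c ^ m)) h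
    rw [add_zero] at h3
    rw [zero_add] at h4
    exact Ge.add h3 h4

end aux

variable {k : Type} [Field k] [CharZero k] [IsAlgClosed k] {G : Type} [Group G] [Fintype G]
  {Λ : Type} [Fintype Λ] [DecidableEq Λ] (K : Λ → Type) [∀ a, Field (K a)]
  [∀ a, Algebra k (K a)]
  [∀ a, IsFF k (K a)] (β : ∀ a, G →* (K a ≃ₐ[k] K a)) [∀ a, IsFF k (fixedField (β a).range)]
  (T : Λ → Type) [∀ a, Fintype (T a)] [∀ a, DecidableEq (T a)]

theorem core_fam (t0 : ∀ a, fixedField (β a).range) (ht : ∀ a, Transcendental k (t0 a))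
    (h1 : ∀ a, Module.finrank k⟮t0 a⟯ (fixedField (β a).range) = 1)
    (pt : ∀ a, k → Place k (fixedField (β a).range)) (oo : ∀ a, Place k (fixedField (β a).range))
    (hp : ∀ a, RatPl k (t0 a) (pt a) (oo a)) (w : ∀ a, K a) (χ : ∀ _ : Λ, G →* kˣ)
    (hχ : ∀ a g, β a g (w a) = algebraMap k (K a) (χ a g) * w a)
    {m : ℕ} (hm : 0 < m) (J : Λ → Finset k) (c : Λ → k → ℕ)
    (hw : ∀ a, w a ^ m = Polynomial.aeval (t0 a : K a)
      (∏ r ∈ J a, (Polynomial.X - Polynomial.C r) ^ c a r))
    (hc : ∀ a, m ∣ ∑ r ∈ J a, c a r)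
    (hstab : ∀ a, ∀ r ∈ J a, ∀ Q : Place k (K a),
      under (fixedField (β a).range) Q = pt a r → ∃ g, act (β a g) Q = Q ∧ χ a g ≠ 1)
    (c0 : ∀ a, T a → k) (A : Λ → Polynomial k)
    (hA : ∀ a, (A a).natDegree ≤ Fintype.card (T a)) (H : RatFunc k) (hH0 : H ≠ 0)
    (hH : ∏ a, ∏ r ∈ J a, (algebraMap k (RatFunc k) (∏ i, (r - c0 a i)) +
      (RatFunc.X ^ m - 1) * algebraMap k (RatFunc k) ((A a).eval r)) ^ c a r = H ^ m)
    (s1 : k) (hs1 : s1 ^ m ≠ 1) (a1 : Λ) (r1 : k) (hr1 : r1 ∈ J a1)
    (hV : ∏ i, (Polynomial.X - Polynomial.C (c0 a1 i)) +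
      Polynomial.C (s1 ^ m - 1) * A a1 ≠ 0)
    (hV1 : ∏ i, (r1 - c0 a1 i) + (s1 ^ m - 1) * (A a1).eval r1 = 0)
    (l : ((∀ a, T a → Place k (K a)) →₀ ℤ) →+ k) (hl : ∀ r ∈ RatEq (bigV k K T), l r = 0)
    (hsym : ∀ (π : ∀ a, Equiv.Perm (T a)) (x : ∀ a, T a → Place k (K a)),
      l (Finsupp.single (fun a i => x a (π a i)) 1) = l (Finsupp.single x 1))
    (heq : ∀ (g : ∀ a, T a → G) (x : ∀ a, T a → Place k (K a)),
      l (Finsupp.single (fun a i => act (β a (g a i)) (x a i)) 1) =
        (∏ a, ∏ i, ((χ a (g a i) : kˣ) : k)) * l (Finsupp.single x 1))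
    (x0 : ∀ a, T a → Place k (K a))
    (hx0 : ∀ a i, under (fixedField (β a).range) (x0 a i) = pt a (c0 a i)) :
    l (Finsupp.single x0 1) = 0 := by
  classical
  have hcR : CharZero (RatFunc k) :=
    charZero_of_injective_algebraMap (algebraMap k (RatFunc k)).injective
  let U : Λ → Polynomial k := fun a => ∏ i, (Polynomial.X - Polynomial.C (c0 a i))
  have hUm : ∀ a, (U a).Monic := fun a => Polynomial.monic_prod_X_sub_C _ _
  have hUn : ∀ a, (U a).natDegree = Fintype.card (T a) := fun a => by
    change (∏ i, (Polynomial.X - Polynomial.C (c0 a i))).natDegree = _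
    rw [Polynomial.natDegree_finsetProd_X_sub_C_eq_card, Finset.card_univ]
  have hUe : ∀ a x, (U a).eval x = ∏ i, (x - c0 a i) := fun a x => by
    change (∏ i, (Polynomial.X - Polynomial.C (c0 a i))).eval x = _
    rw [Polynomial.eval_prod]
    refine Finset.prod_congr rfl fun i _ => ?_
    simp
  have hlead := fun a => pol_lead hm (hUm a) (hUn a) (hA a)
  have htK : ∀ a, Transcendental k ((t0 a : K a)) := fun a =>
    (transcendental_algebraMap_iff (algebraMap (fixedField (β a).range) (K a)).injective).2 (ht a)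
  obtain ⟨M, _, _, _, _, _, _, ρ, hρ, hgood⟩ := exists_M K (fun a => (t0 a : K a)) htK T
    (fun a => pol m (U a) (A a)) (fun a => (hlead a).1)
  have hM1 : IsFF k M := isFF_of_finite (F := RatFunc k)
  have hcM : CharZero M := charZero_of_injective_algebraMap (algebraMap k M).injective
  have hgood' : ∀ a i, Good (β a) (t0 a) M (ρ a i) := hgood
  set σ : M := algebraMap (RatFunc k) M RatFunc.X with hσ
  have hσt : Transcendental k σ :=
    (transcendental_algebraMap_iff (algebraMap (RatFunc k) M).injective).2 RatFunc.transcendental_X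
  -- the leading coefficients
  let lc : Λ → RatFunc k := fun a =>
    1 + (RatFunc.X ^ m - 1) * algebraMap k (RatFunc k) ((A a).coeff (Fintype.card (T a)))
  have hlc0 : ∀ a, lc a ≠ 0 := fun a => lc_ne hm _
  let uR : Λ → k → RatFunc k := fun a x => algebraMap k (RatFunc k) (∏ i, (x - c0 a i)) +
    (RatFunc.X ^ m - 1) * algebraMap k (RatFunc k) ((A a).eval x)
  let u : Λ → k → M := fun a x => algebraMap (RatFunc k) M (uR a x)
  have hu : ∀ a x, u a x = algebraMap (RatFunc k) M (lc a) * ∏ i, (algebraMap k M x - ρ a i) := by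
    intro a x
    have h2 := congrArg (Polynomial.eval (algebraMap k M x)) (hρ a)
    rw [(hlead a).2, Polynomial.eval_mul, Polynomial.eval_C, Polynomial.eval_prod] at h2
    have h3 : ∏ i, Polynomial.eval (algebraMap k M x) (Polynomial.X - Polynomial.C (ρ a i)) =
        ∏ i, (algebraMap k M x - ρ a i) := Finset.prod_congr rfl fun i _ => by simp
    rw [h3] at h2
    rw [← h2]
    have h4 : algebraMap k M x = algebraMap (RatFunc k) M (algebraMap k (RatFunc k) x) :=
      IsScalarTower.algebraMap_apply _ _ _ _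
    rw [h4, Polynomial.eval_map, Polynomial.eval₂_at_apply]
    change algebraMap (RatFunc k) M _ = _
    congr 1
    unfold pol
    rw [Polynomial.eval_add, Polynomial.eval_mul, Polynomial.eval_C, Polynomial.eval_map,
      Polynomial.eval₂_at_apply, Polynomial.eval_map, Polynomial.eval₂_at_apply, hUe]
  have hsc : ∀ c : k, algebraMap (RatFunc k) M (algebraMap k (RatFunc k) c) = algebraMap k M c :=
    fun c => (IsScalarTower.algebraMap_apply _ _ _ _).symm
  -- values modulo a place
  have hmod : ∀ (P : Place k M) (s : k), Ge P 1 (σ - algebraMap k M s) → ∀ a x,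
      Ge P 1 (u a x - algebraMap k M ((U a + Polynomial.C (s ^ m - 1) * A a).eval x)) := by
    intro P s hP a x
    have h2 : u a x - algebraMap k M ((U a + Polynomial.C (s ^ m - 1) * A a).eval x) =
        (σ ^ m - algebraMap k M (s ^ m)) * algebraMap k M ((A a).eval x) := by
      change algebraMap (RatFunc k) M (uR a x) - _ = _
      rw [Polynomial.eval_add, Polynomial.eval_mul, Polynomial.eval_C, hUe]
      change algebraMap (RatFunc k) M (algebraMap k (RatFunc k) (∏ i, (x - c0 a i)) +
        (RatFunc.X ^ m - 1) * algebraMap k (RatFunc k) ((A a).eval x)) - _ = _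
      rw [map_add (algebraMap (RatFunc k) M), map_mul (algebraMap (RatFunc k) M), hsc, hsc,
        map_sub (algebraMap (RatFunc k) M), map_pow (algebraMap (RatFunc k) M), map_one, map_add,
        map_mul, map_sub, map_one, ← hσ]
      ring
    rw [h2]
    have h3 := Ge.mul (Ge_pow_sub P hP m) (Ge.const (P := P) ((A a).eval x))
    rwa [add_zero] at h3
  -- the product of the values of the semi-invariants
  have hcw : ∀ a, ∃ cw : k → k, ∀ x, cw x ^ m =
      (∏ r ∈ J a, (Polynomial.X - Polynomial.C r) ^ c a r).eval x := by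
    intro a
    choose cw hcw using fun x => IsAlgClosed.exists_pow_nat_eq
      ((∏ r ∈ J a, (Polynomial.X - Polynomial.C r) ^ c a r).eval x) hm
    exact ⟨cw, hcw⟩
  choose cw hcw using hcw
  choose e he using hc
  let W : ∀ a, T a → M := fun a i => wc (β a) (t0 a) (w a) (cw a) (ρ a i)
  set z : M := ∏ a, ∏ i, W a i with hz
  let h' : RatFunc k := (∏ a, ((-1) ^ Fintype.card (T a) / lc a) ^ e a) * H
  have hh0 : h' ≠ 0 := by
    refine mul_ne_zero (Finset.prod_ne_zero_iff.2 fun a _ => pow_ne_zero _ (div_ne_zero ?_ (hlc0 a)))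
      hH0
    exact pow_ne_zero _ (neg_ne_zero.2 one_ne_zero)
  have hzm : z ^ m = (algebraMap (RatFunc k) M h') ^ m := by
    have h2 : ∀ a, ∏ i, W a i ^ m = ∏ r ∈ J a,
        (algebraMap (RatFunc k) M ((-1) ^ Fintype.card (T a) / lc a * uR a r)) ^ c a r := by
      intro a
      have h3 : ∀ i, W a i ^ m = ∏ r ∈ J a, (ρ a i - algebraMap k M r) ^ c a r := by
        intro i
        change wc (β a) (t0 a) (w a) (cw a) (ρ a i) ^ m = _
        rw [wc_pow (β a) (t0 a) (w a) (cw a) (hw a) (hcw a) (ht a) (hgood' a i), map_prod]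
        refine Finset.prod_congr rfl fun r _ => ?_
        rw [map_pow, map_sub, Polynomial.aeval_X, Polynomial.aeval_C]
      rw [Finset.prod_congr rfl fun i _ => h3 i, Finset.prod_comm]
      refine Finset.prod_congr rfl fun r _ => ?_
      rw [Finset.prod_pow]
      congr 1
      have h4 : ∏ i, (ρ a i - algebraMap k M r) =
          (-1) ^ Fintype.card (T a) * ∏ i, (algebraMap k M r - ρ a i) := by
        rw [← Finset.card_univ, ← Finset.prod_const, ← Finset.prod_mul_distrib]
        exact Finset.prod_congr rfl fun i _ => by ring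
      have h5 : algebraMap (RatFunc k) M (uR a r) =
        algebraMap (RatFunc k) M (lc a) * ∏ i, (algebraMap k M r - ρ a i) := hu a r
      have h6 : algebraMap (RatFunc k) M (lc a) ≠ 0 := by simpa using hlc0 a
      rw [h4, map_mul, map_div₀, map_pow, map_neg, map_one, h5]
      field_simp
    have h3 : ∀ a, ∏ r ∈ J a,
        (algebraMap (RatFunc k) M ((-1) ^ Fintype.card (T a) / lc a * uR a r)) ^ c a r =
        (algebraMap (RatFunc k) M (((-1) ^ Fintype.card (T a) / lc a) ^ e a)) ^ m *
          algebraMap (RatFunc k) M (∏ r ∈ J a, uR a r ^ c a r) := by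
      intro a
      rw [← map_pow, ← pow_mul, mul_comm (e a) m, ← he a, ← Finset.prod_pow_eq_pow_sum, ← map_mul,
        ← Finset.prod_mul_distrib, map_prod]
      refine Finset.prod_congr rfl fun r _ => ?_
      rw [← mul_pow, map_pow]
    rw [hz, ← Finset.prod_pow]
    have h4 : ∀ a, (∏ i, W a i) ^ m =
        (algebraMap (RatFunc k) M (((-1) ^ Fintype.card (T a) / lc a) ^ e a)) ^ m *
          algebraMap (RatFunc k) M (∏ r ∈ J a, uR a r ^ c a r) := fun a => by
      rw [← Finset.prod_pow, h2, h3]
    rw [Finset.prod_congr rfl fun a _ => h4 a, Finset.prod_mul_distrib, ← map_prod, hH, map_pow,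
      Finset.prod_pow, ← mul_pow, ← map_prod, ← map_mul]
  have hh0' : algebraMap (RatFunc k) M h' ≠ 0 := by simpa using hh0
  have hz0 : z ≠ 0 := by
    intro h
    rw [h, zero_pow hm.ne'] at hzm
    exact pow_ne_zero m hh0' hzm.symm
  obtain ⟨ξ, hξ⟩ : ∃ ξ : k, z / algebraMap (RatFunc k) M h' = algebraMap k M ξ := by
    apply const_of_algebraic
    have h2 : (z / algebraMap (RatFunc k) M h') ^ m = 1 := by
      rw [div_pow, hzm, div_self (pow_ne_zero m hh0')]
    refine IsAlgebraic.of_pow hm ?_
    rw [h2]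
    exact isAlgebraic_one
  have hzF : z = algebraMap (RatFunc k) M (h' * algebraMap k (RatFunc k) ξ) := by
    rw [map_mul, hsc, ← hξ]
    field_simp
  -- the families
  let y : Place k M → ∀ a, T a → Place k (K a) := fun P a i => yc (β a) (t0 a) (pt a) (ρ a i) P
  have hy : (bigV k K T).IsMor M y := fun a i => yc_mor (β a) (t0 a) (pt a) (ρ a i)
  -- the Galois action
  have hgal : ∀ (γ : M ≃ₐ[RatFunc k] M) (P : Place k M),
      l (Finsupp.single (y (act (γ.restrictScalars k) P)) 1) = l (Finsupp.single (y P) 1) := by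
    intro γ P
    have hπ : ∀ a, ∃ π : Equiv.Perm (T a), ∀ i, γ.symm (ρ a i) = ρ a (π i) := by
      intro a
      have h2 := congrArg (Polynomial.map (γ.symm : M →+* M)) (hρ a)
      rw [Polynomial.map_map, Polynomial.map_mul, Polynomial.map_C, Polynomial.map_prod] at h2
      have h3 : (γ.symm : M →+* M).comp (algebraMap (RatFunc k) M) = algebraMap (RatFunc k) M := by
        ext x
        exact γ.symm.commutes x
      have h4 : (γ.symm : M →+* M) (algebraMap (RatFunc k) M (pol m (U a) (A a)).leadingCoeff) =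
          algebraMap (RatFunc k) M (pol m (U a) (A a)).leadingCoeff := γ.symm.commutes _
      rw [h3, h4, hρ a] at h2
      have h5 : Polynomial.C (algebraMap (RatFunc k) M (pol m (U a) (A a)).leadingCoeff) ≠ 0 := by
        rw [Ne, Polynomial.C_eq_zero, map_eq_zero, (hlead a).2]
        exact hlc0 a
      have h6 := mul_left_cancel₀ h5 h2
      refine perm_of_prod (ρ a) (fun i => γ.symm (ρ a i)) (h6.trans ?_)
      refine Finset.prod_congr rfl fun i _ => ?_
      rw [Polynomial.map_sub, Polynomial.map_X, Polynomial.map_C]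
      rfl
    choose π hπ using hπ
    have hg := fun a i => yc_gal (β a) (t0 a) (w a) (pt a) (cw a) (χ a) (hχ a) (h1 a) (ht a)
      (γ.restrictScalars k) (hgood' a i)
    choose g hg1 hg2 using hg
    have h2 : y (act (γ.restrictScalars k) P) =
        fun a i => act (β a ((g a i)⁻¹)) ((fun a i => y P a (π a i)) a i) := by
      funext a i
      change yc (β a) (t0 a) (pt a) (ρ a i) (act (γ.restrictScalars k) P) = _
      rw [hg1]
      congr 2
      exact hπ a i
    have h3 : ∏ a, ∏ i, ((χ a (g a i) : kˣ) : k) = 1 := by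
      have h4 : γ.symm z = z := by rw [hzF]; exact γ.symm.commutes _
      have h5 : γ.symm z = algebraMap k M (∏ a, ∏ i, ((χ a (g a i) : kˣ) : k)) * z := by
        rw [hz, map_prod, map_prod, ← Finset.prod_mul_distrib]
        refine Finset.prod_congr rfl fun a _ => ?_
        rw [map_prod, map_prod]
        have h6 : ∀ i, γ.symm (W a i) = algebraMap k M ((χ a (g a i) : kˣ) : k) * W a (π a i) := by
          intro i
          have h7 := hg2 a i
          have h8 : (γ.restrictScalars k).symm (ρ a i) = ρ a (π a i) := hπ a i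
          rw [h8] at h7
          exact h7
        rw [Finset.prod_congr rfl fun i _ => h6 i, Finset.prod_mul_distrib,
          Equiv.prod_comp (π a) (fun i => W a i)]
      rw [h4] at h5
      have h6 : algebraMap k M (∏ a, ∏ i, ((χ a (g a i) : kˣ) : k)) = 1 := by
        have h7 : (algebraMap k M (∏ a, ∏ i, ((χ a (g a i) : kˣ) : k)) - 1) * z = 0 := by
          linear_combination -h5
        exact sub_eq_zero.1 ((mul_eq_zero.1 h7).resolve_right hz0)
      exact (algebraMap k M).injective (by rw [h6, map_one])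
    rw [h2, heq, hsym π (y P)]
    have h4 : ∏ a, ∏ i, ((χ a ((g a i)⁻¹) : kˣ) : k) = 1 := by
      have h5 : ∀ a i, ((χ a ((g a i)⁻¹) : kˣ) : k) = ((χ a (g a i) : kˣ) : k)⁻¹ := by
        intro a i
        rw [map_inv, Units.val_inv_eq_inv_val]
      simp only [h5, Finset.prod_inv_distrib]
      rw [h3, inv_one]
    rw [h4, one_mul]
  -- the function on the curve of parameters
  have hσc : ∀ s : k, σ - algebraMap k M s ≠ 0 := fun s h => by
    have := transc_sub_const hσt s
    rw [h] at this
    exact this isAlgebraic_zero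
  have hs1' : s1 ≠ 1 := by
    rintro rfl
    exact hs1 (one_pow m)
  set f : M := (σ - algebraMap k M s1) / (σ - algebraMap k M 1) with hf
  have hf0 : f ≠ 0 := div_ne_zero (hσc _) (hσc _)
  have hordpole : ∀ (a b : k), a ≠ b → ∀ P : Place k M,
      P.ord ((σ - algebraMap k M a) / (σ - algebraMap k M b)) < 0 →
        0 < P.ord (σ - algebraMap k M b) := by
    intro a b hab P hP
    have h2 : (σ - algebraMap k M a) / (σ - algebraMap k M b) =
        1 + algebraMap k M (b - a) / (σ - algebraMap k M b) := by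
      have := hσc b
      rw [map_sub]
      field_simp
      ring
    have h3 : algebraMap k M (b - a) ≠ 0 := by
      rw [Ne, map_eq_zero, sub_eq_zero]; exact fun h => hab h.symm
    by_contra hcon
    push Not at hcon
    have h4 : Ge P 0 ((σ - algebraMap k M a) / (σ - algebraMap k M b)) := by
      rw [h2]
      refine Ge.add Ge.one (Or.inr ?_)
      rw [P.ord_div h3 (hσc b), P.ord_const (sub_ne_zero.2 hab.symm)]
      omega
    have h5 := h4.resolve_left (div_ne_zero (hσc a) (hσc b))
    omega
  have hfz : ∀ P : Place k M, 0 < P.ord f → 0 < P.ord (σ - algebraMap k M s1) := by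
    intro P hP
    refine hordpole 1 s1 hs1'.symm P ?_
    have h2 : (σ - algebraMap k M 1) / (σ - algebraMap k M s1) = f⁻¹ := by rw [hf, inv_div]
    rw [h2, P.ord_inv]
    omega
  have hfp : ∀ P : Place k M, P.ord f < 0 → 0 < P.ord (σ - algebraMap k M 1) := fun P hP =>
    hordpole s1 1 hs1' P hP
  have hfe : ∃ P : Place k M, P.ord f < 0 := by
    apply exists_pole
    intro h
    apply hσt
    have h2 : σ = (algebraMap k M s1 - algebraMap k M 1 * f) * (1 - f)⁻¹ := by
      have h3 : 1 - f = (algebraMap k M (s1 - 1)) / (σ - algebraMap k M 1) := by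
        have := hσc 1
        rw [hf, map_sub]
        field_simp
        ring
      have h4 : algebraMap k M (s1 - 1) ≠ 0 := by
        rw [Ne, map_eq_zero, sub_eq_zero]; exact hs1'
      have h5 : algebraMap k M s1 - algebraMap k M 1 * f =
          σ * (algebraMap k M (s1 - 1)) / (σ - algebraMap k M 1) := by
        have := hσc 1
        rw [hf, map_sub]
        field_simp
        rw [map_one]
        ring
      rw [h3, h5]
      have := hσc 1
      field_simp
    rw [h2]
    exact ((isAlgebraic_algebraMap _).sub ((isAlgebraic_algebraMap _).mul h)).mul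
      (isAlgebraic_one.sub h).inv
  obtain ⟨P1, hP1⟩ := hfe
  -- zeros
  have hzero : ∀ P : Place k M, 0 < P.ord f → l (Finsupp.single (y P) 1) = 0 := by
    intro P hP
    have h2 : Ge P 1 (σ - algebraMap k M s1) := Or.inr (hfz P hP)
    obtain ⟨i, hi⟩ := roots_end P (hu a1) hV (hmod P s1 h2 a1)
      (r := r1) (by rw [Polynomial.eval_add, Polynomial.eval_mul, Polynomial.eval_C]
                    rw [← hV1]
                    congr 1
                    exact hUe a1 r1)
    have h3 := (yc_under (β a1) (pt a1) (hp a1) (ht a1) (hgood' a1 i) r1 P).2 hi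
    obtain ⟨g0, hg0, hg1⟩ := hstab a1 r1 hr1 _ h3
    let g : ∀ a, T a → G := fun a j => if h : (⟨a, j⟩ : Σ a, T a) = ⟨a1, i⟩ then g0 else 1
    have h4 := heq g (y P)
    have h5 : (fun a j => act (β a (g a j)) (y P a j)) = y P := by
      funext a j
      by_cases h : (⟨a, j⟩ : Σ a, T a) = ⟨a1, i⟩
      · obtain rfl : a = a1 := congrArg Sigma.fst h
        obtain rfl : j = i := by simpa using h
        have h6 : g a j = g0 := by simp [g]
        rw [h6]
        exact hg0
      · have h6 : g a j = 1 := by simp only [g, dif_neg h]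
        rw [h6, map_one, act_one]
    have h6 : ∏ a, ∏ j, ((χ a (g a j) : kˣ) : k) = ((χ a1 g0 : kˣ) : k) := by
      rw [Finset.prod_eq_single a1, Finset.prod_eq_single i]
      · have h6 : g a1 i = g0 := by simp [g]
        rw [h6]
      · intro j _ hj
        have h6 : g a1 j = 1 := by
          have : ¬ (⟨a1, j⟩ : Σ a, T a) = ⟨a1, i⟩ := fun h => hj (by simpa using h)
          simp only [g, dif_neg this]
        rw [h6, map_one, Units.val_one]
      · intro h; exact absurd (Finset.mem_univ _) h
      · intro a _ ha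
        refine Finset.prod_eq_one fun j _ => ?_
        have h6 : g a j = 1 := by
          have : ¬ (⟨a, j⟩ : Σ a, T a) = ⟨a1, i⟩ := fun h => ha (congrArg Sigma.fst h)
          simp only [g, dif_neg this]
        rw [h6, map_one, Units.val_one]
      · intro h; exact absurd (Finset.mem_univ _) h
    rw [h5, h6] at h4
    have h7 : (((χ a1 g0 : kˣ) : k) - 1) * l (Finsupp.single (y P) 1) = 0 := by
      linear_combination -h4
    refine (mul_eq_zero.1 h7).resolve_left ?_
    intro h8
    apply hg1
    ext
    rw [sub_eq_zero] at h8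
    rw [h8, Units.val_one]
  -- poles
  obtain ⟨ptR, ooR, hpR⟩ := exists_ratPl (k := k) (RatFunc.X : RatFunc k) RatFunc.transcendental_X
    (finrank_ratFunc k)
  have hconj : ∀ P : Place k M, P.ord f < 0 →
      l (Finsupp.single (y P) 1) = l (Finsupp.single (y P1) 1) := by
    intro P hP
    have h3 : ∀ P : Place k M, P.ord f < 0 → under (RatFunc k) P = ptR 1 := by
      intro P hP
      apply hpR.uniq
      have h4 := hfp P hP
      have h5 : σ - algebraMap k M 1 =
          algebraMap (RatFunc k) M (RatFunc.X - algebraMap k (RatFunc k) 1) := by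
        rw [map_sub (algebraMap (RatFunc k) M), hsc]
      rw [h5, ord_under] at h4
      have h6 : (0 : ℤ) < ram (RatFunc k) P := by exact_mod_cast (ram_spec (F := RatFunc k) P).1
      by_contra hcon
      push Not at hcon
      nlinarith
    obtain ⟨γ, hγ⟩ := orbit_gal (F0 := RatFunc k) P1 P (by rw [h3 P1 hP1, h3 P hP])
    rw [hγ, hgal]
  have hfam := family' (X := bigV k K T) l hl y hy hf0 hzero _ hconj ⟨P1, hP1⟩
  -- the given configuration
  have h2 : Ge P1 1 (σ - algebraMap k M 1) := Or.inr (hfp P1 hP1)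
  have hstart : ∀ a, ∃ π : Equiv.Perm (T a), ∀ i, ∃ g : G,
      y P1 a i = act (β a g) (x0 a (π i)) := by
    intro a
    obtain ⟨π, hπ⟩ := roots_start P1 (hu a) (by
      have h3 : algebraMap (RatFunc k) M (lc a) - 1 = (σ ^ m - algebraMap k M (1 ^ m)) *
          algebraMap k M ((A a).coeff (Fintype.card (T a))) := by
        change algebraMap (RatFunc k) M (1 + (RatFunc.X ^ m - 1) *
          algebraMap k (RatFunc k) ((A a).coeff (Fintype.card (T a)))) - 1 = _
        rw [map_add (algebraMap (RatFunc k) M), map_mul (algebraMap (RatFunc k) M), hsc,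
          map_sub (algebraMap (RatFunc k) M), map_pow (algebraMap (RatFunc k) M), map_one, ← hσ,
          one_pow, map_one]
        ring
      rw [h3]
      have h4 := Ge.mul (Ge_pow_sub P1 h2 m)
        (Ge.const (P := P1) ((A a).coeff (Fintype.card (T a))))
      rwa [add_zero] at h4) (c0 a) (by
      intro x
      have h3 := hmod P1 1 h2 a x
      rw [one_pow, sub_self, Polynomial.C_0, zero_mul, add_zero, hUe] at h3
      exact h3)
    refine ⟨π, fun i => ?_⟩
    have h3 := (yc_under (β a) (pt a) (hp a) (ht a) (hgood' a i) _ P1).2 (hπ i)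
    have h4 : under (fixedField (β a).range) (x0 a (π i)) =
        under (fixedField (β a).range) (y P1 a i) := by rw [hx0]; exact h3.symm
    obtain ⟨s, ⟨g, rfl⟩, hs⟩ := orbit (β a).range (x0 a (π i)) (y P1 a i) h4
    exact ⟨g, hs⟩
  choose π g hg using hstart
  have h3 : y P1 = fun a i => act (β a (g a i)) ((fun a i => x0 a (π a i)) a i) := by
    funext a i
    exact hg a i
  rw [h3, heq, hsym π x0] at hfam
  refine (mul_eq_zero.1 hfam).resolve_left ?_
  exact Finset.prod_ne_zero_iff.2 fun a _ => Finset.prod_ne_zero_iff.2 fun i _ => Units.ne_zero _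

end Pool.Agent.J4.H82.CC
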