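import Pool.Agent.J4.H82.CC.F

/-!
# Existence of a path from a partition of the branch points into blocks
-/

set_option autoImplicit false

open Polynomial

namespace Pool.Agent.J4.H82.CC

variable {k : Type} [Field k] [CharZero k] [IsAlgClosed k] {Λ : Type} [Fintype Λ] [DecidableEq Λ]
  (T : Λ → Type) [∀ a, Fintype (T a)]

/-- the pairs of an index and a branch point -/
abbrev Bp {k Λ : Type} (J : Λ → Finset k) : Type := Σ a, {r // r ∈ J a}

/-- There are no nonconstant functions on the set of indices which are constant on the blocks. -/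
def Conn (k : Type) [Field k] {Λ Q : Type} {J : Λ → Finset k} (b : Bp J → Q) (q0 : Q)
    (j0 : Bp J) : Prop :=
  ∀ τ : Λ → k, (∀ j j', b j = b j' → b j ≠ q0 → τ j.1 = τ j'.1) →
    (∀ j, b j = q0 → j ≠ j0 → τ j.1 = 0) → ∀ a, τ a = 0

omit [CharZero k] in
theorem exists_path {m : ℕ} (hm : 0 < m) (J : Λ → Finset k) (c : Λ → k → ℕ) {Q : Type} [Fintype Q]
    [DecidableEq Q] (b : Bp J → Q) (rep : Q → Bp J) (hrep : ∀ q, b (rep q) = q) (q0 : Q)
    (hsum : ∀ q, m ∣ ∑ j : Bp J, if b j = q then c j.1 j.2 else 0)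
    (hcard : Fintype.card (Bp J) < ∑ a, (Fintype.card (T a) + 1) + Fintype.card Q)
    (hT : ∀ a, Fintype.card (T a) < (J a).card) (hconn : Conn k b q0 (rep q0))
    (c0 : ∀ a, T a → k) (hc0 : ∀ a, ∀ r ∈ J a, ∏ i, (r - c0 a i) ≠ 0) :
    ∃ A : Λ → k[X], (∀ a, (A a).natDegree ≤ Fintype.card (T a)) ∧
      (∃ H : RatFunc k, H ≠ 0 ∧
        ∏ a, ∏ r ∈ J a, (algebraMap k (RatFunc k) (∏ i, (r - c0 a i)) +
          (RatFunc.X ^ m - 1) * algebraMap k (RatFunc k) ((A a).eval r)) ^ c a r = H ^ m) ∧
      ∃ s1 : k, s1 ^ m ≠ 1 ∧ ∃ a1, ∃ r1 ∈ J a1,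
        ∏ i, (X - C (c0 a1 i)) + C (s1 ^ m - 1) * A a1 ≠ 0 ∧
        ∏ i, (r1 - c0 a1 i) + (s1 ^ m - 1) * (A a1).eval r1 = 0 := by
  classical
  let U : Bp J → k := fun j => ∏ i, (j.2.1 - c0 j.1 i)
  have hU : ∀ j, U j ≠ 0 := fun j => hc0 j.1 j.2.1 j.2.2
  -- the linear conditions
  let V := ∀ a, Polynomial.degreeLT k (Fintype.card (T a) + 1)
  let R := {j : Bp J // j ≠ rep (b j)}
  let ev : Bp J → (V →ₗ[k] k) := fun j =>
    (Polynomial.leval j.2.1).comp ((Submodule.subtype _).comp (LinearMap.proj j.1))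
  have hev : ∀ j (v : V), ev j v = ((v j.1 : Polynomial.degreeLT k (Fintype.card (T j.1) + 1)) :
    k[X]).eval j.2.1 := fun j v => rfl
  let L : V →ₗ[k] (R → k) := LinearMap.pi fun j =>
    if b j.1 = q0 then ev j.1 else U (rep (b j.1)) • ev j.1 - U j.1 • ev (rep (b j.1))
  have hV : Module.finrank k V = ∑ a, (Fintype.card (T a) + 1) := by
    rw [Module.finrank_pi_fintype]
    refine Finset.sum_congr rfl fun a _ => ?_
    rw [LinearEquiv.finrank_eq (Polynomial.degreeLTEquiv k (Fintype.card (T a) + 1)),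
      Module.finrank_fin_fun]
  have hfinV : FiniteDimensional k V := by
    have : ∀ a, FiniteDimensional k (Polynomial.degreeLT k (Fintype.card (T a) + 1)) := fun a =>
      Module.Finite.of_surjective
        (Polynomial.degreeLTEquiv k (Fintype.card (T a) + 1)).symm.toLinearMap
        (Polynomial.degreeLTEquiv k (Fintype.card (T a) + 1)).symm.surjective
    infer_instance
  have hR : Fintype.card R + Fintype.card Q = Fintype.card (Bp J) := by
    have h1 : Fintype.card {j : Bp J // j = rep (b j)} = Fintype.card Q := by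
      refine Fintype.card_congr ⟨fun j => b j.1, fun q => ⟨rep q, by rw [hrep]⟩, ?_, ?_⟩
      · intro j
        exact Subtype.ext j.2.symm
      · intro q
        exact hrep q
    have h2 := Fintype.card_subtype_compl (fun j : Bp J => j = rep (b j))
    have h3 := Fintype.card_subtype_le (fun j : Bp J => j = rep (b j))
    have h4 : Fintype.card R = Fintype.card {j : Bp J // ¬ j = rep (b j)} := rfl
    omega
  have hker : LinearMap.ker L ≠ ⊥ := by
    apply LinearMap.ker_ne_bot_of_finrank_lt
    rw [hV, Module.finrank_fintype_fun_eq_card]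
    omega
  obtain ⟨v0, hv0, hv0'⟩ := Submodule.exists_mem_ne_zero_of_ne_bot hker
  -- scaling
  obtain ⟨v, hv, hvne, hv1⟩ : ∃ v : V, L v = 0 ∧ v ≠ 0 ∧
      (ev (rep q0) v = 0 ∨ ev (rep q0) v = U (rep q0)) := by
    by_cases h : ev (rep q0) v0 = 0
    · exact ⟨v0, hv0, hv0', Or.inl h⟩
    · refine ⟨(U (rep q0) / ev (rep q0) v0) • v0, ?_, ?_, Or.inr ?_⟩
      · rw [map_smul, LinearMap.mem_ker.1 hv0, smul_zero]
      · rw [Ne, smul_eq_zero, not_or]
        exact ⟨div_ne_zero (hU _) h, hv0'⟩
      · rw [map_smul, smul_eq_mul, div_mul_cancel₀ _ h]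
  let τ : Bp J → k := fun j => ev j v / U j
  have hτ : ∀ j, ev j v = τ j * U j := fun j => (div_mul_cancel₀ _ (hU j)).symm
  have hτ1 : ∀ j, b j ≠ q0 → τ j = τ (rep (b j)) := by
    intro j hj
    by_cases h : j = rep (b j)
    · rw [← h]
    · have h1 := congrFun hv ⟨j, h⟩
      have h2 : (if b j = q0 then ev j else U (rep (b j)) • ev j - U j • ev (rep (b j))) v = 0 := h1
      rw [if_neg hj, LinearMap.sub_apply, LinearMap.smul_apply, LinearMap.smul_apply, smul_eq_mul,
        smul_eq_mul, hτ j, hτ (rep (b j))] at h2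
      have h3 : (τ j - τ (rep (b j))) * (U j * U (rep (b j))) = 0 := by linear_combination h2
      exact sub_eq_zero.1 ((mul_eq_zero.1 h3).resolve_right (mul_ne_zero (hU _) (hU _)))
  have hτ0 : ∀ j, b j = q0 → j ≠ rep q0 → τ j = 0 := by
    intro j hj hne
    have h1 := congrFun hv ⟨j, by rw [hj]; exact hne⟩
    have h2 : (if b j = q0 then ev j else U (rep (b j)) • ev j - U j • ev (rep (b j))) v = 0 := h1
    rw [if_pos hj] at h2
    change ev j v / U j = 0
    rw [h2, zero_div]
  have hτ01 : τ (rep q0) = 0 ∨ τ (rep q0) = 1 := by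
    rcases hv1 with h | h
    · left; change _ / _ = _; rw [h, zero_div]
    · right; change _ / _ = _; rw [h, div_self (hU _)]
  let A : Λ → k[X] := fun a => (v a : k[X])
  have hAdeg : ∀ a, (A a).natDegree ≤ Fintype.card (T a) := fun a => by
    have h1 := Polynomial.mem_degreeLT.1 (v a).2
    by_cases h : A a = 0
    · rw [h, Polynomial.natDegree_zero]; exact Nat.zero_le _
    · have h2 := (Polynomial.natDegree_lt_iff_degree_lt h).2 h1
      omega
  refine ⟨A, hAdeg, ?_, ?_⟩
  · -- the product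
    choose e he using hsum
    obtain ⟨κ, hκ⟩ := IsAlgClosed.exists_pow_nat_eq (∏ j : Bp J, U j ^ c j.1 j.2) hm
    have hκ0 : κ ≠ 0 := by
      rintro rfl
      rw [zero_pow hm.ne'] at hκ
      exact Finset.prod_ne_zero_iff.2 (fun j _ => pow_ne_zero _ (hU j)) hκ.symm
    let F : Bp J → RatFunc k := fun j => 1 + (RatFunc.X ^ m - 1) * algebraMap k (RatFunc k) (τ j)
    have hF0 : ∀ j, F j ≠ 0 := fun j => lc_ne hm _
    have hprod : ∏ a, ∏ r ∈ J a, (algebraMap k (RatFunc k) (∏ i, (r - c0 a i)) +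
        (RatFunc.X ^ m - 1) * algebraMap k (RatFunc k) ((A a).eval r)) ^ c a r =
        ∏ j : Bp J, (algebraMap k (RatFunc k) (U j ^ c j.1 j.2) * F j ^ c j.1 j.2) := by
      rw [Fintype.prod_sigma]
      refine Finset.prod_congr rfl fun a _ => ?_
      rw [← Finset.prod_coe_sort]
      refine Finset.prod_congr rfl fun r _ => ?_
      have h1 : (A a).eval r.1 = τ ⟨a, r⟩ * U ⟨a, r⟩ := hτ ⟨a, r⟩
      rw [h1, map_pow, ← mul_pow]
      congr 1
      change algebraMap k (RatFunc k) (U ⟨a, r⟩) + _ = _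
      rw [map_mul]
      change _ = algebraMap k (RatFunc k) (U ⟨a, r⟩) *
        (1 + (RatFunc.X ^ m - 1) * algebraMap k (RatFunc k) (τ ⟨a, r⟩))
      ring
    have hblock : ∀ q, ∃ Hq : RatFunc k, Hq ≠ 0 ∧
        ∏ j : Bp J, (if b j = q then F j ^ c j.1 j.2 else 1) = Hq ^ m := by
      intro q
      by_cases hq : q = q0
      · subst hq
        have h1 : ∏ j : Bp J, (if b j = q then F j ^ c j.1 j.2 else 1) =
            F (rep q) ^ c (rep q).1 (rep q).2 := by
          rw [Finset.prod_eq_single (rep q)]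
          · rw [if_pos (hrep q)]
          · intro j _ hj
            by_cases h : b j = q
            · rw [if_pos h]
              have h2 : F j = 1 := by
                change 1 + _ * algebraMap k (RatFunc k) (τ j) = 1
                rw [hτ0 j h hj, map_zero, mul_zero, add_zero]
              rw [h2, one_pow]
            · rw [if_neg h]
          · intro h; exact absurd (Finset.mem_univ _) h
        rw [h1]
        rcases hτ01 with h2 | h2
        · refine ⟨1, one_ne_zero, ?_⟩
          change (1 + _ * algebraMap k (RatFunc k) (τ (rep q))) ^ _ = _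
          rw [h2, map_zero, mul_zero, add_zero, one_pow, one_pow]
        · refine ⟨RatFunc.X ^ c (rep q).1 (rep q).2, pow_ne_zero _ RatFunc.X_ne_zero, ?_⟩
          change (1 + _ * algebraMap k (RatFunc k) (τ (rep q))) ^ _ = _
          rw [h2, map_one, mul_one, add_sub_cancel, ← pow_mul, ← pow_mul, mul_comm]
      · refine ⟨F (rep q) ^ e q, pow_ne_zero _ (hF0 _), ?_⟩
        rw [← pow_mul, mul_comm, ← he q, ← Finset.prod_pow_eq_pow_sum]
        refine Finset.prod_congr rfl fun j _ => ?_
        by_cases h : b j = q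
        · rw [if_pos h, if_pos h]
          congr 1
          change 1 + _ * algebraMap k (RatFunc k) (τ j) =
            1 + _ * algebraMap k (RatFunc k) (τ (rep q))
          rw [hτ1 j (by rw [h]; exact hq), h]
        · rw [if_neg h, if_neg h, pow_zero]
    choose Hq hHq0 hHq using hblock
    refine ⟨algebraMap k (RatFunc k) κ * ∏ q, Hq q, ?_, ?_⟩
    · refine mul_ne_zero (by simpa using hκ0) (Finset.prod_ne_zero_iff.2 fun q _ => hHq0 q)
    · rw [hprod, Finset.prod_mul_distrib, ← map_prod, ← hκ, mul_pow, ← Finset.prod_pow, map_pow]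
      congr 1
      rw [← Finset.prod_congr rfl fun q _ => hHq q, Finset.prod_comm]
      refine Finset.prod_congr rfl fun j _ => ?_
      rw [Finset.prod_ite_eq]
      rw [if_pos (Finset.mem_univ _)]
  · -- the end of the path
    obtain ⟨a1, ha1⟩ : ∃ a1, ∀ θ : k, A a1 ≠ C θ * ∏ i, (X - C (c0 a1 i)) := by
      by_contra hcon
      push Not at hcon
      choose θ hθ using hcon
      have h1 : ∀ j : Bp J, τ j = θ j.1 := by
        intro j
        change (A j.1).eval j.2.1 / U j = _
        rw [hθ j.1, Polynomial.eval_mul, Polynomial.eval_C, Polynomial.eval_prod]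
        have h2 : ∏ i, Polynomial.eval (j.2.1) (X - C (c0 j.1 i)) = U j :=
          Finset.prod_congr rfl fun i _ => by simp
        rw [h2, mul_div_cancel_right₀ _ (hU j)]
      have h2 := hconn θ (fun j j' h h' => by
        rw [← h1, ← h1, hτ1 j h', hτ1 j' (by rw [← h]; exact h'), h]) (fun j h h' => by
        rw [← h1]; exact hτ0 j h h')
      apply hvne
      funext a
      apply Subtype.ext
      change A a = 0
      rw [hθ a, h2 a, Polynomial.C_0, zero_mul]
    have hA0 : A a1 ≠ 0 := by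
      intro h
      exact ha1 0 (by rw [h, Polynomial.C_0, zero_mul])
    obtain ⟨r1, hr1, hr1'⟩ : ∃ r1 ∈ J a1, (A a1).eval r1 ≠ 0 := by
      by_contra hcon
      push Not at hcon
      have h1 : (J a1).card ≤ (A a1).natDegree := by
        have h2 : J a1 ⊆ (A a1).roots.toFinset := by
          intro r hr
          rw [Multiset.mem_toFinset, Polynomial.mem_roots hA0]
          exact hcon r hr
        exact (Finset.card_le_card h2).trans
          ((Multiset.toFinset_card_le _).trans (Polynomial.card_roots' _))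
      have h2 := hAdeg a1
      have h3 := hT a1
      omega
    let j1 : Bp J := ⟨a1, r1, hr1⟩
    have hτj : τ j1 ≠ 0 := div_ne_zero hr1' (hU j1)
    obtain ⟨s1, hs1⟩ := IsAlgClosed.exists_pow_nat_eq (1 - (τ j1)⁻¹) hm
    have hs1' : s1 ^ m - 1 = -(τ j1)⁻¹ := by rw [hs1]; ring
    refine ⟨s1, ?_, a1, r1, hr1, ?_, ?_⟩
    · intro h
      rw [h, sub_self] at hs1'
      exact inv_ne_zero hτj (neg_eq_zero.1 hs1'.symm)
    · intro h
      rw [hs1'] at h
      refine ha1 (τ j1) ?_
      have h2 : C (τ j1) * C (τ j1)⁻¹ = (1 : k[X]) := by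
        rw [← Polynomial.C_mul, mul_inv_cancel₀ hτj, Polynomial.C_1]
      have h3 : C (-(τ j1)⁻¹) = -C (τ j1)⁻¹ := Polynomial.C_neg
      rw [h3] at h
      linear_combination (-C (τ j1)) * h - A a1 * h2
    · have h1 : (A a1).eval r1 = τ j1 * U j1 := hτ j1
      rw [hs1', h1]
      change U j1 + _ = 0
      field_simp
      ring

end Pool.Agent.J4.H82.CC
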