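import Pool.Agent.J4.H82.CC.G

/-!
# Stabilizers of points and normal form of a semi-invariant function
-/

set_option autoImplicit false

open FF IntermediateField Pool.Agent.W603.LV Pool.Agent.W603.PV Pool.Agent.J4.H17.ZC
  Pool.Agent.N162.CV Pool.Agent.N75.CV Pool.Agent.J4.H82.PV

namespace Pool.Agent.J4.H82.CC

variable {k : Type} [Field k] [CharZero k] [IsAlgClosed k] {K : Type} [Field K] [Algebra k K]
  [IsFF k K]

/-- the elements of a group which fix a point -/
def stab (Γ : Subgroup (K ≃ₐ[k] K)) (Q : Place k K) : Subgroup (K ≃ₐ[k] K) where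
  carrier := {s | s ∈ Γ ∧ act s Q = Q}
  one_mem' := ⟨Γ.one_mem, act_one Q⟩
  mul_mem' := fun {a b} ha hb => ⟨Γ.mul_mem ha.1 hb.1, by rw [act_mul, hb.2, ha.2]⟩
  inv_mem' := fun {a} ha => ⟨Γ.inv_mem ha.1, by
    conv_lhs => rw [← ha.2]
    rw [← act_mul, inv_mul_cancel, act_one]⟩

/-- If the stabilizer of a point fixes `w` and `w ^ m` is invariant then the order of `w ^ m` is
divisible by `m`. -/
theorem stab_dvd (Γ : Subgroup (K ≃ₐ[k] K)) [Finite Γ] [IsFF k (fixedField Γ)] {w : K}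
    {δ : fixedField Γ} {m : ℕ} (hδ : (δ : K) = w ^ m) (Q : Place k K)
    (h : ∀ s ∈ Γ, act s Q = Q → s w = w) : (m : ℤ) ∣ (under (fixedField Γ) Q).ord δ := by
  classical
  let D := stab Γ Q
  have hDΓ : D ≤ Γ := fun s hs => hs.1
  have hDfin : Finite D := Finite.of_injective (Subgroup.inclusion hDΓ)
    (Subgroup.inclusion_injective hDΓ)
  have i1 : IsFF k (fixedField D) := isFF_fixed D
  let _ : Fintype Γ := Fintype.ofFinite Γ
  let _ : Fintype D := Fintype.ofFinite D
  -- ramification over the field fixed by the stabilizer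
  have hE : ram (fixedField D) Q = Fintype.card D := by
    obtain ⟨T, hT, hT2⟩ := exists_over (F := fixedField D) (K := K) (under (fixedField D) Q)
    have h1 : T = {Q} := by
      ext P
      rw [hT, Finset.mem_singleton]
      constructor
      · intro hP
        obtain ⟨s, hs, hs'⟩ := orbit D Q P hP.symm
        rw [hs']
        exact hs.2
      · rintro rfl; rfl
    rw [h1, Finset.sum_singleton] at hT2
    have h2 : Module.finrank (fixedField D) K = Fintype.card D :=
      FixedPoints.finrank_eq_card D K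
    rw [h2] at hT2
    exact_mod_cast hT2
  -- a function
  obtain ⟨z, hz0, hz1, hz2⟩ := exists_unif_one
    (Finset.univ.image fun s : Γ => act (s : K ≃ₐ[k] K)⁻¹ Q) Q
  let N : K := ∏ s : Γ, (s : K ≃ₐ[k] K) z
  have hN0 : N ≠ 0 := Finset.prod_ne_zero_iff.2 fun s _ => by simpa using hz0
  have hNF : N ∈ fixedField Γ := by
    intro g
    change (g : K ≃ₐ[k] K) (∏ s : Γ, (s : K ≃ₐ[k] K) z) = ∏ s : Γ, (s : K ≃ₐ[k] K) z
    rw [map_prod]
    exact Fintype.prod_equiv (Equiv.mulLeft g) _ _ fun s => rfl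
  have hNord : Q.ord N = Fintype.card D := by
    have h1 : Q.ord N = ∑ s : Γ, Q.ord ((s : K ≃ₐ[k] K) z) :=
      ord_prod' Q _ _ fun s _ => by simpa using hz0
    have h2 : ∀ s : Γ, Q.ord ((s : K ≃ₐ[k] K) z) =
        if act (s : K ≃ₐ[k] K)⁻¹ Q = Q then (1 : ℤ) else 0 := by
      intro s
      have h3 : Q.ord ((s : K ≃ₐ[k] K) z) = (act (s : K ≃ₐ[k] K)⁻¹ Q).ord z := rfl
      rw [h3]
      split_ifs with h4
      · rw [h4, hz1]
      · exact hz2 _ (Finset.mem_image.2 ⟨s, Finset.mem_univ _, rfl⟩) h4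
    rw [h1, Finset.sum_congr rfl fun s _ => h2 s, Finset.sum_boole]
    have h3 : (Finset.univ.filter fun s : Γ => act (s : K ≃ₐ[k] K)⁻¹ Q = Q).card =
        Fintype.card D := by
      rw [← Fintype.card_subtype]
      refine Fintype.card_congr ⟨fun s => ⟨(s.1 : K ≃ₐ[k] K)⁻¹, Γ.inv_mem s.1.2, s.2⟩,
        fun s => ⟨⟨(s : K ≃ₐ[k] K)⁻¹, Γ.inv_mem s.2.1⟩, ?_⟩, ?_, ?_⟩
      · change act ((s : K ≃ₐ[k] K)⁻¹)⁻¹ Q = Q
        rw [inv_inv]
        exact s.2.2
      · intro s
        apply Subtype.ext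
        apply Subtype.ext
        exact inv_inv _
      · intro s
        apply Subtype.ext
        exact inv_inv _
    rw [h3]
  have hwD : w ∈ fixedField D := by
    intro g
    exact h _ g.2.1 g.2.2
  have h1 : Q.ord w = ram (fixedField D) Q * (under (fixedField D) Q).ord ⟨w, hwD⟩ :=
    ord_under (F := fixedField D) Q ⟨w, hwD⟩
  have h2 : Q.ord N = ram (fixedField Γ) Q * (under (fixedField Γ) Q).ord ⟨N, hNF⟩ :=
    ord_under (F := fixedField Γ) Q ⟨N, hNF⟩
  have h3 : Q.ord (δ : K) = ram (fixedField Γ) Q * (under (fixedField Γ) Q).ord δ :=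
    ord_under (F := fixedField Γ) Q δ
  rw [hδ, Q.ord_pow, h1, hE] at h3
  rw [hNord] at h2
  have h4 : (0 : ℤ) < ram (fixedField Γ) Q := by
    exact_mod_cast (ram_spec (F := fixedField Γ) Q).1
  refine ⟨(under (fixedField Γ) Q).ord ⟨N, hNF⟩ * (under (fixedField D) Q).ord ⟨w, hwD⟩, ?_⟩
  rw [h2] at h3
  have h5 : (ram (fixedField Γ) Q : ℤ) * ((under (fixedField Γ) Q).ord δ -
      m * ((under (fixedField Γ) Q).ord ⟨N, hNF⟩ * (under (fixedField D) Q).ord ⟨w, hwD⟩)) = 0 := by
    linear_combination -h3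
  exact sub_eq_zero.1 ((mul_eq_zero.1 h5).resolve_left h4.ne')

open Classical in
/-- the places where the order of `δ` is not divisible by `m` -/
noncomputable def Brm {F : Type} [Field F] [Algebra k F] [IsFF k F] (m : ℕ) (δ : F) :
    Finset (Place k F) :=
  (divisor k δ).support.filter fun v => ¬ (m : ℤ) ∣ v.ord δ

omit [IsAlgClosed k] in
theorem mem_Brm {F : Type} [Field F] [Algebra k F] [IsFF k F] {m : ℕ} {δ : F} {v : Place k F} :
    v ∈ Brm m δ ↔ ¬ (m : ℤ) ∣ v.ord δ := by
  classical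
  unfold Brm
  rw [Finset.mem_filter, Finsupp.mem_support_iff, divisor_apply]
  constructor
  · exact fun h => h.2
  · intro h
    refine ⟨?_, h⟩
    intro h0
    rw [h0] at h
    exact h (dvd_zero _)

/-- A coordinate such that given places are not at infinity. -/
theorem exists_coord {F : Type} [Field F] [Algebra k F] [IsFF k F]
    (hF : ∃ t : F, Transcendental k t ∧ Module.finrank k⟮t⟯ F = 1) (S : Finset (Place k F)) :
    ∃ (t : F) (pt : k → Place k F) (oo : Place k F), Transcendental k t ∧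
      Module.finrank k⟮t⟯ F = 1 ∧ RatPl k t pt oo ∧ oo ∉ S := by
  classical
  obtain ⟨t, ht, h1⟩ := hF
  obtain ⟨pt, oo, hp⟩ := exists_ratPl t ht h1
  have hinf : Infinite k := IsAlgClosed.instInfinite
  have hinj : Function.Injective pt := by
    intro a b hab
    by_contra hne
    have h2 := hp.div a (pt a)
    have h3 := hp.div b (pt a)
    rw [Finsupp.single_eq_same, Finsupp.single_eq_of_ne (hp.ne a)] at h2
    rw [hab, Finsupp.single_eq_same, Finsupp.single_eq_of_ne (hp.ne b), ← hab] at h3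
    exact hne (value_unique (ρ := t) (pt a) (Or.inr (by omega)) (Or.inr (by omega)))
  obtain ⟨q, hq⟩ : ∃ q, pt q ∉ S := by
    have h2 : (S.preimage pt hinj.injOn : Set k).Finite := Finset.finite_toSet _
    obtain ⟨q, hq⟩ := h2.exists_notMem
    refine ⟨q, fun h => hq ?_⟩
    rw [Finset.mem_coe, Finset.mem_preimage]
    exact h
  have ht' : Transcendental k (t - algebraMap k F q)⁻¹ := by
    intro h
    apply transc_sub_const ht q
    have := h.inv
    rwa [inv_inv] at this
  have h1' : Module.finrank k⟮(t - algebraMap k F q)⁻¹⟯ F = 1 := by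
    rw [adjoin_inv, adjoin_sub_const]; exact h1
  obtain ⟨pt', oo', hp'⟩ := exists_ratPl _ ht' h1'
  refine ⟨_, pt', oo', ht', h1', hp', ?_⟩
  have h2 : oo' = pt q := by
    apply hp.uniq
    have := hp'.neg'
    rw [oo'.ord_inv] at this
    omega
  rw [h2]
  exact hq

/-- The normal form of a semi-invariant function. -/
theorem exists_normal {F : Type} [Field F] [Algebra k F] [IsFF k F] {t : F}
    {pt : k → Place k F} {oo : Place k F} (hp : RatPl k t pt oo) (ht : Transcendental k t) {m : ℕ}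
    (hm : 0 < m) {δ : F} (hδ : δ ≠ 0) (hoo : oo ∉ Brm m δ) :
    ∃ (J : Finset k) (c : k → ℕ) (R : F), R ≠ 0 ∧
      δ = R ^ m * Polynomial.aeval t (∏ r ∈ J, (Polynomial.X - Polynomial.C r) ^ c r) ∧
      m ∣ ∑ r ∈ J, c r ∧ (∀ r, r ∈ J ↔ pt r ∈ Brm m δ) ∧
      ∀ r, (m : ℤ) ∣ (pt r).ord δ - c r := by
  classical
  have hm' : (m : ℤ) ≠ 0 := by exact_mod_cast hm.ne'
  have hinj : Function.Injective pt := by
    intro a b hab
    by_contra hne
    have h2 := hp.div a (pt a)
    have h3 := hp.div b (pt a)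
    rw [Finsupp.single_eq_same, Finsupp.single_eq_of_ne (hp.ne a)] at h2
    rw [hab, Finsupp.single_eq_same, Finsupp.single_eq_of_ne (hp.ne b), ← hab] at h3
    exact hne (value_unique (ρ := t) (pt a) (Or.inr (by omega)) (Or.inr (by omega)))
  let J : Finset k := (Brm m δ).preimage pt hinj.injOn
  have hJ : ∀ r, r ∈ J ↔ pt r ∈ Brm m δ := fun r => by
    change r ∈ (Brm m δ).preimage pt hinj.injOn ↔ _
    rw [Finset.mem_preimage]
  let c : k → ℕ := fun r => ((pt r).ord δ % m).toNat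
  have hc : ∀ r, (c r : ℤ) = (pt r).ord δ % m := fun r =>
    Int.toNat_of_nonneg (Int.emod_nonneg _ hm')
  have hcJ : ∀ r, r ∉ J → c r = 0 := by
    intro r hr
    rw [hJ, mem_Brm, not_not] at hr
    have h2 := hc r
    rw [Int.emod_eq_zero_of_dvd hr] at h2
    exact_mod_cast h2
  set Pi : F := Polynomial.aeval t (∏ r ∈ J, (Polynomial.X - Polynomial.C r) ^ c r) with hPi
  have htc0 : ∀ c : k, t - algebraMap k F c ≠ 0 := fun c h => by
    have := transc_sub_const ht c
    rw [h] at this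
    exact this isAlgebraic_zero
  have hPi' : Pi = ∏ r ∈ J, (t - algebraMap k F r) ^ c r := by
    rw [hPi, map_prod]
    refine Finset.prod_congr rfl fun r _ => ?_
    rw [map_pow, map_sub, Polynomial.aeval_X, Polynomial.aeval_C]
  have hPi0 : Pi ≠ 0 := by
    rw [hPi']
    exact Finset.prod_ne_zero_iff.2 fun r _ => pow_ne_zero _ (htc0 r)
  have hPiord : ∀ v : Place k F, v.ord Pi = ∑ r ∈ J, (c r : ℤ) *
      (Finsupp.single (pt r) (1 : ℤ) v - Finsupp.single oo (1 : ℤ) v) := by
    intro v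
    rw [hPi', ord_prod' v _ _ fun r _ => pow_ne_zero _ (htc0 r)]
    refine Finset.sum_congr rfl fun r _ => ?_
    rw [v.ord_pow, hp.div]
  have hPipt : ∀ s, (pt s).ord Pi = c s := by
    intro s
    rw [hPiord]
    have h2 : ∀ r ∈ J, (c r : ℤ) * (Finsupp.single (pt r) (1 : ℤ) (pt s) -
        Finsupp.single oo (1 : ℤ) (pt s)) = if r = s then (c s : ℤ) else 0 := by
      intro r _
      rw [Finsupp.single_eq_of_ne (hp.ne s), sub_zero, Finsupp.single_apply]
      by_cases h : r = s
      · rw [if_pos (by rw [h]), if_pos h, h, mul_one]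
      · rw [if_neg (fun h' => h (hinj h')), if_neg h, mul_zero]
    rw [Finset.sum_congr rfl h2, Finset.sum_ite_eq']
    split_ifs with h
    · rfl
    · rw [hcJ s h]; rfl
  have hPioo : oo.ord Pi = -∑ r ∈ J, (c r : ℤ) := by
    rw [hPiord, ← Finset.sum_neg_distrib]
    refine Finset.sum_congr rfl fun r _ => ?_
    rw [Finsupp.single_eq_same, Finsupp.single_eq_of_ne (hp.ne r).symm]
    ring
  -- all orders of `δ / Pi` are divisible by `m`
  have hq0 : δ / Pi ≠ 0 := div_ne_zero hδ hPi0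
  have hdvd : ∀ v : Place k F, v ≠ oo → (m : ℤ) ∣ v.ord (δ / Pi) := by
    intro v hv
    obtain ⟨s, rfl⟩ := (hp.all v).resolve_left hv
    rw [(pt s).ord_div hδ hPi0, hPipt, hc]
    exact Int.dvd_self_sub_emod
  have hdeg : ddeg (divisor k (δ / Pi)) = 0 := ddeg_divisor _
  -- the divisor of the root
  let D : Place k F →₀ ℤ := (divisor k (δ / Pi)).mapRange (fun n => n / m) (by simp)
  have hD : ∀ v, D v = v.ord (δ / Pi) / m := fun v => rfl
  have hdvdoo : (m : ℤ) ∣ oo.ord (δ / Pi) := by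
    rw [ddeg_eq_dg] at hdeg
    have h2 : dg (divisor k (δ / Pi)) = ∑ v ∈ (divisor k (δ / Pi)).support ∪ {oo},
        v.ord (δ / Pi) := by
      have h3 : dg (divisor k (δ / Pi)) = ∑ v ∈ (divisor k (δ / Pi)).support,
          v.ord (δ / Pi) := by
        simp only [dg, Finsupp.liftAddHom_apply, Finsupp.sum, AddMonoidHom.id_apply]
        rfl
      rw [h3]
      refine Finset.sum_subset Finset.subset_union_left fun v _ hv => ?_
      rw [Finsupp.notMem_support_iff] at hv
      exact hv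
    rw [h2, ← Finset.add_sum_erase _ _ (Finset.mem_union_right _ (Finset.mem_singleton_self oo))]
      at hdeg
    have h3 : (m : ℤ) ∣ ∑ v ∈ ((divisor k (δ / Pi)).support ∪ {oo}).erase oo, v.ord (δ / Pi) :=
      Finset.dvd_sum fun v hv => hdvd v (Finset.ne_of_mem_erase hv)
    have h4 : oo.ord (δ / Pi) = -∑ v ∈ ((divisor k (δ / Pi)).support ∪ {oo}).erase oo,
        v.ord (δ / Pi) := by omega
    rw [h4]
    exact (dvd_neg).2 h3
  have hdvd' : ∀ v : Place k F, (m : ℤ) ∣ v.ord (δ / Pi) := fun v => by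
    by_cases hv : v = oo
    · rw [hv]; exact hdvdoo
    · exact hdvd v hv
  have hmD : (m : ℕ) • D = divisor k (δ / Pi) := by
    ext v
    rw [Finsupp.smul_apply, hD, nsmul_eq_mul, divisor_apply]
    exact Int.mul_ediv_cancel' (hdvd' v)
  have hDdeg : ddeg D = 0 := by
    have h4 := congrArg ddeg hmD
    rw [ddeg_nsmul, hdeg] at h4
    rcases mul_eq_zero.1 h4 with h5 | h5
    · exact absurd h5 hm'
    · exact h5
  obtain ⟨R0, hR0, hR⟩ := hp.principal ht D hDdeg
  have hpow : ∀ n : ℕ, divisor k (R0 ^ n) = n • divisor k R0 := by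
    intro n
    ext v
    rw [divisor_apply, v.ord_pow, Finsupp.smul_apply, divisor_apply, nsmul_eq_mul]
  have h4 : divisor k (δ / Pi * (R0 ^ m)⁻¹) = 0 := by
    rw [divisor_mul hq0 (inv_ne_zero (pow_ne_zero _ hR0)), divisor_inv, hpow, hR, hmD,
      add_neg_cancel]
  obtain ⟨a, ha⟩ := const_of_divisor h4
  obtain ⟨b, hb⟩ := IsAlgClosed.exists_pow_nat_eq a hm
  have ha0 : a ≠ 0 := by
    rintro rfl
    rw [map_zero] at ha
    exact mul_ne_zero hq0 (inv_ne_zero (pow_ne_zero _ hR0)) ha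
  have hb0 : b ≠ 0 := by
    rintro rfl
    rw [zero_pow hm.ne'] at hb
    exact ha0 hb.symm
  refine ⟨J, c, algebraMap k F b * R0, mul_ne_zero (by simpa using hb0) hR0, ?_, ?_, hJ, ?_⟩
  · rw [mul_pow, ← map_pow, hb, ← ha, ← hPi]
    field_simp
  · have h5 : (m : ℤ) ∣ ∑ r ∈ J, (c r : ℤ) := by
      have h6 : (m : ℤ) ∣ oo.ord δ := by
        rw [mem_Brm, not_not] at hoo
        exact hoo
      have h7 := hdvdoo
      rw [oo.ord_div hδ hPi0, hPioo] at h7
      have h8 := (dvd_sub_right h6).1 h7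
      exact (dvd_neg).1 h8
    exact_mod_cast h5
  · intro r
    rw [hc]
    exact Int.dvd_self_sub_emod

end Pool.Agent.J4.H82.CC
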