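import Pool.Agent.J4.H82.CC.H

/-!
# The block theorem
-/

set_option autoImplicit false

open FF IntermediateField Pool.Agent.W603.LV Pool.Agent.W603.PV Pool.Agent.J4.H17.ZC
  Pool.Agent.N162.CV Pool.Agent.N75.CV Pool.Agent.J4.H82.PV

namespace Pool.Agent.J4.H82.CC

/-- There are no nonconstant functions on the set of indices which are constant on the blocks. -/
def ConnB (k : Type) [Field k] {Λ Q B : Type} (leg : B → Λ) (b : B → Q) (q0 : Q) (j0 : B) : Prop :=
  ∀ τ : Λ → k, (∀ j j', b j = b j' → b j ≠ q0 → τ (leg j) = τ (leg j')) →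
    (∀ j, b j = q0 → j ≠ j0 → τ (leg j) = 0) → ∀ a, τ a = 0

/-- The field is a rational function field. -/
def Rat1 (k F : Type) [Field k] [Field F] [Algebra k F] : Prop :=
  ∃ t : F, Transcendental k t ∧ Module.finrank k⟮t⟯ F = 1

/-- The function `δ` on the quotient is the `m`-th power of a semi-invariant function with
character `χ`. -/
def Semi {k : Type} [Field k] {K : Type} [Field K] [Algebra k K] {G : Type} [Group G]
    (β : G →* (K ≃ₐ[k] K)) (χ : G →* kˣ) (m : ℕ) (δ : fixedField β.range) : Prop :=
  ∃ w : K, w ≠ 0 ∧ (∀ g, β g w = algebraMap k K (χ g) * w) ∧ w ^ m = δ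

section

variable {k : Type} [Field k] [CharZero k] [IsAlgClosed k] {G : Type} [Group G] [Fintype G]

/-- Over a branch point there is an element of the stabilizer with nontrivial value of the
character. -/
theorem exists_stab {K : Type} [Field K] [Algebra k K] [IsFF k K] {β : G →* (K ≃ₐ[k] K)}
    [IsFF k (fixedField β.range)] {χ : G →* kˣ} {m : ℕ} {δ : fixedField β.range}
    (hs : Semi β χ m δ) (Q : Place k K) (h : under (fixedField β.range) Q ∈ Brm (k := k) m δ) :
    ∃ g, act (β g) Q = Q ∧ χ g ≠ 1 := by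
  obtain ⟨w, hw0, hw, hwm⟩ := hs
  by_contra hcon
  push Not at hcon
  rw [mem_Brm] at h
  apply h
  refine stab_dvd β.range hwm.symm Q ?_
  rintro _ ⟨g, rfl⟩ hg
  rw [hw, hcon g hg, Units.val_one, map_one, one_mul]

variable {Λ : Type} [Fintype Λ] [DecidableEq Λ] (K : Λ → Type) [∀ a, Field (K a)]
  [∀ a, Algebra k (K a)]
  [∀ a, IsFF k (K a)] (β : ∀ a, G →* (K a ≃ₐ[k] K a)) [∀ a, IsFF k (fixedField (β a).range)]
  (T : Λ → Type) [∀ a, Fintype (T a)] [∀ a, DecidableEq (T a)]

omit [CharZero k] [IsAlgClosed k] [Fintype G] [∀ a, IsFF k (K a)]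
  [∀ a, IsFF k (fixedField (β a).range)] in
theorem zero_of_stab (χ : ∀ _ : Λ, G →* kˣ) (l : ((∀ a, T a → Place k (K a)) →₀ ℤ) →+ k)
    (heq : ∀ (g : ∀ a, T a → G) (x : ∀ a, T a → Place k (K a)),
      l (Finsupp.single (fun a i => act (β a (g a i)) (x a i)) 1) =
        (∏ a, ∏ i, ((χ a (g a i) : kˣ) : k)) * l (Finsupp.single x 1))
    (x : ∀ a, T a → Place k (K a)) (a1 : Λ) (i : T a1) (g0 : G)
    (hg0 : act (β a1 g0) (x a1 i) = x a1 i) (hg1 : χ a1 g0 ≠ 1) : l (Finsupp.single x 1) = 0 := by
  classical
  let g : ∀ a, T a → G := fun a j => if h : (⟨a, j⟩ : Σ a, T a) = ⟨a1, i⟩ then g0 else 1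
  have h4 := heq g x
  have h5 : (fun a j => act (β a (g a j)) (x a j)) = x := by
    funext a j
    by_cases h : (⟨a, j⟩ : Σ a, T a) = ⟨a1, i⟩
    · obtain rfl : a = a1 := congrArg Sigma.fst h
      obtain rfl : j = i := by simpa using h
      have h6 : g a j = g0 := by simp [g]
      rw [h6]
      exact hg0
    · have h6 : g a j = 1 := by simp only [g, dif_neg h]
      rw [h6, map_one, act_one]
  have h6 : ∏ a, ∏ j, ((χ a (g a j) : kˣ) : k) = ((χ a1 g0 : kˣ) : k) := by
    rw [Finset.prod_eq_single a1, Finset.prod_eq_single i]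
    · have h6 : g a1 i = g0 := by simp [g]
      rw [h6]
    · intro j _ hj
      have h6 : g a1 j = 1 := by
        have : ¬ (⟨a1, j⟩ : Σ a, T a) = ⟨a1, i⟩ := fun h => hj (by simpa using h)
        simp only [g, dif_neg this]
      rw [h6, map_one, Units.val_one]
    · intro h; exact absurd (Finset.mem_univ _) h
    · intro a _ ha
      refine Finset.prod_eq_one fun j _ => ?_
      have h6 : g a j = 1 := by
        have : ¬ (⟨a, j⟩ : Σ a, T a) = ⟨a1, i⟩ := fun h => ha (congrArg Sigma.fst h)
        simp only [g, dif_neg this]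
      rw [h6, map_one, Units.val_one]
    · intro h; exact absurd (Finset.mem_univ _) h
  rw [h5, h6] at h4
  have h7 : (((χ a1 g0 : kˣ) : k) - 1) * l (Finsupp.single x 1) = 0 := by
    linear_combination -h4
  refine (mul_eq_zero.1 h7).resolve_left ?_
  intro h8
  apply hg1
  ext
  rw [sub_eq_zero] at h8
  rw [h8, Units.val_one]

/-- The block theorem: an additive functional on the zero-cycles of a product of powers of curves
with rational quotients which vanishes on the cycles rationally equivalent to zero, is symmetric,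
and has a character in each coordinate, is zero if the branch points can be divided into
sufficiently many blocks. -/
theorem block (hF : ∀ a, Rat1 k (fixedField (β a).range)) (χ : ∀ _ : Λ, G →* kˣ) {m : ℕ}
    (hm : 0 < m) (δ : ∀ a, fixedField (β a).range) (hs : ∀ a, Semi (β a) (χ a) m (δ a))
    {Q : Type} [Fintype Q] [DecidableEq Q] (b : (Σ a, {v // v ∈ Brm (k := k) m (δ a)}) → Q)
    (rep : Q → (Σ a, {v // v ∈ Brm (k := k) m (δ a)})) (hrep : ∀ q, b (rep q) = q) (q0 : Q)
    (hsum : ∀ q, (m : ℤ) ∣ ∑ j : (Σ a, {v // v ∈ Brm (k := k) m (δ a)}),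
      if b j = q then j.2.1.ord (δ j.1) else 0)
    (hcard : Fintype.card (Σ a, {v // v ∈ Brm (k := k) m (δ a)}) <
      ∑ a, (Fintype.card (T a) + 1) + Fintype.card Q)
    (hT : ∀ a, Fintype.card (T a) < (Brm (k := k) m (δ a)).card)
    (hconn : ConnB k Sigma.fst b q0 (rep q0))
    (l : ((∀ a, T a → Place k (K a)) →₀ ℤ) →+ k) (hl : ∀ r ∈ RatEq (bigV k K T), l r = 0)
    (hsym : ∀ (π : ∀ a, Equiv.Perm (T a)) (x : ∀ a, T a → Place k (K a)),
      l (Finsupp.single (fun a i => x a (π a i)) 1) = l (Finsupp.single x 1))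
    (heq : ∀ (g : ∀ a, T a → G) (x : ∀ a, T a → Place k (K a)),
      l (Finsupp.single (fun a i => act (β a (g a i)) (x a i)) 1) =
        (∏ a, ∏ i, ((χ a (g a i) : kˣ) : k)) * l (Finsupp.single x 1))
    (x : ∀ a, T a → Place k (K a)) : l (Finsupp.single x 1) = 0 := by
  classical
  by_cases hx : ∃ a1 i, under (fixedField (β a1).range) (x a1 i) ∈ Brm (k := k) m (δ a1)
  · obtain ⟨a1, i, h⟩ := hx
    obtain ⟨g0, hg0, hg1⟩ := exists_stab (hs a1) (x a1 i) h
    exact zero_of_stab K β T χ l heq x a1 i g0 hg0 hg1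
  · push Not at hx
    -- coordinates
    let S : ∀ a, Finset (Place k (fixedField (β a).range)) := fun a =>
      Brm (k := k) m (δ a) ∪ Finset.univ.image fun i => under (fixedField (β a).range) (x a i)
    have h2 : ∀ a, ∃ (t : fixedField (β a).range) (pt : k → Place k (fixedField (β a).range))
        (oo : Place k (fixedField (β a).range)), Transcendental k t ∧
        Module.finrank k⟮t⟯ (fixedField (β a).range) = 1 ∧ RatPl k t pt oo ∧ oo ∉ S a := fun a =>
      exists_coord (hF a) (S a)
    choose t pt oo ht h1 hp hoo using h2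
    have hoo1 : ∀ a, oo a ∉ Brm (k := k) m (δ a) := fun a h => hoo a (Finset.mem_union_left _ h)
    have hoo2 : ∀ a i, under (fixedField (β a).range) (x a i) ≠ oo a := fun a i h =>
      hoo a (Finset.mem_union_right _ (Finset.mem_image.2 ⟨i, Finset.mem_univ _, h⟩))
    have hδ0 : ∀ a, δ a ≠ 0 := by
      intro a h
      obtain ⟨w, hw0, _, hwm⟩ := hs a
      rw [h] at hwm
      exact pow_ne_zero m hw0 hwm
    have h3 := fun a => exists_normal (hp a) (ht a) hm (hδ0 a) (hoo1 a)
    choose J c R hR0 hR hJc hJ hJm using h3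
    choose w hw0 hw hwm using hs
    have hinj : ∀ a, Function.Injective (pt a) := by
      intro a r r' hrr
      by_contra hne
      have h2 := (hp a).div r (pt a r)
      have h3 := (hp a).div r' (pt a r)
      rw [Finsupp.single_eq_same, Finsupp.single_eq_of_ne ((hp a).ne r)] at h2
      rw [hrr, Finsupp.single_eq_same, Finsupp.single_eq_of_ne ((hp a).ne r'), ← hrr] at h3
      exact hne (value_unique (ρ := t a) (pt a r) (Or.inr (by omega)) (Or.inr (by omega)))
    -- the semi-invariant functions in normal form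
    let w' : ∀ a, K a := fun a => w a / (R a : K a)
    have hRK : ∀ a, (R a : K a) ≠ 0 := fun a h => hR0 a (Subtype.ext h)
    have hw' : ∀ a g, β a g (w' a) = algebraMap k (K a) (χ a g) * w' a := by
      intro a g
      change β a g (w a / (R a : K a)) = _ * (w a / (R a : K a))
      have h4 : β a g (R a : K a) = R a := (R a).2 ⟨β a g, g, rfl⟩
      rw [map_div₀, hw, h4, mul_div_assoc]
    have hw'm : ∀ a, w' a ^ m = Polynomial.aeval (t a : K a)
        (∏ r ∈ J a, (Polynomial.X - Polynomial.C r) ^ c a r) := by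
      intro a
      have h4 := congrArg (algebraMap (fixedField (β a).range) (K a)) (hR a)
      rw [map_mul, map_pow, ← Polynomial.aeval_algebraMap_apply] at h4
      change (δ a : K a) = (R a : K a) ^ m * _ at h4
      change (w a / (R a : K a)) ^ m = _
      rw [div_pow, hwm, h4, mul_comm, mul_div_assoc, div_self (pow_ne_zero m (hRK a)), mul_one]
      rfl
    -- the position of the points
    have hc0 : ∀ a i, ∃ s : k, under (fixedField (β a).range) (x a i) = pt a s := fun a i =>
      ((hp a).all _).resolve_left (hoo2 a i)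
    choose c0 hc0 using hc0
    have hcJ : ∀ a, ∀ r ∈ J a, ∏ i, (r - c0 a i) ≠ 0 := by
      intro a r hr
      refine Finset.prod_ne_zero_iff.2 fun i _ h => ?_
      rw [sub_eq_zero] at h
      apply hx a i
      rw [hc0, ← h]
      exact (hJ a r).1 hr
    -- the branch points
    let e : Bp J ≃ (Σ a, {v // v ∈ Brm (k := k) m (δ a)}) := Equiv.ofBijective
      (fun j => ⟨j.1, ⟨pt j.1 j.2.1, (hJ j.1 j.2.1).1 j.2.2⟩⟩) (by
        constructor
        · rintro ⟨a, r, hr⟩ ⟨a', r', hr'⟩ h
          obtain rfl : a = a' := congrArg Sigma.fst h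
          have h4 : pt a r = pt a r' := by
            have h5 := eq_of_heq (Sigma.mk.inj_iff.1 h).2
            exact congrArg Subtype.val h5
          obtain rfl := hinj a h4
          rfl
        · rintro ⟨a, v, hv⟩
          obtain ⟨r, rfl⟩ := ((hp a).all v).resolve_left (fun h => hoo1 a (h ▸ hv))
          exact ⟨⟨a, r, (hJ a r).2 hv⟩, rfl⟩)
    have he1 : ∀ j, (e j).1 = j.1 := fun j => rfl
    have he2 : ∀ j : Bp J, ((e j).2.1 : Place k _) = pt j.1 j.2.1 := fun j => rfl
    obtain ⟨A, hA, ⟨H, hH0, hH⟩, s1, hs1, a1, r1, hr1, hV, hV1⟩ := exists_path T hm J c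
      (fun j => b (e j)) (fun q => e.symm (rep q)) (fun q => by rw [e.apply_symm_apply, hrep]) q0
      (by
        intro q
        have h4 : (m : ℤ) ∣ ∑ j : Bp J, if b (e j) = q then (c j.1 j.2 : ℤ) else 0 := by
          have h5 := hsum q
          rw [← Equiv.sum_comp e] at h5
          have h6 : (m : ℤ) ∣ ∑ j : Bp J, (if b (e j) = q then (pt j.1 j.2.1).ord (δ j.1) else 0) -
              ∑ j : Bp J, (if b (e j) = q then (c j.1 j.2 : ℤ) else 0) := by
            rw [← Finset.sum_sub_distrib]
            refine Finset.dvd_sum fun j _ => ?_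
            split_ifs with h7
            · exact hJm j.1 j.2.1
            · rw [sub_zero]; exact dvd_zero _
          exact (dvd_sub_right h5).1 h6
        have h5 : ((∑ j : Bp J, if b (e j) = q then c j.1 j.2 else 0 : ℕ) : ℤ) =
            ∑ j : Bp J, if b (e j) = q then (c j.1 j.2 : ℤ) else 0 := by
          push_cast
          rfl
        rw [← h5] at h4
        exact_mod_cast h4)
      (by rw [Fintype.card_congr e]; exact hcard) (by
        intro a
        have h4 : (J a).card = (Brm (k := k) m (δ a)).card := by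
          rw [← Finset.card_image_of_injective (J a) (hinj a)]
          congr 1
          ext v
          rw [Finset.mem_image]
          constructor
          · rintro ⟨r, hr, rfl⟩
            exact (hJ a r).1 hr
          · intro hv
            obtain ⟨r, rfl⟩ := ((hp a).all v).resolve_left (fun h => hoo1 a (h ▸ hv))
            exact ⟨r, (hJ a r).2 hv, rfl⟩
        rw [h4]
        exact hT a)
      (by
        intro τ h4 h5
        refine hconn τ (fun j j' hj hj' => ?_) (fun j hj hj' => ?_)
        · have h6 := h4 (e.symm j) (e.symm j') (by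
            change b (e (e.symm j)) = b (e (e.symm j'))
            rw [e.apply_symm_apply, e.apply_symm_apply]; exact hj) (by
            change b (e (e.symm j)) ≠ q0
            rw [e.apply_symm_apply]; exact hj')
          rw [← he1, ← he1, e.apply_symm_apply, e.apply_symm_apply] at h6
          exact h6
        · have h6 := h5 (e.symm j) (by
            change b (e (e.symm j)) = q0
            rw [e.apply_symm_apply]; exact hj) (fun h => hj' (by
            exact e.symm.injective h))
          rw [← he1, e.apply_symm_apply] at h6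
          exact h6) c0 hcJ
    exact core_fam K β T t ht h1 pt oo hp w' χ hw' hm J c hw'm hJc (by
      intro a r hr Q hQ
      refine exists_stab ⟨w a, hw0 a, hw a, hwm a⟩ Q ?_
      rw [hQ]
      exact (hJ a r).1 hr) c0 A hA H hH0 hH s1 hs1 a1 r1 hr1 hV hV1 l hl hsym heq x hc0

end

end Pool.Agent.J4.H82.CC
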