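import Pool.Agent.J4.H82.CC.K

/-!
# Restriction to some of the coordinates
-/

set_option autoImplicit false

open FF IntermediateField Pool.Agent.W603.LV Pool.Agent.W603.PV Pool.Agent.J4.H17.ZC
  Pool.Agent.N162.CV Pool.Agent.N75.CV Pool.Agent.J4.H82.PV

namespace Pool.Agent.J4.H82.CC

section incl

variable {Λ : Type} (T : Λ → Type) [∀ a, DecidableEq (T a)] (P : Λ → Prop) [DecidablePred P]
  (R : ∀ a, Finset (T a))

/-- replace the values at a subset of the coordinates -/
def repl {A : Λ → Type} (x : ∀ a, T a → A a)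
    (y : ∀ b : {a // P a}, {i // i ∈ R b.1} → A b.1) : ∀ a, T a → A a :=
  fun a i => if h : P a then (if h' : i ∈ R a then y ⟨a, h⟩ ⟨i, h'⟩ else x a i) else x a i

theorem repl_perm {A : Λ → Type} (x : ∀ a, T a → A a)
    (y : ∀ b : {a // P a}, {i // i ∈ R b.1} → A b.1)
    (π : ∀ b : {a // P a}, Equiv.Perm {i // i ∈ R b.1}) :
    repl T P R x (fun b i => y b (π b i)) = fun a i => repl T P R x y a
      ((if h : P a then (Equiv.Perm.ofSubtype (π ⟨a, h⟩)) else 1 : Equiv.Perm (T a)) i) := by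
  funext a i
  by_cases h : P a
  · by_cases h' : i ∈ R a
    · have h1 : (Equiv.Perm.ofSubtype (π ⟨a, h⟩)) i = π ⟨a, h⟩ ⟨i, h'⟩ :=
        Equiv.Perm.ofSubtype_apply_of_mem _ h'
      unfold repl
      rw [dif_pos h, dif_pos h', dif_pos h, dif_pos h]
      rw [h1, dif_pos (π ⟨a, h⟩ ⟨i, h'⟩).2]
    · have h1 : (Equiv.Perm.ofSubtype (π ⟨a, h⟩)) i = i :=
        Equiv.Perm.ofSubtype_apply_of_not_mem _ h'
      unfold repl
      rw [dif_pos h, dif_neg h', dif_pos h, dif_pos h, h1, dif_neg h']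
  · unfold repl
    rw [dif_neg h, dif_neg h, dif_neg h]
    rfl

/-- extend a family by `1` -/
def extd {M : Type} [One M] (g : ∀ b : {a // P a}, {i // i ∈ R b.1} → M) : ∀ a, T a → M :=
  fun a i => if h : P a then (if h' : i ∈ R a then g ⟨a, h⟩ ⟨i, h'⟩ else 1) else 1

theorem prod_extd [Fintype Λ] [∀ a, Fintype (T a)] {M N : Type} [One M] [CommMonoid N]
    (g : ∀ b : {a // P a}, {i // i ∈ R b.1} → M) (F : Λ → M → N) (hF : ∀ a, F a 1 = 1) :
    ∏ a, ∏ i, F a (extd T P R g a i) = ∏ b : {a // P a}, ∏ i, F b.1 (g b i) := by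
  classical
  rw [← Fintype.prod_subtype_mul_prod_subtype P]
  have h1 : ∏ a : {x // ¬ P x}, ∏ i, F a.1 (extd T P R g a.1 i) = 1 := by
    refine Finset.prod_eq_one fun a _ => Finset.prod_eq_one fun i _ => ?_
    unfold extd
    rw [dif_neg a.2, hF]
  rw [h1, mul_one]
  refine Finset.prod_congr rfl fun b _ => ?_
  rw [← Fintype.prod_subtype_mul_prod_subtype (fun i => i ∈ R b.1)]
  have h2 : ∏ i : {i // ¬ i ∈ R b.1}, F b.1 (extd T P R g b.1 i.1) = 1 := by
    refine Finset.prod_eq_one fun i _ => ?_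
    unfold extd
    rw [dif_pos b.2, dif_neg i.2, hF]
  rw [h2, mul_one]
  refine Finset.prod_congr (by ext; simp) fun i _ => ?_
  unfold extd
  rw [dif_pos b.2, dif_pos i.2]

end incl

section

variable {k : Type} [Field k] [CharZero k] [IsAlgClosed k] {G : Type} [Group G] [Fintype G]
variable {Λ : Type} [Fintype Λ] [DecidableEq Λ] (K : Λ → Type) [∀ a, Field (K a)]
  [∀ a, Algebra k (K a)]
  [∀ a, IsFF k (K a)] (β : ∀ a, G →* (K a ≃ₐ[k] K a)) [∀ a, IsFF k (fixedField (β a).range)]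
  (T : Λ → Type) [∀ a, Fintype (T a)] [∀ a, DecidableEq (T a)]

/-- Restriction of a functional to some of the coordinates. -/
theorem restrict (χ : ∀ _ : Λ, G →* kˣ) (P : Λ → Prop) [DecidablePred P] (R : ∀ a, Finset (T a))
    (h : ∀ (l : ((∀ b : {a // P a}, {i // i ∈ R b.1} → Place k (K b.1)) →₀ ℤ) →+ k)
      (_ : ∀ r ∈ RatEq (bigV k (fun b : {a // P a} => K b.1)
        (fun b : {a // P a} => {i // i ∈ R b.1})), l r = 0)
      (_ : ∀ (π : ∀ b : {a // P a}, Equiv.Perm {i // i ∈ R b.1})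
        (x : ∀ b : {a // P a}, {i // i ∈ R b.1} → Place k (K b.1)),
        l (Finsupp.single (fun b i => x b (π b i)) 1) = l (Finsupp.single x 1))
      (_ : ∀ (g : ∀ b : {a // P a}, {i // i ∈ R b.1} → G)
        (x : ∀ b : {a // P a}, {i // i ∈ R b.1} → Place k (K b.1)),
        l (Finsupp.single (fun b i => act (β b.1 (g b i)) (x b i)) 1) =
          (∏ b, ∏ i, ((χ b.1 (g b i) : kˣ) : k)) * l (Finsupp.single x 1))
      (x : ∀ b : {a // P a}, {i // i ∈ R b.1} → Place k (K b.1)), l (Finsupp.single x 1) = 0)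
    (l : ((∀ a, T a → Place k (K a)) →₀ ℤ) →+ k) (hl : ∀ r ∈ RatEq (bigV k K T), l r = 0)
    (hsym : ∀ (π : ∀ a, Equiv.Perm (T a)) (x : ∀ a, T a → Place k (K a)),
      l (Finsupp.single (fun a i => x a (π a i)) 1) = l (Finsupp.single x 1))
    (heq : ∀ (g : ∀ a, T a → G) (x : ∀ a, T a → Place k (K a)),
      l (Finsupp.single (fun a i => act (β a (g a i)) (x a i)) 1) =
        (∏ a, ∏ i, ((χ a (g a i) : kˣ) : k)) * l (Finsupp.single x 1))
    (x : ∀ a, T a → Place k (K a)) : l (Finsupp.single x 1) = 0 := by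
  classical
  let F : (∀ b : {a // P a}, {i // i ∈ R b.1} → Place k (K b.1)) → (∀ a, T a → Place k (K a)) :=
    repl T P R (A := fun a => Place k (K a)) x
  have hreg : Reg (X := bigV k (fun b : {a // P a} => K b.1)
      (fun b : {a // P a} => {i // i ∈ R b.1})) (Y := bigV k K T) F := by
    intro L _ _ y hy a i
    by_cases ha : P a
    · by_cases hi : i ∈ R a
      · have h1 : (fun Q => F (y Q) a i) = fun Q => y Q ⟨a, ha⟩ ⟨i, hi⟩ := by
          funext Q
          change repl T P R x (y Q) a i = _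
          unfold repl
          rw [dif_pos ha, dif_pos hi]
        rw [h1]
        exact hy ⟨a, ha⟩ ⟨i, hi⟩
      · left
        refine ⟨x a i, fun Q => ?_⟩
        change repl T P R x (y Q) a i = _
        unfold repl
        rw [dif_pos ha, dif_neg hi]
    · left
      refine ⟨x a i, fun Q => ?_⟩
      change repl T P R x (y Q) a i = _
      unfold repl
      rw [dif_neg ha]
  have hval : ∀ y, (l.comp (Finsupp.mapDomain.addMonoidHom F)) (Finsupp.single y 1) =
      l (Finsupp.single (F y) 1) := by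
    intro y
    rw [AddMonoidHom.comp_apply]
    change l (Finsupp.mapDomain F (Finsupp.single y 1)) = _
    rw [Finsupp.mapDomain_single]
  have hfin := h (l.comp (Finsupp.mapDomain.addMonoidHom F)) (fun r hr => hl _ (hreg.push hr)) (by
      intro π y
      rw [hval, hval]
      have h1 : F (fun b i => y b (π b i)) = fun a i => F y a
          ((if h : P a then (Equiv.Perm.ofSubtype (π ⟨a, h⟩)) else 1 : Equiv.Perm (T a)) i) :=
        repl_perm T P R x y π
      rw [h1]
      exact hsym (fun a => (if h : P a then (Equiv.Perm.ofSubtype (π ⟨a, h⟩)) else 1 :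
        Equiv.Perm (T a))) (F y)) (by
      intro g y
      rw [hval, hval]
      have h1 : F (fun b i => act (β b.1 (g b i)) (y b i)) =
          fun a i => act (β a (extd T P R g a i)) (F y a i) := by
        funext a i
        change repl T P R x _ a i = act (β a (extd T P R g a i)) (repl T P R x y a i)
        unfold repl extd
        by_cases ha : P a
        · by_cases hi : i ∈ R a
          · rw [dif_pos ha, dif_pos hi, dif_pos ha, dif_pos hi, dif_pos ha, dif_pos hi]
          · rw [dif_pos ha, dif_neg hi, dif_pos ha, dif_neg hi, dif_pos ha, dif_neg hi, map_one,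
              act_one]
        · rw [dif_neg ha, dif_neg ha, dif_neg ha, map_one, act_one]
      rw [h1, heq]
      congr 1
      exact prod_extd T P R g (fun a s => ((χ a s : kˣ) : k)) fun a => by
        rw [map_one, Units.val_one]) (fun b i => x b.1 i.1)
  rw [hval] at hfin
  have h2 : F (fun b i => x b.1 i.1) = x := by
    funext a i
    change repl T P R x _ a i = _
    unfold repl
    split_ifs <;> rfl
  rw [h2] at hfin
  exact hfin

omit [DecidableEq Λ] [Fintype G] in
theorem sums_dvd (m : ℕ) (δ : ∀ a, fixedField (β a).range) (a : Λ) :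
    (m : ℤ) ∣ ∑ v ∈ Brm (k := k) m (δ a), v.ord (δ a) % m ∧
      (m : ℤ) ∣ ∑ v ∈ Brm (k := k) m (δ a), (-v.ord (δ a)) % m := by
  have h0 : (m : ℤ) ∣ ∑ v ∈ Brm (k := k) m (δ a), v.ord (δ a) := brm_sum m (ddeg_divisor _)
  constructor
  · have h1 : (m : ℤ) ∣ ∑ v ∈ Brm (k := k) m (δ a), v.ord (δ a) -
        ∑ v ∈ Brm (k := k) m (δ a), v.ord (δ a) % m := by
      rw [← Finset.sum_sub_distrib]
      exact Finset.dvd_sum fun j _ => Int.dvd_self_sub_emod
    exact (dvd_sub_right h0).1 h1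
  · have h1 : (m : ℤ) ∣ ∑ v ∈ Brm (k := k) m (δ a), (-v.ord (δ a)) -
        ∑ v ∈ Brm (k := k) m (δ a), (-v.ord (δ a)) % m := by
      rw [← Finset.sum_sub_distrib]
      exact Finset.dvd_sum fun j _ => Int.dvd_self_sub_emod
    refine (dvd_sub_right ?_).1 h1
    rw [Finset.sum_neg_distrib]
    exact (dvd_neg).2 h0

/-- the vanishing theorem in terms of the sums of the residues -/
theorem legs (hF : ∀ a, Rat1 k (fixedField (β a).range)) (χ : ∀ _ : Λ, G →* kˣ) {m : ℕ}
    (hm : m = 2 ∨ m = 3 ∨ m = 4) (δ : ∀ a, fixedField (β a).range)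
    (hs : ∀ a, Semi (β a) (χ a) m (δ a)) (hne : ∀ a, (Brm (k := k) m (δ a)).Nonempty)
    (a0 a1 : Λ) (hn0 : ∑ v ∈ Brm (k := k) m (δ a0), v.ord (δ a0) % m ≤ m * Fintype.card (T a0))
    (hn1 : ∑ v ∈ Brm (k := k) m (δ a1), (-v.ord (δ a1)) % m ≤ m * Fintype.card (T a1))
    (h01 : a0 = a1 ∨ (∑ v ∈ Brm (k := k) m (δ a0), (-v.ord (δ a0)) % m ≤
        ∑ v ∈ Brm (k := k) m (δ a0), v.ord (δ a0) % m + m ∧
      ∑ v ∈ Brm (k := k) m (δ a1), v.ord (δ a1) % m ≤
        ∑ v ∈ Brm (k := k) m (δ a1), (-v.ord (δ a1)) % m + m))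
    (l : ((∀ a, T a → Place k (K a)) →₀ ℤ) →+ k) (hl : ∀ r ∈ RatEq (bigV k K T), l r = 0)
    (hsym : ∀ (π : ∀ a, Equiv.Perm (T a)) (x : ∀ a, T a → Place k (K a)),
      l (Finsupp.single (fun a i => x a (π a i)) 1) = l (Finsupp.single x 1))
    (heq : ∀ (g : ∀ a, T a → G) (x : ∀ a, T a → Place k (K a)),
      l (Finsupp.single (fun a i => act (β a (g a i)) (x a i)) 1) =
        (∏ a, ∏ i, ((χ a (g a i) : kˣ) : k)) * l (Finsupp.single x 1))
    (x : ∀ a, T a → Place k (K a)) : l (Finsupp.single x 1) = 0 := by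
  classical
  have hm0 : 0 < m := by omega
  have hm0' : (0 : ℤ) < m := by exact_mod_cast hm0
  have hpos : ∀ a, 0 < ∑ v ∈ Brm (k := k) m (δ a), v.ord (δ a) % m ∧
      0 < ∑ v ∈ Brm (k := k) m (δ a), (-v.ord (δ a)) % m := by
    intro a
    constructor
    · refine Finset.sum_pos (fun v hv => ?_) (hne a)
      have h1 := mem_Brm.1 hv
      generalize v.ord (δ a) = z at *
      rcases hm with rfl | rfl | rfl <;> push_cast at h1 ⊢ <;> omega
    · refine Finset.sum_pos (fun v hv => ?_) (hne a)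
      have h1 := mem_Brm.1 hv
      generalize v.ord (δ a) = z at *
      rcases hm with rfl | rfl | rfl <;> push_cast at h1 ⊢ <;> omega
  -- one curve
  have hone : ∀ a, max (∑ v ∈ Brm (k := k) m (δ a), v.ord (δ a) % m)
      (∑ v ∈ Brm (k := k) m (δ a), (-v.ord (δ a)) % m) ≤ m * Fintype.card (T a) →
      l (Finsupp.single x 1) = 0 := by
    intro a ha
    obtain ⟨⟨c, hc⟩, d, hd⟩ := sums_dvd K β m δ a
    have hcard := brm_card (k := k) hm (δ a)
    have hp := hpos a
    rw [hc, hd] at ha hcard hp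
    have hc0 : 0 < c := (mul_pos_iff_of_pos_left hm0').1 hp.1
    have hd0 : 0 < d := (mul_pos_iff_of_pos_left hm0').1 hp.2
    have hcd : max c d ≤ Fintype.card (T a) := by
      rcases le_total c d with h | h
      · rw [max_eq_right (mul_le_mul_of_nonneg_left h hm0'.le)] at ha
        rw [max_eq_right h]
        exact le_of_mul_le_mul_left ha hm0'
      · rw [max_eq_left (mul_le_mul_of_nonneg_left h hm0'.le)] at ha
        rw [max_eq_left h]
        exact le_of_mul_le_mul_left ha hm0'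
    have hcard' : ((Brm (k := k) m (δ a)).card : ℤ) = c + d := by
      rw [← mul_add] at hcard
      exact mul_left_cancel₀ hm0'.ne' hcard
    obtain ⟨R0, -, hR0⟩ := Finset.exists_subset_card_eq (s := (Finset.univ : Finset (T a)))
      (n := (max c d).toNat) (by rw [Finset.card_univ]; omega)
    let R : ∀ b, Finset (T b) := fun b => if h : a = b then h ▸ R0 else ∅
    have hRa : (R a).card = (max c d).toNat := by
      have : R a = R0 := by simp [R]
      rw [this, hR0]
    refine restrict K β T χ (fun b => b = a ∨ b = a) R (fun l' hl' hsym' heq' x' => ?_)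
      l hl hsym heq x
    refine block1 (fun b : {b // b = a ∨ b = a} => K b.1) (fun b => β b.1)
      (fun b => {i // i ∈ R b.1})
      (fun b => hF b.1) (fun b => χ b.1) hm (fun b => δ b.1) (fun b => hs b.1) ⟨a, Or.inl rfl⟩
      (fun b => Subtype.ext (b.2.elim id id)) ?_ ?_ l' hl' hsym' heq' x'
    · rw [Fintype.card_coe, hRa]
      change _ < (Brm (k := k) m (δ a)).card
      omega
    · rw [Fintype.card_coe, hRa, hc, hd]
      have h3 : (((max c d).toNat : ℕ) : ℤ) = max c d := Int.toNat_of_nonneg (by omega)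
      rw [h3, mul_max_of_nonneg _ _ hm0'.le]
  by_cases hA : ∑ v ∈ Brm (k := k) m (δ a0), (-v.ord (δ a0)) % m ≤
      ∑ v ∈ Brm (k := k) m (δ a0), v.ord (δ a0) % m
  · exact hone a0 (by rw [max_eq_left hA]; exact hn0)
  by_cases hB : ∑ v ∈ Brm (k := k) m (δ a1), v.ord (δ a1) % m ≤
      ∑ v ∈ Brm (k := k) m (δ a1), (-v.ord (δ a1)) % m
  · exact hone a1 (by rw [max_eq_right hB]; exact hn1)
  rcases h01 with h01 | ⟨hA', hB'⟩
  · subst h01
    exact hone a0 (max_le hn0 hn1)
  push Not at hA hB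
  obtain ⟨⟨c0, hc0⟩, d0, hd0⟩ := sums_dvd K β m δ a0
  obtain ⟨⟨c1, hc1⟩, d1, hd1⟩ := sums_dvd K β m δ a1
  have hcard0 := brm_card (k := k) hm (δ a0)
  have hcard1 := brm_card (k := k) hm (δ a1)
  have hp0 := hpos a0
  have hp1 := hpos a1
  rw [hc0, hd0] at hA hA' hcard0 hp0
  rw [hc1, hd1] at hB hB' hcard1 hp1
  rw [hc0] at hn0
  rw [hd1] at hn1
  have e0 : d0 = c0 + 1 := by
    have h1 : c0 < d0 := lt_of_mul_lt_mul_left hA hm0'.le
    have h2 : d0 ≤ c0 + 1 := by
      have h3 : (m : ℤ) * d0 ≤ m * (c0 + 1) := by rw [mul_add, mul_one]; exact hA'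
      exact le_of_mul_le_mul_left h3 hm0'
    omega
  have e1 : c1 = d1 + 1 := by
    have h1 : d1 < c1 := lt_of_mul_lt_mul_left hB hm0'.le
    have h2 : c1 ≤ d1 + 1 := by
      have h3 : (m : ℤ) * c1 ≤ m * (d1 + 1) := by rw [mul_add, mul_one]; exact hB'
      exact le_of_mul_le_mul_left h3 hm0'
    omega
  have hc0' : 0 < c0 := (mul_pos_iff_of_pos_left hm0').1 hp0.1
  have hd1' : 0 < d1 := (mul_pos_iff_of_pos_left hm0').1 hp1.2
  have h0le : c0 ≤ Fintype.card (T a0) := le_of_mul_le_mul_left hn0 hm0'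
  have h1le : d1 ≤ Fintype.card (T a1) := le_of_mul_le_mul_left hn1 hm0'
  have hcard0' : ((Brm (k := k) m (δ a0)).card : ℤ) = c0 + d0 := by
    rw [← mul_add] at hcard0
    exact mul_left_cancel₀ hm0'.ne' hcard0
  have hcard1' : ((Brm (k := k) m (δ a1)).card : ℤ) = c1 + d1 := by
    rw [← mul_add] at hcard1
    exact mul_left_cancel₀ hm0'.ne' hcard1
  have hne01 : a0 ≠ a1 := by
    rintro rfl
    have h1 := hc0.symm.trans hc1
    have h2 := hd0.symm.trans hd1
    have h3 := mul_left_cancel₀ hm0'.ne' h1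
    have h4 := mul_left_cancel₀ hm0'.ne' h2
    omega
  obtain ⟨R0, -, hR0⟩ := Finset.exists_subset_card_eq (s := (Finset.univ : Finset (T a0)))
    (n := c0.toNat) (by rw [Finset.card_univ]; omega)
  obtain ⟨R1, -, hR1⟩ := Finset.exists_subset_card_eq (s := (Finset.univ : Finset (T a1)))
    (n := d1.toNat) (by rw [Finset.card_univ]; omega)
  let R : ∀ b, Finset (T b) := fun b => if h : a0 = b then h ▸ R0 else
    if h : a1 = b then h ▸ R1 else ∅
  have hRa0 : (R a0).card = c0.toNat := by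
    have : R a0 = R0 := by simp [R]
    rw [this, hR0]
  have hRa1 : (R a1).card = d1.toNat := by
    have : R a1 = R1 := by simp [R, hne01]
    rw [this, hR1]
  refine restrict K β T χ (fun b => b = a0 ∨ b = a1) R (fun l' hl' hsym' heq' x' => ?_)
    l hl hsym heq x
  refine block2 (fun b : {b // b = a0 ∨ b = a1} => K b.1) (fun b => β b.1)
    (fun b => {i // i ∈ R b.1}) (fun b => hF b.1) (fun b => χ b.1) hm (fun b => δ b.1)
    (fun b => hs b.1) ⟨a0, Or.inl rfl⟩ ⟨a1, Or.inr rfl⟩ (fun h => hne01 (congrArg Subtype.val h))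
    (fun b => ?_) ?_ ?_ ?_ ?_ ?_ l' hl' hsym' heq' x'
  · rcases b.2 with h | h
    · exact Or.inl (Subtype.ext h)
    · exact Or.inr (Subtype.ext h)
  · rintro ⟨b, hb⟩
    rw [Fintype.card_coe]
    rcases hb with rfl | rfl
    · change (R b).card < (Brm (k := k) m (δ b)).card
      rw [hRa0]
      omega
    · change (R b).card < (Brm (k := k) m (δ b)).card
      rw [hRa1]
      omega
  · change ∑ v ∈ Brm (k := k) m (δ a0), (-v.ord (δ a0)) % (m : ℤ) =
      ∑ v ∈ Brm (k := k) m (δ a0), v.ord (δ a0) % (m : ℤ) + m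
    rw [hc0, hd0, e0, mul_add, mul_one]
  · change ∑ v ∈ Brm (k := k) m (δ a1), v.ord (δ a1) % (m : ℤ) =
      ∑ v ∈ Brm (k := k) m (δ a1), (-v.ord (δ a1)) % (m : ℤ) + m
    rw [hc1, hd1, e1, mul_add, mul_one]
  · change ∑ v ∈ Brm (k := k) m (δ a0), v.ord (δ a0) % (m : ℤ) ≤ _
    rw [Fintype.card_coe, hRa0, hc0, Int.toNat_of_nonneg hc0'.le]
  · change ∑ v ∈ Brm (k := k) m (δ a1), (-v.ord (δ a1)) % (m : ℤ) ≤ _
    rw [Fintype.card_coe, hRa1, hd1, Int.toNat_of_nonneg hd1'.le]

end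

end Pool.Agent.J4.H82.CC
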