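import Pool.Agent.J4.H82.CC.L

/-!
# Twisted sums over groups
-/

set_option autoImplicit false

open FF IntermediateField Pool.Agent.W603.LV Pool.Agent.W603.PV Pool.Agent.J4.H17.ZC
  Pool.Agent.N162.CV Pool.Agent.N75.CV Pool.Agent.J4.H82.PV

namespace Pool.Agent.J4.H82.CC

section

variable {k : Type} [Field k] [CharZero k] [IsAlgClosed k] {G : Type} [Group G] [Fintype G]

/-- Over a curve with rational quotient a semi-invariant function with nontrivial character has
branch points. -/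
theorem brm_nonempty {K : Type} [Field K] [Algebra k K] [IsFF k K] {β : G →* (K ≃ₐ[k] K)}
    [IsFF k (fixedField β.range)] (hF : Rat1 k (fixedField β.range)) {χ : G →* kˣ} {m : ℕ}
    (hm : 0 < m) {δ : fixedField β.range} (hs : Semi β χ m δ) (g : G) (hg : χ g ≠ 1) :
    (Brm (k := k) m δ).Nonempty := by
  classical
  by_contra hcon
  rw [Finset.not_nonempty_iff_eq_empty] at hcon
  obtain ⟨w, hw0, hw, hwm⟩ := hs
  obtain ⟨t, pt, oo, ht, h1, hp, hoo⟩ := exists_coord hF (Brm (k := k) m δ)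
  have hδ0 : δ ≠ 0 := by
    intro h
    rw [h] at hwm
    exact pow_ne_zero m hw0 hwm
  obtain ⟨J, c, R, hR0, hR, -, hJ, -⟩ := exists_normal hp ht hm hδ0 hoo
  have hJ0 : J = ∅ := by
    rw [Finset.eq_empty_iff_forall_notMem]
    intro r hr
    have h2 := (hJ r).1 hr
    rw [hcon] at h2
    exact Finset.notMem_empty _ h2
  rw [hJ0, Finset.prod_empty, map_one, mul_one] at hR
  have hRK : (R : K) ≠ 0 := fun h => hR0 (Subtype.ext h)
  have hpow : (w / (R : K)) ^ m = 1 := by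
    rw [div_pow, hwm, hR]
    push_cast
    exact div_self (pow_ne_zero m hRK)
  have hdiv : divisor k (w / (R : K)) = 0 := by
    ext v
    rw [divisor_apply, Finsupp.zero_apply]
    have h2 := v.ord_pow (w / (R : K)) m
    rw [hpow, v.ord_one] at h2
    have h3 : (m : ℤ) ≠ 0 := by exact_mod_cast hm.ne'
    rcases mul_eq_zero.1 h2.symm with h4 | h4
    · exact absurd h4 h3
    · exact h4
  obtain ⟨a, ha⟩ := const_of_divisor hdiv
  have hwR : w = algebraMap k K a * (R : K) := by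
    rw [div_eq_iff hRK] at ha
    exact ha
  have hfix : β g w = w := by
    rw [hwR, map_mul, AlgEquiv.commutes]
    congr 1
    exact R.2 ⟨β g, g, rfl⟩
  rw [hw] at hfix
  have h5 : algebraMap k K (χ g) = 1 := mul_right_cancel₀ hw0 (by rw [hfix, one_mul])
  rw [← map_one (algebraMap k K)] at h5
  exact hg (Units.ext ((algebraMap k K).injective h5))

theorem Semi.inv {K : Type} [Field K] [Algebra k K] {β : G →* (K ≃ₐ[k] K)}
    {χ : G →* kˣ} {m : ℕ} {δ : fixedField β.range} (hs : Semi β χ m δ) :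
    Semi β χ⁻¹ m δ⁻¹ := by
  obtain ⟨w, hw0, hw, hwm⟩ := hs
  refine ⟨w⁻¹, inv_ne_zero hw0, fun g => ?_, ?_⟩
  · rw [map_inv₀, hw, mul_inv, MonoidHom.inv_apply, ← map_inv₀, Units.val_inv_eq_inv_val]
  · rw [inv_pow, hwm]
    rfl

omit [Fintype G] [IsAlgClosed k] in
theorem brm_inv {F : Type} [Field F] [Algebra k F] [IsFF k F] (m : ℕ) (δ : F) :
    Brm (k := k) m δ⁻¹ = Brm (k := k) m δ := by
  ext v
  rw [mem_Brm, mem_Brm, v.ord_inv, dvd_neg]

variable {Λ : Type} [Fintype Λ] [DecidableEq Λ] (K : Λ → Type) [∀ a, Field (K a)]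
  [∀ a, Algebra k (K a)]
  [∀ a, IsFF k (K a)] (β : ∀ a, G →* (K a ≃ₐ[k] K a)) [∀ a, IsFF k (fixedField (β a).range)]
  (T : Λ → Type) [∀ a, Fintype (T a)] [∀ a, DecidableEq (T a)]

/-- the action of a family of group elements on the points of a product -/
def actFam (g : ∀ a, T a → G) (x : ∀ a, T a → Place k (K a)) : ∀ a, T a → Place k (K a) :=
  fun a i => act (β a (g a i)) (x a i)

/-- the permutation of the coordinates -/
def permFam (π : ∀ a, Equiv.Perm (T a)) (x : ∀ a, T a → Place k (K a)) :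
    ∀ a, T a → Place k (K a) := fun a i => x a (π a i)

omit [CharZero k] [IsAlgClosed k] [Fintype G] [Fintype Λ] [DecidableEq Λ] [∀ a, IsFF k (K a)]
  [∀ a, IsFF k (fixedField (β a).range)] [∀ a, Fintype (T a)] [∀ a, DecidableEq (T a)] in
theorem act_mor {M : Type} [Field M] [Algebra k M] {a : Λ} (s : K a ≃ₐ[k] K a)
    {y : Place k M → Place k (K a)} (hy : (curve k (K a)).IsMor M y) :
    (curve k (K a)).IsMor M fun P => act s (y P) := by
  rcases hy with ⟨Q, hQ⟩ | ⟨φ, hφ⟩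
  · left
    exact ⟨act s Q, fun P => congrArg (act s) (hQ P)⟩
  · right
    refine ⟨φ.comp ((s⁻¹ : K a ≃ₐ[k] K a) : K a →ₐ[k] K a), fun P => ?_⟩
    obtain ⟨e, he, h⟩ := hφ P
    exact ⟨e, he, fun f => h ((s⁻¹ : K a ≃ₐ[k] K a) f)⟩

/-- The twisted symmetric sum of a functional vanishes. -/
theorem twisted (hF : ∀ a, Rat1 k (fixedField (β a).range)) (χ : ∀ _ : Λ, G →* kˣ) {m : ℕ}
    (hm : m = 2 ∨ m = 3 ∨ m = 4) (δ : ∀ a, fixedField (β a).range)
    (hs : ∀ a, Semi (β a) (χ a) m (δ a)) (hne : ∀ a, ∃ g, χ a g ≠ 1)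
    (a0 a1 : Λ) (hn0 : ∑ v ∈ Brm (k := k) m (δ a0), v.ord (δ a0) % m ≤ m * Fintype.card (T a0))
    (hn1 : ∑ v ∈ Brm (k := k) m (δ a1), (-v.ord (δ a1)) % m ≤ m * Fintype.card (T a1))
    (h01 : a0 = a1 ∨ (∑ v ∈ Brm (k := k) m (δ a0), (-v.ord (δ a0)) % m ≤
        ∑ v ∈ Brm (k := k) m (δ a0), v.ord (δ a0) % m + m ∧
      ∑ v ∈ Brm (k := k) m (δ a1), v.ord (δ a1) % m ≤
        ∑ v ∈ Brm (k := k) m (δ a1), (-v.ord (δ a1)) % m + m))
    {Y : Var k} (F : (∀ a, T a → Place k (K a)) → Y.Pt) (hFr : Reg (X := bigV k K T) (Y := Y) F)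
    (l : (Y.Pt →₀ ℤ) →+ k) (hl : ∀ r ∈ RatEq Y, l r = 0) (x : ∀ a, T a → Place k (K a)) :
    ∑ π : (∀ a, Equiv.Perm (T a)), ∑ g : (∀ a, T a → G), (∏ a, ∏ i, ((χ a (g a i) : kˣ) : k))⁻¹ *
      l (Finsupp.single (F (actFam K β T g (permFam K T π x))) 1) = 0 := by
  classical
  have hm0 : 0 < m := by omega
  let Φ : (∀ a, Equiv.Perm (T a)) → (∀ a, T a → G) → (∀ a, T a → Place k (K a)) → Y.Pt :=
    fun π g y => F (actFam K β T g (permFam K T π y))
  have hΦ : ∀ π g, Reg (X := bigV k K T) (Y := Y) (Φ π g) := by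
    intro π g M _ _ y hy
    refine hFr M (fun P => actFam K β T g (permFam K T π (y P))) ?_
    intro a i
    exact act_mor K (β a (g a i)) (hy a (π a i))
  let L : ((∀ a, T a → Place k (K a)) →₀ ℤ) →+ k :=
    ∑ π : (∀ a, Equiv.Perm (T a)), ∑ g : (∀ a, T a → G),
      (AddMonoidHom.mulLeft (∏ a, ∏ i, ((χ a (g a i) : kˣ) : k))⁻¹).comp
        (l.comp (Finsupp.mapDomain.addMonoidHom (Φ π g)))
  have hLval : ∀ y, L (Finsupp.single y 1) = ∑ π : (∀ a, Equiv.Perm (T a)),
      ∑ g : (∀ a, T a → G), (∏ a, ∏ i, ((χ a (g a i) : kˣ) : k))⁻¹ *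
      l (Finsupp.single (Φ π g y) 1) := by
    intro y
    simp only [L, AddMonoidHom.finsetSum_apply, AddMonoidHom.comp_apply,
      AddMonoidHom.coe_mulLeft]
    refine Finset.sum_congr rfl fun π _ => Finset.sum_congr rfl fun g _ => ?_
    congr 2
    exact Finsupp.mapDomain_single
  have hL0 := legs K β T hF χ hm δ hs (fun a => by
      obtain ⟨g, hg⟩ := hne a
      exact brm_nonempty (hF a) hm0 (hs a) g hg) a0 a1 hn0 hn1 h01 L (by
    intro r hr
    simp only [L, AddMonoidHom.finsetSum_apply, AddMonoidHom.comp_apply,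
      AddMonoidHom.coe_mulLeft]
    refine Finset.sum_eq_zero fun π _ => Finset.sum_eq_zero fun g _ => ?_
    have h1 : l (Finsupp.mapDomain.addMonoidHom (Φ π g) r) = 0 := hl _ ((hΦ π g).push hr)
    rw [h1, mul_zero]) (by
    intro π' y
    rw [hLval, hLval]
    refine Fintype.sum_equiv (Equiv.mulLeft π') _ _ fun π => ?_
    rfl) (by
    intro h y
    rw [hLval, hLval, Finset.mul_sum]
    refine Finset.sum_congr rfl fun π _ => ?_
    rw [Finset.mul_sum]
    refine Fintype.sum_equiv (Equiv.mulRight (fun a i => h a (π a i))) _ _ fun g => ?_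
    have h1 : Φ π g (fun a i => act (β a (h a i)) (y a i)) =
        Φ π (g * fun a i => h a (π a i)) y := by
      change F _ = F _
      congr 1
      funext a i
      change act (β a (g a i)) (act (β a (h a (π a i))) (y a (π a i))) =
        act (β a (g a i * h a (π a i))) (y a (π a i))
      rw [map_mul, act_mul]
    have h2 : ∏ a, ∏ i, ((χ a ((g * fun a i => h a (π a i)) a i) : kˣ) : k) =
        (∏ a, ∏ i, ((χ a (g a i) : kˣ) : k)) * ∏ a, ∏ i, ((χ a (h a i) : kˣ) : k) := by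
      rw [← Finset.prod_mul_distrib]
      refine Finset.prod_congr rfl fun a _ => ?_
      rw [← Equiv.prod_comp (π a) fun i => ((χ a (h a i) : kˣ) : k), ← Finset.prod_mul_distrib]
      refine Finset.prod_congr rfl fun i _ => ?_
      change ((χ a (g a i * h a (π a i)) : kˣ) : k) = _
      rw [map_mul, Units.val_mul]
    have h3 : ∏ a, ∏ i, ((χ a (h a i) : kˣ) : k) ≠ 0 :=
      Finset.prod_ne_zero_iff.2 fun a _ => Finset.prod_ne_zero_iff.2 fun i _ => Units.ne_zero _
    rw [Equiv.coe_mulRight, h1, h2, mul_inv, ← mul_assoc, ← mul_assoc]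
    congr 1
    field_simp) x
  rw [hLval] at hL0
  exact hL0

end

end Pool.Agent.J4.H82.CC
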