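import Pool.Agent.J4.H82.CC.N
import Pool.Agent.J4.H17.ZC.G11

/-!
# Elementary form of the conditions; functions invariant under the group
-/

set_option autoImplicit false

open FF IntermediateField Pool.Agent.W603.LV Pool.Agent.W603.PV Pool.Agent.J4.H17.ZC
  Pool.Agent.N162.CV Pool.Agent.N75.CV Pool.Agent.J4.H82.PV

namespace Pool.Agent.J4.H82.CC

section

variable {k : Type} [Field k] [CharZero k] [IsAlgClosed k] {G : Type} [Group G] [Fintype G]
variable {Λ : Type} [Fintype Λ] [DecidableEq Λ] (K : Λ → Type) [∀ a, Field (K a)]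
  [∀ a, Algebra k (K a)]
  [∀ a, IsFF k (K a)] (β : ∀ a, G →* (K a ≃ₐ[k] K a)) [∀ a, IsFF k (fixedField (β a).range)]
  (T : Λ → Type) [∀ a, Fintype (T a)] [∀ a, DecidableEq (T a)]

/-- the vanishing theorem, with elementary conditions -/
theorem legs' (hF : ∀ a, Rat1 k (fixedField (β a).range)) (χ : ∀ _ : Λ, G →* kˣ) {m : ℕ}
    (hm : m = 2 ∨ m = 3 ∨ m = 4) (δ : ∀ a, fixedField (β a).range)
    (hs : ∀ a, Semi (β a) (χ a) m (δ a)) (hne : ∀ a, ∃ g, χ a g ≠ 1)
    (a0 a1 : Λ) (hn0 : ∑ v ∈ Brm (k := k) m (δ a0), v.ord (δ a0) % m ≤ m * Fintype.card (T a0))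
    (hn1 : ∑ v ∈ Brm (k := k) m (δ a1), (-v.ord (δ a1)) % m ≤ m * Fintype.card (T a1))
    (h01 : a0 = a1 ∨ (∑ v ∈ Brm (k := k) m (δ a0), (-v.ord (δ a0)) % m ≤
        ∑ v ∈ Brm (k := k) m (δ a0), v.ord (δ a0) % m + m ∧
      ∑ v ∈ Brm (k := k) m (δ a1), v.ord (δ a1) % m ≤
        ∑ v ∈ Brm (k := k) m (δ a1), (-v.ord (δ a1)) % m + m))
    (l : ((∀ a, T a → Place k (K a)) →₀ ℤ) →+ k) (hl : ∀ r ∈ RatEq (bigV k K T), l r = 0)
    (hsym : ∀ (a : Λ) (π : Equiv.Perm (T a)) (x : ∀ a, T a → Place k (K a)),
      l (Finsupp.single (Function.update x a fun i => x a (π i)) 1) = l (Finsupp.single x 1))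
    (heq : ∀ (a : Λ) (i : T a) (g : G) (x : ∀ a, T a → Place k (K a)),
      l (Finsupp.single (Function.update x a (Function.update (x a) i
        (act (β a g) (x a i)))) 1) = ((χ a g : kˣ) : k) * l (Finsupp.single x 1))
    (x : ∀ a, T a → Place k (K a)) : l (Finsupp.single x 1) = 0 := by
  classical
  refine legs K β T hF χ hm δ hs (fun a => ?_) a0 a1 hn0 hn1 h01 l hl ?_ ?_ x
  · obtain ⟨g, hg⟩ := hne a
    exact brm_nonempty (hF a) (by omega) (hs a) g hg
  · intro π x
    have key : ∀ S : Finset Λ, l (Finsupp.single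
        (fun a => if a ∈ S then (fun i => x a (π a i)) else x a) 1) = l (Finsupp.single x 1) := by
      intro S
      induction S using Finset.induction_on with
      | empty => simp
      | insert a S ha ih =>
        rw [← ih, ← hsym a (π a) (fun a => if a ∈ S then (fun i => x a (π a i)) else x a)]
        congr 2
        funext b
        by_cases hb : b = a
        · subst hb
          rw [Function.update_self, if_pos (Finset.mem_insert_self _ _), if_neg ha]
        · rw [Function.update_of_ne hb]
          by_cases hbS : b ∈ S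
          · rw [if_pos (Finset.mem_insert_of_mem hbS), if_pos hbS]
          · rw [if_neg (by rw [Finset.mem_insert, not_or]; exact ⟨hb, hbS⟩), if_neg hbS]
    have h1 := key Finset.univ
    simpa using h1
  · intro g x
    have key : ∀ S : Finset (Σ a, T a), l (Finsupp.single
        (fun a i => if (⟨a, i⟩ : Σ a, T a) ∈ S then act (β a (g a i)) (x a i) else x a i) 1) =
        (∏ p ∈ S, ((χ p.1 (g p.1 p.2) : kˣ) : k)) * l (Finsupp.single x 1) := by
      intro S
      induction S using Finset.induction_on with
      | empty => simp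
      | insert p S hp ih =>
        obtain ⟨a, i⟩ := p
        rw [Finset.prod_insert hp, mul_assoc, ← ih, ← heq a i (g a i)]
        congr 2
        funext b
        by_cases hb : b = a
        · subst hb
          rw [Function.update_self]
          funext j
          by_cases hj : j = i
          · subst hj
            rw [Function.update_self, if_pos (Finset.mem_insert_self _ _), if_neg hp]
          · rw [Function.update_of_ne hj]
            have hne : ¬ (⟨b, j⟩ : Σ a, T a) = ⟨b, i⟩ := fun h => hj (by simpa using h)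
            by_cases hbS : (⟨b, j⟩ : Σ a, T a) ∈ S
            · rw [if_pos (Finset.mem_insert_of_mem hbS), if_pos hbS]
            · rw [if_neg (by rw [Finset.mem_insert, not_or]; exact ⟨hne, hbS⟩), if_neg hbS]
        · rw [Function.update_of_ne hb]
          funext j
          have hne : ¬ (⟨b, j⟩ : Σ a, T a) = ⟨a, i⟩ := fun h => hb (congrArg Sigma.fst h)
          by_cases hbS : (⟨b, j⟩ : Σ a, T a) ∈ S
          · rw [if_pos (Finset.mem_insert_of_mem hbS), if_pos hbS]
          · rw [if_neg (by rw [Finset.mem_insert, not_or]; exact ⟨hne, hbS⟩), if_neg hbS]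
    have h1 := key Finset.univ
    simp only [Finset.mem_univ, if_true] at h1
    rw [h1, Fintype.prod_sigma]

end

section

variable {k : Type} [Field k] [CharZero k] [IsAlgClosed k] {K : Type} [Field K] [Algebra k K]
  [IsFF k K] {G : Type} [Group G] [Fintype G] (β : G →* (K ≃ₐ[k] K))
  [IsFF k (fixedField β.range)]

/-- An invariant functional on the divisors which vanishes on the principal divisors has the same
value at all points, if the quotient is rational. -/
theorem inv_const (hF : Rat1 k (fixedField β.range)) (l : (Place k K →₀ ℤ) →+ k)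
    (hl : ∀ r ∈ RatEq (curve k K), l r = 0)
    (hinv : ∀ (g : G) (P : Place k K), l (Finsupp.single (act (β g) P) 1) =
      l (Finsupp.single P 1)) (P P' : Place k K) :
    l (Finsupp.single P 1) = l (Finsupp.single P' 1) := by
  classical
  obtain ⟨t, pt, oo, ht, h1, hp, -⟩ := exists_coord hF ∅
  have hconst : ∀ P P' : Place k K, under (fixedField β.range) P =
      under (fixedField β.range) P' → l (Finsupp.single P 1) = l (Finsupp.single P' 1) := by
    intro P P' h
    obtain ⟨s, ⟨g, rfl⟩, hs⟩ := orbit β.range P P' h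
    rw [hs, hinv]
  -- a point over the point at infinity
  obtain ⟨Too, hToo, hToo2⟩ := exists_over (F := fixedField β.range) (K := K) oo
  have hd : 0 < Module.finrank (fixedField β.range) K := Module.finrank_pos
  have hne : Too.Nonempty := by
    by_contra hcon
    rw [Finset.not_nonempty_iff_eq_empty] at hcon
    rw [hcon, Finset.sum_empty] at hToo2
    omega
  obtain ⟨Q, hQ⟩ := hne
  have hQ' := (hToo Q).1 hQ
  suffices h : ∀ P : Place k K, l (Finsupp.single P 1) = l (Finsupp.single Q 1) by
    rw [h P, h P']
  intro P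
  rcases hp.all (under (fixedField β.range) P) with hP | ⟨a, ha⟩
  · exact hconst P Q (by rw [hP, hQ'])
  · have htc : t - algebraMap k _ a ≠ 0 := fun h => by
      have := transc_sub_const ht a
      rw [h] at this
      exact this isAlgebraic_zero
    set f : K := ((t - algebraMap k _ a : fixedField β.range) : K) with hf
    have hf0 : f ≠ 0 := fun h => htc (Subtype.ext h)
    have hid : (curve k K).IsMor K (fun P => P) :=
      Or.inr ⟨AlgHom.id k K, fun P => ⟨1, one_pos, fun g => by simp⟩⟩
    have h5 := hl _ (mem_ratEq (X := curve k K) (L := K) hid hf0)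
    have h6 : Finsupp.mapDomain (fun P : Place k K => P) (divisor k f) = divisor k f :=
      Finsupp.mapDomain_id
    rw [h6] at h5
    obtain ⟨Ta, hTa, hTa2⟩ := exists_over (F := fixedField β.range) (K := K) (pt a)
    have hord : ∀ R : Place k K, R.ord f = ram (fixedField β.range) R *
        (Finsupp.single (pt a) (1 : ℤ) (under (fixedField β.range) R) -
          Finsupp.single oo (1 : ℤ) (under (fixedField β.range) R)) := by
      intro R
      rw [hf, ← hp.div a]
      exact ord_under (F := fixedField β.range) R (t - algebraMap k _ a)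
    have hdis : Disjoint Ta Too := by
      rw [Finset.disjoint_left]
      intro R hR hR'
      rw [hTa] at hR
      rw [hToo] at hR'
      exact hp.ne a (hR.symm.trans hR')
    have hdiv : divisor k f = ∑ R ∈ Ta, (ram (fixedField β.range) R : ℤ) •
        Finsupp.single R (1 : ℤ) - ∑ R ∈ Too, (ram (fixedField β.range) R : ℤ) •
        Finsupp.single R (1 : ℤ) := by
      ext R
      rw [divisor_apply, hord, Finsupp.sub_apply, Finsupp.finsetSum_apply,
        Finsupp.finsetSum_apply]
      have h7 : ∀ T : Finset (Place k K), ∑ S ∈ T,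
          ((ram (fixedField β.range) S : ℤ) • Finsupp.single S (1 : ℤ)) R =
          if R ∈ T then (ram (fixedField β.range) R : ℤ) else 0 := by
        intro T
        have h8 : ∀ S ∈ T, ((ram (fixedField β.range) S : ℤ) • Finsupp.single S (1 : ℤ)) R =
            if S = R then (ram (fixedField β.range) R : ℤ) else 0 := by
          intro S _
          rw [Finsupp.smul_apply, Finsupp.single_apply, smul_eq_mul]
          split_ifs with h9
          · rw [h9, mul_one]
          · rw [mul_zero]
        rw [Finset.sum_congr rfl h8, Finset.sum_ite_eq']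
      rw [h7, h7, mul_sub]
      congr 1
      · rw [Finsupp.single_apply]
        by_cases h9 : R ∈ Ta
        · rw [if_pos h9, if_pos ((hTa R).1 h9).symm, mul_one]
        · rw [if_neg h9, if_neg (fun h => h9 ((hTa R).2 h.symm)), mul_zero]
      · rw [Finsupp.single_apply]
        by_cases h9 : R ∈ Too
        · rw [if_pos h9, if_pos ((hToo R).1 h9).symm, mul_one]
        · rw [if_neg h9, if_neg (fun h => h9 ((hToo R).2 h.symm)), mul_zero]
    rw [hdiv, map_sub, map_sum, map_sum] at h5
    have h8 : ∀ (T : Finset (Place k K)) (v : Place k (fixedField β.range)) (R0 : Place k K),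
        (∀ w, w ∈ T ↔ under (fixedField β.range) w = v) →
        under (fixedField β.range) R0 = v →
        ∑ w ∈ T, (ram (fixedField β.range) w : ℤ) = Module.finrank (fixedField β.range) K →
        ∑ R ∈ T, l ((ram (fixedField β.range) R : ℤ) • Finsupp.single R (1 : ℤ)) =
          (Module.finrank (fixedField β.range) K : k) * l (Finsupp.single R0 1) := by
      intro T v R0 hT hR0 hT2
      have h9 : ∀ R ∈ T, l ((ram (fixedField β.range) R : ℤ) • Finsupp.single R (1 : ℤ)) =
          ((ram (fixedField β.range) R : ℤ) : k) * l (Finsupp.single R0 1) := by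
        intro R hR
        rw [map_zsmul, zsmul_eq_mul, hconst R R0 (by rw [(hT R).1 hR, hR0])]
      rw [Finset.sum_congr rfl h9, ← Finset.sum_mul, ← Int.cast_sum, hT2, Int.cast_natCast]
    rw [h8 Ta (pt a) P hTa ha (by exact_mod_cast hTa2), h8 Too oo Q hToo hQ'
      (by exact_mod_cast hToo2), ← mul_sub] at h5
    have h10 : (Module.finrank (fixedField β.range) K : k) ≠ 0 := by exact_mod_cast hd.ne'
    exact sub_eq_zero.1 ((mul_eq_zero.1 h5).resolve_left h10)

end

section comb

open Equiv

/-- The combinatorial theorem with values in a rational vector space. -/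
theorem comb1M {Y : Type} [Fintype Y] [DecidableEq Y] {M : Type} [AddCommGroup M] [Module ℚ M]
    {a b : ℕ} (hn : a * b < Fintype.card Y) (Φ : Perm Y → Perm Y → M)
    (h1 : ∀ T : Finset Y, T.card = a + 1 → ∀ u v, ∑ τ ∈ PT T, Φ (u * τ) v = 0)
    (h2 : ∀ T : Finset Y, T.card = b + 1 → ∀ u v, ∑ τ ∈ PT T, Φ u (v * τ) = 0) :
    ∑ σ : Perm Y, (Perm.sign σ : ℤ) • Φ σ σ = 0 := by
  classical
  rw [← Module.forall_dual_apply_eq_zero_iff ℚ]
  intro f
  have h3 := comb1 hn (fun u v => f (Φ u v)) (fun T hT u v => by
      rw [← map_sum, h1 T hT u v, map_zero]) (fun T hT u v => by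
      rw [← map_sum, h2 T hT u v, map_zero])
  rw [map_sum, ← h3]
  refine Finset.sum_congr rfl fun σ _ => ?_
  rw [map_zsmul, zsmul_eq_mul]

end comb

end Pool.Agent.J4.H82.CC
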