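import Pool.Agent.J4.H82.CC.O

/-!
# Equivariant functionals on the powers of a product of two curves
-/

set_option autoImplicit false

open FF IntermediateField Pool.Agent.W603.LV Pool.Agent.W603.PV Pool.Agent.J4.H17.ZC
  Pool.Agent.N162.CV Pool.Agent.N75.CV Pool.Agent.J4.H82.PV Equiv

namespace Pool.Agent.J4.H82.CC

section fam

variable {L : Type}

/-- a family of two types -/
def KK (K1 K2 : Type) : L ⊕ L → Type
  | .inl _ => K1
  | .inr _ => K2

variable {k : Type} [Field k] {K1 K2 : Type} [Field K1] [Algebra k K1] [Field K2] [Algebra k K2]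
  {G : Type} [Group G] (α1 : G →* (K1 ≃ₐ[k] K1)) (α2 : G →* (K2 ≃ₐ[k] K2))

instance KK.field : ∀ a : L ⊕ L, Field (KK K1 K2 a)
  | .inl _ => inferInstanceAs (Field K1)
  | .inr _ => inferInstanceAs (Field K2)

instance KK.algebra : ∀ a : L ⊕ L, Algebra k (KK K1 K2 a)
  | .inl _ => inferInstanceAs (Algebra k K1)
  | .inr _ => inferInstanceAs (Algebra k K2)

instance KK.isFF [IsFF k K1] [IsFF k K2] : ∀ a : L ⊕ L, IsFF k (KK K1 K2 a)
  | .inl _ => inferInstanceAs (IsFF k K1)
  | .inr _ => inferInstanceAs (IsFF k K2)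

/-- the action on the family -/
def BB : ∀ a : L ⊕ L, G →* (KK K1 K2 a ≃ₐ[k] KK K1 K2 a)
  | .inl _ => α1
  | .inr _ => α2

instance BB.isFF [i1 : IsFF k (fixedField α1.range)] [i2 : IsFF k (fixedField α2.range)] :
    ∀ a : L ⊕ L, IsFF k (fixedField (BB α1 α2 a).range)
  | .inl _ => i1
  | .inr _ => i2

end fam

section

variable {k : Type} [Field k] {K1 K2 : Type} [Field K1] [Algebra k K1] [Field K2] [Algebra k K2]
  {G : Type} [CommGroup G] (α1 : G →* (K1 ≃ₐ[k] K1)) (α2 : G →* (K2 ≃ₐ[k] K2)) {n : ℕ}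

/-- permutation of the coordinates -/
def mv {A B : Type} {n : ℕ} (u v : Perm (Fin n)) (x : Fin n → A × B) : Fin n → A × B :=
  fun i => ((x (u i)).1, (x (v i)).2)

theorem mv_mv {A B : Type} {n : ℕ} (u v u' v' : Perm (Fin n)) (x : Fin n → A × B) :
    mv u' v' (mv u v x) = mv (u * u') (v * v') x := rfl

/-- the action of group elements on the coordinates -/
def ga (g h : Fin n → G) (x : Fin n → Place k K1 × Place k K2) : Fin n → Place k K1 × Place k K2 :=
  fun i => (act (α1 (g i)) (x i).1, act (α2 (h i)) (x i).2)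

theorem act_mor1 {K : Type} [Field K] [Algebra k K] {M : Type} [Field M] [Algebra k M]
    (s : K ≃ₐ[k] K) {y : Place k M → Place k K} (hy : (curve k K).IsMor M y) :
    (curve k K).IsMor M fun P => act s (y P) :=
  act_mor (Λ := Unit) (fun _ => K) (a := ()) s hy

theorem mv_reg (u v : Perm (Fin n)) :
    Reg (X := ((curve k K1).prod (curve k K2)).pow (Fin n))
      (Y := ((curve k K1).prod (curve k K2)).pow (Fin n)) (mv u v) :=
  fun _ _ _ _ hx i => ⟨(hx (u i)).1, (hx (v i)).2⟩

theorem ga_reg (g h : Fin n → G) :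
    Reg (X := ((curve k K1).prod (curve k K2)).pow (Fin n))
      (Y := ((curve k K1).prod (curve k K2)).pow (Fin n)) (ga α1 α2 g h) :=
  fun _ _ _ _ hx i => ⟨act_mor1 _ (hx i).1, act_mor1 _ (hx i).2⟩

variable [CharZero k]

/-- the functions which define functionals vanishing on the cycles rationally equivalent to zero
and which have given characters in the coordinates -/
def Adm (κ : Fin n → (G →* kˣ)) : Submodule ℚ ((Fin n → Place k K1 × Place k K2) → k) where
  carrier := {φ | (∀ r ∈ RatEq (((curve k K1).prod (curve k K2)).pow (Fin n)),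
      Finsupp.linearCombination ℤ φ r = 0) ∧
    ∀ g h x, φ (ga α1 α2 g h x) =
      (∏ i, ((κ i (g i) : kˣ) : k)) * (∏ i, ((κ i (h i) : kˣ) : k))⁻¹ * φ x}
  zero_mem' := ⟨fun r _ => by simp, fun g h x => by simp⟩
  add_mem' := fun {a b} ha hb => ⟨fun r hr => by
      have h1 : Finsupp.linearCombination ℤ (a + b) r = Finsupp.linearCombination ℤ a r +
          Finsupp.linearCombination ℤ b r := by
        simp only [Finsupp.linearCombination_apply, Finsupp.sum, Pi.add_apply, smul_add,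
          Finset.sum_add_distrib]
      rw [h1, ha.1 r hr, hb.1 r hr, add_zero], fun g h x => by
      rw [Pi.add_apply, Pi.add_apply, ha.2, hb.2, mul_add]⟩
  smul_mem' := fun c a ha => ⟨fun r hr => by
      have h1 : Finsupp.linearCombination ℤ (c • a) r = c • Finsupp.linearCombination ℤ a r := by
        simp only [Finsupp.linearCombination_apply, Finsupp.sum, Pi.smul_apply, Finset.smul_sum,
          smul_comm c]
      rw [h1, ha.1 r hr, smul_zero], fun g h x => by
      rw [Pi.smul_apply, Pi.smul_apply, ha.2, mul_smul_comm]⟩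

theorem mv_ga (u v : Perm (Fin n)) (g h : Fin n → G) (x : Fin n → Place k K1 × Place k K2) :
    mv u v (ga α1 α2 g h x) = ga α1 α2 (fun i => g (u i)) (fun i => h (v i)) (mv u v x) := rfl

/-- the permutation of the coordinates as an operator -/
def PP {A B : Type} {n : ℕ} (u v : Perm (Fin n)) :
    ((Fin n → A × B) → k) →ₗ[ℚ] ((Fin n → A × B) → k) where
  toFun φ := fun x => φ (mv u v x)
  map_add' _ _ := rfl
  map_smul' _ _ := rfl

theorem PP_apply {A B : Type} {n : ℕ} (u v : Perm (Fin n)) (φ : (Fin n → A × B) → k)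
    (x : Fin n → A × B) : PP u v φ x = φ (mv u v x) := rfl

theorem PP_PP {A B : Type} {n : ℕ} (u v u' v' : Perm (Fin n)) (φ : (Fin n → A × B) → k) :
    PP u v (PP u' v' φ) = PP (u * u') (v * v') φ := rfl

theorem PP_one {A B : Type} {n : ℕ} (φ : (Fin n → A × B) → k) : PP 1 1 φ = φ := rfl

theorem PP_mem {κ : Fin n → (G →* kˣ)} {u v : Perm (Fin n)} (hu : ∀ i, κ (u i) = κ i)
    (hv : ∀ i, κ (v i) = κ i) {φ : (Fin n → Place k K1 × Place k K2) → k}
    (hφ : φ ∈ Adm α1 α2 κ) : PP u v φ ∈ Adm α1 α2 κ := by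
  refine ⟨fun r hr => ?_, fun g h x => ?_⟩
  · have h1 := hφ.1 _ ((mv_reg (k := k) (K1 := K1) (K2 := K2) u v).push hr)
    rw [Finsupp.linearCombination_mapDomain] at h1
    exact h1
  · rw [PP_apply, mv_ga, hφ.2, PP_apply]
    congr 2
    · rw [← Equiv.prod_comp u fun i => ((κ i (g i) : kˣ) : k)]
      exact Finset.prod_congr rfl fun i _ => by rw [hu]
    · congr 1
      rw [← Equiv.prod_comp v fun i => ((κ i (h i) : kˣ) : k)]
      exact Finset.prod_congr rfl fun i _ => by rw [hv]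

/-- in one coordinate on the first curve -/
theorem adm_left {κ : Fin n → (G →* kˣ)} {φ : (Fin n → Place k K1 × Place k K2) → k}
    (hφ : φ ∈ Adm α1 α2 κ) (i : Fin n) (g : G) (x : Fin n → Place k K1 × Place k K2) :
    φ (Function.update x i (act (α1 g) (x i).1, (x i).2)) = ((κ i g : kˣ) : k) * φ x := by
  classical
  have h1 := hφ.2 (Pi.mulSingle i g) 1 x
  have h2 : ga α1 α2 (Pi.mulSingle i g) 1 x =
      Function.update x i (act (α1 g) (x i).1, (x i).2) := by
    funext j
    by_cases hj : j = i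
    · subst hj
      rw [Function.update_self]
      unfold ga
      rw [Pi.mulSingle_eq_same, Pi.one_apply, map_one, act_one]
    · rw [Function.update_of_ne hj]
      unfold ga
      rw [Pi.mulSingle_eq_of_ne hj, Pi.one_apply, map_one, map_one, act_one, act_one]
  rw [h2] at h1
  rw [h1]
  have h3 : ∏ j, ((κ j ((Pi.mulSingle i g : Fin n → G) j) : kˣ) : k) = ((κ i g : kˣ) : k) := by
    rw [Finset.prod_eq_single i]
    · rw [Pi.mulSingle_eq_same]
    · intro j _ hj
      rw [Pi.mulSingle_eq_of_ne hj, map_one, Units.val_one]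
    · intro h; exact absurd (Finset.mem_univ _) h
  rw [h3]
  simp

/-- in one coordinate on the second curve -/
theorem adm_right {κ : Fin n → (G →* kˣ)} {φ : (Fin n → Place k K1 × Place k K2) → k}
    (hφ : φ ∈ Adm α1 α2 κ) (i : Fin n) (g : G) (x : Fin n → Place k K1 × Place k K2) :
    φ (Function.update x i ((x i).1, act (α2 g) (x i).2)) = ((κ i g : kˣ) : k)⁻¹ * φ x := by
  classical
  have h1 := hφ.2 1 (Pi.mulSingle i g) x
  have h2 : ga α1 α2 1 (Pi.mulSingle i g) x =
      Function.update x i ((x i).1, act (α2 g) (x i).2) := by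
    funext j
    by_cases hj : j = i
    · subst hj
      rw [Function.update_self]
      unfold ga
      rw [Pi.mulSingle_eq_same, Pi.one_apply, map_one, act_one]
    · rw [Function.update_of_ne hj]
      unfold ga
      rw [Pi.mulSingle_eq_of_ne hj, Pi.one_apply, map_one, map_one, act_one, act_one]
  rw [h2] at h1
  rw [h1]
  have h3 : ∏ j, ((κ j ((Pi.mulSingle i g : Fin n → G) j) : kˣ) : k) = ((κ i g : kˣ) : k) := by
    rw [Finset.prod_eq_single i]
    · rw [Pi.mulSingle_eq_same]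
    · intro j _ hj
      rw [Pi.mulSingle_eq_of_ne hj, map_one, Units.val_one]
    · intro h; exact absurd (Finset.mem_univ _) h
  rw [h3]
  simp

end

section kill

variable {k : Type} [Field k] [CharZero k] [IsAlgClosed k] {K1 K2 : Type} [Field K1]
  [Algebra k K1] [Field K2] [Algebra k K2] [IsFF k K1] [IsFF k K2]
  {G : Type} [CommGroup G] [Fintype G] (α1 : G →* (K1 ≃ₐ[k] K1)) (α2 : G →* (K2 ≃ₐ[k] K2))
  {n : ℕ}

/-- the character of a leg -/
def chr : (G →* kˣ) ⊕ (G →* kˣ) → (G →* kˣ)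
  | .inl c => c
  | .inr c => c

/-- the character of the action -/
def chA : (G →* kˣ) ⊕ (G →* kˣ) → (G →* kˣ)
  | .inl c => c
  | .inr c => c⁻¹

/-- the permutation of the coordinates of a leg -/
def mvL {A B : Type} {n : ℕ} (ℓ : (G →* kˣ) ⊕ (G →* kˣ)) (τ : Perm (Fin n)) :
    (Fin n → A × B) → (Fin n → A × B) :=
  match ℓ with
  | .inl _ => mv τ 1
  | .inr _ => mv 1 τ

/-- symmetric in the coordinates of a subset -/
def Sy {A B : Type} {n : ℕ} (ℓ : (G →* kˣ) ⊕ (G →* kˣ)) (T : Finset (Fin n))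
    (ψ : (Fin n → A × B) → k) : Prop :=
  ∀ τ ∈ PT T, ∀ x, ψ (mvL ℓ τ x) = ψ x

/-- The conditions for a curve: there are semi-invariant functions for the nontrivial characters,
with the given multiplicities. -/
def Datum {K : Type} [Field K] [Algebra k K] (α : G →* (K ≃ₐ[k] K))
    [IsFF k (fixedField α.range)] (m : ℕ) (q : (G →* kˣ) → ℕ) : Prop :=
  Rat1 k (fixedField α.range) ∧ ∀ χ : G →* kˣ, χ ≠ 1 → ∃ δ : fixedField α.range, Semi α χ m δ ∧
    ∑ v ∈ Brm (k := k) m δ, v.ord δ % m = m * (q χ⁻¹ + 1) ∧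
    ∑ v ∈ Brm (k := k) m δ, (-v.ord δ) % m = m * (q χ + 1)

/-- the multiplicity for a leg -/
def qL (q1 q2 : (G →* kˣ) → ℕ) : (G →* kˣ) ⊕ (G →* kˣ) → ℕ
  | .inl c => q1 c
  | .inr c => q2 c⁻¹

/-- the conjugate multiplicity for a leg -/
def pL (q1 q2 : (G →* kˣ) → ℕ) : (G →* kˣ) ⊕ (G →* kˣ) → ℕ
  | .inl c => q1 c⁻¹
  | .inr c => q2 c

variable [IsFF k (fixedField α1.range)] [IsFF k (fixedField α2.range)]

open Classical in
/-- the points with given coordinates -/
noncomputable def RR' (κ : Fin n → (G →* kˣ)) (s : Finset ((G →* kˣ) ⊕ (G →* kˣ)))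
    (TT : (G →* kˣ) ⊕ (G →* kˣ) → Finset (Fin n)) (x : Fin n → Place k K1 × Place k K2)
    (y : ∀ a : {ℓ // ℓ ∈ s}, {i // i ∈ TT a.1} → Place k (KK K1 K2 a.1)) :
    Fin n → Place k K1 × Place k K2 := fun i =>
  (if h : (.inl (κ i) : (G →* kˣ) ⊕ (G →* kˣ)) ∈ s ∧ i ∈ TT (.inl (κ i)) then
    y ⟨.inl (κ i), h.1⟩ ⟨i, h.2⟩ else (x i).1,
   if h : (.inr (κ i) : (G →* kˣ) ⊕ (G →* kˣ)) ∈ s ∧ i ∈ TT (.inr (κ i)) then
    y ⟨.inr (κ i), h.1⟩ ⟨i, h.2⟩ else (x i).2)

end kill

end Pool.Agent.J4.H82.CC
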