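import Pool.Agent.J4.H82.CC.P

/-!
# Equivariant functionals on the powers of a product of two curves which are symmetric in
sufficiently many coordinates
-/

set_option autoImplicit false

open FF IntermediateField Pool.Agent.W603.LV Pool.Agent.W603.PV Pool.Agent.J4.H17.ZC
  Pool.Agent.N162.CV Pool.Agent.N75.CV Pool.Agent.J4.H82.PV Equiv

namespace Pool.Agent.J4.H82.CC

section kill

variable {k : Type} [Field k] [CharZero k] [IsAlgClosed k] {K1 K2 : Type} [Field K1]
  [Algebra k K1] [Field K2] [Algebra k K2] [IsFF k K1] [IsFF k K2]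
  {G : Type} [CommGroup G] [Fintype G] (α1 : G →* (K1 ≃ₐ[k] K1)) (α2 : G →* (K2 ≃ₐ[k] K2))
  {n : ℕ} [IsFF k (fixedField α1.range)] [IsFF k (fixedField α2.range)]

omit [CharZero k] [IsAlgClosed k] [Fintype G] in
theorem inv_inv'' (c : G →* kˣ) : c⁻¹⁻¹ = c := by
  ext g
  rw [MonoidHom.inv_apply, MonoidHom.inv_apply, inv_inv]

omit [CharZero k] [IsAlgClosed k] [Fintype G] in
theorem inv_ne_one'' {c : G →* kˣ} (h : c ≠ 1) : c⁻¹ ≠ 1 := by
  intro h'
  apply h
  ext g
  have h1 := DFunLike.congr_fun h' g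
  rw [MonoidHom.inv_apply, MonoidHom.one_apply, inv_eq_one] at h1
  rw [h1]
  rfl

section rr

variable (κ : Fin n → (G →* kˣ)) (s : Finset ((G →* kˣ) ⊕ (G →* kˣ)))
    (TT : (G →* kˣ) ⊕ (G →* kˣ) → Finset (Fin n)) (x : Fin n → Place k K1 × Place k K2)
    (y : ∀ a : {ℓ // ℓ ∈ s}, {i // i ∈ TT a.1} → Place k (KK K1 K2 a.1))

theorem RR_fst (hTT : ∀ ℓ ∈ s, ∀ i ∈ TT ℓ, κ i = chr ℓ) (c : G →* kˣ)
    (hc : (.inl c : (G →* kˣ) ⊕ (G →* kˣ)) ∈ s) (i : Fin n) (hi : i ∈ TT (.inl c)) :
    (RR' κ s TT x y i).1 = y ⟨.inl c, hc⟩ ⟨i, hi⟩ := by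
  obtain rfl : κ i = c := hTT _ hc i hi
  exact dif_pos (c := _ ∧ _) ⟨hc, hi⟩

theorem RR_snd (hTT : ∀ ℓ ∈ s, ∀ i ∈ TT ℓ, κ i = chr ℓ) (c : G →* kˣ)
    (hc : (.inr c : (G →* kˣ) ⊕ (G →* kˣ)) ∈ s) (i : Fin n) (hi : i ∈ TT (.inr c)) :
    (RR' κ s TT x y i).2 = y ⟨.inr c, hc⟩ ⟨i, hi⟩ := by
  obtain rfl : κ i = c := hTT _ hc i hi
  exact dif_pos (c := _ ∧ _) ⟨hc, hi⟩

theorem RR_fst' (i : Fin n) (h : ¬ ((.inl (κ i) : (G →* kˣ) ⊕ (G →* kˣ)) ∈ s ∧
    i ∈ TT (.inl (κ i)))) : (RR' κ s TT x y i).1 = (x i).1 := by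
  exact dif_neg h

theorem RR_snd' (i : Fin n) (h : ¬ ((.inr (κ i) : (G →* kˣ) ⊕ (G →* kˣ)) ∈ s ∧
    i ∈ TT (.inr (κ i)))) : (RR' κ s TT x y i).2 = (x i).2 := by
  exact dif_neg h

end rr

/-- A function which is symmetric in sufficiently many coordinates is zero. -/
theorem kill_aux {m : ℕ} (hm : m = 2 ∨ m = 3 ∨ m = 4) {q1 q2 : (G →* kˣ) → ℕ}
    (hd1 : Datum α1 m q1) (hd2 : Datum α2 m q2) {κ : Fin n → (G →* kˣ)}
    {ψ : (Fin n → Place k K1 × Place k K2) → k} (hψ : ψ ∈ Adm α1 α2 κ)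
    (s : Finset ((G →* kˣ) ⊕ (G →* kˣ))) (hs : ∀ ℓ ∈ s, chr ℓ ≠ 1)
    (TT : (G →* kˣ) ⊕ (G →* kˣ) → Finset (Fin n)) (hTT : ∀ ℓ ∈ s, ∀ i ∈ TT ℓ, κ i = chr ℓ)
    (hSy : ∀ ℓ ∈ s, Sy ℓ (TT ℓ) ψ) (ℓ0 ℓ1 : (G →* kˣ) ⊕ (G →* kˣ)) (h0 : ℓ0 ∈ s) (h1 : ℓ1 ∈ s)
    (hn0 : pL q1 q2 ℓ0 + 1 ≤ (TT ℓ0).card) (hn1 : qL q1 q2 ℓ1 + 1 ≤ (TT ℓ1).card)
    (hbal : ℓ0 = ℓ1 ∨ (qL q1 q2 ℓ0 ≤ pL q1 q2 ℓ0 + 1 ∧ pL q1 q2 ℓ1 ≤ qL q1 q2 ℓ1 + 1)) :
    ψ = 0 := by
  classical
  have hex : ∀ a : {ℓ // ℓ ∈ s}, ∃ δ : fixedField (BB α1 α2 a.1).range,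
      Semi (BB α1 α2 a.1) (chA a.1) m δ ∧
      ∑ v ∈ Brm (k := k) m δ, v.ord δ % m = m * (pL q1 q2 a.1 + 1) ∧
      ∑ v ∈ Brm (k := k) m δ, (-v.ord δ) % m = m * (qL q1 q2 a.1 + 1) := by
    rintro ⟨ℓ, hℓ⟩
    rcases ℓ with c | c
    · exact hd1.2 c (hs _ hℓ)
    · have hc : c⁻¹ ≠ 1 := inv_ne_one'' (hs _ hℓ)
      obtain ⟨δ, hδ, hδ1, hδ2⟩ := hd2.2 c⁻¹ hc
      rw [inv_inv''] at hδ1
      exact ⟨δ, hδ, hδ1, hδ2⟩
  choose δ hδ hδ1 hδ2 using hex
  funext x
  let R : (∀ a : {ℓ // ℓ ∈ s}, {i // i ∈ TT a.1} → Place k (KK K1 K2 a.1)) →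
      (Fin n → Place k K1 × Place k K2) := fun y => RR' κ s TT x y
  let l : ((∀ a : {ℓ // ℓ ∈ s}, {i // i ∈ TT a.1} → Place k (KK K1 K2 a.1)) →₀ ℤ) →+ k :=
    (Finsupp.linearCombination ℤ fun y => ψ (R y)).toAddMonoidHom
  have hl1 : ∀ y, l (Finsupp.single y 1) = ψ (R y) := by
    intro y
    change Finsupp.linearCombination ℤ _ (Finsupp.single y 1) = _
    rw [Finsupp.linearCombination_single, one_smul]
  have hreg : Reg (X := bigV k (fun a : {ℓ // ℓ ∈ s} => KK K1 K2 a.1)
      (fun a => {i // i ∈ TT a.1})) (Y := ((curve k K1).prod (curve k K2)).pow (Fin n)) R := by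
    intro M _ _ y hy i
    constructor
    · by_cases h : (.inl (κ i) : (G →* kˣ) ⊕ (G →* kˣ)) ∈ s ∧ i ∈ TT (.inl (κ i))
      · have h3 : (fun P => (R (y P) i).1) = fun P => y P ⟨.inl (κ i), h.1⟩ ⟨i, h.2⟩ := by
          funext P
          exact RR_fst κ s TT x (y P) hTT (κ i) h.1 i h.2
        rw [h3]
        exact hy ⟨.inl (κ i), h.1⟩ ⟨i, h.2⟩
      · left
        exact ⟨(x i).1, fun P => RR_fst' κ s TT x (y P) i h⟩
    · by_cases h : (.inr (κ i) : (G →* kˣ) ⊕ (G →* kˣ)) ∈ s ∧ i ∈ TT (.inr (κ i))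
      · have h3 : (fun P => (R (y P) i).2) = fun P => y P ⟨.inr (κ i), h.1⟩ ⟨i, h.2⟩ := by
          funext P
          exact RR_snd κ s TT x (y P) hTT (κ i) h.1 i h.2
        rw [h3]
        exact hy ⟨.inr (κ i), h.1⟩ ⟨i, h.2⟩
      · left
        exact ⟨(x i).2, fun P => RR_snd' κ s TT x (y P) i h⟩
  -- the coordinates of the given point
  let y0 : ∀ a : {ℓ // ℓ ∈ s}, {i // i ∈ TT a.1} → Place k (KK K1 K2 a.1) := fun a i =>
    match a with
    | ⟨.inl _, _⟩ => (x i.1).1
    | ⟨.inr _, _⟩ => (x i.1).2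
  have hy0 : R y0 = x := by
    funext i
    refine Prod.ext ?_ ?_
    · by_cases h : (.inl (κ i) : (G →* kˣ) ⊕ (G →* kˣ)) ∈ s ∧ i ∈ TT (.inl (κ i))
      · exact RR_fst κ s TT x y0 hTT (κ i) h.1 i h.2
      · exact RR_fst' κ s TT x y0 i h
    · by_cases h : (.inr (κ i) : (G →* kˣ) ⊕ (G →* kˣ)) ∈ s ∧ i ∈ TT (.inr (κ i))
      · exact RR_snd κ s TT x y0 hTT (κ i) h.1 i h.2
      · exact RR_snd' κ s TT x y0 i h
  have main := legs' (fun a : {ℓ // ℓ ∈ s} => KK K1 K2 a.1) (fun a => BB α1 α2 a.1)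
    (fun a => {i // i ∈ TT a.1}) (by
      rintro ⟨ℓ, hℓ⟩
      rcases ℓ with c | c
      · exact hd1.1
      · exact hd2.1) (fun a => chA a.1) hm δ hδ (by
      rintro ⟨ℓ, hℓ⟩
      have h3 : chA ℓ ≠ 1 := by
        rcases ℓ with c | c
        · exact hs _ hℓ
        · exact inv_ne_one'' (hs _ hℓ)
      by_contra hcon
      push Not at hcon
      exact h3 (MonoidHom.ext hcon)) ⟨ℓ0, h0⟩ ⟨ℓ1, h1⟩ (by
      rw [hδ1, Fintype.card_coe]
      exact mul_le_mul_of_nonneg_left (by exact_mod_cast hn0) (Int.natCast_nonneg m)) (by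
      rw [hδ2, Fintype.card_coe]
      exact mul_le_mul_of_nonneg_left (by exact_mod_cast hn1) (Int.natCast_nonneg m)) (by
      rcases hbal with h | ⟨h, h'⟩
      · exact Or.inl (Subtype.ext h)
      · right
        rw [hδ1, hδ2, hδ1, hδ2]
        have hm0 : (0 : ℤ) ≤ m := Int.natCast_nonneg m
        constructor
        · have h3 : (qL q1 q2 ℓ0 : ℤ) + 1 ≤ (pL q1 q2 ℓ0 + 1) + 1 := by exact_mod_cast (by omega)
          have h4 := mul_le_mul_of_nonneg_left h3 hm0
          rw [mul_add (m : ℤ) ((pL q1 q2 ℓ0 : ℤ) + 1) 1, mul_one] at h4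
          exact h4
        · have h3 : (pL q1 q2 ℓ1 : ℤ) + 1 ≤ (qL q1 q2 ℓ1 + 1) + 1 := by exact_mod_cast (by omega)
          have h4 := mul_le_mul_of_nonneg_left h3 hm0
          rw [mul_add (m : ℤ) ((qL q1 q2 ℓ1 : ℤ) + 1) 1, mul_one] at h4
          exact h4) l (by
      intro r hr
      change Finsupp.linearCombination ℤ (ψ ∘ R) r = 0
      rw [← Finsupp.linearCombination_mapDomain]
      exact hψ.1 _ (hreg.push hr)) (by
      rintro ⟨ℓ, hℓ⟩ π y
      rw [hl1, hl1, ← hSy ℓ hℓ (Perm.ofSubtype π) (by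
        rw [mem_PT]
        intro i hi
        exact Perm.ofSubtype_apply_of_not_mem π hi) (R y)]
      congr 1
      rcases ℓ with c | c
      · funext i
        refine Prod.ext ?_ ?_
        · change (R (Function.update y ⟨.inl c, hℓ⟩ fun i => y ⟨.inl c, hℓ⟩ (π i)) i).1 =
            (R y (Perm.ofSubtype π i)).1
          by_cases hi : i ∈ TT (.inl c)
          · rw [Perm.ofSubtype_apply_of_mem π hi]
            refine (RR_fst κ s TT x _ hTT c hℓ i hi).trans ?_
            rw [Function.update_self]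
            exact (RR_fst κ s TT x y hTT c hℓ _ (π ⟨i, hi⟩).2).symm
          · rw [Perm.ofSubtype_apply_of_not_mem π hi]
            by_cases h : (.inl (κ i) : (G →* kˣ) ⊕ (G →* kˣ)) ∈ s ∧ i ∈ TT (.inl (κ i))
            · refine (RR_fst κ s TT x _ hTT (κ i) h.1 i h.2).trans ?_
              have hne : (⟨.inl (κ i), h.1⟩ : {ℓ // ℓ ∈ s}) ≠ ⟨.inl c, hℓ⟩ := by
                intro h3
                have h4 : κ i = c := Sum.inl_injective (congrArg Subtype.val h3)
                exact hi (h4 ▸ h.2)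
              rw [Function.update_of_ne hne]
              exact (RR_fst κ s TT x y hTT (κ i) h.1 i h.2).symm
            · exact (RR_fst' κ s TT x _ i h).trans (RR_fst' κ s TT x y i h).symm
        · change (R (Function.update y ⟨.inl c, hℓ⟩ fun i => y ⟨.inl c, hℓ⟩ (π i)) i).2 =
            (R y i).2
          by_cases h : (.inr (κ i) : (G →* kˣ) ⊕ (G →* kˣ)) ∈ s ∧ i ∈ TT (.inr (κ i))
          · refine (RR_snd κ s TT x _ hTT (κ i) h.1 i h.2).trans ?_
            have hne : (⟨.inr (κ i), h.1⟩ : {ℓ // ℓ ∈ s}) ≠ ⟨.inl c, hℓ⟩ := by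
              intro h3
              have h4 := congrArg Subtype.val h3
              exact Sum.inr_ne_inl h4
            rw [Function.update_of_ne hne]
            exact (RR_snd κ s TT x y hTT (κ i) h.1 i h.2).symm
          · exact (RR_snd' κ s TT x _ i h).trans (RR_snd' κ s TT x y i h).symm
      · funext i
        refine Prod.ext ?_ ?_
        · change (R (Function.update y ⟨.inr c, hℓ⟩ fun i => y ⟨.inr c, hℓ⟩ (π i)) i).1 =
            (R y i).1
          by_cases h : (.inl (κ i) : (G →* kˣ) ⊕ (G →* kˣ)) ∈ s ∧ i ∈ TT (.inl (κ i))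
          · refine (RR_fst κ s TT x _ hTT (κ i) h.1 i h.2).trans ?_
            have hne : (⟨.inl (κ i), h.1⟩ : {ℓ // ℓ ∈ s}) ≠ ⟨.inr c, hℓ⟩ := by
              intro h3
              have h4 := congrArg Subtype.val h3
              exact Sum.inl_ne_inr h4
            rw [Function.update_of_ne hne]
            exact (RR_fst κ s TT x y hTT (κ i) h.1 i h.2).symm
          · exact (RR_fst' κ s TT x _ i h).trans (RR_fst' κ s TT x y i h).symm
        · change (R (Function.update y ⟨.inr c, hℓ⟩ fun i => y ⟨.inr c, hℓ⟩ (π i)) i).2 =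
            (R y (Perm.ofSubtype π i)).2
          by_cases hi : i ∈ TT (.inr c)
          · rw [Perm.ofSubtype_apply_of_mem π hi]
            refine (RR_snd κ s TT x _ hTT c hℓ i hi).trans ?_
            rw [Function.update_self]
            exact (RR_snd κ s TT x y hTT c hℓ _ (π ⟨i, hi⟩).2).symm
          · rw [Perm.ofSubtype_apply_of_not_mem π hi]
            by_cases h : (.inr (κ i) : (G →* kˣ) ⊕ (G →* kˣ)) ∈ s ∧ i ∈ TT (.inr (κ i))
            · refine (RR_snd κ s TT x _ hTT (κ i) h.1 i h.2).trans ?_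
              have hne : (⟨.inr (κ i), h.1⟩ : {ℓ // ℓ ∈ s}) ≠ ⟨.inr c, hℓ⟩ := by
                intro h3
                have h4 : κ i = c := Sum.inr_injective (congrArg Subtype.val h3)
                exact hi (h4 ▸ h.2)
              rw [Function.update_of_ne hne]
              exact (RR_snd κ s TT x y hTT (κ i) h.1 i h.2).symm
            · exact (RR_snd' κ s TT x _ i h).trans (RR_snd' κ s TT x y i h).symm) (by
      rintro ⟨ℓ, hℓ⟩ ⟨i, hi⟩ g y
      rw [hl1, hl1]
      rcases ℓ with c | c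
      · have hκ : κ i = c := hTT _ hℓ i hi
        have h3 := adm_left α1 α2 hψ i g (R y)
        rw [hκ] at h3
        refine Eq.trans (congrArg ψ ?_) h3
        funext j
        refine Prod.ext ?_ ?_
        · by_cases hj : j ∈ TT (.inl c)
          · refine (RR_fst κ s TT x _ hTT c hℓ j hj).trans ?_
            rw [Function.update_self]
            by_cases hji : j = i
            · subst hji
              rw [Function.update_self, Function.update_self]
              exact congrArg (act (α1 g)) (RR_fst κ s TT x y hTT c hℓ j hj).symm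
            · rw [Function.update_of_ne (fun h => hji (congrArg Subtype.val h)),
                Function.update_of_ne hji]
              exact (RR_fst κ s TT x y hTT c hℓ j hj).symm
          · have hji : j ≠ i := fun h => hj (h ▸ hi)
            rw [Function.update_of_ne hji]
            by_cases h : (.inl (κ j) : (G →* kˣ) ⊕ (G →* kˣ)) ∈ s ∧ j ∈ TT (.inl (κ j))
            · refine (RR_fst κ s TT x _ hTT (κ j) h.1 j h.2).trans ?_
              have hne : (⟨.inl (κ j), h.1⟩ : {ℓ // ℓ ∈ s}) ≠ ⟨.inl c, hℓ⟩ := by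
                intro h3
                have h4 : κ j = c := Sum.inl_injective (congrArg Subtype.val h3)
                exact hj (h4 ▸ h.2)
              rw [Function.update_of_ne hne]
              exact (RR_fst κ s TT x y hTT (κ j) h.1 j h.2).symm
            · exact (RR_fst' κ s TT x _ j h).trans (RR_fst' κ s TT x y j h).symm
        · have h5 : (Function.update (R y) i (act (α1 g) (R y i).1, (R y i).2) j).2 =
              (R y j).2 := by
            by_cases hji : j = i
            · subst hji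
              rw [Function.update_self]
            · rw [Function.update_of_ne hji]
          rw [h5]
          by_cases h : (.inr (κ j) : (G →* kˣ) ⊕ (G →* kˣ)) ∈ s ∧ j ∈ TT (.inr (κ j))
          · refine (RR_snd κ s TT x _ hTT (κ j) h.1 j h.2).trans ?_
            have hne : (⟨.inr (κ j), h.1⟩ : {ℓ // ℓ ∈ s}) ≠ ⟨.inl c, hℓ⟩ := by
              intro h3
              have h4 := congrArg Subtype.val h3
              exact Sum.inr_ne_inl h4
            rw [Function.update_of_ne hne]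
            exact (RR_snd κ s TT x y hTT (κ j) h.1 j h.2).symm
          · exact (RR_snd' κ s TT x _ j h).trans (RR_snd' κ s TT x y j h).symm
      · have hκ : κ i = c := hTT _ hℓ i hi
        have h3 := adm_right α1 α2 hψ i g (R y)
        rw [hκ] at h3
        have h6 : ((chA (.inr c : (G →* kˣ) ⊕ (G →* kˣ)) g : kˣ) : k) = ((c g : kˣ) : k)⁻¹ := by
          change ((c⁻¹ g : kˣ) : k) = _
          rw [MonoidHom.inv_apply, Units.val_inv_eq_inv_val]
        rw [h6]
        refine Eq.trans (congrArg ψ ?_) h3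
        funext j
        refine Prod.ext ?_ ?_
        · have h5 : (Function.update (R y) i ((R y i).1, act (α2 g) (R y i).2) j).1 =
              (R y j).1 := by
            by_cases hji : j = i
            · subst hji
              rw [Function.update_self]
            · rw [Function.update_of_ne hji]
          rw [h5]
          by_cases h : (.inl (κ j) : (G →* kˣ) ⊕ (G →* kˣ)) ∈ s ∧ j ∈ TT (.inl (κ j))
          · refine (RR_fst κ s TT x _ hTT (κ j) h.1 j h.2).trans ?_
            have hne : (⟨.inl (κ j), h.1⟩ : {ℓ // ℓ ∈ s}) ≠ ⟨.inr c, hℓ⟩ := by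
              intro h3
              have h4 := congrArg Subtype.val h3
              exact Sum.inl_ne_inr h4
            rw [Function.update_of_ne hne]
            exact (RR_fst κ s TT x y hTT (κ j) h.1 j h.2).symm
          · exact (RR_fst' κ s TT x _ j h).trans (RR_fst' κ s TT x y j h).symm
        · by_cases hj : j ∈ TT (.inr c)
          · refine (RR_snd κ s TT x _ hTT c hℓ j hj).trans ?_
            rw [Function.update_self]
            by_cases hji : j = i
            · subst hji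
              rw [Function.update_self, Function.update_self]
              exact congrArg (act (α2 g)) (RR_snd κ s TT x y hTT c hℓ j hj).symm
            · rw [Function.update_of_ne (fun h => hji (congrArg Subtype.val h)),
                Function.update_of_ne hji]
              exact (RR_snd κ s TT x y hTT c hℓ j hj).symm
          · have hji : j ≠ i := fun h => hj (h ▸ hi)
            rw [Function.update_of_ne hji]
            by_cases h : (.inr (κ j) : (G →* kˣ) ⊕ (G →* kˣ)) ∈ s ∧ j ∈ TT (.inr (κ j))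
            · refine (RR_snd κ s TT x _ hTT (κ j) h.1 j h.2).trans ?_
              have hne : (⟨.inr (κ j), h.1⟩ : {ℓ // ℓ ∈ s}) ≠ ⟨.inr c, hℓ⟩ := by
                intro h3
                have h4 : κ j = c := Sum.inr_injective (congrArg Subtype.val h3)
                exact hj (h4 ▸ h.2)
              rw [Function.update_of_ne hne]
              exact (RR_snd κ s TT x y hTT (κ j) h.1 j h.2).symm
            · exact (RR_snd' κ s TT x _ j h).trans (RR_snd' κ s TT x y j h).symm) y0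
  rw [hl1, hy0] at main
  exact main

end kill

end Pool.Agent.J4.H82.CC
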