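import Pool.Agent.J4.H82.CC.Q

/-!
# Alternating sums of equivariant functionals
-/

set_option autoImplicit false

open FF IntermediateField Pool.Agent.W603.LV Pool.Agent.W603.PV Pool.Agent.J4.H17.ZC
  Pool.Agent.N162.CV Pool.Agent.N75.CV Pool.Agent.J4.H82.PV Equiv

namespace Pool.Agent.J4.H82.CC

section sy

variable {k : Type} [Field k] [CharZero k] {G : Type} [CommGroup G] {A B : Type} {n : ℕ}

theorem mvL_mvL (ℓ : (G →* kˣ) ⊕ (G →* kˣ)) (σ τ : Perm (Fin n)) (x : Fin n → A × B) :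
    mvL ℓ τ (mvL ℓ σ x) = mvL ℓ (σ * τ) x := by
  rcases ℓ with c | c <;> rfl

theorem mvL_comm {κ : Fin n → (G →* kˣ)} {ℓ ℓ' : (G →* kˣ) ⊕ (G →* kˣ)} (h : ℓ ≠ ℓ')
    {T T' : Finset (Fin n)} (hT : ∀ i ∈ T, κ i = chr ℓ) (hT' : ∀ i ∈ T', κ i = chr ℓ')
    {τ σ : Perm (Fin n)} (hτ : τ ∈ PT T) (hσ : σ ∈ PT T') (x : Fin n → A × B) :
    mvL ℓ τ (mvL ℓ' σ x) = mvL ℓ' σ (mvL ℓ τ x) := by
  have hcomm : (∀ i, i ∈ T → i ∉ T') → σ * τ = τ * σ := by
    intro hd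
    refine (Perm.Disjoint.commute ?_).eq
    intro i
    by_cases hi : i ∈ T
    · exact Or.inl ((mem_PT.1 hσ) i (hd i hi))
    · exact Or.inr ((mem_PT.1 hτ) i hi)
  rcases ℓ with c | c <;> rcases ℓ' with c' | c'
  · have hc : c ≠ c' := fun h' => h (by rw [h'])
    have h1 := hcomm fun i hi hi' => hc ((hT i hi).symm.trans (hT' i hi'))
    change mv (σ * τ) (1 * 1) x = mv (τ * σ) (1 * 1) x
    rw [h1]
  · rfl
  · rfl
  · have hc : c ≠ c' := fun h' => h (by rw [h'])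
    have h1 := hcomm fun i hi hi' => hc ((hT i hi).symm.trans (hT' i hi'))
    change mv (1 * 1) (σ * τ) x = mv (1 * 1) (τ * σ) x
    rw [h1]

/-- symmetrization -/
def sym (ℓ : (G →* kˣ) ⊕ (G →* kˣ)) (T : Finset (Fin n)) :
    ((Fin n → A × B) → k) →ₗ[ℚ] ((Fin n → A × B) → k) where
  toFun ψ := fun x => ∑ τ ∈ PT T, ψ (mvL ℓ τ x)
  map_add' a b := by
    funext x
    rw [Pi.add_apply, ← Finset.sum_add_distrib]
    rfl
  map_smul' c a := by
    funext x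
    rw [Pi.smul_apply, RingHom.id_apply, Finset.smul_sum]
    rfl

theorem sym_apply (ℓ : (G →* kˣ) ⊕ (G →* kˣ)) (T : Finset (Fin n)) (ψ : (Fin n → A × B) → k)
    (x : Fin n → A × B) : sym ℓ T ψ x = ∑ τ ∈ PT T, ψ (mvL ℓ τ x) := rfl

theorem mul_mem_PT {T : Finset (Fin n)} {σ τ : Perm (Fin n)} (hσ : σ ∈ PT T) (hτ : τ ∈ PT T) :
    σ * τ ∈ PT T := by
  rw [mem_PT] at *
  intro i hi
  rw [Perm.mul_apply, hτ i hi, hσ i hi]

theorem inv_mem_PT {T : Finset (Fin n)} {σ : Perm (Fin n)} (hσ : σ ∈ PT T) : σ⁻¹ ∈ PT T := by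
  rw [mem_PT] at *
  intro i hi
  rw [Equiv.Perm.inv_eq_iff_eq, hσ i hi]

theorem sum_PT_mul {M : Type} [AddCommMonoid M] {T : Finset (Fin n)} {σ : Perm (Fin n)}
    (hσ : σ ∈ PT T) (F : Perm (Fin n) → M) : ∑ τ ∈ PT T, F (σ * τ) = ∑ τ ∈ PT T, F τ := by
  refine Finset.sum_nbij' (fun τ => σ * τ) (fun τ => σ⁻¹ * τ) ?_ ?_ ?_ ?_ ?_
  · intro τ hτ; exact mul_mem_PT hσ hτ
  · intro τ hτ; exact mul_mem_PT (inv_mem_PT hσ) hτ
  · intro τ _; group
  · intro τ _; group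
  · intro τ _; rfl

theorem sym_Sy (ℓ : (G →* kˣ) ⊕ (G →* kˣ)) (T : Finset (Fin n)) (ψ : (Fin n → A × B) → k) :
    Sy ℓ T (sym ℓ T ψ) := by
  intro σ hσ x
  rw [sym_apply, sym_apply]
  simp only [mvL_mvL]
  exact sum_PT_mul hσ fun τ => ψ (mvL ℓ τ x)

theorem Sy_sym {κ : Fin n → (G →* kˣ)} {ℓ ℓ' : (G →* kˣ) ⊕ (G →* kˣ)} (h : ℓ ≠ ℓ')
    {T T' : Finset (Fin n)} (hT : ∀ i ∈ T, κ i = chr ℓ) (hT' : ∀ i ∈ T', κ i = chr ℓ')
    {ψ : (Fin n → A × B) → k} (hψ : Sy ℓ' T' ψ) : Sy ℓ' T' (sym ℓ T ψ) := by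
  intro σ hσ x
  rw [sym_apply, sym_apply]
  refine Finset.sum_congr rfl fun τ hτ => ?_
  rw [mvL_comm h hT hT' hτ hσ, hψ σ hσ]

end sy

section kill

variable {k : Type} [Field k] [CharZero k] [IsAlgClosed k] {K1 K2 : Type} [Field K1]
  [Algebra k K1] [Field K2] [Algebra k K2] [IsFF k K1] [IsFF k K2]
  {G : Type} [CommGroup G] [Fintype G] (α1 : G →* (K1 ≃ₐ[k] K1)) (α2 : G →* (K2 ≃ₐ[k] K2))
  {n : ℕ} [IsFF k (fixedField α1.range)] [IsFF k (fixedField α2.range)]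

/-- A function which is symmetric in sufficiently many coordinates of two legs is zero. -/
theorem kill {m : ℕ} (hm : m = 2 ∨ m = 3 ∨ m = 4) {q1 q2 : (G →* kˣ) → ℕ}
    (hd1 : Datum α1 m q1) (hd2 : Datum α2 m q2) {κ : Fin n → (G →* kˣ)}
    (hbal : ∀ ℓ, chr ℓ ≠ 1 → qL q1 q2 ℓ ≤ pL q1 q2 ℓ + 1 ∧ pL q1 q2 ℓ ≤ qL q1 q2 ℓ + 1)
    {ψ : (Fin n → Place k K1 × Place k K2) → k} (hψ : ψ ∈ Adm α1 α2 κ)
    {ℓ0 ℓ1 : (G →* kˣ) ⊕ (G →* kˣ)} (hc0 : chr ℓ0 ≠ 1) (hc1 : chr ℓ1 ≠ 1)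
    {T0 T1 : Finset (Fin n)} (hT0 : ∀ i ∈ T0, κ i = chr ℓ0) (hT1 : ∀ i ∈ T1, κ i = chr ℓ1)
    (S0 : Sy ℓ0 T0 ψ) (S1 : Sy ℓ1 T1 ψ) (h : ℓ0 = ℓ1 → T0 = T1)
    (hn0 : pL q1 q2 ℓ0 + 1 ≤ T0.card) (hn1 : qL q1 q2 ℓ1 + 1 ≤ T1.card) : ψ = 0 := by
  classical
  have hTT1 : (if ℓ1 = ℓ0 then T0 else T1) = T1 := by
    split_ifs with h'
    · exact h h'.symm
    · rfl
  refine kill_aux α1 α2 hm hd1 hd2 hψ {ℓ0, ℓ1} ?_ (fun ℓ => if ℓ = ℓ0 then T0 else T1) ?_ ?_ ℓ0 ℓ1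
    (by simp) (by simp) ?_ ?_ ?_
  · intro ℓ hℓ
    rw [Finset.mem_insert, Finset.mem_singleton] at hℓ
    rcases hℓ with rfl | rfl
    · exact hc0
    · exact hc1
  · intro ℓ hℓ i hi
    rw [Finset.mem_insert, Finset.mem_singleton] at hℓ
    rcases hℓ with rfl | rfl
    · rw [if_pos rfl] at hi
      exact hT0 i hi
    · rw [hTT1] at hi
      exact hT1 i hi
  · intro ℓ hℓ
    rw [Finset.mem_insert, Finset.mem_singleton] at hℓ
    rcases hℓ with rfl | rfl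
    · rw [if_pos rfl]
      exact S0
    · rw [hTT1]
      exact S1
  · rw [if_pos rfl]
    exact hn0
  · rw [hTT1]
    exact hn1
  · exact Or.inr ⟨(hbal ℓ0 hc0).1, (hbal ℓ1 hc1).2⟩

omit [IsAlgClosed k] [IsFF k K1] [IsFF k K2] [Fintype G] [IsFF k (fixedField α1.range)]
  [IsFF k (fixedField α2.range)] in
theorem PT_class {κ : Fin n → (G →* kˣ)} {c : G →* kˣ} {T : Finset (Fin n)}
    (hT : ∀ i ∈ T, κ i = c) {τ : Perm (Fin n)} (hτ : τ ∈ PT T) (i : Fin n) :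
    κ (τ i) = κ i := by
  rw [mem_PT] at hτ
  by_cases hi : i ∈ T
  · have hi' : τ i ∈ T := by
      by_contra h
      have := hτ (τ i) h
      rw [τ.injective.eq_iff] at this
      rw [this] at h
      exact h hi
    rw [hT _ hi', hT _ hi]
  · rw [hτ i hi]

omit [IsAlgClosed k] [IsFF k K1] [IsFF k K2] [Fintype G] [IsFF k (fixedField α1.range)]
  [IsFF k (fixedField α2.range)] in
theorem sym_mem {κ : Fin n → (G →* kˣ)} {ℓ : (G →* kˣ) ⊕ (G →* kˣ)} {T : Finset (Fin n)}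
    (hT : ∀ i ∈ T, κ i = chr ℓ) {ψ : (Fin n → Place k K1 × Place k K2) → k}
    (hψ : ψ ∈ Adm α1 α2 κ) : sym ℓ T ψ ∈ Adm α1 α2 κ := by
  have h1 : sym ℓ T ψ = ∑ τ ∈ PT T, (match ℓ with
      | .inl _ => PP τ 1 ψ
      | .inr _ => PP 1 τ ψ) := by
    funext x
    rw [sym_apply, Finset.sum_apply]
    refine Finset.sum_congr rfl fun τ _ => ?_
    rcases ℓ with c | c <;> rfl
  rw [h1]
  refine Submodule.sum_mem _ fun τ hτ => ?_
  have hκ := PT_class hT hτ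
  rcases ℓ with c | c
  · exact PP_mem α1 α2 hκ (fun i => rfl) hψ
  · exact PP_mem α1 α2 (fun i => rfl) hκ hψ

/-- the span of the functions which are symmetric in many coordinates -/
def UU (q1 q2 : (G →* kˣ) → ℕ) (κ : Fin n → (G →* kˣ)) :
    Submodule ℚ ((Fin n → Place k K1 × Place k K2) → k) :=
  Submodule.span ℚ {ψ | ψ ∈ Adm α1 α2 κ ∧ ∃ (ℓ : (G →* kˣ) ⊕ (G →* kˣ)) (T : Finset (Fin n)),
    chr ℓ ≠ 1 ∧ (∀ i ∈ T, κ i = chr ℓ) ∧ T.card = qL q1 q2 ℓ + 1 ∧ Sy ℓ T ψ}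

omit [IsAlgClosed k] [IsFF k K1] [IsFF k K2] [Fintype G] [IsFF k (fixedField α1.range)]
  [IsFF k (fixedField α2.range)] in
theorem UU_stable (q1 q2 : (G →* kˣ) → ℕ) {κ : Fin n → (G →* kˣ)} {u v : Perm (Fin n)}
    (hu : ∀ i, κ (u i) = κ i) (hv : ∀ i, κ (v i) = κ i)
    {ψ : (Fin n → Place k K1 × Place k K2) → k} (hψ : ψ ∈ UU α1 α2 q1 q2 κ) :
    PP u v ψ ∈ UU α1 α2 q1 q2 κ := by
  have h : UU α1 α2 q1 q2 κ ≤ (UU α1 α2 q1 q2 κ).comap (PP u v) := by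
    conv_lhs => unfold UU
    rw [Submodule.span_le]
    rintro ψ ⟨hψ, ℓ, T, hc, hT, hTc, hS⟩
    refine Submodule.subset_span ⟨PP_mem α1 α2 hu hv hψ, ℓ, ?_⟩
    rcases ℓ with c | c
    · refine ⟨T.map u.toEmbedding, hc, ?_, by rw [Finset.card_map]; exact hTc, ?_⟩
      · intro i hi
        obtain ⟨j, hj, rfl⟩ := Finset.mem_map.1 hi
        exact (hu j).trans (hT j hj)
      · intro σ hσ x
        have h1 : u⁻¹ * σ * u ∈ PT T := by
          have h2 := conj_mem_PT u⁻¹ hσ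
          rw [inv_inv, Finset.map_map] at h2
          have e : u.toEmbedding.trans (u⁻¹).toEmbedding = Function.Embedding.refl (Fin n) := by
            ext x; simp
          rwa [e, Finset.map_refl] at h2
        have h2 := hS _ h1 (mv u v x)
        change ψ (mv (u * (u⁻¹ * σ * u)) (v * 1) x) = ψ (mv u v x) at h2
        change ψ (mv (σ * u) (1 * v) x) = ψ (mv u v x)
        rw [← h2]
        congr 2
        group
    · refine ⟨T.map v.toEmbedding, hc, ?_, by rw [Finset.card_map]; exact hTc, ?_⟩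
      · intro i hi
        obtain ⟨j, hj, rfl⟩ := Finset.mem_map.1 hi
        exact (hv j).trans (hT j hj)
      · intro σ hσ x
        have h1 : v⁻¹ * σ * v ∈ PT T := by
          have h2 := conj_mem_PT v⁻¹ hσ
          rw [inv_inv, Finset.map_map] at h2
          have e : v.toEmbedding.trans (v⁻¹).toEmbedding = Function.Embedding.refl (Fin n) := by
            ext x; simp
          rwa [e, Finset.map_refl] at h2
        have h2 := hS _ h1 (mv u v x)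
        change ψ (mv (u * 1) (v * (v⁻¹ * σ * v)) x) = ψ (mv u v x) at h2
        change ψ (mv (1 * u) (σ * v) x) = ψ (mv u v x)
        rw [← h2]
        congr 2
        group
  exact h hψ

omit [IsAlgClosed k] [IsFF k K1] [IsFF k K2] [Fintype G] [IsFF k (fixedField α1.range)]
  [IsFF k (fixedField α2.range)] in
theorem sym_mem_UU (q1 q2 : (G →* kˣ) → ℕ) {κ : Fin n → (G →* kˣ)}
    {ℓ : (G →* kˣ) ⊕ (G →* kˣ)} {T : Finset (Fin n)} (hc : chr ℓ ≠ 1)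
    (hT : ∀ i ∈ T, κ i = chr ℓ) (hTc : T.card = qL q1 q2 ℓ + 1)
    {ψ : (Fin n → Place k K1 × Place k K2) → k} (hψ : ψ ∈ Adm α1 α2 κ) :
    sym ℓ T ψ ∈ UU α1 α2 q1 q2 κ :=
  Submodule.subset_span ⟨sym_mem α1 α2 hT hψ, ℓ, T, hc, hT, hTc, sym_Sy ℓ T ψ⟩

theorem sym_UU {m : ℕ} (hm : m = 2 ∨ m = 3 ∨ m = 4) {q1 q2 : (G →* kˣ) → ℕ}
    (hd1 : Datum α1 m q1) (hd2 : Datum α2 m q2) {κ : Fin n → (G →* kˣ)}
    (hbal : ∀ ℓ, chr ℓ ≠ 1 → qL q1 q2 ℓ ≤ pL q1 q2 ℓ + 1 ∧ pL q1 q2 ℓ ≤ qL q1 q2 ℓ + 1)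
    {ℓ : (G →* kˣ) ⊕ (G →* kˣ)} {T : Finset (Fin n)} (hc : chr ℓ ≠ 1)
    (hT : ∀ i ∈ T, κ i = chr ℓ) (hTc : T.card = pL q1 q2 ℓ + 1)
    {ψ : (Fin n → Place k K1 × Place k K2) → k} (hψ : ψ ∈ UU α1 α2 q1 q2 κ) :
    sym ℓ T ψ = 0 := by
  classical
  have h : UU α1 α2 q1 q2 κ ≤ LinearMap.ker (sym ℓ T) := by
    unfold UU
    rw [Submodule.span_le]
    rintro ψ ⟨hψ, ℓ', T', hc', hT', hTc', hS⟩
    change sym ℓ T ψ = 0
    have hmem := sym_mem α1 α2 hT hψ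
    by_cases hℓ : ℓ = ℓ'
    · subst hℓ
      by_cases hle : T'.card ≤ T.card
      · exact kill α1 α2 hm hd1 hd2 hbal hmem hc hc hT hT (sym_Sy ℓ T ψ) (sym_Sy ℓ T ψ)
          (fun _ => rfl) (by omega) (by omega)
      · have h0 : ψ = 0 := kill α1 α2 hm hd1 hd2 hbal hψ hc hc hT' hT' hS hS (fun _ => rfl)
          (by omega) (by omega)
        rw [h0, map_zero]
    · exact kill α1 α2 hm hd1 hd2 hbal hmem hc hc' hT hT' (sym_Sy ℓ T ψ)
        (Sy_sym hℓ hT hT' hS) (fun h => absurd h hℓ) (by omega) (by omega)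
  exact h hψ

/-- alternating sum over the simultaneous permutations of a subset of the coordinates -/
def alt {k : Type} [Field k] {A B : Type} {n : ℕ} (A' : Finset (Fin n))
    (φ : (Fin n → A × B) → k) : (Fin n → A × B) → k :=
  fun x => ∑ τ ∈ PT A', ((Perm.sign τ : ℤ) : k) * φ (mv τ τ x)

/-- The combinatorial theorem for a submodule. -/
theorem alt_mem {k : Type} [Field k] [CharZero k] {G : Type} [CommGroup G] {A B : Type} {n : ℕ}
    (c : G →* kˣ) (U : Submodule ℚ ((Fin n → A × B) → k)) (A' : Finset (Fin n))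
    {a b : ℕ} (hn : a * b < A'.card) (φ : (Fin n → A × B) → k)
    (h1 : ∀ T ⊆ A', T.card = a + 1 → ∀ u ∈ PT A', ∀ v ∈ PT A',
      PP u v (sym (.inl c : (G →* kˣ) ⊕ (G →* kˣ)) T φ) ∈ U)
    (h2 : ∀ T ⊆ A', T.card = b + 1 → ∀ u ∈ PT A', ∀ v ∈ PT A',
      PP u v (sym (.inr c : (G →* kˣ) ⊕ (G →* kˣ)) T φ) ∈ U) : alt A' φ ∈ U := by
  classical
  have hsub : ∀ T : Finset {x // x ∈ A'}, T.map (Function.Embedding.subtype _) ⊆ A' := by
    intro T x hx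
    obtain ⟨y, _, rfl⟩ := Finset.mem_map.1 hx
    exact y.2
  have hos : ∀ u : Perm {x // x ∈ A'}, Perm.ofSubtype u ∈ PT A' := by
    intro u
    rw [mem_PT]
    exact fun x hx => Perm.ofSubtype_apply_of_not_mem u hx
  have h3 := comb1M (Y := {x // x ∈ A'}) (M := ((Fin n → A × B) → k) ⧸ U) (a := a) (b := b)
    (by rwa [Fintype.card_coe])
    (fun u v => U.mkQ (PP (Perm.ofSubtype u) (Perm.ofSubtype v) φ)) (by
      intro T hT u v
      rw [← map_sum, Submodule.mkQ_apply, Submodule.Quotient.mk_eq_zero]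
      have h4 := h1 (T.map (Function.Embedding.subtype _)) (hsub T)
        (by rw [Finset.card_map, hT]) _ (hos u) _ (hos v)
      have h5 : ∑ τ ∈ PT T, PP (Perm.ofSubtype (u * τ)) (Perm.ofSubtype v) φ =
          PP (Perm.ofSubtype u) (Perm.ofSubtype v)
            (sym (.inl c : (G →* kˣ) ⊕ (G →* kˣ)) (T.map (Function.Embedding.subtype _)) φ) := by
        funext x
        rw [Finset.sum_apply, PP_apply, sym_apply, ← sum_PT_sub A' T]
        refine Finset.sum_congr rfl fun τ _ => ?_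
        rw [map_mul]
        rfl
      rw [h5]
      exact h4) (by
      intro T hT u v
      rw [← map_sum, Submodule.mkQ_apply, Submodule.Quotient.mk_eq_zero]
      have h4 := h2 (T.map (Function.Embedding.subtype _)) (hsub T)
        (by rw [Finset.card_map, hT]) _ (hos u) _ (hos v)
      have h5 : ∑ τ ∈ PT T, PP (Perm.ofSubtype u) (Perm.ofSubtype (v * τ)) φ =
          PP (Perm.ofSubtype u) (Perm.ofSubtype v)
            (sym (.inr c : (G →* kˣ) ⊕ (G →* kˣ)) (T.map (Function.Embedding.subtype _)) φ) := by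
        funext x
        rw [Finset.sum_apply, PP_apply, sym_apply, ← sum_PT_sub A' T]
        refine Finset.sum_congr rfl fun τ _ => ?_
        rw [map_mul]
        rfl
      rw [h5]
      exact h4)
  have h4 : U.mkQ (alt A' φ) = 0 := by
    rw [← h3]
    have h5 : alt A' φ = ∑ σ : Perm {x // x ∈ A'},
        (Perm.sign σ : ℤ) • PP (Perm.ofSubtype σ) (Perm.ofSubtype σ) φ := by
      funext x
      rw [Finset.sum_apply]
      unfold alt
      rw [sum_PT]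
      refine Finset.sum_congr rfl fun σ _ => ?_
      rw [Pi.smul_apply, zsmul_eq_mul, Perm.sign_ofSubtype, PP_apply]
    rw [h5, map_sum]
    refine Finset.sum_congr rfl fun σ _ => ?_
    rw [map_zsmul]
  rwa [Submodule.mkQ_apply, Submodule.Quotient.mk_eq_zero] at h4

/-- the alternating sum over all permutations -/
def alt0 {k : Type} [Field k] {A B : Type} {n : ℕ} (φ : (Fin n → A × B) → k) :
    (Fin n → A × B) → k :=
  fun x => ∑ σ : Perm (Fin n), ((Perm.sign σ : ℤ) : k) * φ (mv σ σ x)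

theorem alt0_alt {k : Type} [Field k] {A B : Type} {n : ℕ} (A' : Finset (Fin n))
    (φ : (Fin n → A × B) → k) : alt0 (alt A' φ) = fun x => ((PT A').card : k) * alt0 φ x := by
  funext x
  unfold alt0 alt
  simp only [Finset.mul_sum]
  rw [Finset.sum_comm]
  have h1 : ∀ τ ∈ PT A', ∑ σ : Perm (Fin n), ((Perm.sign σ : ℤ) : k) *
      (((Perm.sign τ : ℤ) : k) * φ (mv τ τ (mv σ σ x))) =
      ∑ σ : Perm (Fin n), ((Perm.sign σ : ℤ) : k) * φ (mv σ σ x) := by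
    intro τ _
    refine Fintype.sum_equiv (Equiv.mulRight τ) _ _ fun σ => ?_
    rw [mv_mv, Equiv.coe_mulRight, Perm.sign_mul]
    push_cast
    ring
  rw [Finset.sum_congr rfl h1, Finset.sum_const, nsmul_eq_mul, Finset.mul_sum]

theorem card_PT_ne {k : Type} [Field k] [CharZero k] {n : ℕ} (A' : Finset (Fin n)) :
    ((PT A').card : k) ≠ 0 := by
  have h : 0 < (PT A').card := Finset.card_pos.2 ⟨1, by rw [mem_PT]; intro x _; rfl⟩
  exact_mod_cast h.ne'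

/-- The alternating sum vanishes if there are sufficiently many coordinates. -/
theorem alt0_eq_zero {m : ℕ} (hm : m = 2 ∨ m = 3 ∨ m = 4) {q1 q2 : (G →* kˣ) → ℕ}
    (hd1 : Datum α1 m q1) (hd2 : Datum α2 m q2) {κ : Fin n → (G →* kˣ)}
    (hbal : ∀ ℓ, chr ℓ ≠ 1 → qL q1 q2 ℓ ≤ pL q1 q2 ℓ + 1 ∧ pL q1 q2 ℓ ≤ qL q1 q2 ℓ + 1)
    (hκ : ∀ i, κ i ≠ 1) (c c' : G →* kˣ) (hc : c ≠ 1) (hc' : c' ≠ 1)
    [DecidableEq (G →* kˣ)]
    (hn : q1 c * q2 c⁻¹ < (Finset.univ.filter fun i => κ i = c).card)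
    (hn' : q1 c'⁻¹ * q2 c' < (Finset.univ.filter fun i => κ i = c').card)
    {φ : (Fin n → Place k K1 × Place k K2) → k} (hφ : φ ∈ Adm α1 α2 κ) : alt0 φ = 0 := by
  classical
  set A := Finset.univ.filter fun i => κ i = c with hA
  set A' := Finset.univ.filter fun i => κ i = c' with hA'
  have hAm : ∀ T ⊆ A, ∀ i ∈ T, κ i = c := fun T hT i hi => (Finset.mem_filter.1 (hT hi)).2
  have hAm' : ∀ T ⊆ A', ∀ i ∈ T, κ i = c' := fun T hT i hi => (Finset.mem_filter.1 (hT hi)).2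
  -- first step
  have h1 : alt A φ ∈ UU α1 α2 q1 q2 κ := by
    refine alt_mem c (UU α1 α2 q1 q2 κ) A (a := q1 c) (b := q2 c⁻¹) hn φ ?_ ?_
    · intro T hT hTc u hu v hv
      exact UU_stable α1 α2 q1 q2 (PT_class (hAm A (le_refl _)) hu)
        (PT_class (hAm A (le_refl _)) hv)
        (sym_mem_UU α1 α2 q1 q2 (ℓ := .inl c) hc (hAm T hT) hTc hφ)
    · intro T hT hTc u hu v hv
      exact UU_stable α1 α2 q1 q2 (PT_class (hAm A (le_refl _)) hu)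
        (PT_class (hAm A (le_refl _)) hv)
        (sym_mem_UU α1 α2 q1 q2 (ℓ := .inr c) hc (hAm T hT) hTc hφ)
  -- second step
  have h2 : alt A' (alt A φ) ∈ (⊥ : Submodule ℚ ((Fin n → Place k K1 × Place k K2) → k)) := by
    refine alt_mem c' ⊥ A' (a := q1 c'⁻¹) (b := q2 c') hn' (alt A φ) ?_ ?_
    · intro T hT hTc u hu v hv
      rw [sym_UU α1 α2 hm hd1 hd2 hbal (ℓ := .inl c') hc' (hAm' T hT) hTc h1, map_zero]
      exact Submodule.zero_mem _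
    · intro T hT hTc u hu v hv
      rw [sym_UU α1 α2 hm hd1 hd2 hbal (ℓ := .inr c') hc' (hAm' T hT) hTc h1, map_zero]
      exact Submodule.zero_mem _
  rw [Submodule.mem_bot] at h2
  have h3 := alt0_alt A' (alt A φ)
  rw [h2, alt0_alt A φ] at h3
  funext x
  have h4 := congrFun h3 x
  have h5 : alt0 (0 : (Fin n → Place k K1 × Place k K2) → k) x = 0 := by
    unfold alt0
    simp
  rw [h5] at h4
  have h6 := (mul_eq_zero.1 h4.symm).resolve_left (card_PT_ne A')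
  exact (mul_eq_zero.1 h6).resolve_left (card_PT_ne A)

end kill

end Pool.Agent.J4.H82.CC
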