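import Pool.Agent.J4.H82.CC.R

/-!
# Decomposition of an invariant functional and the conclusion
-/

set_option autoImplicit false

open FF IntermediateField Pool.Agent.W603.LV Pool.Agent.W603.PV Pool.Agent.J4.H17.ZC
  Pool.Agent.N162.CV Pool.Agent.N75.CV Pool.Agent.J4.H82.PV Equiv

namespace Pool.Agent.J4.H82.CC

section

variable {k : Type} [Field k] [CharZero k] [IsAlgClosed k] {K1 K2 : Type} [Field K1]
  [Algebra k K1] [Field K2] [Algebra k K2] [IsFF k K1] [IsFF k K2]
  {G : Type} [CommGroup G] [Fintype G] (α1 : G →* (K1 ≃ₐ[k] K1)) (α2 : G →* (K2 ≃ₐ[k] K2))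
  {n : ℕ} [IsFF k (fixedField α1.range)] [IsFF k (fixedField α2.range)]

/-- A coordinate with trivial character does not matter. -/
theorem adm_const (hF1 : Rat1 k (fixedField α1.range)) (hF2 : Rat1 k (fixedField α2.range))
    {κ : Fin n → (G →* kˣ)} {φ : (Fin n → Place k K1 × Place k K2) → k}
    (hφ : φ ∈ Adm α1 α2 κ) (i : Fin n) (hi : κ i = 1) (x : Fin n → Place k K1 × Place k K2)
    (y : Place k K1 × Place k K2) : φ (Function.update x i y) = φ x := by
  classical
  have h1 : ∀ (s s' : Place k K1) (t : Place k K2),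
      φ (Function.update x i (s, t)) = φ (Function.update x i (s', t)) := by
    intro s s' t
    let l : (Place k K1 →₀ ℤ) →+ k :=
      (Finsupp.linearCombination ℤ fun s => φ (Function.update x i (s, t))).toAddMonoidHom
    have hl1 : ∀ s, l (Finsupp.single s 1) = φ (Function.update x i (s, t)) := by
      intro s
      change Finsupp.linearCombination ℤ _ (Finsupp.single s 1) = _
      rw [Finsupp.linearCombination_single, one_smul]
    have hreg : Reg (X := curve k K1) (Y := ((curve k K1).prod (curve k K2)).pow (Fin n))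
        (fun s => Function.update x i (s, t)) := by
      intro M _ _ z hz j
      by_cases hj : j = i
      · subst hj
        constructor
        · have h2 : (fun P => (Function.update x j (z P, t) j).1) = z := by
            funext P
            rw [Function.update_self]
          change (curve k K1).IsMor M (fun P => (Function.update x j (z P, t) j).1)
          rw [h2]
          exact hz
        · left
          refine ⟨t, fun P => ?_⟩
          change (Function.update x j (z P, t) j).2 = t
          rw [Function.update_self]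
      · constructor
        · left
          refine ⟨(x j).1, fun P => ?_⟩
          change (Function.update x i (z P, t) j).1 = _
          rw [Function.update_of_ne hj]
        · left
          refine ⟨(x j).2, fun P => ?_⟩
          change (Function.update x i (z P, t) j).2 = _
          rw [Function.update_of_ne hj]
    have h3 := inv_const α1 hF1 l (by
      intro r hr
      have h4 := hφ.1 _ (hreg.push hr)
      rw [Finsupp.linearCombination_mapDomain] at h4
      exact h4) (by
      intro g P
      rw [hl1, hl1]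
      have h4 := adm_left α1 α2 hφ i g (Function.update x i (P, t))
      rw [Function.update_self, Function.update_idem, hi, MonoidHom.one_apply, Units.val_one,
        one_mul] at h4
      exact h4) s s'
    rw [hl1, hl1] at h3
    exact h3
  have h2 : ∀ (s : Place k K1) (t t' : Place k K2),
      φ (Function.update x i (s, t)) = φ (Function.update x i (s, t')) := by
    intro s t t'
    let l : (Place k K2 →₀ ℤ) →+ k :=
      (Finsupp.linearCombination ℤ fun t => φ (Function.update x i (s, t))).toAddMonoidHom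
    have hl1 : ∀ t, l (Finsupp.single t 1) = φ (Function.update x i (s, t)) := by
      intro t
      change Finsupp.linearCombination ℤ _ (Finsupp.single t 1) = _
      rw [Finsupp.linearCombination_single, one_smul]
    have hreg : Reg (X := curve k K2) (Y := ((curve k K1).prod (curve k K2)).pow (Fin n))
        (fun t => Function.update x i (s, t)) := by
      intro M _ _ z hz j
      by_cases hj : j = i
      · subst hj
        constructor
        · left
          refine ⟨s, fun P => ?_⟩
          change (Function.update x j (s, z P) j).1 = s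
          rw [Function.update_self]
        · have h2 : (fun P => (Function.update x j (s, z P) j).2) = z := by
            funext P
            rw [Function.update_self]
          change (curve k K2).IsMor M (fun P => (Function.update x j (s, z P) j).2)
          rw [h2]
          exact hz
      · constructor
        · left
          refine ⟨(x j).1, fun P => ?_⟩
          change (Function.update x i (s, z P) j).1 = _
          rw [Function.update_of_ne hj]
        · left
          refine ⟨(x j).2, fun P => ?_⟩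
          change (Function.update x i (s, z P) j).2 = _
          rw [Function.update_of_ne hj]
    have h3 := inv_const α2 hF2 l (by
      intro r hr
      have h4 := hφ.1 _ (hreg.push hr)
      rw [Finsupp.linearCombination_mapDomain] at h4
      exact h4) (by
      intro g P
      rw [hl1, hl1]
      have h4 := adm_right α1 α2 hφ i g (Function.update x i (s, P))
      rw [Function.update_self, Function.update_idem, hi, MonoidHom.one_apply, Units.val_one,
        inv_one, one_mul] at h4
      exact h4) t t'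
    rw [hl1, hl1] at h3
    exact h3
  have h3 : Function.update x i ((x i).1, (x i).2) = x := Function.update_eq_self i x
  rw [show y = (y.1, y.2) from rfl, h1 y.1 (x i).1 y.2, h2 (x i).1 y.2 (x i).2, h3]

omit [IsAlgClosed k] [IsFF k K1] [IsFF k K2] in
/-- The component of an invariant function for a family of characters. -/
theorem comp_mem {φ : (Fin n → Place k K1 × Place k K2) → k}
    (hφ : ∀ r ∈ RatEq (((curve k K1).prod (curve k K2)).pow (Fin n)),
      Finsupp.linearCombination ℤ φ r = 0)
    (hinv : ∀ (g : Fin n → G) (x : Fin n → Place k K1 × Place k K2),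
      φ (ga α1 α2 g g x) = φ x) (κ : Fin n → (G →* kˣ)) :
    (fun x => ∑ g : Fin n → G, (∏ i, ((κ i (g i) : kˣ) : k))⁻¹ * φ (ga α1 α2 g 1 x)) ∈
      Adm α1 α2 κ := by
  classical
  refine ⟨fun r hr => ?_, fun g' h' x => ?_⟩
  · have h1 : Finsupp.linearCombination ℤ (fun x => ∑ g : Fin n → G,
        (∏ i, ((κ i (g i) : kˣ) : k))⁻¹ * φ (ga α1 α2 g 1 x)) r =
        ∑ g : Fin n → G, (∏ i, ((κ i (g i) : kˣ) : k))⁻¹ *
          Finsupp.linearCombination ℤ (φ ∘ ga α1 α2 g 1) r := by
      simp only [Finsupp.linearCombination_apply, Finsupp.sum, Finset.smul_sum, Finset.mul_sum]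
      rw [Finset.sum_comm]
      refine Finset.sum_congr rfl fun g _ => Finset.sum_congr rfl fun x _ => ?_
      rw [mul_smul_comm]
      rfl
    rw [h1]
    refine Finset.sum_eq_zero fun g _ => ?_
    rw [← Finsupp.linearCombination_mapDomain,
      hφ _ ((ga_reg (k := k) α1 α2 g 1).push hr), mul_zero]
  · change ∑ g : Fin n → G, (∏ i, ((κ i (g i) : kˣ) : k))⁻¹ *
        φ (ga α1 α2 g 1 (ga α1 α2 g' h' x)) = _ *
      ∑ g : Fin n → G, (∏ i, ((κ i (g i) : kˣ) : k))⁻¹ * φ (ga α1 α2 g 1 x)
    rw [Finset.mul_sum]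
    refine Fintype.sum_equiv (Equiv.mulRight (g' * h'⁻¹)) _ _ fun g => ?_
    have h1 : ga α1 α2 g 1 (ga α1 α2 g' h' x) =
        ga α1 α2 h' h' (ga α1 α2 (g * (g' * h'⁻¹)) 1 x) := by
      funext i
      refine Prod.ext ?_ ?_
      · change act (α1 (g i)) (act (α1 (g' i)) (x i).1) =
          act (α1 (h' i)) (act (α1 (g i * (g' i * (h' i)⁻¹))) (x i).1)
        rw [← act_mul, ← act_mul, ← map_mul, ← map_mul]
        congr 2
        rw [mul_comm (h' i), mul_assoc, mul_assoc, inv_mul_cancel, mul_one]
      · change act (α2 1) (act (α2 (h' i)) (x i).2) = act (α2 (h' i)) (act (α2 1) (x i).2)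
        rw [map_one, act_one, act_one]
    rw [h1, hinv]
    have h2 : ∏ i, ((κ i ((g * (g' * h'⁻¹)) i) : kˣ) : k) =
        (∏ i, ((κ i (g i) : kˣ) : k)) * ((∏ i, ((κ i (g' i) : kˣ) : k)) *
          (∏ i, ((κ i (h' i) : kˣ) : k))⁻¹) := by
      rw [← Finset.prod_inv_distrib, ← Finset.prod_mul_distrib, ← Finset.prod_mul_distrib]
      refine Finset.prod_congr rfl fun i _ => ?_
      change ((κ i (g i * (g' i * (h' i)⁻¹)) : kˣ) : k) = _
      rw [map_mul, map_mul, map_inv, Units.val_mul, Units.val_mul, Units.val_inv_eq_inv_val]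
    have h3 : ∏ i, ((κ i (g' i) : kˣ) : k) ≠ 0 :=
      Finset.prod_ne_zero_iff.2 fun i _ => Units.ne_zero _
    have h4 : ∏ i, ((κ i (h' i) : kˣ) : k) ≠ 0 :=
      Finset.prod_ne_zero_iff.2 fun i _ => Units.ne_zero _
    change (∏ i, ((κ i (g i) : kˣ) : k))⁻¹ * φ (ga α1 α2 (g * (g' * h'⁻¹)) 1 x) = _ *
      ((∏ i, ((κ i ((g * (g' * h'⁻¹)) i) : kˣ) : k))⁻¹ * φ (ga α1 α2 (g * (g' * h'⁻¹)) 1 x))
    rw [h2]
    field_simp

omit [CharZero k] in
/-- orthogonality -/
theorem sum_char [CharZero k] [Fintype (G →* kˣ)] [DecidableEq G] (g : G) :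
    ∑ χ : G →* kˣ, ((χ g : kˣ) : k)⁻¹ = if g = 1 then (Fintype.card (G →* kˣ) : k) else 0 := by
  split_ifs with h
  · subst h
    simp
  · have i1 : HasEnoughRootsOfUnity k (Monoid.exponent G) := by
      have : NeZero (Monoid.exponent G) := ⟨Monoid.exponent_ne_zero_of_finite⟩
      have : NeZero ((Monoid.exponent G : ℕ) : k) := NeZero.charZero
      infer_instance
    obtain ⟨χ0, hχ0⟩ := CommGroup.exists_apply_ne_one_of_hasEnoughRootsOfUnity G k h
    have h1 : ∑ χ : G →* kˣ, ((χ g : kˣ) : k)⁻¹ =
        ((χ0 g : kˣ) : k)⁻¹ * ∑ χ : G →* kˣ, ((χ g : kˣ) : k)⁻¹ := by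
      rw [Finset.mul_sum]
      symm
      refine Fintype.sum_equiv (Equiv.mulLeft χ0) _ _ fun χ => ?_
      rw [Equiv.coe_mulLeft, MonoidHom.mul_apply, Units.val_mul, mul_inv]
    have h2 : (1 - ((χ0 g : kˣ) : k)⁻¹) * ∑ χ : G →* kˣ, ((χ g : kˣ) : k)⁻¹ = 0 := by
      linear_combination h1
    refine (mul_eq_zero.1 h2).resolve_left ?_
    intro h3
    rw [sub_eq_zero] at h3
    apply hχ0
    ext
    rw [← inv_inv ((χ0 g : kˣ) : k), ← h3, inv_one, Units.val_one]

omit [IsFF k K1] [IsFF k K2] in
theorem sum_comp [Fintype (G →* kˣ)] {φ : (Fin n → Place k K1 × Place k K2) → k}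
    (x : Fin n → Place k K1 × Place k K2) :
    ∑ κ : Fin n → (G →* kˣ), ∑ g : Fin n → G, (∏ i, ((κ i (g i) : kˣ) : k))⁻¹ *
      φ (ga α1 α2 g 1 x) = (Fintype.card (G →* kˣ) : k) ^ n * φ x := by
  classical
  rw [Finset.sum_comm]
  have h1 : ∀ g : Fin n → G, ∑ κ : Fin n → (G →* kˣ), (∏ i, ((κ i (g i) : kˣ) : k))⁻¹ *
      φ (ga α1 α2 g 1 x) = if g = 1 then (Fintype.card (G →* kˣ) : k) ^ n * φ x else 0 := by
    intro g
    rw [← Finset.sum_mul]
    have h2 : ∑ κ : Fin n → (G →* kˣ), (∏ i, ((κ i (g i) : kˣ) : k))⁻¹ =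
        ∏ i, ∑ χ : G →* kˣ, ((χ (g i) : kˣ) : k)⁻¹ := by
      rw [Finset.prod_univ_sum]
      refine Finset.sum_congr (by ext; simp) fun κ _ => ?_
      rw [Finset.prod_inv_distrib]
    rw [h2]
    split_ifs with h
    · subst h
      have h3 : ∀ i : Fin n, ∑ χ : G →* kˣ, ((χ ((1 : Fin n → G) i) : kˣ) : k)⁻¹ =
          (Fintype.card (G →* kˣ) : k) := by
        intro i
        rw [sum_char, if_pos (show (1 : Fin n → G) i = 1 from rfl)]
      rw [Finset.prod_congr rfl fun i _ => h3 i, Finset.prod_const, Finset.card_univ,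
        Fintype.card_fin]
      congr 2
      funext i
      change (act (α1 1) (x i).1, act (α2 1) (x i).2) = x i
      rw [map_one, map_one, act_one, act_one]
    · obtain ⟨i, hi⟩ : ∃ i, g i ≠ 1 := by
        by_contra hcon
        push Not at hcon
        exact h (funext hcon)
      rw [Finset.prod_eq_zero (Finset.mem_univ i), zero_mul]
      rw [sum_char, if_neg hi]
  rw [Finset.sum_congr rfl fun g _ => h1 g, Finset.sum_ite_eq']
  simp

omit [CharZero k] [IsAlgClosed k] [IsFF k K1] [IsFF k K2] in
theorem lc_altSum (φ : (Fin n → Place k K1 × Place k K2) → k)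
    (z : (Fin n → Place k K1 × Place k K2) →₀ ℤ) :
    Finsupp.linearCombination ℤ φ (ALT z) = Finsupp.linearCombination ℤ (alt0 φ) z := by
  induction z using Finsupp.induction_linear with
  | zero => rw [map_zero, map_zero, map_zero]
  | add u v hu hv => rw [map_add, map_add, map_add, hu, hv]
  | single x c =>
    have h4 : Finsupp.single x c = c • Finsupp.single x (1 : ℤ) := by
      rw [Finsupp.smul_single, smul_eq_mul, mul_one]
    rw [h4, map_zsmul, map_zsmul, map_zsmul, ALT_single, map_sum,
      Finsupp.linearCombination_single, one_smul]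
    congr 1
    unfold alt0
    refine Finset.sum_congr rfl fun σ _ => ?_
    rw [map_zsmul, Finsupp.linearCombination_single, one_smul, zsmul_eq_mul]
    rfl

omit [CharZero k] [IsAlgClosed k] [IsFF k K1] [IsFF k K2] in
/-- A function independent of a coordinate vanishes on products with a factor of degree zero. -/
theorem lc_ext (φ : (Fin n → Place k K1 × Place k K2) → k) (i : Fin n)
    (hφ : ∀ (x : Fin n → Place k K1 × Place k K2) (y : Place k K1 × Place k K2),
      φ (Function.update x i y) = φ x) (b : Fin n → (Place k K1 × Place k K2) →₀ ℤ)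
    (hb : dg (b i) = 0) : Finsupp.linearCombination ℤ φ (ext b) = 0 := by
  classical
  by_cases hne : Nonempty (Place k K1 × Place k K2)
  · obtain ⟨o⟩ := hne
    let e : Fin n → Place k K1 × Place k K2 → ((Place k K1 × Place k K2) →₀ ℤ) := fun j z =>
      if j = i then Finsupp.single o 1 else Finsupp.single z 1
    have h1 : ∀ z : (Fin n → Place k K1 × Place k K2) →₀ ℤ,
        Finsupp.linearCombination ℤ φ (mx e z) = Finsupp.linearCombination ℤ φ z := by
      intro z
      induction z using Finsupp.induction_linear with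
      | zero => rw [map_zero, map_zero]
      | add u v hu hv => rw [map_add, map_add, map_add, hu, hv]
      | single x c =>
        rw [mx_single, map_zsmul, Finsupp.linearCombination_single]
        congr 1
        have h2 : (fun j => e j (x j)) = fun j => Finsupp.single (Function.update x i o j) 1 := by
          funext j
          by_cases hj : j = i
          · subst hj
            simp [e]
          · simp [e, hj]
        rw [h2, extG_single, Finsupp.linearCombination_single, one_smul, hφ]
    rw [← h1, ext_eq_extG, mx_extG, extG_zero _ i, map_zero]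
    have h2 : ∀ z : (Place k K1 × Place k K2) →₀ ℤ,
        Finsupp.linearCombination ℤ (e i) z = dg z • Finsupp.single o (1 : ℤ) := by
      intro z
      induction z using Finsupp.induction_linear with
      | zero => rw [map_zero, map_zero, zero_smul]
      | add u v hu hv => rw [map_add, map_add, hu, hv, add_smul]
      | single x c =>
        rw [Finsupp.linearCombination_single, dg_single]
        simp [e]
    rw [h2, hb, zero_smul]
  · have h1 : b i = 0 := by
      ext x
      exact absurd ⟨x⟩ hne
    rw [ext_eq_extG, extG_zero _ i h1, map_zero]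

/-- The conclusion for cycles on the product of the curves. -/
theorem conclusion {m : ℕ} (hm : m = 2 ∨ m = 3 ∨ m = 4) {q1 q2 : (G →* kˣ) → ℕ}
    (hd1 : Datum α1 m q1) (hd2 : Datum α2 m q2)
    (hb1 : ∀ χ, χ ≠ 1 → q1 χ ≤ q1 χ⁻¹ + 1) (hb2 : ∀ χ, χ ≠ 1 → q2 χ ≤ q2 χ⁻¹ + 1)
    (hn : ∑ᶠ χ ∈ {χ : G →* kˣ | χ ≠ 1}, q1 χ * q2 χ⁻¹ < n)
    {φ : (Fin n → Place k K1 × Place k K2) → k}
    (hφ : ∀ r ∈ RatEq (((curve k K1).prod (curve k K2)).pow (Fin n)),
      Finsupp.linearCombination ℤ φ r = 0)
    (hinv : ∀ (g : Fin n → G) (x : Fin n → Place k K1 × Place k K2),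
      φ (ga α1 α2 g g x) = φ x) (b : Fin n → (Place k K1 × Place k K2) →₀ ℤ)
    (hb : ∀ i, dg (b i) = 0) : Finsupp.linearCombination ℤ φ (altSum b) = 0 := by
  classical
  have hfin : Finite (G →* kˣ) := by
    have i1 : HasEnoughRootsOfUnity k (Monoid.exponent G) := by
      have : NeZero (Monoid.exponent G) := ⟨Monoid.exponent_ne_zero_of_finite⟩
      have : NeZero ((Monoid.exponent G : ℕ) : k) := NeZero.charZero
      infer_instance
    obtain ⟨e⟩ := CommGroup.monoidHom_mulEquiv_of_hasEnoughRootsOfUnity G k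
    exact Finite.of_equiv G e.symm.toEquiv
  let _ : Fintype (G →* kˣ) := Fintype.ofFinite _
  have hbal : ∀ ℓ : (G →* kˣ) ⊕ (G →* kˣ), chr ℓ ≠ 1 →
      qL q1 q2 ℓ ≤ pL q1 q2 ℓ + 1 ∧ pL q1 q2 ℓ ≤ qL q1 q2 ℓ + 1 := by
    rintro (c | c) hc
    · have h1 := hb1 c hc
      have h2 := hb1 c⁻¹ (inv_ne_one'' hc)
      rw [inv_inv''] at h2
      exact ⟨h1, h2⟩
    · have h1 := hb2 c hc
      have h2 := hb2 c⁻¹ (inv_ne_one'' hc)
      rw [inv_inv''] at h2
      exact ⟨h2, h1⟩
  -- the components
  let C : (Fin n → (G →* kˣ)) → (Fin n → Place k K1 × Place k K2) → k := fun κ x =>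
    ∑ g : Fin n → G, (∏ i, ((κ i (g i) : kˣ) : k))⁻¹ * φ (ga α1 α2 g 1 x)
  have hC : ∀ κ, C κ ∈ Adm α1 α2 κ := fun κ => comp_mem α1 α2 hφ hinv κ
  have hsum : ∀ z : (Fin n → Place k K1 × Place k K2) →₀ ℤ,
      (Fintype.card (G →* kˣ) : k) ^ n * Finsupp.linearCombination ℤ φ z =
      ∑ κ, Finsupp.linearCombination ℤ (C κ) z := by
    intro z
    simp only [Finsupp.linearCombination_apply, Finsupp.sum]
    rw [Finset.sum_comm, Finset.mul_sum]
    refine Finset.sum_congr rfl fun x _ => ?_
    rw [← Finset.smul_sum]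
    have h1 : ∑ κ, C κ x = (Fintype.card (G →* kˣ) : k) ^ n * φ x := sum_comp α1 α2 x
    rw [h1, mul_smul_comm]
  have hne : (Fintype.card (G →* kˣ) : k) ^ n ≠ 0 := by
    have : 0 < Fintype.card (G →* kˣ) := Fintype.card_pos
    exact pow_ne_zero n (by exact_mod_cast this.ne')
  suffices h : ∑ κ, Finsupp.linearCombination ℤ (C κ) (altSum b) = 0 by
    rw [← hsum] at h
    exact (mul_eq_zero.1 h).resolve_left hne
  refine Finset.sum_eq_zero fun κ _ => ?_
  by_cases hκ : ∀ i, κ i ≠ 1
  · -- the pigeonhole principle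
    have hsum2 : ∑ χ ∈ Finset.univ.filter (fun χ : G →* kˣ => χ ≠ 1), q1 χ * q2 χ⁻¹ < n := by
      rw [finsum_mem_eq_finite_toFinset_sum _ (Set.toFinite _)] at hn
      convert hn using 2
      ext χ
      simp
    have hcard : n = ∑ χ ∈ Finset.univ.filter (fun χ : G →* kˣ => χ ≠ 1),
        (Finset.univ.filter fun i => κ i = χ).card := by
      have h4 := Finset.card_eq_sum_card_fiberwise (s := (Finset.univ : Finset (Fin n)))
        (t := Finset.univ.filter (fun χ : G →* kˣ => χ ≠ 1)) (f := κ) (fun i _ => by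
          rw [Finset.mem_coe, Finset.mem_filter]
          exact ⟨Finset.mem_univ _, hκ i⟩)
      rwa [Finset.card_univ, Fintype.card_fin] at h4
    obtain ⟨c, hc, hc'⟩ := Finset.exists_lt_of_sum_lt (hsum2.trans_eq hcard)
    have hsum3 : ∑ χ ∈ Finset.univ.filter (fun χ : G →* kˣ => χ ≠ 1), q1 χ⁻¹ * q2 χ < n := by
      refine lt_of_eq_of_lt ?_ hsum2
      refine Finset.sum_nbij' (fun χ => χ⁻¹) (fun χ => χ⁻¹) ?_ ?_ ?_ ?_ ?_
      · intro χ hχ
        rw [Finset.mem_filter] at hχ ⊢
        exact ⟨Finset.mem_univ _, inv_ne_one'' hχ.2⟩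
      · intro χ hχ
        rw [Finset.mem_filter] at hχ ⊢
        exact ⟨Finset.mem_univ _, inv_ne_one'' hχ.2⟩
      · intro χ _; exact inv_inv'' χ
      · intro χ _; exact inv_inv'' χ
      · intro χ _
        rw [inv_inv'']
    obtain ⟨c', hd, hd'⟩ := Finset.exists_lt_of_sum_lt (hsum3.trans_eq hcard)
    have h1 : alt0 (C κ) = 0 := alt0_eq_zero α1 α2 hm hd1 hd2 hbal hκ c c'
      (Finset.mem_filter.1 hc).2 (Finset.mem_filter.1 hd).2 hc' hd' (hC κ)
    rw [altSum_eq, lc_altSum, h1]
    simp [Finsupp.linearCombination_apply]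
  · push Not at hκ
    obtain ⟨i, hi⟩ := hκ
    unfold altSum
    rw [map_sum]
    refine Finset.sum_eq_zero fun σ _ => ?_
    rw [map_zsmul, lc_ext (C κ) i (fun x y => adm_const α1 α2 hd1.1 hd2.1 (hC κ) i hi x y)
      (fun i => b (σ i)) (hb _), smul_zero]

end

end Pool.Agent.J4.H82.CC
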