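import Pool.Agent.J4.H82.CC.I

/-!
# A branch point which is not a bridge
-/

set_option autoImplicit false

namespace Pool.Agent.J4.H82.CC

/-- In a connected configuration of legs and blocks with at least two branch points in every leg
and in every block there is a branch point which is not a bridge. -/
theorem exists_edge {k : Type} [Field k] {Λ B Q : Type} [Fintype Λ] [Fintype B] [Fintype Q]
    [Nonempty Λ] (leg : B → Λ) (b : B → Q) (rep : Q → B) (hrep : ∀ q, b (rep q) = q)
    (h1 : 2 * Fintype.card Λ ≤ Fintype.card B) (h2 : 2 * Fintype.card Q ≤ Fintype.card B)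
    (hconn : ∀ W : Set Λ, W.Nonempty →
      (∀ j j', b j = b j' → leg j ∈ W → leg j' ∈ W) → ∀ a, a ∈ W) :
    ∃ j0, ConnB k leg b (b j0) j0 := by
  classical
  by_contra hcon
  push Not at hcon
  have hcon' : ∀ j0, ∃ τ : Λ → k, (∀ j j', b j = b j' → b j ≠ b j0 → τ (leg j) = τ (leg j')) ∧
      (∀ j, b j = b j0 → j ≠ j0 → τ (leg j) = 0) ∧ ∃ a, τ a ≠ 0 := by
    intro j0
    have h3 := hcon j0
    unfold ConnB at h3
    push Not at h3
    obtain ⟨τ, h4, h5, a, h6⟩ := h3
    exact ⟨τ, h4, h5, a, h6⟩
  choose τ hτ1 hτ2 hτ3 using hcon'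
  let D : ((Λ ⊕ Q) → k) →ₗ[k] (B → k) :=
    { toFun := fun v j => v (.inl (leg j)) - v (.inr (b j))
      map_add' := fun u v => by funext j; simp only [Pi.add_apply]; ring
      map_smul' := fun c v => by
        funext j; simp only [Pi.smul_apply, smul_eq_mul, RingHom.id_apply]; ring }
  have hsingle : ∀ j0, (Pi.single j0 1 : B → k) ∈ LinearMap.range D := by
    intro j0
    set t := τ j0 (leg j0) with ht
    have ht0 : t ≠ 0 := by
      intro h0
      obtain ⟨a, ha⟩ := hτ3 j0
      refine ha (hconn {a | τ j0 a = 0} ⟨leg j0, h0⟩ ?_ a)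
      intro j j' hjj hj
      by_cases hb : b j = b j0
      · by_cases hj' : j' = j0
        · rw [hj']
          exact h0
        · exact hτ2 j0 j' (by rw [← hjj, hb]) hj'
      · change τ j0 (leg j') = 0
        rw [← hτ1 j0 j j' hjj hb]
        exact hj
    refine ⟨t⁻¹ • Sum.elim (τ j0) (fun q => if q = b j0 then 0 else τ j0 (leg (rep q))), ?_⟩
    rw [map_smul]
    funext j
    change t⁻¹ * (τ j0 (leg j) - (if b j = b j0 then 0 else τ j0 (leg (rep (b j))))) = _
    by_cases hj : j = j0
    · subst hj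
      rw [if_pos rfl, sub_zero, Pi.single_eq_same]
      exact inv_mul_cancel₀ ht0
    · rw [Pi.single_eq_of_ne hj]
      by_cases hb : b j = b j0
      · rw [if_pos hb, hτ2 j0 j hb hj, sub_zero, mul_zero]
      · rw [if_neg hb, hτ1 j0 j (rep (b j)) (by rw [hrep]) hb, sub_self, mul_zero]
  have hsurj : LinearMap.range D = ⊤ := by
    rw [eq_top_iff]
    intro w _
    have h3 : w = ∑ j, w j • (Pi.single j (1 : k) : B → k) := by
      funext i
      rw [Finset.sum_apply, Finset.sum_eq_single i]
      · simp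
      · intro j _ hj
        simp [Pi.single_apply, hj.symm]
      · intro h; exact absurd (Finset.mem_univ _) h
    rw [h3]
    exact Submodule.sum_mem _ fun j _ => Submodule.smul_mem _ _ (hsingle j)
  have h3 := LinearMap.finrank_range_add_finrank_ker D
  rw [hsurj, finrank_top, Module.finrank_fintype_fun_eq_card, Module.finrank_fintype_fun_eq_card,
    Fintype.card_sum] at h3
  have h4 : Module.finrank k (LinearMap.ker D) = 0 := by omega
  have h5 : LinearMap.ker D = ⊥ := Submodule.finrank_eq_zero.1 h4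
  have h6 : (fun _ => 1 : (Λ ⊕ Q) → k) ∈ LinearMap.ker D := by
    rw [LinearMap.mem_ker]
    funext j
    change (1 : k) - 1 = 0
    exact sub_self 1
  rw [h5, Submodule.mem_bot] at h6
  obtain ⟨a⟩ := ‹Nonempty Λ›
  exact one_ne_zero (congrFun h6 (.inl a))

/-- A block has at least two branch points. -/
theorem two_le_fiber {B Q : Type} [Fintype B] [DecidableEq Q] (b : B → Q) (f : B → ℤ) {m : ℕ}
    (hf : ∀ j, ¬ (m : ℤ) ∣ f j) (j : B) (hsum : (m : ℤ) ∣ ∑ i, if b i = b j then f i else 0) :
    2 ≤ (Finset.univ.filter fun i => b i = b j).card := by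
  classical
  by_contra hcon
  push Not at hcon
  have hj : j ∈ Finset.univ.filter fun i => b i = b j :=
    Finset.mem_filter.2 ⟨Finset.mem_univ _, rfl⟩
  have h1 : (Finset.univ.filter fun i => b i = b j).card = 1 := by
    have := Finset.card_pos.2 ⟨j, hj⟩
    omega
  obtain ⟨i, hi⟩ := Finset.card_eq_one.1 h1
  have hji : j = i := by
    rw [hi, Finset.mem_singleton] at hj
    exact hj
  rw [← Finset.sum_filter, hi, Finset.sum_singleton] at hsum
  exact hf i hsum

theorem two_mul_card {B Q : Type} [Fintype B] [Fintype Q] [DecidableEq Q] (b : B → Q) (f : B → ℤ)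
    {m : ℕ} (hf : ∀ j, ¬ (m : ℤ) ∣ f j) (rep : Q → B) (hrep : ∀ q, b (rep q) = q)
    (hsum : ∀ q, (m : ℤ) ∣ ∑ i, if b i = q then f i else 0) :
    2 * Fintype.card Q ≤ Fintype.card B := by
  classical
  have h1 : Fintype.card B = ∑ q : Q, (Finset.univ.filter fun i => b i = q).card := by
    rw [← Finset.card_univ]
    exact Finset.card_eq_sum_card_fiberwise fun i _ => by
      rw [Finset.coe_univ]; exact Set.mem_univ _
  rw [h1]
  have h2 : ∑ q : Q, 2 ≤ ∑ q : Q, (Finset.univ.filter fun i => b i = q).card := by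
    refine Finset.sum_le_sum fun q _ => ?_
    have h3 := two_le_fiber b f hf (rep q) (by rw [hrep]; exact hsum q)
    rwa [hrep] at h3
  rw [Finset.sum_const, Finset.card_univ, smul_eq_mul] at h2
  omega

end Pool.Agent.J4.H82.CC
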