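import Pool.Agent.J4.H82.CC.S
import Pool.Agent.J4.H82.CC.T

/-!
# The vanishing theorem for any set of legs
-/

set_option autoImplicit false

open FF IntermediateField Pool.Agent.W603.LV Pool.Agent.W603.PV Pool.Agent.J4.H17.ZC
  Pool.Agent.N162.CV Pool.Agent.N75.CV Pool.Agent.J4.H82.PV

namespace Pool.Agent.J4.H82.CC

/-- A minimal closed set of legs with positive excess. -/
theorem exists_component {Λ B Q : Type} [Fintype Λ] [DecidableEq Λ] [Fintype B] [Fintype Q]
    (leg : B → Λ) (b : B → Q) (rep : Q → B) (hrep : ∀ q, b (rep q) = q) (w : Λ → ℕ)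
    (hexc : Fintype.card B < ∑ a, w a + Fintype.card Q) :
    ∃ U : Finset Λ, (∀ j j', b j = b j' → leg j ∈ U → leg j' ∈ U) ∧
      Fintype.card {j : B // leg j ∈ U} <
        ∑ a ∈ U, w a + Fintype.card {q : Q // leg (rep q) ∈ U} ∧
      ∀ W : Set Λ, (∃ a ∈ U, a ∈ W) →
        (∀ j j', b j = b j' → leg j ∈ U → leg j ∈ W → leg j' ∈ W) → ∀ a ∈ U, a ∈ W := by
  classical
  let C : Finset Λ → Prop := fun U => (∀ j j', b j = b j' → leg j ∈ U → leg j' ∈ U) ∧
      Fintype.card {j : B // leg j ∈ U} <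
        ∑ a ∈ U, w a + Fintype.card {q : Q // leg (rep q) ∈ U}
  have hC : C Finset.univ := by
    refine ⟨fun _ _ _ _ => Finset.mem_univ _, ?_⟩
    have h1 : Fintype.card {j : B // leg j ∈ (Finset.univ : Finset Λ)} = Fintype.card B :=
      Fintype.card_congr (Equiv.subtypeUnivEquiv fun j => Finset.mem_univ _)
    have h2 : Fintype.card {q : Q // leg (rep q) ∈ (Finset.univ : Finset Λ)} =
        Fintype.card Q := Fintype.card_congr (Equiv.subtypeUnivEquiv fun j => Finset.mem_univ _)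
    rw [h1, h2]
    exact hexc
  obtain ⟨U, hU, hmin⟩ := Finset.exists_min_image (Finset.univ.filter C) Finset.card
    ⟨Finset.univ, Finset.mem_filter.2 ⟨Finset.mem_univ _, hC⟩⟩
  have hU' : C U := (Finset.mem_filter.1 hU).2
  have hmin' : ∀ U', C U' → U.card ≤ U'.card := fun U' h =>
    hmin U' (Finset.mem_filter.2 ⟨Finset.mem_univ _, h⟩)
  refine ⟨U, hU'.1, hU'.2, ?_⟩
  rintro W ⟨a0, ha0, ha0W⟩ hW
  by_contra hcon
  push Not at hcon
  obtain ⟨a1, ha1, ha1W⟩ := hcon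
  let U1 := U.filter fun a => a ∈ W
  let U2 := U.filter fun a => ¬ a ∈ W
  have hm1 : ∀ a, a ∈ U1 ↔ a ∈ U ∧ a ∈ W := fun a => Finset.mem_filter
  have hm2 : ∀ a, a ∈ U2 ↔ a ∈ U ∧ ¬ a ∈ W := fun a => Finset.mem_filter
  have hc1 : ∀ j j', b j = b j' → leg j ∈ U1 → leg j' ∈ U1 := by
    intro j j' h hj
    rw [hm1] at hj ⊢
    exact ⟨hU'.1 j j' h hj.1, hW j j' h hj.1 hj.2⟩
  have hc2 : ∀ j j', b j = b j' → leg j ∈ U2 → leg j' ∈ U2 := by
    intro j j' h hj
    rw [hm2] at hj ⊢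
    have h3 := hU'.1 j j' h hj.1
    exact ⟨h3, fun h4 => hj.2 (hW j' j h.symm h3 h4)⟩
  have hsplit : ∀ (A : Type) [Fintype A] (g : A → Λ), Fintype.card {j : A // g j ∈ U} =
      Fintype.card {j : A // g j ∈ U1} + Fintype.card {j : A // g j ∈ U2} := by
    intro A _ g
    rw [Fintype.card_subtype, Fintype.card_subtype, Fintype.card_subtype,
      ← Finset.card_union_of_disjoint]
    · congr 1
      ext j
      simp only [Finset.mem_union, Finset.mem_filter, Finset.mem_univ, true_and, hm1, hm2]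
      tauto
    · rw [Finset.disjoint_left]
      intro j hj hj'
      rw [Finset.mem_filter, hm1] at hj
      rw [Finset.mem_filter, hm2] at hj'
      exact hj'.2.2 hj.2.2
  have hs : ∑ a ∈ U, w a = ∑ a ∈ U1, w a + ∑ a ∈ U2, w a :=
    (Finset.sum_filter_add_sum_filter_not U (fun a => a ∈ W) w).symm
  have hexcU := hU'.2
  rw [hsplit B leg, hsplit Q fun q => leg (rep q), hs] at hexcU
  have hlt1 : U1.card < U.card := Finset.card_lt_card (by
    refine ⟨Finset.filter_subset _ _, fun h => ha1W ((hm1 a1).1 (h ha1)).2⟩)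
  have hlt2 : U2.card < U.card := Finset.card_lt_card (by
    refine ⟨Finset.filter_subset _ _, fun h => ((hm2 a0).1 (h ha0)).2 ha0W⟩)
  by_cases h1 : Fintype.card {j : B // leg j ∈ U1} <
      ∑ a ∈ U1, w a + Fintype.card {q : Q // leg (rep q) ∈ U1}
  · have := hmin' U1 ⟨hc1, h1⟩
    omega
  · have := hmin' U2 ⟨hc2, by omega⟩
    omega

section

variable {k : Type} [Field k] [CharZero k] [IsAlgClosed k] {G : Type} [Group G] [Fintype G]
variable {Λ : Type} [Fintype Λ] [DecidableEq Λ] (K : Λ → Type) [∀ a, Field (K a)]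
  [∀ a, Algebra k (K a)]
  [∀ a, IsFF k (K a)] (β : ∀ a, G →* (K a ≃ₐ[k] K a)) [∀ a, IsFF k (fixedField (β a).range)]
  (T : Λ → Type) [∀ a, Fintype (T a)] [∀ a, DecidableEq (T a)]

omit [DecidableEq Λ] [Fintype Λ] [Fintype G] [∀ a, IsFF k (K a)] in
theorem two_le_brm (m : ℕ) (δ : ∀ a, fixedField (β a).range) (a : Λ)
    (hne : (Brm (k := k) m (δ a)).Nonempty) : 2 ≤ (Brm (k := k) m (δ a)).card := by
  classical
  by_contra hcon
  push Not at hcon
  have h1 : (Brm (k := k) m (δ a)).card = 1 := by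
    have := Finset.card_pos.2 hne
    omega
  obtain ⟨v, hv⟩ := Finset.card_eq_one.1 h1
  have h2 : (m : ℤ) ∣ ∑ v ∈ Brm (k := k) m (δ a), v.ord (δ a) := brm_sum m (ddeg_divisor _)
  rw [hv, Finset.sum_singleton] at h2
  have h3 : v ∈ Brm (k := k) m (δ a) := by rw [hv]; exact Finset.mem_singleton_self v
  exact mem_Brm.1 h3 h2

/-- All legs. -/
theorem blockS (hF : ∀ a, Rat1 k (fixedField (β a).range)) (χ : ∀ _ : Λ, G →* kˣ) {m : ℕ}
    (hm : m = 2 ∨ m = 3 ∨ m = 4) (δ : ∀ a, fixedField (β a).range)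
    (hs : ∀ a, Semi (β a) (χ a) m (δ a)) (hne : ∀ a, (Brm (k := k) m (δ a)).Nonempty)
    (hT : ∀ a, Fintype.card (T a) < (Brm (k := k) m (δ a)).card)
    (h0 : ∑ a, ∑ v ∈ Brm (k := k) m (δ a), v.ord (δ a) % m <
      m * ∑ a, ((Fintype.card (T a) : ℤ) + 1))
    (h1 : ∑ a, ∑ v ∈ Brm (k := k) m (δ a), (-v.ord (δ a)) % m <
      m * ∑ a, ((Fintype.card (T a) : ℤ) + 1))
    (l : ((∀ a, T a → Place k (K a)) →₀ ℤ) →+ k) (hl : ∀ r ∈ RatEq (bigV k K T), l r = 0)
    (hsym : ∀ (π : ∀ a, Equiv.Perm (T a)) (x : ∀ a, T a → Place k (K a)),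
      l (Finsupp.single (fun a i => x a (π a i)) 1) = l (Finsupp.single x 1))
    (heq : ∀ (g : ∀ a, T a → G) (x : ∀ a, T a → Place k (K a)),
      l (Finsupp.single (fun a i => act (β a (g a i)) (x a i)) 1) =
        (∏ a, ∏ i, ((χ a (g a i) : kˣ) : k)) * l (Finsupp.single x 1))
    (x : ∀ a, T a → Place k (K a)) : l (Finsupp.single x 1) = 0 := by
  classical
  have hm0 : 0 < m := by omega
  have hm0' : (0 : ℤ) < m := by exact_mod_cast hm0
  let f : (Σ a, {v // v ∈ Brm (k := k) m (δ a)}) → ℤ := fun j => j.2.1.ord (δ j.1)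
  have hf : ∀ j, ¬ (m : ℤ) ∣ f j := fun j => mem_Brm.1 j.2.2
  have hsumf : (m : ℤ) ∣ ∑ j, f j := by
    have h1 : ∑ j, f j = ∑ a, ∑ v ∈ Brm (k := k) m (δ a), v.ord (δ a) :=
      sum_B K β (fun a => Brm (k := k) m (δ a)) fun a v => v.ord (δ a)
    rw [h1]
    exact Finset.dvd_sum fun a _ => brm_sum m (ddeg_divisor _)
  obtain ⟨P, hP, hPc⟩ := exists_partition hm f _ Finset.univ rfl (fun j _ => hf j) hsumf
  have h2 : ∑ j, f j % m = ∑ a, ∑ v ∈ Brm (k := k) m (δ a), v.ord (δ a) % m :=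
    sum_B K β (fun a => Brm (k := k) m (δ a)) fun a v => v.ord (δ a) % m
  have h3 : ∑ j, (-f j) % m = ∑ a, ∑ v ∈ Brm (k := k) m (δ a), (-v.ord (δ a)) % m :=
    sum_B K β (fun a => Brm (k := k) m (δ a)) fun a v => (-v.ord (δ a)) % m
  rw [h2, h3] at hPc
  have hBc := card_B K β fun a => Brm (k := k) m (δ a)
  have hBc' : (m : ℤ) * (Fintype.card (Σ a, {v // v ∈ Brm (k := k) m (δ a)}) : ℤ) =
      ∑ a, ∑ v ∈ Brm (k := k) m (δ a), v.ord (δ a) % m +
      ∑ a, ∑ v ∈ Brm (k := k) m (δ a), (-v.ord (δ a)) % m := by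
    rw [hBc, Nat.cast_sum, Finset.mul_sum, ← Finset.sum_add_distrib]
    exact Finset.sum_congr rfl fun a _ => brm_card (k := k) hm (δ a)
  have hexc : Fintype.card (Σ a, {v // v ∈ Brm (k := k) m (δ a)}) <
      ∑ a, (Fintype.card (T a) + 1) + P.parts.card := by
    have h4 : (m : ℤ) * (Fintype.card (Σ a, {v // v ∈ Brm (k := k) m (δ a)}) : ℤ) <
        m * (∑ a, ((Fintype.card (T a) : ℤ) + 1) + P.parts.card : ℤ) := by
      rw [hBc', mul_add]
      have h5 := min_add_max (∑ a, ∑ v ∈ Brm (k := k) m (δ a), v.ord (δ a) % (m : ℤ))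
        (∑ a, ∑ v ∈ Brm (k := k) m (δ a), (-v.ord (δ a)) % (m : ℤ))
      have h6 := max_lt h0 h1
      linarith
    have h5 := lt_of_mul_lt_mul_left h4 hm0'.le
    have h6 : ((∑ a, (Fintype.card (T a) + 1) + P.parts.card : ℕ) : ℤ) =
        ∑ a, ((Fintype.card (T a) : ℤ) + 1) + P.parts.card := by
      push_cast
      rfl
    rw [← h6] at h5
    exact_mod_cast h5
  -- a first branch point
  obtain ⟨j0⟩ : Nonempty (Σ a, {v // v ∈ Brm (k := k) m (δ a)}) := by
    by_contra hcon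
    rw [not_nonempty_iff] at hcon
    have hΛ : IsEmpty Λ := ⟨fun a => by
      obtain ⟨v, hv⟩ := hne a
      exact hcon.elim ⟨a, v, hv⟩⟩
    rw [Finset.univ_eq_empty, Finset.sum_empty, Finset.sum_empty, mul_zero] at h0
    exact lt_irrefl _ h0
  obtain ⟨b, rep, hrep, hb, hsum, -⟩ := blocks_of P f m hP
    ⟨P.part j0, P.part_mem.2 (Finset.mem_univ j0)⟩ j0 (P.mem_part_self.2 (Finset.mem_univ j0))
  obtain ⟨U, hUc, hUe, hUm⟩ := exists_component Sigma.fst b rep hrep
    (fun a => Fintype.card (T a) + 1) (by rw [Fintype.card_coe]; exact hexc)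
  have hUne : U.Nonempty := by
    by_contra hcon
    rw [Finset.not_nonempty_iff_eq_empty] at hcon
    subst hcon
    rw [Finset.sum_empty, zero_add] at hUe
    have h4 : Fintype.card {q : P.parts // (rep q).1 ∈ (∅ : Finset Λ)} = 0 := by
      rw [Fintype.card_eq_zero_iff]
      exact ⟨fun q => Finset.notMem_empty _ q.2⟩
    omega
  -- restriction to the component
  refine restrict K β T χ (fun a => a ∈ U) (fun a => Finset.univ)
    (fun l' hl' hsym' heq' x' => ?_) l hl hsym heq x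
  let B' := Σ a : {a // a ∈ U}, {v // v ∈ Brm (k := k) m (δ a.1)}
  let ι : B' → (Σ a, {v // v ∈ Brm (k := k) m (δ a)}) := fun j => ⟨j.1.1, j.2⟩
  have hι : Function.Injective ι := by
    rintro ⟨⟨a, ha⟩, v⟩ ⟨⟨a', ha'⟩, v'⟩ h
    obtain rfl : a = a' := congrArg Sigma.fst h
    have h5 := eq_of_heq (Sigma.mk.inj_iff.1 h).2
    subst h5
    rfl
  have hιm : ∀ j, (ι j).1 ∈ U := fun j => j.1.2
  have hιr : ∀ j, j.1 ∈ U → ∃ j', ι j' = j := by
    rintro ⟨a, v⟩ ha
    exact ⟨⟨⟨a, ha⟩, v⟩, rfl⟩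
  let Q' := {q : P.parts // (rep q).1 ∈ U}
  let b' : B' → Q' := fun j => ⟨b (ι j), hUc (ι j) _ (by rw [hrep]) (hιm j)⟩
  let rep' : Q' → B' := fun q => ⟨⟨(rep q.1).1, q.2⟩, (rep q.1).2⟩
  have hιrep : ∀ q, ι (rep' q) = rep q.1 := fun q => rfl
  have hrep' : ∀ q, b' (rep' q) = q := by
    intro q
    apply Subtype.ext
    change b (ι (rep' q)) = q.1
    rw [hιrep, hrep]
  let f' : B' → ℤ := fun j => f (ι j)
  have hf' : ∀ j, ¬ (m : ℤ) ∣ f' j := fun j => hf (ι j)
  have hsum' : ∀ q, (m : ℤ) ∣ ∑ j, if b' j = q then f' j else 0 := by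
    intro q
    have h4 : ∑ j, (if b' j = q then f' j else 0) = ∑ j, if b j = q.1 then f j else 0 := by
      refine Fintype.sum_of_injective ι hι _ _ ?_ ?_
      · intro j hj
        rw [if_neg]
        intro h5
        obtain ⟨j', hj'⟩ := hιr j (hUc (rep q.1) j (by rw [hrep, h5]) q.2)
        exact hj ⟨j', hj'⟩
      · intro j
        by_cases h5 : b' j = q
        · rw [if_pos h5, if_pos (congrArg Subtype.val h5)]
        · rw [if_neg h5, if_neg fun h6 => h5 (Subtype.ext h6)]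
    rw [h4]
    exact hsum q.1
  have hcB' : Fintype.card B' = Fintype.card {j : (Σ a, {v // v ∈ Brm (k := k) m (δ a)}) //
      j.1 ∈ U} := by
    refine Fintype.card_congr (Equiv.ofBijective (fun j => ⟨ι j, hιm j⟩) ⟨?_, ?_⟩)
    · intro j j' h
      exact hι (congrArg Subtype.val h)
    · rintro ⟨j, hj⟩
      obtain ⟨j', hj'⟩ := hιr j hj
      exact ⟨j', Subtype.ext hj'⟩
  have hcB'' : Fintype.card B' = ∑ a : {a // a ∈ U}, (Brm (k := k) m (δ a.1)).card := by
    rw [Fintype.card_sigma]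
    exact Finset.sum_congr rfl fun a _ => Fintype.card_coe _
  have hne' : Nonempty {a // a ∈ U} := ⟨⟨_, hUne.choose_spec⟩⟩
  obtain ⟨e0, he0⟩ := exists_edge (k := k) (Λ := {a // a ∈ U}) (B := B') (Q := Q') Sigma.fst b'
    rep' hrep' (by
      rw [hcB'']
      have h4 : ∑ a : {a // a ∈ U}, 2 ≤ ∑ a : {a // a ∈ U}, (Brm (k := k) m (δ a.1)).card :=
        Finset.sum_le_sum fun a _ => two_le_brm K β m δ a.1 (hne a.1)
      rw [Finset.sum_const, Finset.card_univ, smul_eq_mul] at h4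
      omega) (two_mul_card b' f' hf' rep' hrep' hsum') (by
      rintro W ⟨a0, ha0⟩ hW a
      have h4 := hUm {a | ∃ h : a ∈ U, (⟨a, h⟩ : {a // a ∈ U}) ∈ W}
        ⟨a0.1, a0.2, a0.2, ha0⟩ (by
          rintro j j' hjj hj ⟨h5, h6⟩
          have hj' := hUc j j' hjj hj
          refine ⟨hj', ?_⟩
          obtain ⟨i, rfl⟩ := hιr j hj
          obtain ⟨i', rfl⟩ := hιr j' hj'
          exact hW i i' (Subtype.ext hjj) h6) a.1 a.2
      obtain ⟨h5, h6⟩ := h4
      exact h6)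
  refine block (fun a : {a // a ∈ U} => K a.1) (fun a => β a.1)
    (fun a => {i // i ∈ (Finset.univ : Finset (T a.1))}) (fun a => hF a.1) (fun a => χ a.1) hm0
    (fun a => δ a.1) (fun a => hs a.1) b' (fun q => if q = b' e0 then e0 else rep' q) ?_ (b' e0)
    hsum' ?_ ?_ ?_ l' hl' hsym' (fun g y => (heq' g y).trans (congrArg
      (fun z => z * l' (Finsupp.single y 1)) (@Fintype.prod_equiv _ _ _ (_) (_) _
        (Equiv.refl _) _ _ fun _ => rfl))) x'
  · intro q
    split_ifs with h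
    · exact h.symm
    · exact hrep' q
  · have h4 : ∑ a : {a // a ∈ U}, (Fintype.card {i // i ∈ (Finset.univ : Finset (T a.1))} + 1) =
        ∑ a ∈ U, (Fintype.card (T a) + 1) := by
      rw [← Finset.sum_coe_sort U fun a => Fintype.card (T a) + 1]
      refine Finset.sum_congr rfl fun a _ => ?_
      rw [Fintype.card_coe, Finset.card_univ]
    rw [h4]
    change Fintype.card B' < _ + Fintype.card Q'
    rw [hcB']
    exact hUe
  · intro a
    rw [Fintype.card_coe, Finset.card_univ]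
    exact hT a.1
  · rw [if_pos rfl]
    exact he0

/-- The vanishing theorem: there is a set of legs such that the sum of the numbers of points is
larger than the sums of the two dimensions. -/
theorem legsS (hF : ∀ a, Rat1 k (fixedField (β a).range)) (χ : ∀ _ : Λ, G →* kˣ) {m : ℕ}
    (hm : m = 2 ∨ m = 3 ∨ m = 4) (δ : ∀ a, fixedField (β a).range)
    (hs : ∀ a, Semi (β a) (χ a) m (δ a)) (hne : ∀ a, (Brm (k := k) m (δ a)).Nonempty)
    (S : Finset Λ) (h0 : ∑ a ∈ S, ∑ v ∈ Brm (k := k) m (δ a), v.ord (δ a) % m <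
      m * ∑ a ∈ S, ((Fintype.card (T a) : ℤ) + 1))
    (h1 : ∑ a ∈ S, ∑ v ∈ Brm (k := k) m (δ a), (-v.ord (δ a)) % m <
      m * ∑ a ∈ S, ((Fintype.card (T a) : ℤ) + 1))
    (l : ((∀ a, T a → Place k (K a)) →₀ ℤ) →+ k) (hl : ∀ r ∈ RatEq (bigV k K T), l r = 0)
    (hsym : ∀ (π : ∀ a, Equiv.Perm (T a)) (x : ∀ a, T a → Place k (K a)),
      l (Finsupp.single (fun a i => x a (π a i)) 1) = l (Finsupp.single x 1))
    (heq : ∀ (g : ∀ a, T a → G) (x : ∀ a, T a → Place k (K a)),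
      l (Finsupp.single (fun a i => act (β a (g a i)) (x a i)) 1) =
        (∏ a, ∏ i, ((χ a (g a i) : kˣ) : k)) * l (Finsupp.single x 1))
    (x : ∀ a, T a → Place k (K a)) : l (Finsupp.single x 1) = 0 := by
  classical
  have hm0 : 0 < m := by omega
  have hm0' : (0 : ℤ) < m := by exact_mod_cast hm0
  by_cases hbig : ∃ a, (Brm (k := k) m (δ a)).card ≤ Fintype.card (T a)
  · obtain ⟨a, ha⟩ := hbig
    have h2 : ∀ g : Place k (fixedField (β a).range) → ℤ,
        ∑ v ∈ Brm (k := k) m (δ a), g v % m ≤ m * Fintype.card (T a) := by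
      intro g
      have h3 : ∑ v ∈ Brm (k := k) m (δ a), g v % m ≤
          ∑ v ∈ Brm (k := k) m (δ a), (m : ℤ) :=
        Finset.sum_le_sum fun v _ => (Int.emod_lt_of_pos _ hm0').le
      rw [Finset.sum_const, nsmul_eq_mul, mul_comm] at h3
      exact h3.trans (mul_le_mul_of_nonneg_left (by exact_mod_cast ha) hm0'.le)
    exact legs K β T hF χ hm δ hs hne a a (h2 _) (h2 _) (Or.inl rfl) l hl hsym heq x
  · push Not at hbig
    refine restrict K β T χ (fun a => a ∈ S) (fun a => Finset.univ)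
      (fun l' hl' hsym' heq' x' => ?_) l hl hsym heq x
    have hc : ∀ a : {a // a ∈ S}, Fintype.card {i // i ∈ (Finset.univ : Finset (T a.1))} =
        Fintype.card (T a.1) := fun a => by rw [Fintype.card_coe, Finset.card_univ]
    have hsum : ∑ a : {a // a ∈ S},
        ((Fintype.card {i // i ∈ (Finset.univ : Finset (T a.1))} : ℤ) + 1) =
        ∑ a ∈ S, ((Fintype.card (T a) : ℤ) + 1) := by
      rw [← Finset.sum_coe_sort S fun a => (Fintype.card (T a) : ℤ) + 1]
      exact Finset.sum_congr rfl fun a _ => by rw [hc]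
    refine blockS (fun a : {a // a ∈ S} => K a.1) (fun a => β a.1)
      (fun a => {i // i ∈ (Finset.univ : Finset (T a.1))}) (fun a => hF a.1) (fun a => χ a.1) hm
      (fun a => δ a.1) (fun a => hs a.1) (fun a => hne a.1) (fun a => ?_) ?_ ?_ l' hl' hsym'
      (fun g y => (heq' g y).trans (congrArg (fun z => z * l' (Finsupp.single y 1))
        (@Fintype.prod_equiv _ _ _ (_) (_) _ (Equiv.refl _) _ _ fun _ => rfl))) x'
    · rw [hc]
      exact hbig a.1
    · rw [hsum]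
      refine lt_of_eq_of_lt ?_ h0
      exact Finset.sum_coe_sort S fun a => ∑ v ∈ Brm (k := k) m (δ a), v.ord (δ a) % (m : ℤ)
    · rw [hsum]
      refine lt_of_eq_of_lt ?_ h1
      exact Finset.sum_coe_sort S fun a => ∑ v ∈ Brm (k := k) m (δ a), (-v.ord (δ a)) % (m : ℤ)

end

end Pool.Agent.J4.H82.CC
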