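import Pool.Agent.J4.H82.CC.U

/-!
# Legs of a power of a product of two curves: the points on the first curve one by one, the points
on the second curve by characters
-/

set_option autoImplicit false

open FF IntermediateField Pool.Agent.W603.LV Pool.Agent.W603.PV Pool.Agent.J4.H17.ZC
  Pool.Agent.N162.CV Pool.Agent.N75.CV Pool.Agent.J4.H82.PV Equiv

namespace Pool.Agent.J4.H82.CC

section

variable {k : Type} [Field k] [CharZero k] [IsAlgClosed k] {G : Type} [Group G] [Fintype G]
variable {Λ : Type} [Fintype Λ] [DecidableEq Λ] (K : Λ → Type) [∀ a, Field (K a)]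
  [∀ a, Algebra k (K a)]
  [∀ a, IsFF k (K a)] (β : ∀ a, G →* (K a ≃ₐ[k] K a)) [∀ a, IsFF k (fixedField (β a).range)]
  (T : Λ → Type) [∀ a, Fintype (T a)] [∀ a, DecidableEq (T a)]

/-- the vanishing theorem for a set of legs, with elementary conditions -/
theorem legsS' (hF : ∀ a, Rat1 k (fixedField (β a).range)) (χ : ∀ _ : Λ, G →* kˣ) {m : ℕ}
    (hm : m = 2 ∨ m = 3 ∨ m = 4) (δ : ∀ a, fixedField (β a).range)
    (hs : ∀ a, Semi (β a) (χ a) m (δ a)) (hne : ∀ a, ∃ g, χ a g ≠ 1)
    (S : Finset Λ) (h0 : ∑ a ∈ S, ∑ v ∈ Brm (k := k) m (δ a), v.ord (δ a) % m <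
      m * ∑ a ∈ S, ((Fintype.card (T a) : ℤ) + 1))
    (h1 : ∑ a ∈ S, ∑ v ∈ Brm (k := k) m (δ a), (-v.ord (δ a)) % m <
      m * ∑ a ∈ S, ((Fintype.card (T a) : ℤ) + 1))
    (l : ((∀ a, T a → Place k (K a)) →₀ ℤ) →+ k) (hl : ∀ r ∈ RatEq (bigV k K T), l r = 0)
    (hsym : ∀ (a : Λ) (π : Equiv.Perm (T a)) (x : ∀ a, T a → Place k (K a)),
      l (Finsupp.single (Function.update x a fun i => x a (π i)) 1) = l (Finsupp.single x 1))
    (heq : ∀ (a : Λ) (i : T a) (g : G) (x : ∀ a, T a → Place k (K a)),
      l (Finsupp.single (Function.update x a (Function.update (x a) i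
        (act (β a g) (x a i)))) 1) = ((χ a g : kˣ) : k) * l (Finsupp.single x 1))
    (x : ∀ a, T a → Place k (K a)) : l (Finsupp.single x 1) = 0 := by
  classical
  refine legsS K β T hF χ hm δ hs (fun a => ?_) S h0 h1 l hl ?_ ?_ x
  · obtain ⟨g, hg⟩ := hne a
    exact brm_nonempty (hF a) (by omega) (hs a) g hg
  · intro π x
    have key : ∀ S : Finset Λ, l (Finsupp.single
        (fun a => if a ∈ S then (fun i => x a (π a i)) else x a) 1) = l (Finsupp.single x 1) := by
      intro S
      induction S using Finset.induction_on with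
      | empty => simp
      | insert a S ha ih =>
        rw [← ih, ← hsym a (π a) (fun a => if a ∈ S then (fun i => x a (π a i)) else x a)]
        congr 2
        funext b
        by_cases hb : b = a
        · subst hb
          rw [Function.update_self, if_pos (Finset.mem_insert_self _ _), if_neg ha]
        · rw [Function.update_of_ne hb]
          by_cases hbS : b ∈ S
          · rw [if_pos (Finset.mem_insert_of_mem hbS), if_pos hbS]
          · rw [if_neg (by rw [Finset.mem_insert, not_or]; exact ⟨hb, hbS⟩), if_neg hbS]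
    have h1 := key Finset.univ
    simpa using h1
  · intro g x
    have key : ∀ S : Finset (Σ a, T a), l (Finsupp.single
        (fun a i => if (⟨a, i⟩ : Σ a, T a) ∈ S then act (β a (g a i)) (x a i) else x a i) 1) =
        (∏ p ∈ S, ((χ p.1 (g p.1 p.2) : kˣ) : k)) * l (Finsupp.single x 1) := by
      intro S
      induction S using Finset.induction_on with
      | empty => simp
      | insert p S hp ih =>
        obtain ⟨a, i⟩ := p
        rw [Finset.prod_insert hp, mul_assoc, ← ih, ← heq a i (g a i)]
        congr 2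
        funext b
        by_cases hb : b = a
        · subst hb
          rw [Function.update_self]
          funext j
          by_cases hj : j = i
          · subst hj
            rw [Function.update_self, if_pos (Finset.mem_insert_self _ _), if_neg hp]
          · rw [Function.update_of_ne hj]
            have hne : ¬ (⟨b, j⟩ : Σ a, T a) = ⟨b, i⟩ := fun h => hj (by simpa using h)
            by_cases hbS : (⟨b, j⟩ : Σ a, T a) ∈ S
            · rw [if_pos (Finset.mem_insert_of_mem hbS), if_pos hbS]
            · rw [if_neg (by rw [Finset.mem_insert, not_or]; exact ⟨hne, hbS⟩), if_neg hbS]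
        · rw [Function.update_of_ne hb]
          funext j
          have hne : ¬ (⟨b, j⟩ : Σ a, T a) = ⟨a, i⟩ := fun h => hb (congrArg Sigma.fst h)
          by_cases hbS : (⟨b, j⟩ : Σ a, T a) ∈ S
          · rw [if_pos (Finset.mem_insert_of_mem hbS), if_pos hbS]
          · rw [if_neg (by rw [Finset.mem_insert, not_or]; exact ⟨hne, hbS⟩), if_neg hbS]
    have h1 := key Finset.univ
    simp only [Finset.mem_univ, if_true] at h1
    rw [h1, Fintype.prod_sigma]

end

section fam

variable {L L' : Type}

/-- a family of two types -/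
def KL (K1 K2 : Type) : L ⊕ L' → Type
  | .inl _ => K1
  | .inr _ => K2

variable {k : Type} [Field k] {K1 K2 : Type} [Field K1] [Algebra k K1] [Field K2] [Algebra k K2]
  {G : Type} [Group G] (α1 : G →* (K1 ≃ₐ[k] K1)) (α2 : G →* (K2 ≃ₐ[k] K2))

instance KL.field : ∀ a : L ⊕ L', Field (KL K1 K2 a)
  | .inl _ => inferInstanceAs (Field K1)
  | .inr _ => inferInstanceAs (Field K2)

instance KL.algebra : ∀ a : L ⊕ L', Algebra k (KL K1 K2 a)
  | .inl _ => inferInstanceAs (Algebra k K1)
  | .inr _ => inferInstanceAs (Algebra k K2)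

instance KL.isFF [IsFF k K1] [IsFF k K2] : ∀ a : L ⊕ L', IsFF k (KL K1 K2 a)
  | .inl _ => inferInstanceAs (IsFF k K1)
  | .inr _ => inferInstanceAs (IsFF k K2)

/-- the action on the family -/
def BL : ∀ a : L ⊕ L', G →* (KL K1 K2 a ≃ₐ[k] KL K1 K2 a)
  | .inl _ => α1
  | .inr _ => α2

instance BL.isFF [i1 : IsFF k (fixedField α1.range)] [i2 : IsFF k (fixedField α2.range)] :
    ∀ a : L ⊕ L', IsFF k (fixedField (BL α1 α2 a).range)
  | .inl _ => i1
  | .inr _ => i2

/-- the index types of the legs -/
def TL {k : Type} [Field k] {G : Type} [Group G] {n : ℕ} (κ : Fin n → (G →* kˣ)) :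
    Fin n ⊕ {c : G →* kˣ // c ≠ 1} → Type
  | .inl _ => Unit
  | .inr c => {i // κ i = c.1}

instance TL.decEq {k : Type} [Field k] {G : Type} [Group G] {n : ℕ} (κ : Fin n → (G →* kˣ)) :
    ∀ a, DecidableEq (TL κ a)
  | .inl _ => inferInstanceAs (DecidableEq Unit)
  | .inr c => inferInstanceAs (DecidableEq {i // κ i = c.1})

noncomputable instance TL.fintype {k : Type} [Field k] {G : Type} [Group G] {n : ℕ}
    (κ : Fin n → (G →* kˣ)) : ∀ a, Fintype (TL κ a)
  | .inl _ => inferInstanceAs (Fintype Unit)
  | .inr c => Fintype.ofFinite {i // κ i = c.1}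

end fam

section

variable {k : Type} [Field k] [CharZero k] [IsAlgClosed k] {K1 K2 : Type} [Field K1]
  [Algebra k K1] [Field K2] [Algebra k K2] [IsFF k K1] [IsFF k K2]
  {G : Type} [CommGroup G] [Fintype G] (α1 : G →* (K1 ≃ₐ[k] K1)) (α2 : G →* (K2 ≃ₐ[k] K2))
  {n : ℕ} [IsFF k (fixedField α1.range)] [IsFF k (fixedField α2.range)]

/-- the point with given coordinates -/
def RL {κ : Fin n → (G →* kˣ)} (hκ : ∀ i, κ i ≠ 1)
    (y : ∀ a, TL κ a → Place k (KL (L := Fin n) (L' := {c : G →* kˣ // c ≠ 1}) K1 K2 a)) :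
    Fin n → Place k K1 × Place k K2 := fun i =>
  (y (.inl i) (), y (.inr ⟨κ i, hκ i⟩) (show {j // κ j = κ i} from ⟨i, rfl⟩))

omit [CharZero k] [IsAlgClosed k] [IsFF k K1] [IsFF k K2] [Fintype G] in
theorem RL_snd {κ : Fin n → (G →* kˣ)} (hκ : ∀ i, κ i ≠ 1)
    (y : ∀ a, TL κ a → Place k (KL (L := Fin n) (L' := {c : G →* kˣ // c ≠ 1}) K1 K2 a))
    (i : Fin n) (c : {c : G →* kˣ // c ≠ 1}) (h : κ i = c.1) :
    (RL hκ y i).2 = y (.inr c) (show {j // κ j = c.1} from ⟨i, h⟩) := by
  obtain ⟨c, hc⟩ := c
  change κ i = c at h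
  subst h
  rfl

/-- A function which is symmetric in the coordinates on the second curve for every character is
zero, if the points are sufficiently many. -/
theorem killS [DecidableEq (G →* kˣ)] {m : ℕ} (hm : m = 2 ∨ m = 3 ∨ m = 4)
    {q1 q2 : (G →* kˣ) → ℕ}
    (hd1 : Datum α1 m q1) (hd2 : Datum α2 m q2) {κ : Fin n → (G →* kˣ)} (hκ : ∀ i, κ i ≠ 1)
    {ψ : (Fin n → Place k K1 × Place k K2) → k} (hψ : ψ ∈ Adm α1 α2 κ)
    (hSy : ∀ (c : G →* kˣ) (π : Perm {i // κ i = c}) x, ψ (mv 1 (Perm.ofSubtype π) x) = ψ x)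
    (S1 : Finset (Fin n)) (S2 : Finset {c : G →* kˣ // c ≠ 1})
    (h0 : ∑ i ∈ S1, q1 (κ i)⁻¹ + ∑ c ∈ S2, q2 c.1 <
      S1.card + ∑ c ∈ S2, (Finset.univ.filter fun i => κ i = c.1).card)
    (h1 : ∑ i ∈ S1, q1 (κ i) + ∑ c ∈ S2, q2 c.1⁻¹ <
      S1.card + ∑ c ∈ S2, (Finset.univ.filter fun i => κ i = c.1).card) : ψ = 0 := by
  classical
  have hfin : Finite (G →* kˣ) := by
    have i1 : HasEnoughRootsOfUnity k (Monoid.exponent G) := by
      have : NeZero (Monoid.exponent G) := ⟨Monoid.exponent_ne_zero_of_finite⟩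
      have : NeZero ((Monoid.exponent G : ℕ) : k) := NeZero.charZero
      infer_instance
    obtain ⟨e⟩ := CommGroup.monoidHom_mulEquiv_of_hasEnoughRootsOfUnity G k
    exact Finite.of_equiv G e.symm.toEquiv
  let _ : Fintype {c : G →* kˣ // c ≠ 1} := Fintype.ofFinite _
  have hex : ∀ a : Fin n ⊕ {c : G →* kˣ // c ≠ 1}, ∃ δ : fixedField (BL α1 α2 a).range,
      Semi (BL α1 α2 a) (Sum.elim κ (fun c => c.1⁻¹) a) m δ ∧
      ∑ v ∈ Brm (k := k) m δ, v.ord δ % m =
        m * ((Sum.elim (fun i => q1 (κ i)⁻¹) (fun c => q2 c.1) a : ℕ) + 1) ∧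
      ∑ v ∈ Brm (k := k) m δ, (-v.ord δ) % m =
        m * ((Sum.elim (fun i => q1 (κ i)) (fun c => q2 c.1⁻¹) a : ℕ) + 1) := by
    rintro (i | ⟨c, hc⟩)
    · exact hd1.2 (κ i) (hκ i)
    · have hc' : c⁻¹ ≠ 1 := inv_ne_one'' hc
      obtain ⟨δ, hδ, hδ1, hδ2⟩ := hd2.2 c⁻¹ hc'
      rw [inv_inv''] at hδ1
      exact ⟨δ, hδ, hδ1, hδ2⟩
  choose δ hδ hδ1 hδ2 using hex
  funext x
  let l : ((∀ a, TL κ a → Place k (KL (L := Fin n) (L' := {c : G →* kˣ // c ≠ 1}) K1 K2 a))
      →₀ ℤ) →+ k := (Finsupp.linearCombination ℤ fun y => ψ (RL hκ y)).toAddMonoidHom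
  have hl1 : ∀ y, l (Finsupp.single y 1) = ψ (RL hκ y) := by
    intro y
    change Finsupp.linearCombination ℤ _ (Finsupp.single y 1) = _
    rw [Finsupp.linearCombination_single, one_smul]
  have hreg : Reg (X := bigV k (fun a : Fin n ⊕ {c : G →* kˣ // c ≠ 1} => KL K1 K2 a) (TL κ))
      (Y := ((curve k K1).prod (curve k K2)).pow (Fin n)) (RL hκ) := by
    intro M _ _ y hy i
    exact ⟨hy (.inl i) (), hy (.inr ⟨κ i, hκ i⟩) (show {j // κ j = κ i} from ⟨i, rfl⟩)⟩
  -- the coordinates of the given point
  let y0 : ∀ a : Fin n ⊕ {c : G →* kˣ // c ≠ 1}, TL κ a → Place k (KL K1 K2 a) := fun a =>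
    match a with
    | .inl i => fun _ => (x i).1
    | .inr c => fun i : {i // κ i = c.1} => (x i.1).2
  have hy0 : RL hκ y0 = x := by
    funext i
    rfl
  have hcard1 : ∀ i : Fin n, Fintype.card (TL κ (.inl i)) = 1 := fun i => Fintype.card_unit
  have hcard2 : ∀ c : {c : G →* kˣ // c ≠ 1}, Fintype.card (TL κ (.inr c)) =
      (Finset.univ.filter fun i => κ i = c.1).card := by
    intro c
    have h2 : Fintype.card (TL κ (.inr c)) = Nat.card {i // κ i = c.1} :=
      (Nat.card_eq_fintype_card (α := TL κ (.inr c))).symm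
    rw [h2, Nat.card_eq_fintype_card, Fintype.card_subtype]
  have hm0 : 0 < m := by omega
  have hm0' : (0 : ℤ) < m := by exact_mod_cast hm0
  have hT : ∑ a ∈ S1.disjSum S2, ((Fintype.card (TL κ a) : ℤ) + 1) =
      (S1.card + ∑ c ∈ S2, (Finset.univ.filter fun i => κ i = c.1).card : ℕ) +
        (S1.card + S2.card : ℕ) := by
    rw [Finset.sum_disjSum]
    have e1 : ∀ i ∈ S1, ((Fintype.card (TL κ (.inl i)) : ℤ) + 1) = 2 := fun i _ => by
      rw [hcard1]; norm_num
    have e2 : ∀ c ∈ S2, ((Fintype.card (TL κ (.inr c)) : ℤ) + 1) =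
        ((Finset.univ.filter fun i => κ i = c.1).card : ℤ) + 1 := fun c _ => by rw [hcard2]
    rw [Finset.sum_congr rfl e1, Finset.sum_congr rfl e2, Finset.sum_const,
      Finset.sum_add_distrib, Finset.sum_const]
    push_cast
    simp only [nsmul_eq_mul]
    ring
  have main := legsS' (fun a : Fin n ⊕ {c : G →* kˣ // c ≠ 1} => KL K1 K2 a)
    (fun a => BL α1 α2 a) (TL κ) (by
      rintro (i | c)
      · exact hd1.1
      · exact hd2.1) (fun a => Sum.elim κ (fun c => c.1⁻¹) a) hm δ hδ (by
      rintro (i | c)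
      · by_contra hcon
        push Not at hcon
        exact hκ i (MonoidHom.ext hcon)
      · by_contra hcon
        push Not at hcon
        exact inv_ne_one'' c.2 (MonoidHom.ext hcon)) (S1.disjSum S2) (by
      rw [Finset.sum_congr rfl fun a _ => hδ1 a, ← Finset.mul_sum, hT, Finset.sum_disjSum]
      refine mul_lt_mul_of_pos_left ?_ hm0'
      have e1 : ∑ i ∈ S1, ((q1 (κ i)⁻¹ : ℤ) + 1) + ∑ c ∈ S2, ((q2 c.1 : ℤ) + 1) =
          (∑ i ∈ S1, q1 (κ i)⁻¹ + ∑ c ∈ S2, q2 c.1 : ℕ) + (S1.card + S2.card : ℕ) := by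
        rw [Finset.sum_add_distrib, Finset.sum_add_distrib, Finset.sum_const, Finset.sum_const]
        push_cast
        simp only [nsmul_eq_mul]
        ring
      refine lt_of_eq_of_lt e1 ?_
      exact_mod_cast Nat.add_lt_add_right h0 _) (by
      rw [Finset.sum_congr rfl fun a _ => hδ2 a, ← Finset.mul_sum, hT, Finset.sum_disjSum]
      refine mul_lt_mul_of_pos_left ?_ hm0'
      have e1 : ∑ i ∈ S1, ((q1 (κ i) : ℤ) + 1) + ∑ c ∈ S2, ((q2 c.1⁻¹ : ℤ) + 1) =
          (∑ i ∈ S1, q1 (κ i) + ∑ c ∈ S2, q2 c.1⁻¹ : ℕ) + (S1.card + S2.card : ℕ) := by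
        rw [Finset.sum_add_distrib, Finset.sum_add_distrib, Finset.sum_const, Finset.sum_const]
        push_cast
        simp only [nsmul_eq_mul]
        ring
      refine lt_of_eq_of_lt e1 ?_
      exact_mod_cast Nat.add_lt_add_right h1 _) l (by
      intro r hr
      change Finsupp.linearCombination ℤ (ψ ∘ RL hκ) r = 0
      rw [← Finsupp.linearCombination_mapDomain]
      exact hψ.1 _ (hreg.push hr)) (by
      rintro (i | c) π y
      · have h2 : (fun j => y (.inl i) (π j)) = y (.inl i) := by
          funext j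
          rfl
        rw [h2, Function.update_eq_self]
      · rw [hl1, hl1, ← hSy c.1 π (RL hκ y)]
        congr 1
        funext i
        refine Prod.ext ?_ ?_
        · change Function.update y (.inr c) (fun j => y (.inr c) (π j)) (.inl i) () =
            y (.inl i) ()
          rw [Function.update_of_ne Sum.inl_ne_inr]
        · change (RL hκ (Function.update y (.inr c) fun j => y (.inr c) (π j)) i).2 =
            (RL hκ y (Perm.ofSubtype (p := fun i => κ i = c.1) π i)).2
          by_cases hi : κ i = c.1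
          · rw [RL_snd hκ _ i c hi, Function.update_self,
              Perm.ofSubtype_apply_of_mem (p := fun i => κ i = c.1) π hi]
            exact (RL_snd hκ y _ c (π ⟨i, hi⟩ : {i // κ i = c.1}).2).symm
          · rw [Perm.ofSubtype_apply_of_not_mem (p := fun i => κ i = c.1) π hi]
            have hne : (.inr ⟨κ i, hκ i⟩ : Fin n ⊕ {c : G →* kˣ // c ≠ 1}) ≠ .inr c := by
              intro h
              exact hi (congrArg Subtype.val (Sum.inr_injective h))
            change Function.update y (.inr c) (fun j => y (.inr c) (π j)) (.inr ⟨κ i, hκ i⟩) _ =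
              y (.inr ⟨κ i, hκ i⟩) _
            rw [Function.update_of_ne hne]) (by
      rintro (i | c) j g y
      · rw [hl1, hl1]
        refine Eq.trans (congrArg ψ ?_) (adm_left α1 α2 hψ i g (RL hκ y))
        funext i'
        by_cases hi : i' = i
        · subst hi
          rw [Function.update_self]
          refine Prod.ext ?_ ?_
          · change Function.update y (.inl i') (Function.update (y (.inl i')) j
              (act (BL α1 α2 (.inl i') g) (y (.inl i') j))) (.inl i') () = _
            rw [Function.update_self]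
            rfl
          · change Function.update y (.inl i') (Function.update (y (.inl i')) j
              (act (BL α1 α2 (.inl i') g) (y (.inl i') j))) (.inr ⟨κ i', hκ i'⟩) _ = _
            rw [Function.update_of_ne Sum.inr_ne_inl]
            rfl
        · rw [Function.update_of_ne hi]
          refine Prod.ext ?_ ?_
          · change Function.update y (.inl i) (Function.update (y (.inl i)) j
              (act (BL α1 α2 (.inl i) g) (y (.inl i) j))) (.inl i') () = _
            rw [Function.update_of_ne (fun h => hi (Sum.inl_injective h))]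
            rfl
          · change Function.update y (.inl i) (Function.update (y (.inl i)) j
              (act (BL α1 α2 (.inl i) g) (y (.inl i) j))) (.inr ⟨κ i', hκ i'⟩) _ = _
            rw [Function.update_of_ne Sum.inr_ne_inl]
            rfl
      · obtain ⟨i, hi⟩ : {i // κ i = c.1} := j
        rw [hl1, hl1]
        have h6 : (((Sum.elim κ (fun c => c.1⁻¹)
            (.inr c : Fin n ⊕ {c : G →* kˣ // c ≠ 1})) g : kˣ) : k) =
            ((κ i g : kˣ) : k)⁻¹ := by
          change ((c.1⁻¹ g : kˣ) : k) = _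
          rw [MonoidHom.inv_apply, Units.val_inv_eq_inv_val, hi]
        rw [h6]
        refine Eq.trans (congrArg ψ ?_) (adm_right α1 α2 hψ i g (RL hκ y))
        funext i'
        by_cases hi' : i' = i
        · subst hi'
          rw [Function.update_self]
          refine Prod.ext ?_ ?_
          · change Function.update y (.inr c) (Function.update (y (.inr c))
              (show {i // κ i = c.1} from ⟨i', hi⟩)
              (act (BL α1 α2 (.inr c) g) (y (.inr c) (show {i // κ i = c.1} from ⟨i', hi⟩)))) (.inl i') () = _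
            rw [Function.update_of_ne Sum.inl_ne_inr]
            rfl
          · rw [RL_snd hκ _ i' c hi, Function.update_self, Function.update_self,
              RL_snd hκ y i' c hi]
            rfl
        · rw [Function.update_of_ne hi']
          refine Prod.ext ?_ ?_
          · change Function.update y (.inr c) (Function.update (y (.inr c))
              (show {i // κ i = c.1} from ⟨i, hi⟩)
              (act (BL α1 α2 (.inr c) g) (y (.inr c) (show {i // κ i = c.1} from ⟨i, hi⟩)))) (.inl i') () = _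
            rw [Function.update_of_ne Sum.inl_ne_inr]
            rfl
          · by_cases hc : κ i' = c.1
            · rw [RL_snd hκ _ i' c hc, RL_snd hκ y i' c hc, Function.update_self,
                Function.update_of_ne]
              intro h
              exact hi' (congrArg Subtype.val h)
            · change Function.update y (.inr c) (Function.update (y (.inr c))
              (show {i // κ i = c.1} from ⟨i, hi⟩)
              (act (BL α1 α2 (.inr c) g) (y (.inr c) (show {i // κ i = c.1} from ⟨i, hi⟩)))) (.inr ⟨κ i', hκ i'⟩) _ =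
                y (.inr ⟨κ i', hκ i'⟩) _
              have hne : (.inr ⟨κ i', hκ i'⟩ : Fin n ⊕ {c : G →* kˣ // c ≠ 1}) ≠ .inr c := by
                intro h
                exact hc (congrArg Subtype.val (Sum.inr_injective h))
              rw [Function.update_of_ne hne]) y0
  rw [hl1, hy0] at main
  exact main

end

end Pool.Agent.J4.H82.CC
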