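import Pool.Agent.J4.H82.CC.V

/-!
# Alternating sums of equivariant functionals, multiplicity free case
-/

set_option autoImplicit false

open FF IntermediateField Pool.Agent.W603.LV Pool.Agent.W603.PV Pool.Agent.J4.H17.ZC
  Pool.Agent.N162.CV Pool.Agent.N75.CV Pool.Agent.J4.H82.PV Equiv

namespace Pool.Agent.J4.H82.CC

/-- the numerical part -/
theorem num {C : Type} [Fintype C] [DecidableEq C] (ι : C → C) (hι : ∀ c, ι (ι c) = c)
    (p q ν nn : C → ℕ) (hp : ∀ c, p c ≤ 1) (hnn : ∀ c, nn c ≠ 0 → p c = 1)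
    (hs : ∑ c, p c * ν c < ∑ c, nn c) (hν : ∀ c, q (ι c) ≤ ν c)
    (hH : ∀ c, p c = 1 → p (ι c) = 0 → q c ≤ 2 * ν c + 1) :
    (∃ X : Finset C, ∑ c ∈ X, q c < ∑ c ∈ X, nn c ∧ ∑ c ∈ X, q (ι c) < ∑ c ∈ X, nn c) ∨
    ∃ c, p c = 1 ∧ p (ι c) = 0 ∧ q (ι c) < nn c ∧ q c < 2 * nn c := by
  classical
  by_cases h : ∃ c, p c = 1 ∧ p (ι c) = 0 ∧ ν c < nn c
  · obtain ⟨c, h1, h2, h3⟩ := h
    have h4 := hH c h1 h2
    have h5 := hν c
    exact Or.inr ⟨c, h1, h2, by omega, by omega⟩
  · push Not at h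
    left
    let X : Finset C := Finset.univ.filter fun c => p c = 1 ∧ p (ι c) = 1
    have hX : ∑ c ∈ X, q (ι c) = ∑ c ∈ X, q c := by
      refine Finset.sum_nbij' ι ι ?_ ?_ ?_ ?_ ?_
      · intro c hc
        rw [Finset.mem_filter] at hc ⊢
        exact ⟨Finset.mem_univ _, hc.2.2, by rw [hι]; exact hc.2.1⟩
      · intro c hc
        rw [Finset.mem_filter] at hc ⊢
        exact ⟨Finset.mem_univ _, hc.2.2, by rw [hι]; exact hc.2.1⟩
      · intro c _; exact hι c
      · intro c _; exact hι c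
      · intro c _; rfl
    have h1 : ∑ c ∈ X, p c * ν c + ∑ c ∈ Xᶜ, p c * ν c = ∑ c, p c * ν c :=
      Finset.sum_add_sum_compl X _
    have h2 : ∑ c ∈ X, nn c + ∑ c ∈ Xᶜ, nn c = ∑ c, nn c := Finset.sum_add_sum_compl X _
    have h3 : ∑ c ∈ X, q (ι c) ≤ ∑ c ∈ X, p c * ν c := by
      refine Finset.sum_le_sum fun c hc => ?_
      rw [(Finset.mem_filter.1 hc).2.1, one_mul]
      exact hν c
    have h4 : ∑ c ∈ Xᶜ, nn c ≤ ∑ c ∈ Xᶜ, p c * ν c := by
      refine Finset.sum_le_sum fun c hc => ?_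
      by_cases hn : nn c = 0
      · rw [hn]; exact Nat.zero_le _
      · have h5 := hnn c hn
        have h6 : p (ι c) = 0 := by
          by_contra h7
          have h8 := hp (ι c)
          rw [Finset.mem_compl] at hc
          exact hc (Finset.mem_filter.2 ⟨Finset.mem_univ _, h5, by omega⟩)
        rw [h5, one_mul]
        exact h c h5 h6
    refine ⟨X, ?_, ?_⟩
    · omega
    · omega

section

variable {k : Type} [Field k] [CharZero k] [IsAlgClosed k] {K1 K2 : Type} [Field K1]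
  [Algebra k K1] [Field K2] [Algebra k K2] [IsFF k K1] [IsFF k K2]
  {G : Type} [CommGroup G] [Fintype G] (α1 : G →* (K1 ≃ₐ[k] K1)) (α2 : G →* (K2 ≃ₐ[k] K2))
  {n : ℕ} [IsFF k (fixedField α1.range)] [IsFF k (fixedField α2.range)]

open Classical in
/-- the permutations preserving the characters -/
noncomputable def HK {k : Type} [Field k] {G : Type} [CommGroup G] {n : ℕ}
    (κ : Fin n → (G →* kˣ)) : Finset (Perm (Fin n)) :=
  Finset.univ.filter fun τ => ∀ i, κ (τ i) = κ i

theorem mem_HK {k : Type} [Field k] {G : Type} [CommGroup G] {n : ℕ}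
    {κ : Fin n → (G →* kˣ)} {τ : Perm (Fin n)} : τ ∈ HK κ ↔ ∀ i, κ (τ i) = κ i := by
  classical
  unfold HK
  rw [Finset.mem_filter]
  exact ⟨fun h => h.2, fun h => ⟨Finset.mem_univ _, h⟩⟩

/-- alternating sum over the permutations preserving the characters -/
noncomputable def alt1 {k : Type} [Field k] {G : Type} [CommGroup G] {A B : Type} {n : ℕ}
    (κ : Fin n → (G →* kˣ)) (φ : (Fin n → A × B) → k) : (Fin n → A × B) → k :=
  fun x => ∑ τ ∈ HK κ, ((Perm.sign τ : ℤ) : k) * φ (mv τ τ x)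

theorem alt0_alt1 {k : Type} [Field k] {G : Type} [CommGroup G] {A B : Type} {n : ℕ}
    (κ : Fin n → (G →* kˣ)) (φ : (Fin n → A × B) → k) :
    alt0 (alt1 κ φ) = fun x => ((HK κ).card : k) * alt0 φ x := by
  funext x
  unfold alt0 alt1
  simp only [Finset.mul_sum]
  rw [Finset.sum_comm]
  have h1 : ∀ τ ∈ HK κ, ∑ σ : Perm (Fin n), ((Perm.sign σ : ℤ) : k) *
      (((Perm.sign τ : ℤ) : k) * φ (mv τ τ (mv σ σ x))) =
      ∑ σ : Perm (Fin n), ((Perm.sign σ : ℤ) : k) * φ (mv σ σ x) := by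
    intro τ _
    refine Fintype.sum_equiv (Equiv.mulRight τ) _ _ fun σ => ?_
    rw [mv_mv, Equiv.coe_mulRight, Perm.sign_mul]
    push_cast
    ring
  rw [Finset.sum_congr rfl h1, Finset.sum_const, nsmul_eq_mul, Finset.mul_sum]

theorem card_HK_ne {k : Type} [Field k] [CharZero k] {G : Type} [CommGroup G] {n : ℕ}
    (κ : Fin n → (G →* kˣ)) : ((HK κ).card : k) ≠ 0 := by
  have h : 0 < (HK κ).card := Finset.card_pos.2 ⟨1, mem_HK.2 fun _ => rfl⟩
  exact_mod_cast h.ne'

theorem alt1_mv {k : Type} [Field k] {G : Type} [CommGroup G] {A B : Type} {n : ℕ}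
    {κ : Fin n → (G →* kˣ)} (φ : (Fin n → A × B) → k) {σ : Perm (Fin n)} (hσ : σ ∈ HK κ)
    (x : Fin n → A × B) : alt1 κ φ (mv σ σ x) = ((Perm.sign σ : ℤ) : k) * alt1 κ φ x := by
  unfold alt1
  rw [Finset.mul_sum]
  refine Finset.sum_nbij' (fun τ => σ * τ) (fun τ => σ⁻¹ * τ) ?_ ?_ ?_ ?_ ?_
  · intro τ hτ
    rw [mem_HK] at *
    intro i
    rw [Perm.mul_apply, hσ, hτ]
  · intro τ hτ
    rw [mem_HK] at *
    intro i
    rw [Perm.mul_apply, ← hσ (σ⁻¹ (τ i)), ← Perm.mul_apply, mul_inv_cancel, Perm.one_apply, hτ]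
  · intro τ _; group
  · intro τ _; group
  · intro τ _
    rw [mv_mv, Perm.sign_mul]
    have h1 : ((Perm.sign σ : ℤ) : k) * ((Perm.sign σ : ℤ) : k) = 1 := by
      rcases Int.units_eq_one_or (Perm.sign σ) with h | h <;> rw [h] <;> simp
    push_cast
    rw [← mul_assoc, ← mul_assoc, h1, one_mul]

omit [IsAlgClosed k] [IsFF k K1] [IsFF k K2] [Fintype G] [IsFF k (fixedField α1.range)]
  [IsFF k (fixedField α2.range)] in
theorem alt1_mem {κ : Fin n → (G →* kˣ)} {φ : (Fin n → Place k K1 × Place k K2) → k}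
    (hφ : φ ∈ Adm α1 α2 κ) : alt1 κ φ ∈ Adm α1 α2 κ := by
  have h1 : alt1 κ φ = ∑ τ ∈ HK κ, (Perm.sign τ : ℤ) • PP τ τ φ := by
    funext x
    rw [Finset.sum_apply]
    unfold alt1
    refine Finset.sum_congr rfl fun σ _ => ?_
    rw [Pi.smul_apply, zsmul_eq_mul, PP_apply]
  rw [h1]
  refine Submodule.sum_mem _ fun τ hτ => zsmul_mem ?_ _
  exact PP_mem α1 α2 (mem_HK.1 hτ) (mem_HK.1 hτ) hφ

theorem PT_pair {i j : Fin n} (hij : i ≠ j) : PT {i, j} = {1, swap i j} := by
  ext τ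
  rw [mem_PT, Finset.mem_insert, Finset.mem_singleton]
  constructor
  · intro h
    have hi : τ i = i ∨ τ i = j := by
      by_contra hcon
      push Not at hcon
      have h1 := h (τ i) (by
        rw [Finset.mem_insert, Finset.mem_singleton, not_or]
        exact hcon)
      exact hcon.1 (τ.injective h1)
    have hj : τ j = i ∨ τ j = j := by
      by_contra hcon
      push Not at hcon
      have h1 := h (τ j) (by
        rw [Finset.mem_insert, Finset.mem_singleton, not_or]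
        exact hcon)
      exact hcon.2 (τ.injective h1)
    rcases hi with hi | hi
    · left
      have hj' : τ j = j := by
        rcases hj with hj | hj
        · exact absurd (τ.injective (hi.trans hj.symm)) hij
        · exact hj
      ext x
      by_cases hx : x = i
      · rw [hx, hi]; rfl
      · by_cases hx' : x = j
        · rw [hx', hj']; rfl
        · rw [h x (by rw [Finset.mem_insert, Finset.mem_singleton, not_or]; exact ⟨hx, hx'⟩)]
          rfl
    · right
      have hj' : τ j = i := by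
        rcases hj with hj | hj
        · exact hj
        · exact absurd (τ.injective (hi.trans hj.symm)) hij
      ext x
      by_cases hx : x = i
      · rw [hx, hi, swap_apply_left]
      · by_cases hx' : x = j
        · rw [hx', hj', swap_apply_right]
        · rw [h x (by rw [Finset.mem_insert, Finset.mem_singleton, not_or]; exact ⟨hx, hx'⟩),
            swap_apply_of_ne_of_ne hx hx']
  · rintro (rfl | rfl) x hx
    · rfl
    · rw [Finset.mem_insert, Finset.mem_singleton, not_or] at hx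
      exact swap_apply_of_ne_of_ne hx.1 hx.2

/-- In the multiplicity free case the functional is alternating in the coordinates on the first
curve. -/
theorem alternating1 {m : ℕ} (hm : m = 2 ∨ m = 3 ∨ m = 4) {q1 q2 : (G →* kˣ) → ℕ}
    (hd1 : Datum α1 m q1) (hd2 : Datum α2 m q2) {κ : Fin n → (G →* kˣ)}
    (hκ : ∀ i, κ i ≠ 1) (hq : ∀ χ, χ ≠ 1 → q1 χ ≤ 1)
    {ψ : (Fin n → Place k K1 × Place k K2) → k} (hψ : ψ ∈ Adm α1 α2 κ) {i j : Fin n}
    (hij : i ≠ j) (hc : κ i = κ j) (x : Fin n → Place k K1 × Place k K2) :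
    ψ (mv (swap i j) 1 x) = - ψ x := by
  classical
  have hT : ∀ a ∈ ({i, j} : Finset (Fin n)),
      κ a = chr (.inl (κ i) : (G →* kˣ) ⊕ (G →* kˣ)) := by
    intro a ha
    rw [Finset.mem_insert, Finset.mem_singleton] at ha
    rcases ha with rfl | rfl
    · rfl
    · exact hc.symm
  have h1 : sym (.inl (κ i) : (G →* kˣ) ⊕ (G →* kˣ)) {i, j} ψ = 0 := by
    refine kill_aux α1 α2 hm hd1 hd2 (sym_mem α1 α2 hT hψ) {.inl (κ i)} ?_ (fun _ => {i, j}) ?_ ?_
      (.inl (κ i)) (.inl (κ i)) (Finset.mem_singleton_self _) (Finset.mem_singleton_self _)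
      ?_ ?_ (Or.inl rfl)
    · intro ℓ hℓ
      rw [Finset.mem_singleton] at hℓ
      subst hℓ
      exact hκ i
    · intro ℓ hℓ a ha
      rw [Finset.mem_singleton] at hℓ
      subst hℓ
      exact hT a ha
    · intro ℓ hℓ
      rw [Finset.mem_singleton] at hℓ
      subst hℓ
      exact sym_Sy _ _ _
    · rw [Finset.card_pair hij]
      have := hq (κ i)⁻¹ (inv_ne_one'' (hκ i))
      change q1 (κ i)⁻¹ + 1 ≤ 2
      omega
    · rw [Finset.card_pair hij]
      have := hq (κ i) (hκ i)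
      change q1 (κ i) + 1 ≤ 2
      omega
  have h2 := congrFun h1 x
  rw [sym_apply, PT_pair hij, Finset.sum_pair (by
    intro h
    have h3 := congrArg (fun τ : Perm (Fin n) => τ i) h
    simp only [Perm.one_apply, swap_apply_left] at h3
    exact hij h3)] at h2
  change ψ x + ψ (mv (swap i j) 1 x) = 0 at h2
  linear_combination h2

/-- In the multiplicity free case an alternating functional is symmetric in the coordinates on the
second curve. -/
theorem symmetric2 [DecidableEq (G →* kˣ)] {m : ℕ} (hm : m = 2 ∨ m = 3 ∨ m = 4) {q1 q2 : (G →* kˣ) → ℕ}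
    (hd1 : Datum α1 m q1) (hd2 : Datum α2 m q2) {κ : Fin n → (G →* kˣ)}
    (hκ : ∀ i, κ i ≠ 1) (hq : ∀ χ, χ ≠ 1 → q1 χ ≤ 1)
    {φ : (Fin n → Place k K1 × Place k K2) → k} (hφ : φ ∈ Adm α1 α2 κ)
    (c : G →* kˣ) (π : Perm {i // κ i = c}) (x : Fin n → Place k K1 × Place k K2) :
    alt1 κ φ (mv 1 (Perm.ofSubtype π) x) = alt1 κ φ x := by
  classical
  have hψ := alt1_mem α1 α2 hφ
  induction π using Equiv.Perm.swap_induction_on generalizing x with
  | one =>
    rw [map_one]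
    rfl
  | swap_mul f a b hab ih =>
    have hab' : a.1 ≠ b.1 := fun h => hab (Subtype.ext h)
    have h1 : mv 1 (Perm.ofSubtype (swap a b * f)) x =
        mv 1 (Perm.ofSubtype f) (mv 1 (swap a.1 b.1) x) := by
      rw [map_mul, Perm.ofSubtype_swap_eq]
      rfl
    rw [h1, ih]
    have h2 : mv 1 (swap a.1 b.1) x = mv (swap a.1 b.1) (swap a.1 b.1)
        (mv (swap a.1 b.1) 1 x) := by
      rw [mv_mv, swap_mul_self, one_mul]
    have hmem : swap a.1 b.1 ∈ HK κ := by
      rw [mem_HK]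
      intro i
      by_cases hi : i = a.1
      · rw [hi, swap_apply_left, b.2, a.2]
      · by_cases hi' : i = b.1
        · rw [hi', swap_apply_right, b.2, a.2]
        · rw [swap_apply_of_ne_of_ne hi hi']
    rw [h2, alt1_mv φ hmem, alternating1 α1 α2 hm hd1 hd2 hκ hq hψ hab' (a.2.trans b.2.symm),
      Perm.sign_swap hab']
    push_cast
    ring

/-- The alternating sum vanishes if there are sufficiently many coordinates. -/
theorem alt0_eq_zero2 {m : ℕ} (hm : m = 2 ∨ m = 3 ∨ m = 4) {q1 q2 ν : (G →* kˣ) → ℕ}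
    (hd1 : Datum α1 m q1) (hd2 : Datum α2 m q2) {κ : Fin n → (G →* kˣ)}
    (hκ : ∀ i, κ i ≠ 1) (hq : ∀ χ, χ ≠ 1 → q1 χ ≤ 1) (hν : ∀ χ, χ ≠ 1 → q2 χ⁻¹ ≤ ν χ)
    (hH : ∀ χ, χ ≠ 1 → q1 χ⁻¹ = 0 → q2 χ ≤ 2 * ν χ + 1)
    [Fintype (G →* kˣ)] [DecidableEq (G →* kˣ)]
    (hn : ∑ χ : {c : G →* kˣ // c ≠ 1}, q1 χ.1 * ν χ.1 < n)
    {φ : (Fin n → Place k K1 × Place k K2) → k} (hφ : φ ∈ Adm α1 α2 κ) : alt0 φ = 0 := by
  classical
  have hcard : n = ∑ c : {c : G →* kˣ // c ≠ 1},
      (Finset.univ.filter fun i => κ i = c.1).card := by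
    have h4 := Finset.card_eq_sum_card_fiberwise (s := (Finset.univ : Finset (Fin n)))
      (t := (Finset.univ : Finset {c : G →* kˣ // c ≠ 1})) (f := fun i => ⟨κ i, hκ i⟩)
      (fun i _ => Finset.mem_univ _)
    rw [Finset.card_univ, Fintype.card_fin] at h4
    refine h4.trans (Finset.sum_congr rfl fun c _ => ?_)
    congr 1
    ext i
    simp only [Finset.mem_filter, Finset.mem_univ, true_and]
    exact Subtype.ext_iff
  have hψ := alt1_mem α1 α2 hφ
  have hSy := fun (c : G →* kˣ) (π : Perm {i // κ i = c}) x =>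
    symmetric2 α1 α2 hm hd1 hd2 hκ hq hφ c π x
  suffices h : alt1 κ φ = 0 by
    have h3 := alt0_alt1 κ φ
    rw [h] at h3
    funext x
    have h4 := congrFun h3 x
    have h5 : alt0 (0 : (Fin n → Place k K1 × Place k K2) → k) x = 0 := by
      unfold alt0
      simp
    rw [h5] at h4
    exact (mul_eq_zero.1 h4.symm).resolve_left (card_HK_ne κ)
  have hkill := killS α1 α2 hm hd1 hd2 hκ hψ hSy
  let ι : {c : G →* kˣ // c ≠ 1} → {c : G →* kˣ // c ≠ 1} := fun c => ⟨c.1⁻¹, inv_ne_one'' c.2⟩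
  have hι : ∀ c, ι (ι c) = c := fun c => Subtype.ext (inv_inv'' c.1)
  have hsym : ∑ χ : {c : G →* kˣ // c ≠ 1}, q1 χ.1⁻¹ * ν χ.1⁻¹ =
      ∑ χ : {c : G →* kˣ // c ≠ 1}, q1 χ.1 * ν χ.1 :=
    Finset.sum_nbij' ι ι (fun _ _ => Finset.mem_univ _) (fun _ _ => Finset.mem_univ _)
      (fun c _ => hι c) (fun c _ => hι c) fun c _ => rfl
  have hfib : ∀ c : {c : G →* kˣ // c ≠ 1}, (Finset.univ.filter fun i => κ i = c.1).card ≠ 0 →
      ∃ i, κ i = c.1 := by
    intro c hc
    obtain ⟨i, hi⟩ := Finset.card_pos.1 (Nat.pos_of_ne_zero hc)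
    exact ⟨i, (Finset.mem_filter.1 hi).2⟩
  have hconst : ∀ (c : {c : G →* kˣ // c ≠ 1}) (f : (G →* kˣ) → ℕ),
      ∑ i ∈ Finset.univ.filter (fun i => κ i = c.1), f (κ i) =
        (Finset.univ.filter fun i => κ i = c.1).card * f c.1 := by
    intro c f
    rw [Finset.sum_congr rfl (g := fun _ => f c.1) fun i hi => by rw [(Finset.mem_filter.1 hi).2],
      Finset.sum_const, smul_eq_mul]
  by_cases hA : ∃ i, q1 (κ i) = 0
  · obtain ⟨i, hi⟩ := hA
    by_cases hB : ∃ j, q1 (κ j)⁻¹ = 0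
    · obtain ⟨j, hj⟩ := hB
      by_cases hij : i = j
      · subst hij
        refine hkill {i} ∅ ?_ ?_
        · simp [hj]
        · simp [hi]
      · have h1 := hq (κ j) (hκ j)
        have h2 := hq (κ i)⁻¹ (inv_ne_one'' (hκ i))
        refine hkill {i, j} ∅ ?_ ?_
        · rw [Finset.sum_pair hij, Finset.card_pair hij, Finset.sum_empty, Finset.sum_empty]
          omega
        · rw [Finset.sum_pair hij, Finset.card_pair hij, Finset.sum_empty, Finset.sum_empty]
          omega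
    · push Not at hB
      have hB' : ∀ j, q1 (κ j)⁻¹ = 1 := by
        intro j
        have h1 := hq (κ j)⁻¹ (inv_ne_one'' (hκ j))
        have h2 := hB j
        omega
      rcases num ι hι (fun c => q1 c.1⁻¹) (fun c => q2 c.1⁻¹) (fun c => ν c.1⁻¹)
        (fun c => (Finset.univ.filter fun i => κ i = c.1).card)
        (fun c => hq _ (inv_ne_one'' c.2)) (by
          intro c hc
          obtain ⟨i, hi⟩ := hfib c hc
          rw [← hi]
          exact hB' i) (by
          rw [← hcard]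
          exact lt_of_eq_of_lt hsym hn) (fun c => hν _ (inv_ne_one'' c.2)) (by
          intro c h1 h2
          exact hH _ (inv_ne_one'' c.2) h2) with ⟨X, hX1, hX2⟩ | ⟨c, h1, h2, h3, h4⟩
      · refine hkill ∅ X ?_ ?_
        · rw [Finset.sum_empty, Finset.card_empty, zero_add, zero_add]
          refine lt_of_eq_of_lt ?_ hX2
          refine Finset.sum_congr rfl fun c _ => ?_
          change q2 c.1 = q2 c.1⁻¹⁻¹
          rw [inv_inv'']
        · rw [Finset.sum_empty, Finset.card_empty, zero_add, zero_add]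
          exact hX1
      · change q1 c.1⁻¹⁻¹ = 0 at h2
        change q2 c.1⁻¹⁻¹ < _ at h3
        rw [inv_inv''] at h2 h3
        refine hkill (Finset.univ.filter fun i => κ i = c.1) {c} ?_ ?_
        · rw [Finset.sum_singleton, Finset.sum_singleton, hconst c fun χ => q1 χ⁻¹, h1]
          omega
        · rw [Finset.sum_singleton, Finset.sum_singleton, hconst c fun χ => q1 χ, h2]
          omega
  · push Not at hA
    have hA' : ∀ j, q1 (κ j) = 1 := by
      intro j
      have h1 := hq (κ j) (hκ j)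
      have h2 := hA j
      omega
    rcases num ι hι (fun c => q1 c.1) (fun c => q2 c.1) (fun c => ν c.1)
      (fun c => (Finset.univ.filter fun i => κ i = c.1).card)
      (fun c => hq _ c.2) (by
        intro c hc
        obtain ⟨i, hi⟩ := hfib c hc
        rw [← hi]
        exact hA' i) (by
        rw [← hcard]
        exact hn) (fun c => hν _ c.2)
        (fun c _ h2 => hH _ c.2 h2) with ⟨X, hX1, hX2⟩ | ⟨c, h1, h2, h3, h4⟩
    · refine hkill ∅ X ?_ ?_
      · rw [Finset.sum_empty, Finset.card_empty, zero_add, zero_add]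
        exact hX1
      · rw [Finset.sum_empty, Finset.card_empty, zero_add, zero_add]
        exact hX2
    · change q1 c.1⁻¹ = 0 at h2
      change q2 c.1⁻¹ < _ at h3
      refine hkill (Finset.univ.filter fun i => κ i = c.1) {c} ?_ ?_
      · rw [Finset.sum_singleton, Finset.sum_singleton, hconst c fun χ => q1 χ⁻¹, h2]
        omega
      · rw [Finset.sum_singleton, Finset.sum_singleton, hconst c fun χ => q1 χ, h1]
        omega

omit [IsAlgClosed k] [Fintype G] in
/-- For m = 2 and m = 3 the multiplicities of a character and its inverse are comparable. -/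
theorem datum_small {K : Type} [Field K] [Algebra k K] {α : G →* (K ≃ₐ[k] K)}
    [IsFF k (fixedField α.range)] {m : ℕ} (hm : m = 2 ∨ m = 3) {q : (G →* kˣ) → ℕ}
    (hd : Datum α m q) {χ : G →* kˣ} (hχ : χ ≠ 1) : q χ ≤ 2 * q χ⁻¹ + 1 := by
  obtain ⟨δ, -, h1, h2⟩ := hd.2 χ hχ
  have h3 : ∑ v ∈ Brm (k := k) m δ, (-v.ord δ) % m ≤
      2 * ∑ v ∈ Brm (k := k) m δ, v.ord δ % m := by
    rw [Finset.mul_sum]
    refine Finset.sum_le_sum fun v _ => ?_
    rcases hm with rfl | rfl
    · push_cast; omega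
    · push_cast; omega
  rw [h1, h2] at h3
  have hm0 : (0 : ℤ) < m := by
    rcases hm with rfl | rfl <;> norm_num
  have h4 : (m : ℤ) * (q χ + 1) ≤ m * (2 * (q χ⁻¹ + 1)) := by linarith
  have h5 := le_of_mul_le_mul_left h4 hm0
  have h6 : (q χ : ℤ) ≤ 2 * q χ⁻¹ + 1 := by linarith
  exact_mod_cast h6

/-- The conclusion for cycles on the product of the curves. -/
theorem conclusion2 {m : ℕ} (hm : m = 2 ∨ m = 3 ∨ m = 4) {q1 q2 ν : (G →* kˣ) → ℕ}
    (hd1 : Datum α1 m q1) (hd2 : Datum α2 m q2) (hq : ∀ χ, χ ≠ 1 → q1 χ ≤ 1)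
    (hν : ∀ χ, χ ≠ 1 → q2 χ⁻¹ ≤ ν χ)
    (hH4 : m = 4 → ∀ χ, χ ≠ 1 → q1 χ⁻¹ = 0 → q2 χ ≤ 2 * ν χ + 1)
    (hn : ∑ᶠ χ ∈ {χ : G →* kˣ | χ ≠ 1}, q1 χ * ν χ < n)
    {φ : (Fin n → Place k K1 × Place k K2) → k}
    (hφ : ∀ r ∈ RatEq (((curve k K1).prod (curve k K2)).pow (Fin n)),
      Finsupp.linearCombination ℤ φ r = 0)
    (hinv : ∀ (g : Fin n → G) (x : Fin n → Place k K1 × Place k K2),
      φ (ga α1 α2 g g x) = φ x) (b : Fin n → (Place k K1 × Place k K2) →₀ ℤ)
    (hb : ∀ i, dg (b i) = 0) : Finsupp.linearCombination ℤ φ (altSum b) = 0 := by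
  classical
  have hfin : Finite (G →* kˣ) := by
    have i1 : HasEnoughRootsOfUnity k (Monoid.exponent G) := by
      have : NeZero (Monoid.exponent G) := ⟨Monoid.exponent_ne_zero_of_finite⟩
      have : NeZero ((Monoid.exponent G : ℕ) : k) := NeZero.charZero
      infer_instance
    obtain ⟨e⟩ := CommGroup.monoidHom_mulEquiv_of_hasEnoughRootsOfUnity G k
    exact Finite.of_equiv G e.symm.toEquiv
  let _ : Fintype (G →* kˣ) := Fintype.ofFinite _
  have hH : ∀ χ, χ ≠ 1 → q1 χ⁻¹ = 0 → q2 χ ≤ 2 * ν χ + 1 := by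
    intro χ hχ h2
    have h3 := hν χ hχ
    rcases hm with hm | hm | hm
    · have := datum_small (Or.inl hm) hd2 hχ
      omega
    · have := datum_small (Or.inr hm) hd2 hχ
      omega
    · exact hH4 hm χ hχ h2
  -- the components
  let C : (Fin n → (G →* kˣ)) → (Fin n → Place k K1 × Place k K2) → k := fun κ x =>
    ∑ g : Fin n → G, (∏ i, ((κ i (g i) : kˣ) : k))⁻¹ * φ (ga α1 α2 g 1 x)
  have hC : ∀ κ, C κ ∈ Adm α1 α2 κ := fun κ => comp_mem α1 α2 hφ hinv κ
  have hsum : ∀ z : (Fin n → Place k K1 × Place k K2) →₀ ℤ,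
      (Fintype.card (G →* kˣ) : k) ^ n * Finsupp.linearCombination ℤ φ z =
      ∑ κ, Finsupp.linearCombination ℤ (C κ) z := by
    intro z
    simp only [Finsupp.linearCombination_apply, Finsupp.sum]
    rw [Finset.sum_comm, Finset.mul_sum]
    refine Finset.sum_congr rfl fun x _ => ?_
    rw [← Finset.smul_sum]
    have h1 : ∑ κ, C κ x = (Fintype.card (G →* kˣ) : k) ^ n * φ x := sum_comp α1 α2 x
    rw [h1, mul_smul_comm]
  have hne : (Fintype.card (G →* kˣ) : k) ^ n ≠ 0 := by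
    have : 0 < Fintype.card (G →* kˣ) := Fintype.card_pos
    exact pow_ne_zero n (by exact_mod_cast this.ne')
  suffices h : ∑ κ, Finsupp.linearCombination ℤ (C κ) (altSum b) = 0 by
    rw [← hsum] at h
    exact (mul_eq_zero.1 h).resolve_left hne
  refine Finset.sum_eq_zero fun κ _ => ?_
  by_cases hκ : ∀ i, κ i ≠ 1
  · have hsum2 : ∑ χ : {c : G →* kˣ // c ≠ 1}, q1 χ.1 * ν χ.1 < n := by
      rw [finsum_mem_eq_finite_toFinset_sum _ (Set.toFinite _)] at hn
      refine lt_of_eq_of_lt ?_ hn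
      symm
      refine Finset.sum_subtype _ ?_ fun χ : G →* kˣ => q1 χ * ν χ
      intro χ
      simp
    have h1 : alt0 (C κ) = 0 :=
      alt0_eq_zero2 α1 α2 hm hd1 hd2 hκ hq hν hH hsum2 (hC κ)
    rw [altSum_eq, lc_altSum, h1]
    simp
  · push Not at hκ
    obtain ⟨i, hi⟩ := hκ
    unfold altSum
    rw [map_sum]
    refine Finset.sum_eq_zero fun σ _ => ?_
    rw [map_zsmul, lc_ext (C κ) i (fun x y => adm_const α1 α2 hd1.1 hd2.1 (hC κ) i hi x y)
      (fun i => b (σ i)) (hb _), smul_zero]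

end

end Pool.Agent.J4.H82.CC
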